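import Pool.Agent.Helper51.TF.HW

/-!
BLOCK TF-H4 (about 250 lines). Branching: the upper bound.

`S_m` is embedded in `S_{m+1}` as the permutations fixing the point `0` (`jT (Nat.le_add_left 1 m)`), words of length `m + 1` are `Fin.cons a y`.

Proof in words.
* `cut a f = fun y => f (Fin.cons a y)`; `cut_wact`: `(Fin.cons a y) ∘ jT h g = Fin.cons a (y ∘ g)` (`jT_apply_of_lt`, `jT_apply`; `Fin (m + 1 - 1)` is `Fin m` by `rfl`).
* `cut_mem`: `f ∈ HW (m+1) κ` with `cut b f = 0` for all `b > a`; then `cut a f ∈ HW m (subE κ a)`. Weight: `cnt (Fin.cons a y) i = cnt y i + [i = a]`. If `cnt y ≠ subE κ a` then `cnt (Fin.cons a y) ≠ κ` (if `κ a = 0` use `cnt (cons a y) a > 0`).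
  Raising, `i < j`: `0 = ∑_{p : (cons a y) p = i} f (update (cons a y) p j) = [a = i] f (Fin.cons j y) + ∑_{p : y p = i} f (Fin.cons a (update y p j))`; the first term is `cut j f y = 0` as `j > i = a`.
* `branch_le`: for `b : Fin N` let `F_b = {f ∈ HW (m+1) κ : cut c f = 0 for all c > b}`..., use the chain indexed by `k ≤ N`: `F_k = {f : cut c f = 0 for all c ≥ k}` (`F_0 = 0`, `F_N = HW`). `H_k = {φ ∈ HomP : φ v ∈ F_k for all v}`:
  `H_{k+1} → HomP υ (hw m (subE κ k)) id`, `φ ↦ cut k ∘ φ`, has kernel `H_k` (`HomP` with the restriction to `S_m`; `cut_wact`), so `finrank H_{k+1} ≤ finrank H_k + finrank (HomP υ (hw m (subE κ k)) id)`; if `κ k = 0` the map is zero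
  (`cut k f = 0` by the weight), so the sum may be restricted to `κ k > 0`.
-/

set_option autoImplicit false

open Module Equiv Pool.Agent.Helper1.TS Pool.Agent.Helper70.TU Pool.Agent.Helper51.TN

namespace Pool.Agent.Helper51.TF

variable {N : ℕ}

/-- `κ` with one box of row `a` removed. -/
def subE (κ : Fin N → ℕ) (a : Fin N) : Fin N → ℕ := fun i => κ i - if i = a then 1 else 0

/-- The function of the word without its first letter `a`. -/
noncomputable def cut {m : ℕ} (a : Fin N) : ((Fin (m + 1) → Fin N) → ℂ) →ₗ[ℂ] ((Fin m → Fin N) → ℂ) where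
  toFun f y := f (Fin.cons a y)
  map_add' _ _ := rfl
  map_smul' _ _ := rfl

/-- The embedding of `S_m` in `S_{m+1}` as the stabilizer of `0`. -/
noncomputable def res1 (m : ℕ) : Perm (Fin m) →* Perm (Fin (m + 1)) := jT (Nat.le_add_left 1 m)

private theorem cnt_cons53 {m : ℕ} (a : Fin N) (y : Fin m → Fin N) (i : Fin N) :
    cnt (Fin.cons a y : Fin (m + 1) → Fin N) i = (if a = i then 1 else 0) + cnt y i := by
  unfold cnt
  rw [Finset.card_filter, Finset.card_filter, Fin.sum_univ_succ]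
  simp only [Fin.cons_zero, Fin.cons_succ]

theorem cut_wact {m : ℕ} (a : Fin N) (g : Perm (Fin m)) (f : (Fin (m + 1) → Fin N) → ℂ) :
    cut a (wact (Fin N) (m + 1) (res1 m g) f) = wact (Fin N) m g (cut a f) := by
  funext y
  show f ((Fin.cons a y : Fin (m + 1) → Fin N) ∘ (res1 m g)) = f (Fin.cons a (y ∘ g))
  congr 1
  funext p
  refine Fin.cases ?_ (fun q => ?_) p
  · have h0 : res1 m g 0 = 0 := jT_apply_of_lt (Nat.le_add_left 1 m) g (0 : Fin (m + 1)) (by simp)
    rw [Function.comp_apply, h0, Fin.cons_zero, Fin.cons_zero]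
  · have h1 : res1 m g q.succ = (g q).succ := by
      have h2 := jT_apply (Nat.le_add_left 1 m) g q.succ (by simp)
      refine h2.trans ?_
      refine Fin.ext ?_
      rfl
    rw [Function.comp_apply, h1, Fin.cons_succ, Fin.cons_succ, Function.comp_apply]

theorem cut_mem {m : ℕ} {κ : Fin N → ℕ} {f : (Fin (m + 1) → Fin N) → ℂ} (hf : f ∈ HW (m + 1) κ) (a : Fin N)
    (h : ∀ b, a < b → cut b f = 0) : cut a f ∈ HW m (subE κ a) := by
  refine ⟨fun y hy => ?_, fun i j hij y => ?_⟩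
  · refine hf.1 _ (fun h2 => hy ?_)
    funext i
    have h3 := congrFun h2 i
    rw [cnt_cons53] at h3
    unfold subE
    by_cases hi : i = a
    · rw [if_pos hi.symm] at h3
      rw [if_pos hi]
      omega
    · rw [if_neg (Ne.symm hi)] at h3
      rw [if_neg hi]
      omega
  · have h1 := hf.2 i j hij (Fin.cons a y)
    rw [Finset.sum_filter, Fin.sum_univ_succ, Fin.cons_zero, Fin.update_cons_zero] at h1
    have h2 : (if a = i then f (Fin.cons j y) else 0) = 0 := by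
      by_cases hai : a = i
      · rw [if_pos hai]
        exact congrFun (h j (hai ▸ hij)) y
      · rw [if_neg hai]
    rw [h2, zero_add] at h1
    rw [Finset.sum_filter]
    refine Eq.trans (Finset.sum_congr rfl fun q _ => ?_) h1
    rw [Fin.cons_succ, ← Fin.cons_update]
    rfl

theorem cut_zero {m : ℕ} {κ : Fin N → ℕ} {f : (Fin (m + 1) → Fin N) → ℂ} (hf : f ∈ HW (m + 1) κ) (a : Fin N)
    (h : κ a = 0) : cut a f = 0 := by
  funext y
  refine hf.1 _ (fun h2 => ?_)
  have h3 := congrFun h2 a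
  rw [cnt_cons53, if_pos rfl, h] at h3
  omega

/-- The chain of equivariant maps with `cut c = 0` for `c ≥ k`. -/
private noncomputable def FF53 {m : ℕ} (κ : Fin N → ℕ) {U : Type*} [AddCommGroup U] [Module ℂ U]
    (υ : Representation ℂ (Perm (Fin m)) U) (k : ℕ) : Submodule ℂ (U →ₗ[ℂ] HW (m + 1) κ) where
  carrier := {φ | φ ∈ HomP υ ((hw (m + 1) κ).comp (res1 m)) LinearMap.id ∧
    ∀ (v : U) (c : Fin N), k ≤ (c : ℕ) → cut c (φ v : (Fin (m + 1) → Fin N) → ℂ) = 0}
  add_mem' := by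
    rintro f g ⟨hf, hf'⟩ ⟨hg, hg'⟩
    refine ⟨Submodule.add_mem _ hf hg, fun v c hc => ?_⟩
    rw [LinearMap.add_apply, Submodule.coe_add, map_add, hf' v c hc, hg' v c hc, add_zero]
  zero_mem' := ⟨Submodule.zero_mem _, fun v c _ => by
    rw [LinearMap.zero_apply, Submodule.coe_zero, map_zero]⟩
  smul_mem' := by
    rintro t f ⟨hf, hf'⟩
    refine ⟨Submodule.smul_mem _ t hf, fun v c hc => ?_⟩
    rw [LinearMap.smul_apply, Submodule.coe_smul, map_smul, hf' v c hc, smul_zero]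

private theorem gen53 {V W : Type*} [AddCommGroup V] [Module ℂ V] [FiniteDimensional ℂ V]
    [AddCommGroup W] [Module ℂ W] [FiniteDimensional ℂ W] (F1 F0 : Submodule ℂ V)
    (L : F1 →ₗ[ℂ] W) (R : Submodule ℂ W)
    (hker : ∀ φ : F1, L φ = 0 → (φ : V) ∈ F0) (hR : ∀ φ : F1, L φ ∈ R) :
    finrank ℂ F1 ≤ finrank ℂ F0 + finrank ℂ R := by
  have h1 := LinearMap.finrank_range_add_finrank_ker L
  have h2 : finrank ℂ (LinearMap.ker L) ≤ finrank ℂ F0 := by
    refine LinearMap.finrank_le_finrank_of_injective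
      (f := LinearMap.codRestrict F0 (F1.subtype ∘ₗ (LinearMap.ker L).subtype)
        (fun φ => hker φ.1 (LinearMap.mem_ker.1 φ.2))) ?_
    intro φ ψ h
    have h3 := congrArg Subtype.val h
    exact Subtype.ext (Subtype.ext h3)
  have h3 : finrank ℂ (LinearMap.range L) ≤ finrank ℂ R := by
    refine Submodule.finrank_mono ?_
    rintro _ ⟨φ, rfl⟩
    exact hR φ
  omega

/-- `φ ↦ cut a ∘ φ`. -/
private noncomputable def LL53 {m : ℕ} (κ : Fin N → ℕ) {U : Type*} [AddCommGroup U] [Module ℂ U]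
    (υ : Representation ℂ (Perm (Fin m)) U) (a : Fin N) :
    FF53 κ υ ((a : ℕ) + 1) →ₗ[ℂ] (U →ₗ[ℂ] HW m (subE κ a)) where
  toFun φ := LinearMap.codRestrict (HW m (subE κ a))
    ((cut a) ∘ₗ (HW (m + 1) κ).subtype ∘ₗ (φ : U →ₗ[ℂ] HW (m + 1) κ)) (fun v =>
      cut_mem ((φ : U →ₗ[ℂ] HW (m + 1) κ) v).2 a (fun b hb => φ.2.2 v b hb))
  map_add' _ _ := rfl
  map_smul' _ _ := rfl

private theorem LL53_mem {m : ℕ} (κ : Fin N → ℕ) {U : Type*} [AddCommGroup U] [Module ℂ U]
    (υ : Representation ℂ (Perm (Fin m)) U) (a : Fin N) (φ : FF53 κ υ ((a : ℕ) + 1)) :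
    LL53 κ υ a φ ∈ HomP υ (hw m (subE κ a)) LinearMap.id := by
  refine ⟨fun h v => Subtype.ext ?_, fun v => rfl⟩
  have h1 : (φ : U →ₗ[ℂ] HW (m + 1) κ) (υ h v) =
      hw (m + 1) κ (res1 m h) ((φ : U →ₗ[ℂ] HW (m + 1) κ) v) := φ.2.1.1 h v
  show cut a (((φ : U →ₗ[ℂ] HW (m + 1) κ) (υ h v) : HW (m + 1) κ) : (Fin (m + 1) → Fin N) → ℂ) =
    wact (Fin N) m h (cut a
      (((φ : U →ₗ[ℂ] HW (m + 1) κ) v : HW (m + 1) κ) : (Fin (m + 1) → Fin N) → ℂ))
  rw [h1, ← cut_wact]
  rfl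

private theorem step53 {m : ℕ} (κ : Fin N → ℕ) {U : Type*} [AddCommGroup U] [Module ℂ U]
    [FiniteDimensional ℂ U] (υ : Representation ℂ (Perm (Fin m)) U) (a : Fin N) :
    finrank ℂ (FF53 κ υ ((a : ℕ) + 1)) ≤ finrank ℂ (FF53 κ υ (a : ℕ)) +
      (if 0 < κ a then finrank ℂ (HomP υ (hw m (subE κ a)) LinearMap.id) else 0) := by
  have hker : ∀ φ : FF53 κ υ ((a : ℕ) + 1), LL53 κ υ a φ = 0 →
      (φ : U →ₗ[ℂ] HW (m + 1) κ) ∈ FF53 κ υ (a : ℕ) := by
    intro φ hφ
    refine ⟨φ.2.1, fun v c hc => ?_⟩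
    rcases Nat.eq_or_lt_of_le hc with h | h
    · have hca : c = a := Fin.ext h.symm
      rw [hca]
      have h3 := congrArg (fun z : U →ₗ[ℂ] HW m (subE κ a) =>
        ((z v : HW m (subE κ a)) : (Fin m → Fin N) → ℂ)) hφ
      exact h3
    · exact φ.2.2 v c h
  by_cases hκ : 0 < κ a
  · rw [if_pos hκ]
    exact gen53 (V := U →ₗ[ℂ] HW (m + 1) κ) (W := U →ₗ[ℂ] HW m (subE κ a))
      (FF53 κ υ ((a : ℕ) + 1)) (FF53 κ υ (a : ℕ)) (LL53 κ υ a)
      (HomP υ (hw m (subE κ a)) LinearMap.id) hker (LL53_mem κ υ a)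
  · rw [if_neg hκ]
    have h4 := gen53 (V := U →ₗ[ℂ] HW (m + 1) κ) (W := U →ₗ[ℂ] HW m (subE κ a))
      (FF53 κ υ ((a : ℕ) + 1)) (FF53 κ υ (a : ℕ)) (LL53 κ υ a) ⊥ hker (fun φ => by
      rw [Submodule.mem_bot]
      refine LinearMap.ext fun v => Subtype.ext ?_
      exact cut_zero ((φ : U →ₗ[ℂ] HW (m + 1) κ) v).2 a (by omega))
    rwa [finrank_bot] at h4

theorem branch_le {m : ℕ} (κ : Fin N → ℕ) {U : Type*} [AddCommGroup U] [Module ℂ U] [FiniteDimensional ℂ U]
    (υ : Representation ℂ (Perm (Fin m)) U) :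
    finrank ℂ (HomP υ ((hw (m + 1) κ).comp (res1 m)) LinearMap.id) ≤
      ∑ a ∈ Finset.univ.filter (fun a : Fin N => 0 < κ a), finrank ℂ (HomP υ (hw m (subE κ a)) LinearMap.id) := by
  have hk : ∀ k : ℕ, k ≤ N → finrank ℂ (FF53 κ υ k) ≤ ∑ a : Fin N,
      if 0 < κ a ∧ (a : ℕ) < k then finrank ℂ (HomP υ (hw m (subE κ a)) LinearMap.id) else 0 := by
    intro k
    induction k with
    | zero =>
      intro _
      have h0 : FF53 κ υ 0 = ⊥ := by
        rw [eq_bot_iff]
        intro φ hφ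
        rw [Submodule.mem_bot]
        refine LinearMap.ext fun v => Subtype.ext (funext fun x => ?_)
        have h1 := congrFun (hφ.2 v (x 0) (Nat.zero_le _)) (Fin.tail x)
        have h2 : (Fin.cons (x 0) (Fin.tail x) : Fin (m + 1) → Fin N) = x := Fin.cons_self_tail x
        have h3 : cut (x 0) (φ v : (Fin (m + 1) → Fin N) → ℂ) (Fin.tail x) =
            (φ v : (Fin (m + 1) → Fin N) → ℂ) (Fin.cons (x 0) (Fin.tail x)) := rfl
        rw [h3, h2] at h1
        exact h1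
      rw [h0, finrank_bot]
      exact Nat.zero_le _
    | succ k ih =>
      intro hkN
      have hlt : k < N := hkN
      refine (step53 κ υ ⟨k, hlt⟩).trans ?_
      have h1 : ∑ a : Fin N, (if 0 < κ a ∧ (a : ℕ) < k + 1 then
          finrank ℂ (HomP υ (hw m (subE κ a)) LinearMap.id) else 0) =
          (∑ a : Fin N, if 0 < κ a ∧ (a : ℕ) < k then
            finrank ℂ (HomP υ (hw m (subE κ a)) LinearMap.id) else 0) +
          (if 0 < κ ⟨k, hlt⟩ then
            finrank ℂ (HomP υ (hw m (subE κ ⟨k, hlt⟩)) LinearMap.id) else 0) := by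
        have h2 : (if 0 < κ ⟨k, hlt⟩ then
            finrank ℂ (HomP υ (hw m (subE κ ⟨k, hlt⟩)) LinearMap.id) else 0) =
            ∑ a : Fin N, if ⟨k, hlt⟩ = a then (if 0 < κ a then
              finrank ℂ (HomP υ (hw m (subE κ a)) LinearMap.id) else 0) else 0 := by
          rw [Finset.sum_ite_eq, if_pos (Finset.mem_univ _)]
        rw [h2, ← Finset.sum_add_distrib]
        refine Finset.sum_congr rfl fun a _ => ?_
        by_cases h0 : 0 < κ a
        · by_cases h3 : (⟨k, hlt⟩ : Fin N) = a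
          · subst h3
            simp [h0]
          · have h4 : (a : ℕ) ≠ k := fun h => h3 (Fin.ext h.symm)
            by_cases h5 : (a : ℕ) < k
            · simp [h0, h3, h5, Nat.lt_succ_of_lt h5]
            · have h6 : ¬ (a : ℕ) < k + 1 := by omega
              simp [h3, h5, h6]
        · simp [h0]
      rw [h1]
      exact Nat.add_le_add_right (ih (by omega)) _
  have hN := hk N le_rfl
  have e1 : FF53 κ υ N = HomP υ ((hw (m + 1) κ).comp (res1 m)) LinearMap.id := by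
    refine le_antisymm (fun φ hφ => hφ.1) (fun φ hφ => ⟨hφ, fun v c hc => ?_⟩)
    exact absurd c.2 (not_lt.2 hc)
  rw [e1] at hN
  refine hN.trans (le_of_eq ?_)
  rw [Finset.sum_filter]
  refine Finset.sum_congr rfl fun a _ => ?_
  have := a.2
  simp [this]

end Pool.Agent.Helper51.TF
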