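import Pool.Agent.Helper51.TF.HW
import Pool.Agent.Helper51.TN.L1

/-!
BLOCK TF-H5 (about 200 lines). Counting: at most as many irreducible representations as partitions.

Proof in words.
* `card_classes_le`: map the class of `g` to `κ_g : Fin N → ℕ`, `κ_g i = #{cycles of g (fixed points included) of length > i}` = `(g.partition.parts.filter (fun l => i < l)).card`. It is antitone, `∑_i κ_g i = ∑_{parts l} #{i < N : i < l} = ∑ l = m`
  (`l ≤ m ≤ N`), and it determines the multiset of parts (the number of parts equal to `l` is `κ(l - 1) - κ(l)`; `l ≤ N`, with `κ(N) = 0`), hence the conjugacy class (`Equiv.Perm.partition_eq_of_isConj`, `Equiv.Perm.isConj_iff_cycleType_eq`). So the number of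
  conjugacy classes is at most the number of antitone `κ : Fin N → ℕ` of sum `m` (a finite set: `κ i ≤ m`; e.g. `Finset.card_le_card_of_injOn`).
* `card_irr_le`: the characters of pairwise non isomorphic irreducible representations `ρ_k`, `k : K`, are orthonormal (`Representation.char_orthonormal`) for `⟨χ, χ'⟩ = (1/m!) ∑ χ(g) χ'(g⁻¹)`, so they are linearly
  independent in the space of class functions, which is isomorphic to `ConjClasses (Perm (Fin m)) → ℂ`.
-/

set_option autoImplicit false

open Module Equiv Pool.Agent.Helper1.TS Pool.Agent.Helper70.TU Pool.Agent.Helper51.TN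

namespace Pool.Agent.Helper51.TF

/-- The partitions of `m` with at most `N` rows, as row lengths. -/
noncomputable def PP (N m : ℕ) : Finset (Fin N → ℕ) := by
  classical
  exact (Fintype.piFinset fun _ : Fin N => Finset.range (m + 1)).filter (fun κ => Antitone κ ∧ ∑ i, κ i = m)

theorem mem_PP {N m : ℕ} {κ : Fin N → ℕ} : κ ∈ PP N m ↔ Antitone κ ∧ ∑ i, κ i = m := by
  classical
  unfold PP
  rw [Finset.mem_filter, Fintype.mem_piFinset]
  constructor
  · exact fun h => h.2
  · intro h
    refine ⟨fun i => ?_, h⟩
    rw [Finset.mem_range]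
    have := Finset.single_le_sum (f := κ) (fun _ _ => Nat.zero_le _) (Finset.mem_univ i)
    omega

/-- `κ_g i` is the number of cycles of `g` (fixed points included) longer than `i`. -/
private def kap68 {N m : ℕ} (g : Perm (Fin m)) (i : Fin N) : ℕ :=
  (g.partition.parts.filter (fun l => (i : ℕ) < l)).card

private theorem sum_ind68 {N a : ℕ} (h : a ≤ N) : ∑ i : Fin N, (if (i : ℕ) < a then 1 else 0) = a := by
  rw [Fin.sum_univ_eq_sum_range (fun i => if i < a then 1 else 0) N, ← Finset.sum_filter,
    Finset.sum_const, smul_eq_mul, mul_one]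
  have : (Finset.range N).filter (fun i => i < a) = Finset.range a := by
    ext i
    rw [Finset.mem_filter, Finset.mem_range, Finset.mem_range]
    omega
  rw [this, Finset.card_range]

private theorem sum_kap68 {N : ℕ} (s : Multiset ℕ) (h : ∀ l ∈ s, l ≤ N) :
    ∑ i : Fin N, (s.filter (fun l => (i : ℕ) < l)).card = s.sum := by
  induction s using Multiset.induction_on with
  | empty => simp
  | cons a s ih =>
    have h1 := ih (fun l hl => h l (Multiset.mem_cons_of_mem hl))
    have h2 := sum_ind68 (h a (Multiset.mem_cons_self a s))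
    rw [Multiset.sum_cons, ← h1]
    conv_rhs => rw [← h2]
    rw [← Finset.sum_add_distrib]
    refine Finset.sum_congr rfl fun i _ => ?_
    by_cases hi : (i : ℕ) < a
    · rw [Multiset.filter_cons_of_pos _ hi, Multiset.card_cons, if_pos hi, add_comm]
    · rw [Multiset.filter_cons_of_neg _ hi, if_neg hi, zero_add]

private theorem count_kap68 (s : Multiset ℕ) (j : ℕ) :
    s.count (j + 1) + (s.filter (fun l => j + 1 < l)).card = (s.filter (fun l => j < l)).card := by
  induction s using Multiset.induction_on with
  | empty => simp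
  | cons a s ih =>
    rw [Multiset.count_cons, Multiset.filter_cons, Multiset.filter_cons, Multiset.card_add, Multiset.card_add, ← ih]
    split_ifs <;> simp <;> omega

private theorem det_kap68 {N : ℕ} (s t : Multiset ℕ) (hs : ∀ l ∈ s, 0 < l) (ht : ∀ l ∈ t, 0 < l)
    (hs' : ∀ l ∈ s, l ≤ N) (ht' : ∀ l ∈ t, l ≤ N)
    (h : ∀ i : Fin N, (s.filter (fun l => (i : ℕ) < l)).card = (t.filter (fun l => (i : ℕ) < l)).card) :
    s = t := by
  have hc : ∀ j : ℕ, (s.filter (fun l => j < l)).card = (t.filter (fun l => j < l)).card := by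
    intro j
    by_cases hj : j < N
    · exact h ⟨j, hj⟩
    · rw [Multiset.filter_eq_nil.2 (fun l hl => by have := hs' l hl; omega),
        Multiset.filter_eq_nil.2 (fun l hl => by have := ht' l hl; omega)]
  refine Multiset.ext.2 fun l => ?_
  rcases l with _ | l
  · rw [Multiset.count_eq_zero_of_notMem (fun h0 => by have := hs 0 h0; omega),
      Multiset.count_eq_zero_of_notMem (fun h0 => by have := ht 0 h0; omega)]
  · have h1 := count_kap68 s l
    have h2 := count_kap68 t l
    have h3 := hc l
    have h4 := hc (l + 1)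
    omega

private theorem part_le68 {m : ℕ} (g : Perm (Fin m)) (l : ℕ) (hl : l ∈ g.partition.parts) : l ≤ m := by
  have h1 := Multiset.single_le_sum (fun _ _ => Nat.zero_le _) l hl
  have h2 : g.partition.parts.sum = m := g.partition.parts_sum.trans (Fintype.card_fin m)
  omega

private theorem kap_mem68 {N m : ℕ} (h : m ≤ N) (g : Perm (Fin m)) : (kap68 g : Fin N → ℕ) ∈ PP N m := by
  rw [mem_PP]
  constructor
  · intro i j hij
    unfold kap68
    refine Multiset.card_le_card (Multiset.monotone_filter_right _ fun l hl => ?_)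
    have : (i : ℕ) ≤ j := hij
    omega
  · unfold kap68
    rw [sum_kap68 _ (fun l hl => (part_le68 g l hl).trans h), g.partition.parts_sum, Fintype.card_fin]

theorem card_classes_le {N m : ℕ} (h : m ≤ N) : Nat.card (ConjClasses (Perm (Fin m))) ≤ (PP N m).card := by
  have h1 : Function.Injective (fun c : ConjClasses (Perm (Fin m)) =>
      (⟨kap68 (Quotient.out c), kap_mem68 h _⟩ : {κ : Fin N → ℕ // κ ∈ PP N m})) := by
    intro c d hcd
    have h2 : (kap68 (Quotient.out c) : Fin N → ℕ) = kap68 (Quotient.out d) := congrArg Subtype.val hcd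
    have h3 : (Quotient.out c).partition = (Quotient.out d).partition := by
      apply Nat.Partition.ext
      refine det_kap68 (N := N) _ _ (fun l hl => Nat.Partition.parts_pos _ hl) (fun l hl => Nat.Partition.parts_pos _ hl)
        (fun l hl => (part_le68 _ l hl).trans h) (fun l hl => (part_le68 _ l hl).trans h) (fun i => ?_)
      exact congrFun h2 i
    have h4 := Equiv.Perm.partition_eq_of_isConj.2 h3
    rw [← Quotient.out_eq c, ← Quotient.out_eq d]
    exact Quotient.sound h4
  have h5 := Nat.card_le_card_of_injective _ h1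
  rwa [Nat.card_eq_fintype_card (α := {κ : Fin N → ℕ // κ ∈ PP N m}), Fintype.card_coe] at h5

theorem card_irr_le {m : ℕ} {K : Type} [Fintype K] (V : K → Type) [∀ k, AddCommGroup (V k)] [∀ k, Module ℂ (V k)]
    [∀ k, FiniteDimensional ℂ (V k)] (ρ : ∀ k, Representation ℂ (Perm (Fin m)) (V k)) (hirr : ∀ k, (ρ k).IsIrreducible)
    (hne : ∀ k l, k ≠ l → ¬ Iso (ρ k) (ρ l)) : Fintype.card K ≤ Nat.card (ConjClasses (Perm (Fin m))) := by
  classical
  have hinv : (Nat.card (Perm (Fin m)) : ℂ) ≠ 0 := Nat.cast_ne_zero.2 Nat.card_pos.ne'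
  let _ : Invertible (Nat.card (Perm (Fin m)) : ℂ) := invertibleOfNonzero hinv
  have horth : ∀ k l : K, (Nat.card (Perm (Fin m)) : ℂ)⁻¹ *
      ∑ g : Perm (Fin m), (ρ k).character g * (ρ l).character g⁻¹ = if k = l then 1 else 0 := by
    intro k l
    have := hirr k
    have := hirr l
    rw [Representation.char_orthonormal]
    by_cases hkl : k = l
    · subst hkl
      rw [if_pos rfl, if_pos ⟨Representation.Equiv.refl _⟩]
    · rw [if_neg hkl, if_neg]
      rintro ⟨e⟩
      refine hne l k (Ne.symm hkl) ⟨e.toLinearEquiv, fun g v => ?_⟩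
      exact LinearMap.congr_fun (e.toIntertwiningMap.isIntertwining' g) v
  have hli : LinearIndependent ℂ (fun k : K => fun c : ConjClasses (Perm (Fin m)) =>
      (ρ k).character (Quotient.out c)) := by
    rw [Fintype.linearIndependent_iff]
    intro a ha l
    have h1 : ∀ g : Perm (Fin m), ∑ k, a k * (ρ k).character g = 0 := by
      intro g
      have h2 := congrFun ha (ConjClasses.mk g)
      rw [Finset.sum_apply] at h2
      refine Eq.trans (Finset.sum_congr rfl fun k _ => ?_) h2
      rw [Pi.smul_apply, smul_eq_mul]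
      congr 1
      have h3 : IsConj (Quotient.out (ConjClasses.mk g)) g :=
        ConjClasses.mk_eq_mk_iff_isConj.1 (Quotient.out_eq (ConjClasses.mk g))
      obtain ⟨c, hc⟩ := isConj_iff.1 h3
      rw [← hc, Representation.char_conj]
      rw [hc]
    have h4 : ∑ k, a k * ((Nat.card (Perm (Fin m)) : ℂ)⁻¹ *
        ∑ g : Perm (Fin m), (ρ k).character g * (ρ l).character g⁻¹) = 0 := by
      have h5 : ∀ k, a k * ((Nat.card (Perm (Fin m)) : ℂ)⁻¹ *
          ∑ g : Perm (Fin m), (ρ k).character g * (ρ l).character g⁻¹) =
          (Nat.card (Perm (Fin m)) : ℂ)⁻¹ * ∑ g : Perm (Fin m), a k * (ρ k).character g * (ρ l).character g⁻¹ := by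
        intro k
        rw [mul_left_comm, Finset.mul_sum]
        congr 1
        refine Finset.sum_congr rfl fun g _ => ?_
        rw [mul_assoc]
      simp_rw [h5]
      rw [← Finset.mul_sum, Finset.sum_comm]
      simp_rw [← Finset.sum_mul, h1, zero_mul]
      rw [Finset.sum_const_zero, mul_zero]
    simp_rw [horth] at h4
    simpa using h4
  have h6 := hli.fintype_card_le_finrank
  rw [Module.finrank_fintype_fun_eq_card] at h6
  rwa [Nat.card_eq_fintype_card]

end Pool.Agent.Helper51.TF
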