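import Pool.Agent.Helper51.TF.H1
import Pool.Agent.Helper51.TF.H4
import Pool.Agent.Helper51.TF.H5

/-!
BLOCK TF-H9a (about 250 lines). Transposed partitions; pure combinatorics (no representations).

Proof in words. `κ ∈ PP N m` (antitone, sum `m`), `m ≤ N`, so `κ i ≤ m ≤ N`. `conjP κ j = #{i : j < κ i}`.
* `lt_conjP`: for antitone `κ` the set `{i : j < κ i}` is an initial segment `{i : i < conjP κ j}` of `Fin N`; so `i < conjP κ j ↔ j < κ i`.
* `conjP_mem`: `conjP κ` is antitone; `∑_j #{i : j < κ i} = ∑_i #{j : Fin N | j < κ i} = ∑_i κ i = m` (`κ i ≤ N`; exchange the sums, `Finset.sum_comm`/`Finset.sum_card_bipartiteAbove_eq_sum_card_bipartiteBelow`).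
* `conjP_conjP`: `conjP (conjP κ) i = #{j : Fin N | i < conjP κ j} = #{j : Fin N | j < κ i} = κ i`.
* `ct_conjP`: `ct κ = ∑_{(i, b) : b < κ i} (b - i)` over the pairs in `Fin N × Fin N`; `lt_conjP` exchanges `i` and `b`.
* `exists_rem`: the last `a` with `0 < κ a` (exists, because the sum `m + 1` is positive) is removable.
* `isRem_iff`: `IsRem κ a ↔ 0 < κ a ∧ ∀ b, a < b → κ b < κ a` for antitone `κ`.
* `conjP_subE`: `a` removable, `b + 1 = κ a`. The box `(a, b)` is the last one of row `a` and of column `b`: `conjP κ b = a + 1` (`b < κ i ↔ i ≤ a`, because `κ i < κ a` for `i > a`). For all `i`, `j`: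
  `j < subE κ a i ↔ j < κ i ∧ ¬ (i = a ∧ j = b)`, so `conjP (subE κ a) j = conjP κ j - [j = b]`. Removability: `conjP (subE κ a)` is antitone.
-/

set_option autoImplicit false

open Module Equiv Pool.Agent.Helper1.TS Pool.Agent.Helper70.TU Pool.Agent.Helper51.TN

namespace Pool.Agent.Helper51.TF

variable {N : ℕ}

/-- The transposed partition. -/
def conjP (κ : Fin N → ℕ) : Fin N → ℕ := fun j => (Finset.univ.filter (fun i : Fin N => (j : ℕ) < κ i)).card

/-- The last box of row `a` is removable. -/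
def IsRem (κ : Fin N → ℕ) (a : Fin N) : Prop := 0 < κ a ∧ Antitone (subE κ a)

private theorem card_lt23 {N c : ℕ} (h : c ≤ N) :
    (Finset.univ.filter (fun j : Fin N => (j : ℕ) < c)).card = c := by
  rw [Finset.card_filter, Fin.sum_univ_eq_sum_range (fun j => if j < c then 1 else 0) N,
    ← Finset.card_filter]
  have h1 : (Finset.range N).filter (fun j => j < c) = Finset.range c := by
    ext j
    rw [Finset.mem_filter, Finset.mem_range, Finset.mem_range]
    omega
  rw [h1, Finset.card_range]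

private theorem conjP_anti23 (κ : Fin N → ℕ) : Antitone (conjP κ) := by
  intro j j' hj
  unfold conjP
  apply Finset.card_le_card
  intro i hi
  rw [Finset.mem_filter] at hi ⊢
  have h1 : (j : ℕ) ≤ (j' : ℕ) := hj
  exact ⟨hi.1, lt_of_le_of_lt h1 hi.2⟩

private theorem le_m23 {m : ℕ} {κ : Fin N → ℕ} (h : κ ∈ PP N m) (i : Fin N) : κ i ≤ m := by
  rw [mem_PP] at h
  rw [← h.2]
  exact Finset.single_le_sum (fun j _ => Nat.zero_le (κ j)) (Finset.mem_univ i)

theorem lt_conjP {κ : Fin N → ℕ} (h : Antitone κ) (i j : Fin N) : (i : ℕ) < conjP κ j ↔ (j : ℕ) < κ i := by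
  unfold conjP
  constructor
  · intro hi
    by_contra hc
    have hsub : (Finset.univ.filter (fun i : Fin N => (j : ℕ) < κ i)) ⊆ Finset.Iio i := by
      intro i' hi'
      rw [Finset.mem_filter] at hi'
      rw [Finset.mem_Iio]
      by_contra hge
      exact hc (lt_of_lt_of_le hi'.2 (h (not_lt.1 hge)))
    have h2 := Finset.card_le_card hsub
    rw [Fin.card_Iio] at h2
    omega
  · intro hj
    have hsub : Finset.Iic i ⊆ (Finset.univ.filter (fun i : Fin N => (j : ℕ) < κ i)) := by
      intro i' hi'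
      rw [Finset.mem_Iic] at hi'
      rw [Finset.mem_filter]
      exact ⟨Finset.mem_univ _, lt_of_lt_of_le hj (h hi')⟩
    have h2 := Finset.card_le_card hsub
    rw [Fin.card_Iic] at h2
    omega

theorem conjP_mem {m : ℕ} (hN : m ≤ N) {κ : Fin N → ℕ} (h : κ ∈ PP N m) : conjP κ ∈ PP N m := by
  have h0 := h
  rw [mem_PP] at h0 ⊢
  refine ⟨conjP_anti23 κ, ?_⟩
  have h1 : ∀ j : Fin N, conjP κ j = ∑ i : Fin N, if (j : ℕ) < κ i then 1 else 0 := fun j =>
    Finset.card_filter _ _
  rw [Finset.sum_congr rfl fun j _ => h1 j, Finset.sum_comm, ← h0.2]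
  refine Finset.sum_congr rfl fun i _ => ?_
  rw [← Finset.card_filter]
  exact card_lt23 ((le_m23 h i).trans hN)

theorem conjP_conjP {m : ℕ} (hN : m ≤ N) {κ : Fin N → ℕ} (h : κ ∈ PP N m) : conjP (conjP κ) = κ := by
  have h0 := mem_PP.1 h
  funext i
  have h1 : conjP (conjP κ) i = (Finset.univ.filter (fun j : Fin N => (j : ℕ) < κ i)).card := by
    unfold conjP
    congr 1
    ext j
    rw [Finset.mem_filter, Finset.mem_filter]
    exact and_congr_right fun _ => lt_conjP h0.1 i j
  rw [h1]
  exact card_lt23 ((le_m23 h i).trans hN)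

private theorem sum_range23 {c : ℕ} (h : c ≤ N) (f : ℕ → ℤ) :
    ∑ b ∈ Finset.range c, f b = ∑ b : Fin N, if (b : ℕ) < c then f b else 0 := by
  rw [Fin.sum_univ_eq_sum_range (fun b => if b < c then f b else 0) N, ← Finset.sum_filter]
  refine Finset.sum_congr ?_ fun _ _ => rfl
  ext j
  rw [Finset.mem_filter, Finset.mem_range, Finset.mem_range]
  omega

theorem ct_conjP {m : ℕ} (hN : m ≤ N) {κ : Fin N → ℕ} (h : κ ∈ PP N m) : ct (conjP κ) = - ct κ := by
  have h0 := mem_PP.1 h
  have h2 := conjP_mem hN h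
  have e1 : ct (conjP κ) = ∑ i : Fin N, ∑ b : Fin N,
      if (b : ℕ) < conjP κ i then (((b : ℕ) : ℤ) - ((i : ℕ) : ℤ)) else 0 := by
    unfold ct
    refine Finset.sum_congr rfl fun i _ => ?_
    exact sum_range23 ((le_m23 h2 i).trans hN) fun b => ((b : ℤ) - ((i : ℕ) : ℤ))
  have e2 : ct κ = ∑ i : Fin N, ∑ b : Fin N,
      if (b : ℕ) < κ i then (((b : ℕ) : ℤ) - ((i : ℕ) : ℤ)) else 0 := by
    unfold ct
    refine Finset.sum_congr rfl fun i _ => ?_
    exact sum_range23 ((le_m23 h i).trans hN) fun b => ((b : ℤ) - ((i : ℕ) : ℤ))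
  rw [e1, e2, Finset.sum_comm, ← Finset.sum_neg_distrib]
  refine Finset.sum_congr rfl fun i _ => ?_
  rw [← Finset.sum_neg_distrib]
  refine Finset.sum_congr rfl fun b _ => ?_
  by_cases hb : (b : ℕ) < κ i
  · rw [if_pos hb, if_pos ((lt_conjP h0.1 i b).2 hb)]
    ring
  · rw [if_neg hb, if_neg fun hc => hb ((lt_conjP h0.1 i b).1 hc), neg_zero]

theorem isRem_iff {κ : Fin N → ℕ} (h : Antitone κ) (a : Fin N) :
    IsRem κ a ↔ 0 < κ a ∧ ∀ b : Fin N, a < b → κ b < κ a := by
  unfold IsRem
  refine and_congr_right fun h0 => ⟨fun h1 b hb => ?_, fun h1 i j hij => ?_⟩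
  · have h2 := h1 hb.le
    unfold subE at h2
    rw [if_neg hb.ne', if_pos rfl] at h2
    omega
  · unfold subE
    by_cases hi : i = a
    · subst hi
      by_cases hj : j = i
      · rw [hj]
      · have h2 := h1 j (lt_of_le_of_ne hij (Ne.symm hj))
        rw [if_neg hj, if_pos rfl]
        omega
    · rw [if_neg hi]
      have h2 := h hij
      omega

theorem exists_rem {m : ℕ} {κ : Fin N → ℕ} (h : κ ∈ PP N (m + 1)) : ∃ a : Fin N, IsRem κ a := by
  have h0 := mem_PP.1 h
  have hne : (Finset.univ.filter fun a : Fin N => 0 < κ a).Nonempty := by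
    by_contra hc
    rw [Finset.not_nonempty_iff_eq_empty, Finset.filter_eq_empty_iff] at hc
    have h1 : ∑ i, κ i = 0 := Finset.sum_eq_zero fun i hi => by
      have := hc hi
      omega
    rw [h1] at h0
    omega
  refine ⟨Finset.max' _ hne, (isRem_iff h0.1 _).2 ?_⟩
  have h1 := Finset.max'_mem _ hne
  rw [Finset.mem_filter] at h1
  refine ⟨h1.2, fun b hb => ?_⟩
  have h2 : ¬ 0 < κ b := by
    intro hc
    have h3 := Finset.le_max' (Finset.univ.filter fun a : Fin N => 0 < κ a) b
      (Finset.mem_filter.2 ⟨Finset.mem_univ _, hc⟩)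
    exact absurd hb (not_lt.2 h3)
  have h3 := h1.2
  omega

theorem subE_mem {m : ℕ} {κ : Fin N → ℕ} (h : κ ∈ PP N (m + 1)) (a : Fin N) (ha : IsRem κ a) : subE κ a ∈ PP N m := by
  have h0 := mem_PP.1 h
  rw [mem_PP]
  refine ⟨ha.2, ?_⟩
  have h1 : ∑ i, κ i = ∑ i, (subE κ a i + if i = a then 1 else 0) := by
    refine Finset.sum_congr rfl fun i _ => ?_
    unfold subE
    by_cases hi : i = a
    · subst hi
      have := ha.1
      rw [if_pos rfl]
      omega
    · rw [if_neg hi]
      omega
  rw [Finset.sum_add_distrib, Finset.sum_ite_eq' Finset.univ a, if_pos (Finset.mem_univ a), h0.2] at h1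
  omega

theorem conjP_subE {m : ℕ} (hN : m + 1 ≤ N) {κ : Fin N → ℕ} (h : κ ∈ PP N (m + 1)) (a : Fin N) (ha : IsRem κ a) :
    ∃ b : Fin N, (b : ℕ) + 1 = κ a ∧ IsRem (conjP κ) b ∧ conjP (subE κ a) = subE (conjP κ) b := by
  have hκa : κ a ≤ N := (le_m23 h a).trans hN
  have ha0 := ha.1
  set b : Fin N := ⟨κ a - 1, by omega⟩ with hb
  have hb1 : (b : ℕ) = κ a - 1 := rfl
  have hmem : a ∈ Finset.univ.filter (fun i : Fin N => (b : ℕ) < κ i) := by
    rw [Finset.mem_filter]
    exact ⟨Finset.mem_univ _, by omega⟩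
  have key : conjP (subE κ a) = subE (conjP κ) b := by
    funext j
    by_cases hj : j = b
    · have h1 : Finset.univ.filter (fun i : Fin N => (j : ℕ) < subE κ a i) =
          (Finset.univ.filter (fun i : Fin N => (j : ℕ) < κ i)).erase a := by
        ext i
        rw [Finset.mem_erase, Finset.mem_filter, Finset.mem_filter]
        unfold subE
        subst hj
        by_cases hi : i = a
        · subst hi
          rw [if_pos rfl]
          constructor
          · intro h2
            exact absurd h2.2 (by omega)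
          · intro h2
            exact absurd rfl h2.1
        · rw [if_neg hi]
          simp [hi]
      show (Finset.univ.filter (fun i : Fin N => (j : ℕ) < subE κ a i)).card =
        (Finset.univ.filter (fun i : Fin N => (j : ℕ) < κ i)).card - if j = b then 1 else 0
      rw [h1, if_pos hj, Finset.card_erase_of_mem (by rw [hj]; exact hmem)]
    · have h1 : Finset.univ.filter (fun i : Fin N => (j : ℕ) < subE κ a i) =
          Finset.univ.filter (fun i : Fin N => (j : ℕ) < κ i) := by
        ext i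
        rw [Finset.mem_filter, Finset.mem_filter]
        unfold subE
        have hj' : (j : ℕ) ≠ κ a - 1 := fun hc => hj (Fin.ext hc)
        by_cases hi : i = a
        · subst hi
          rw [if_pos rfl]
          refine and_congr_right fun _ => ⟨fun _ => by omega, fun _ => by omega⟩
        · rw [if_neg hi]
          simp
      show (Finset.univ.filter (fun i : Fin N => (j : ℕ) < subE κ a i)).card =
        (Finset.univ.filter (fun i : Fin N => (j : ℕ) < κ i)).card - if j = b then 1 else 0
      rw [h1, if_neg hj]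
      rfl
  refine ⟨b, by omega, ⟨?_, ?_⟩, key⟩
  · exact Finset.card_pos.2 ⟨a, hmem⟩
  · rw [← key]
    exact conjP_anti23 _

end Pool.Agent.Helper51.TF
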