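import Pool.Agent.Helper51.TF.H7
import Pool.Agent.Helper51.TF.H9a

/-!
BLOCK TF-H8 (about 300 lines). Branching: all corners occur, with their contents.

`IsRem κ a` (defined in `H9a`): the box at the end of row `a` can be removed.

Proof in words.
* `jm_zero`: let `F : HW m ν → HW (m+1) κ` commute with `S_m`, `κ = ν + e_a` (`subE κ a = ν`, `0 < κ a`). `∑_{i : Fin (m+1)} jm (hw (m+1) κ) i = jm 0 + ∑_{i : Fin m} jm (·) (succ i)`, and `jm (hw (m+1) κ) (succ i) (F v) = F (jm (hw m ν) i v)` (the transpositions `(succ i, succ j)` are `res1 m (swap i j)`). By `casimir` for `m` and `m + 1`: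
  `jm 0 (F v) = (ct κ - ct ν) F v`, `ct_subE`.
* `jm_zero_spec`: every eigenvalue of `jm 0` on `HW (m+1) κ`, `κ ∈ PP N (m+1)`, is `κ a - 1 - a` for some `a` with `IsRem κ a` such that `HomP (hw m (subE κ a)) ≠ ⊥`: the eigenspace is stable under `res1 m`, take an irreducible `U₀` in it (`exists_irr_sub`), by `branch_le` it is isomorphic to some `hw m (subE κ a)`, with `subE κ a ∈ PP N m` (so `IsRem κ a`), `jm_zero`.
* `branch_all`: for `κ ∈ PP N (m+1)` and `IsRem κ a` there is a nonzero map. Induction on `m`. Some `b` with `IsRem κ b` occurs (the restriction of `HW (m+1) κ` to `S_m` is not `0`, `jm_zero_spec` or `branch_le`). If `b = a` done. Otherwise `ν = subE κ b ∈ PP N m`, `IsRem ν a` (`κ a > κ (a+1)`; if `b = a + 1` then `ν (a+1) < κ (a+1)`, if `b = a - 1` nothing changes in rows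
  `a`, `a + 1`), `m ≥ 1`, and by induction `HW m ν` has a vector `w ≠ 0` with `jm 0 w = c_a w`, `c_a = κ a - 1 - a` (`jm_zero`; `ν a = κ a`). Let `v = F w ≠ 0` in `HW (m+1) κ`: `jm 0 v = c_b v`, `jm 1 v = c_a v` (`1 = succ 0`). `s = swap 0 1`: `jm 0 s = s jm 1 + 1`, that is `s jm 1 s = jm 0 - s`. Put `u = s v - (c_b - c_a)⁻¹ v` (check the sign):
  `jm 0 (s v) = s (jm 1 v) + v = c_a s v + v`, so `jm 0 u = c_a s v + v - (c_b - c_a)⁻¹ c_b v = c_a u` because `1 - (c_b - c_a)⁻¹ c_b = -(c_b - c_a)⁻¹ c_a`. `u ≠ 0`: otherwise `s v = (c_b - c_a)⁻¹ v`, and `s² = 1` gives `c_b - c_a = ± 1`, but the contents of two removable boxes differ by at least `2`. So `c_a` is an eigenvalue of `jm 0` on `HW (m+1) κ`, and by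
  `jm_zero_spec` it is `κ a' - 1 - a'` with `a'` occurring; `i ↦ κ i - i` is injective, so `a' = a`.
* `branch_eq`: the multiplicity is exactly `1`: at least `1` by `branch_all`, at most `1` by `branch_le` (see `TF/H7`, end of `step`).
-/

set_option autoImplicit false

open Module Equiv Pool.Agent.Helper1.TS Pool.Agent.Helper70.TU Pool.Agent.Helper51.TN

namespace Pool.Agent.Helper51.TF

variable {N : ℕ}

private theorem res1_zero75 {m : ℕ} (g : Perm (Fin m)) : res1 m g 0 = 0 :=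
  jT_apply_of_lt (Nat.le_add_left 1 m) g 0 (by simp)

private theorem res1_succ75 {m : ℕ} (g : Perm (Fin m)) (p : Fin m) :
    res1 m g p.succ = (g p).succ := by
  have h := jT_apply (Nat.le_add_left 1 m) g p.succ (by simp)
  exact h

private theorem res1_swap75 {m : ℕ} (i j : Fin m) :
    res1 m (Equiv.swap i j) = Equiv.swap i.succ j.succ := by
  refine Equiv.ext fun x => ?_
  refine Fin.cases ?_ (fun p => ?_) x
  · rw [res1_zero75, Equiv.swap_apply_of_ne_of_ne (Fin.succ_ne_zero i).symm (Fin.succ_ne_zero j).symm]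
  · rw [res1_succ75]
    exact ((Fin.succ_injective m).swap_apply i j p).symm

private theorem jm_succ75 {m : ℕ} {κ : Fin N → ℕ} {ν : Fin N → ℕ}
    (F : HW m ν →ₗ[ℂ] HW (m + 1) κ) (hF : ∀ g v, F (hw m ν g v) = hw (m + 1) κ (res1 m g) (F v))
    (i : Fin m) (v : HW m ν) : jm (hw (m + 1) κ) i.succ (F v) = F (jm (hw m ν) i v) := by
  unfold jm
  rw [LinearMap.sum_apply, LinearMap.sum_apply, map_sum, Finset.sum_filter, Finset.sum_filter,
    Fin.sum_univ_succ, if_neg (Fin.not_lt_zero _), zero_add]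
  refine Finset.sum_congr rfl fun j _ => ?_
  simp only [Fin.succ_lt_succ_iff, hF, res1_swap75]

private theorem jm0_75 {m : ℕ} {V : Type*} [AddCommGroup V] [Module ℂ V]
    (ρ : Representation ℂ (Perm (Fin (m + 1))) V) (v : V) :
    jm ρ 0 v = ∑ p : Fin m, ρ (Equiv.swap 0 p.succ) v := by
  unfold jm
  rw [LinearMap.sum_apply, Finset.sum_filter, Fin.sum_univ_succ, if_neg (lt_irrefl _), zero_add]
  exact Finset.sum_congr rfl fun p _ => if_pos (Fin.succ_pos p)

private theorem jm1_75 {m : ℕ} {V : Type*} [AddCommGroup V] [Module ℂ V]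
    (ρ : Representation ℂ (Perm (Fin (m + 1 + 1))) V) (v : V) :
    jm ρ (0 : Fin (m + 1)).succ v = ∑ p : Fin m, ρ (Equiv.swap (0 : Fin (m + 1)).succ p.succ.succ) v := by
  unfold jm
  rw [LinearMap.sum_apply, Finset.sum_filter, Fin.sum_univ_succ, if_neg (Fin.not_lt_zero _),
    zero_add, Fin.sum_univ_succ, if_neg (lt_irrefl _), zero_add]
  exact Finset.sum_congr rfl fun p _ => if_pos (Fin.succ_lt_succ_iff.2 (Fin.succ_pos p))

private theorem mulv75 {G V : Type*} [Group G] [AddCommGroup V] [Module ℂ V]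
    (ρ : Representation ℂ G V) (a b : G) (v : V) : ρ a (ρ b v) = ρ (a * b) v := by
  rw [map_mul, Module.End.mul_apply]

private theorem jm_comm75 {m : ℕ} {V : Type*} [AddCommGroup V] [Module ℂ V]
    (ρ : Representation ℂ (Perm (Fin (m + 1))) V) (g : Perm (Fin m)) (v : V) :
    jm ρ 0 (ρ (res1 m g) v) = ρ (res1 m g) (jm ρ 0 v) := by
  rw [jm0_75, jm0_75, map_sum, ← Equiv.sum_comp g]
  refine Finset.sum_congr rfl fun p _ => ?_
  rw [mulv75, mulv75, Equiv.mul_swap_eq_swap_mul, res1_zero75, res1_succ75]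

private theorem jm_rel75 {m : ℕ} {V : Type*} [AddCommGroup V] [Module ℂ V]
    (ρ : Representation ℂ (Perm (Fin (m + 1 + 1))) V) (v : V) :
    jm ρ 0 (ρ (Equiv.swap 0 (0 : Fin (m + 1)).succ) v) =
      ρ (Equiv.swap 0 (0 : Fin (m + 1)).succ) (jm ρ (0 : Fin (m + 1)).succ v) + v := by
  rw [jm0_75, jm1_75, map_sum, Fin.sum_univ_succ, mulv75, Equiv.swap_mul_self, map_one,
    Module.End.one_apply, add_comm]
  congr 1
  refine Finset.sum_congr rfl fun p _ => ?_
  rw [mulv75, mulv75, Equiv.mul_swap_eq_swap_mul (Equiv.swap 0 (0 : Fin (m + 1)).succ) (0 : Fin (m + 1)).succ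
    p.succ.succ, Equiv.swap_apply_right, Equiv.swap_apply_of_ne_of_ne (Fin.succ_ne_zero _)]
  intro h
  exact Fin.succ_ne_zero p (Fin.succ_injective _ h)

private theorem hw_bot75 {m : ℕ} {ν : Fin N → ℕ} (hb : HW m ν = ⊥) (x : HW m ν) : x = 0 :=
  Subtype.ext ((Submodule.mem_bot ℂ).1 (hb.le x.2))

private theorem hom_ne75 {H E X : Type*} [Group H] [AddCommGroup E] [Module ℂ E] [FiniteDimensional ℂ E]
    [AddCommGroup X] [Module ℂ X] [FiniteDimensional ℂ X] (ρ : Representation ℂ H E)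
    (σ : Representation ℂ H X) : finrank ℂ (HomP ρ σ LinearMap.id) ≠ 0 ↔
      ∃ f : E →ₗ[ℂ] X, f ≠ 0 ∧ ∀ h v, f (ρ h v) = σ h (f v) := by
  rw [Ne, Submodule.finrank_eq_zero, ← Ne, Submodule.ne_bot_iff]
  constructor
  · rintro ⟨f, hf, hf0⟩
    exact ⟨f, hf0, (mem_HomP.1 hf).1⟩
  · rintro ⟨f, hf0, hf⟩
    exact ⟨f, mem_HomP.2 ⟨hf, fun _ => rfl⟩, hf0⟩

private theorem irr_sub75 {G : Type} [Group G] {V : Type} [AddCommGroup V] [Module ℂ V] [FiniteDimensional ℂ V]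
    (ρ : Representation ℂ G V) (h : ∃ v : V, v ≠ 0) :
    ∃ (U : Type) (_ : AddCommGroup U) (_ : Module ℂ U) (_ : FiniteDimensional ℂ U)
      (υ : Representation ℂ G U) (i : U →ₗ[ℂ] V), υ.IsIrreducible ∧ i ≠ 0 ∧
      ∀ g u, i (υ g u) = ρ g (i u) := by
  obtain ⟨U, hU, υ, hυ, hirr⟩ := exists_irr_sub ρ h
  refine ⟨U, inferInstance, inferInstance, inferInstance, υ, U.subtype, hirr, ?_, fun g u => hυ g u⟩
  intro h0
  obtain ⟨u, hu, hu0⟩ := (Submodule.ne_bot_iff U).1 hU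
  exact hu0 (LinearMap.congr_fun h0 ⟨u, hu⟩)

theorem jm_zero {m : ℕ} {κ : Fin N → ℕ} (a : Fin N) (ha : 0 < κ a)
    (F : HW m (subE κ a) →ₗ[ℂ] HW (m + 1) κ) (hF : ∀ g v, F (hw m (subE κ a) g v) = hw (m + 1) κ (res1 m g) (F v))
    (v : HW m (subE κ a)) :
    jm (hw (m + 1) κ) 0 (F v) = ((((κ a : ℤ) - 1 - ((a : ℕ) : ℤ)) : ℤ) : ℂ) • F v := by
  have h1 := casimir κ (F v)
  rw [Fin.sum_univ_succ] at h1
  have h2 : ∑ i : Fin m, jm (hw (m + 1) κ) i.succ (F v) = ((ct (subE κ a) : ℤ) : ℂ) • F v := by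
    rw [Finset.sum_congr rfl fun i _ => jm_succ75 F hF i v, ← map_sum, casimir, map_smul]
  rw [h2] at h1
  have h3 : ((ct κ : ℤ) : ℂ) • F v = ((((κ a : ℤ) - 1 - ((a : ℕ) : ℤ)) : ℤ) : ℂ) • F v +
      ((ct (subE κ a) : ℤ) : ℂ) • F v := by
    rw [← add_smul, ct_subE κ a ha]
    congr 1
    push_cast
    ring
  exact add_right_cancel (h1.trans h3)

theorem jm_zero_spec {m : ℕ} (hN : m + 1 ≤ N) {κ : Fin N → ℕ} (h : κ ∈ PP N (m + 1)) (c : ℂ) (v : HW (m + 1) κ)
    (hv0 : v ≠ 0) (hv : jm (hw (m + 1) κ) 0 v = c • v) :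
    ∃ a : Fin N, IsRem κ a ∧ c = ((((κ a : ℤ) - 1 - ((a : ℕ) : ℤ)) : ℤ) : ℂ) ∧
      ∃ F : HW m (subE κ a) →ₗ[ℂ] HW (m + 1) κ, F ≠ 0 ∧
        ∀ g w, F (hw m (subE κ a) g w) = hw (m + 1) κ (res1 m g) (F w) := by
  -- the eigenspace
  let E : Submodule ℂ (HW (m + 1) κ) := LinearMap.ker (jm (hw (m + 1) κ) 0 - c • LinearMap.id)
  have hE : ∀ x, x ∈ E ↔ jm (hw (m + 1) κ) 0 x = c • x := by
    intro x
    rw [LinearMap.mem_ker, LinearMap.sub_apply, LinearMap.smul_apply, LinearMap.id_apply, sub_eq_zero]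
  have hst : ∀ g : Perm (Fin m), ∀ x ∈ E, hw (m + 1) κ (res1 m g) x ∈ E := by
    intro g x hx
    rw [hE] at hx ⊢
    rw [jm_comm75, hx, map_smul]
  let τ : Representation ℂ (Perm (Fin m)) E :=
    { toFun := fun g => (hw (m + 1) κ (res1 m g)).restrict (hst g)
      map_one' := by
        refine LinearMap.ext fun x => Subtype.ext ?_
        rw [LinearMap.coe_restrict_apply, map_one, map_one]
        rfl
      map_mul' := fun a b => by
        refine LinearMap.ext fun x => Subtype.ext ?_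
        rw [LinearMap.coe_restrict_apply, map_mul, map_mul, Module.End.mul_apply,
          Module.End.mul_apply, LinearMap.coe_restrict_apply, LinearMap.coe_restrict_apply] }
  have hτ : ∀ (g : Perm (Fin m)) (x : E), (τ g x : HW (m + 1) κ) = hw (m + 1) κ (res1 m g) x :=
    fun g x => rfl
  obtain ⟨U, iU1, iU2, iU3, υ, i0, hirr, hi00, hi0eq⟩ := irr_sub75 τ
    ⟨⟨v, (hE v).2 hv⟩, fun h0 => hv0 (congrArg Subtype.val h0)⟩
  -- the inclusion
  let i : U →ₗ[ℂ] HW (m + 1) κ := E.subtype ∘ₗ i0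
  have hi : ∀ g u, i (υ g u) = hw (m + 1) κ (res1 m g) (i u) := by
    intro g u
    have h1 := congrArg Subtype.val (hi0eq g u)
    exact h1
  have hi0 : i ≠ 0 := by
    intro h0
    apply hi00
    refine LinearMap.ext fun u => Subtype.ext ?_
    exact LinearMap.congr_fun h0 u
  have hpos : finrank ℂ (HomP (H := Perm (Fin m)) (E := U) (X := HW (m + 1) κ) υ
      ((hw (m + 1) κ).comp (res1 m)) LinearMap.id) ≠ 0 :=
    (hom_ne75 (H := Perm (Fin m)) (E := U) (X := HW (m + 1) κ) υ ((hw (m + 1) κ).comp (res1 m))).2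
      ⟨i, hi0, fun g u => hi g u⟩
  have hle := branch_le (U := U) κ υ
  obtain ⟨a, ha, hfa⟩ : ∃ a ∈ Finset.univ.filter (fun a : Fin N => 0 < κ a),
      finrank ℂ (HomP (H := Perm (Fin m)) (E := U) (X := HW m (subE κ a)) υ (hw m (subE κ a))
        LinearMap.id) ≠ 0 := by
    by_contra hcon
    push Not at hcon
    rw [Finset.sum_eq_zero hcon] at hle
    omega
  have ha0 : 0 < κ a := (Finset.mem_filter.1 ha).2
  obtain ⟨f, hf0, hf⟩ := (hom_ne75 (H := Perm (Fin m)) (E := U) (X := HW m (subE κ a)) υ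
    (hw m (subE κ a))).1 hfa
  have hnb : HW m (subE κ a) ≠ ⊥ := fun hb => hf0 (LinearMap.ext fun u => hw_bot75 hb _)
  have hPP : subE κ a ∈ PP N m := (subE_cases h a ha0).resolve_left hnb
  have := (hw_irr (show m ≤ N by omega)).1 _ hPP
  have hbij := iso_of_ne (V := U) υ (hw m (subE κ a)) f hf hf0
  let e : U ≃ₗ[ℂ] HW m (subE κ a) := LinearEquiv.ofBijective f hbij
  have he : ∀ u, e u = f u := fun _ => rfl
  let F : HW m (subE κ a) →ₗ[ℂ] HW (m + 1) κ := i ∘ₗ (e.symm : HW m (subE κ a) →ₗ[ℂ] U)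
  have hFe : ∀ w, F w = i (e.symm w) := fun _ => rfl
  have hF : ∀ g w, F (hw m (subE κ a) g w) = hw (m + 1) κ (res1 m g) (F w) := by
    intro g w
    rw [hFe, hFe, ← hi]
    congr 1
    apply e.injective
    rw [e.apply_symm_apply, he, hf, ← he, e.apply_symm_apply]
  have hF0 : F ≠ 0 := by
    intro h0
    apply hi0
    refine LinearMap.ext fun u => ?_
    have h1 := LinearMap.congr_fun h0 (e u)
    rw [hFe, e.symm_apply_apply] at h1
    exact h1
  refine ⟨a, ⟨ha0, (mem_PP.1 hPP).1⟩, ?_, F, hF0, hF⟩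
  obtain ⟨w, hw⟩ : ∃ w, F w ≠ 0 := by
    by_contra hcon
    push Not at hcon
    exact hF0 (LinearMap.ext hcon)
  have h1 := jm_zero a ha0 F hF w
  have h2 : jm (Pool.Agent.Helper51.TF.hw (m + 1) κ) 0 (F w) = c • F w :=
    (hE (F w)).1 (i0 (e.symm w)).2
  rw [h2] at h1
  exact smul_left_injective ℂ hw h1

private theorem exists_rem75 {m : ℕ} (hN : m + 1 ≤ N) {κ : Fin N → ℕ} (h : κ ∈ PP N (m + 1)) :
    ∃ b : Fin N, IsRem κ b ∧ ∃ F : HW m (subE κ b) →ₗ[ℂ] HW (m + 1) κ, F ≠ 0 ∧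
        ∀ g w, F (hw m (subE κ b) g w) = hw (m + 1) κ (res1 m g) (F w) := by
  have hne := HW_ne_bot (m + 1) κ (mem_PP.1 h).1 (mem_PP.1 h).2
  have : Nontrivial (HW (m + 1) κ) := Submodule.nontrivial_iff_ne_bot.2 hne
  obtain ⟨c, hc⟩ := Module.End.exists_eigenvalue (jm (hw (m + 1) κ) 0)
  obtain ⟨v, hv⟩ := hc.exists_hasEigenvector
  obtain ⟨b, hb, -, F, hF⟩ := jm_zero_spec hN h c v hv.2 (Module.End.mem_eigenspace_iff.1 hv.1)
  exact ⟨b, hb, F, hF⟩

private theorem rem_PP75 {m : ℕ} {κ : Fin N → ℕ} (h : κ ∈ PP N (m + 1)) {b : Fin N} (hb : IsRem κ b)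
    {F : HW m (subE κ b) →ₗ[ℂ] HW (m + 1) κ} (hF : F ≠ 0) : subE κ b ∈ PP N m := by
  refine (subE_cases h b hb.1).resolve_left fun hbot => hF ?_
  refine LinearMap.ext fun u => ?_
  rw [hw_bot75 hbot u, map_zero, map_zero]

private theorem rem_rem75 {κ : Fin N → ℕ} (hκ : Antitone κ) {a b : Fin N} (ha : IsRem κ a) (hb : IsRem κ b)
    (hab : b ≠ a) : IsRem (subE κ b) a := by
  have h1 : subE κ b a = κ a := by
    unfold subE
    rw [if_neg (Ne.symm hab), Nat.sub_zero]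
  refine ⟨by rw [h1]; exact ha.1, ?_⟩
  intro i j hij
  rcases hij.eq_or_lt with rfl | hlt
  · exact le_rfl
  have hk := hκ hij
  have hA := ha.2 hij
  have hB := hb.2 hij
  unfold subE at hA hB ⊢
  by_cases h2 : i = a
  · have h3 : i ≠ b := fun h => hab (h ▸ h2)
    have h4 : j ≠ a := fun h => absurd (h2.trans h.symm) hlt.ne
    simp only [if_pos h2, if_neg h3, if_neg h4] at hA hB ⊢
    omega
  · by_cases h3 : i = b
    · have h4 : j ≠ b := fun h => absurd (h3.trans h.symm) hlt.ne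
      simp only [if_pos h3, if_neg h2, if_neg h4] at hA hB ⊢
      omega
    · simp only [if_neg h3, if_neg h2] at hA hB ⊢
      omega

private theorem rem_diff75 {κ : Fin N → ℕ} {a b : Fin N} (ha : IsRem κ a) (hab : a < b) :
    ((κ b : ℤ) - 1 - ((b : ℕ) : ℤ)) + 2 ≤ (κ a : ℤ) - 1 - ((a : ℕ) : ℤ) := by
  have h1 := ha.2 hab.le
  have h2 : b ≠ a := hab.ne'
  unfold subE at h1
  rw [if_neg h2, if_pos rfl] at h1
  have h3 := ha.1
  have h4 : (a : ℕ) < (b : ℕ) := hab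
  omega

private theorem rem_ne75 {κ : Fin N → ℕ} {a b : Fin N} (ha : IsRem κ a) (hb : IsRem κ b) (hab : a ≠ b) :
    2 ≤ |((κ b : ℤ) - 1 - ((b : ℕ) : ℤ)) - ((κ a : ℤ) - 1 - ((a : ℕ) : ℤ))| := by
  rcases lt_or_gt_of_ne hab with h | h
  · have := rem_diff75 ha h
    rw [abs_of_neg (by omega)]
    omega
  · have := rem_diff75 hb h
    rw [abs_of_pos (by omega)]
    omega

private theorem branch_step75 {m : ℕ} (hN : m + 1 + 1 ≤ N) {κ : Fin N → ℕ} (h : κ ∈ PP N (m + 1 + 1))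
    (a b : Fin N) (ha : IsRem κ a) (hb : IsRem κ b) (hab : b ≠ a)
    (F : HW (m + 1) (subE κ b) →ₗ[ℂ] HW (m + 1 + 1) κ) (hF0 : F ≠ 0)
    (hF : ∀ g w, F (hw (m + 1) (subE κ b) g w) = hw (m + 1 + 1) κ (res1 (m + 1) g) (F w))
    (G : HW m (subE (subE κ b) a) →ₗ[ℂ] HW (m + 1) (subE κ b)) (hG0 : G ≠ 0)
    (hG : ∀ g w, G (hw m (subE (subE κ b) a) g w) = hw (m + 1) (subE κ b) (res1 m g) (G w)) :
    ∃ F : HW (m + 1) (subE κ a) →ₗ[ℂ] HW (m + 1 + 1) κ, F ≠ 0 ∧
        ∀ g w, F (hw (m + 1) (subE κ a) g w) = hw (m + 1 + 1) κ (res1 (m + 1) g) (F w) := by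
  have hκ := (mem_PP.1 h).1
  have hPP := rem_PP75 h hb hF0
  have hra := rem_rem75 hκ ha hb hab
  have h1 : subE κ b a = κ a := by
    unfold subE
    rw [if_neg (Ne.symm hab), Nat.sub_zero]
  obtain ⟨x, hx⟩ : ∃ x, G x ≠ 0 := by
    by_contra hcon
    push Not at hcon
    exact hG0 (LinearMap.ext hcon)
  have := (hw_irr (show m + 1 ≤ N by omega)).1 _ hPP
  have hinj := inj_of_ne (hw (m + 1) (subE κ b)) ((hw (m + 1 + 1) κ).comp (res1 (m + 1))) F
    (fun g v => hF g v) hF0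
  have hva := jm_zero (κ := subE κ b) a hra.1 G hG x
  rw [h1] at hva
  set ca : ℤ := (κ a : ℤ) - 1 - ((a : ℕ) : ℤ) with hca
  set cb : ℤ := (κ b : ℤ) - 1 - ((b : ℕ) : ℤ) with hcb
  set v := F (G x) with hv
  have hv0 : v ≠ 0 := fun h0 => hx (hinj (by rw [map_zero]; exact h0))
  have hvb : jm (hw (m + 1 + 1) κ) 0 v = ((cb : ℤ) : ℂ) • v := jm_zero b hb.1 F hF (G x)
  have hv1 : jm (hw (m + 1 + 1) κ) (0 : Fin (m + 1)).succ v = ((ca : ℤ) : ℂ) • v := by
    rw [hv, jm_succ75 F hF 0 (G x), hva, map_smul]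
  have hd2 : 2 ≤ |cb - ca| := rem_ne75 ha hb (Ne.symm hab)
  have hd0 : ((cb : ℂ) - ca) ≠ 0 := by
    intro h0
    have h2 : cb - ca = 0 := by exact_mod_cast h0
    rw [h2, abs_zero] at hd2
    omega
  set s := hw (m + 1 + 1) κ (Equiv.swap 0 (0 : Fin (m + 1)).succ) with hs
  have hss : ∀ y, s (s y) = y := by
    intro y
    rw [hs, mulv75, Equiv.swap_mul_self, map_one, Module.End.one_apply]
  have hrel := jm_rel75 (hw (m + 1 + 1) κ) v
  rw [← hs, hv1, map_smul] at hrel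
  set u := s v - ((cb : ℂ) - ca)⁻¹ • v with hu
  have hju : jm (hw (m + 1 + 1) κ) 0 u = ((ca : ℤ) : ℂ) • u := by
    rw [hu, map_sub, map_smul, hrel, hvb, smul_sub, smul_smul, smul_smul]
    have h3 : ((cb : ℂ) - ca)⁻¹ * (cb : ℂ) = 1 + (ca : ℂ) * ((cb : ℂ) - ca)⁻¹ := by
      field_simp
      ring
    rw [h3, add_smul, one_smul]
    abel
  have hu0 : u ≠ 0 := by
    intro h0
    have h3 : s v = ((cb : ℂ) - ca)⁻¹ • v := sub_eq_zero.1 h0
    have h4 : v = (((cb : ℂ) - ca)⁻¹ * ((cb : ℂ) - ca)⁻¹) • v := by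
      conv_lhs => rw [← hss v, h3, map_smul, h3, smul_smul]
    have h5 : (1 : ℂ) = ((cb : ℂ) - ca)⁻¹ * ((cb : ℂ) - ca)⁻¹ := by
      apply smul_left_injective ℂ hv0
      simp only [one_smul]
      exact h4
    have h6 : ((cb : ℂ) - ca) * ((cb : ℂ) - ca) = 1 := by
      have h7 : ((cb : ℂ) - ca) * ((cb : ℂ) - ca) * 1 = 1 := by
        conv_lhs => rw [h5]
        field_simp
      rwa [mul_one] at h7
    have h8 : (cb - ca) * (cb - ca) = 1 := by exact_mod_cast h6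
    have h9 : |cb - ca| * |cb - ca| = 1 := by rw [← abs_mul, h8, abs_one]
    nlinarith
  obtain ⟨a', ha', hc', F', hF'⟩ := jm_zero_spec hN h _ u hu0 hju
  have haa : a' = a := by
    by_contra hne
    have h3 := rem_ne75 ha ha' (Ne.symm hne)
    have h4 : ca = (κ a' : ℤ) - 1 - ((a' : ℕ) : ℤ) := by exact_mod_cast hc'
    rw [← h4, ← hca, sub_self, abs_zero] at h3
    omega
  subst haa
  exact ⟨F', hF'⟩

theorem branch_all {m : ℕ} (hN : m + 1 ≤ N) {κ : Fin N → ℕ} (h : κ ∈ PP N (m + 1)) (a : Fin N) (ha : IsRem κ a) :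
    ∃ F : HW m (subE κ a) →ₗ[ℂ] HW (m + 1) κ, F ≠ 0 ∧
        ∀ g w, F (hw m (subE κ a) g w) = hw (m + 1) κ (res1 m g) (F w) := by
  induction m generalizing κ a with
  | zero =>
    obtain ⟨b, hb, F, hF0, hF⟩ := exists_rem75 hN h
    by_cases hab : b = a
    · subst hab
      exact ⟨F, hF0, hF⟩
    · exfalso
      have hPP := rem_PP75 h hb hF0
      have hra := rem_rem75 (mem_PP.1 h).1 ha hb hab
      have h1 := (mem_PP.1 hPP).2
      have h2 := Finset.single_le_sum (f := subE κ b) (fun _ _ => Nat.zero_le _) (Finset.mem_univ a)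
      have h3 := hra.1
      omega
  | succ m ih =>
    obtain ⟨b, hb, F, hF0, hF⟩ := exists_rem75 hN h
    by_cases hab : b = a
    · subst hab
      exact ⟨F, hF0, hF⟩
    · have hPP := rem_PP75 h hb hF0
      have hra := rem_rem75 (mem_PP.1 h).1 ha hb hab
      obtain ⟨G, hG0, hG⟩ := ih (by omega) hPP a hra
      exact branch_step75 hN h a b ha hb hab F hF0 hF G hG0 hG

private theorem schur75 {G : Type} [Group G] {V : Type} [AddCommGroup V] [Module ℂ V] [FiniteDimensional ℂ V]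
    [Nontrivial V] (ρ : Representation ℂ G V) [ρ.IsIrreducible] : finrank ℂ (HomP ρ ρ LinearMap.id) ≤ 1 := by
  have hle : HomP ρ ρ LinearMap.id ≤ Submodule.span ℂ {LinearMap.id} := by
    intro f hf
    rw [mem_HomP] at hf
    obtain ⟨c, hc⟩ := Module.End.exists_eigenvalue f
    obtain ⟨v, hv⟩ := hc.exists_hasEigenvector
    have hv1 := Module.End.mem_eigenspace_iff.1 hv.1
    have h0 : f - c • LinearMap.id = 0 := by
      by_contra hne
      have hinj := inj_of_ne ρ ρ (f - c • LinearMap.id) (fun g w => by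
        rw [LinearMap.sub_apply, LinearMap.sub_apply, LinearMap.smul_apply, LinearMap.smul_apply,
          LinearMap.id_apply, LinearMap.id_apply, hf.1, map_sub, map_smul]) hne
      apply hv.2
      apply hinj
      rw [map_zero, LinearMap.sub_apply, LinearMap.smul_apply, LinearMap.id_apply, hv1, sub_self]
    rw [Submodule.mem_span_singleton]
    exact ⟨c, (sub_eq_zero.1 h0).symm⟩
  refine (Submodule.finrank_mono hle).trans ?_
  exact finrank_span_le_card ({LinearMap.id} : Set (V →ₗ[ℂ] V)) |>.trans (by simp)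

private theorem term75 {m : ℕ} (hN : m ≤ N) {κ : Fin N → ℕ} (h : κ ∈ PP N (m + 1)) {ν : Fin N → ℕ}
    (hν : ν ∈ PP N m) (a : Fin N) (ha : 0 < κ a)
    (hne : finrank ℂ (HomP (hw m ν) (hw m (subE κ a)) LinearMap.id) ≠ 0) :
    IsRem κ a ∧ ν = subE κ a := by
  obtain ⟨f, hf0, hf⟩ := (hom_ne75 (hw m ν) (hw m (subE κ a))).1 hne
  have hnb : HW m (subE κ a) ≠ ⊥ := fun hb => hf0 (LinearMap.ext fun u => hw_bot75 hb _)
  have hPP : subE κ a ∈ PP N m := (subE_cases h a ha).resolve_left hnb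
  have := (hw_irr hN).1 _ hPP
  have := (hw_irr hN).1 _ hν
  have hbij := iso_of_ne (hw m ν) (hw m (subE κ a)) f hf hf0
  refine ⟨⟨ha, (mem_PP.1 hPP).1⟩, (hw_irr hN).2 ν hν _ hPP ⟨LinearEquiv.ofBijective f hbij, fun g v => ?_⟩⟩
  exact hf g v

open Classical in
theorem branch_eq {m : ℕ} (hN : m + 1 ≤ N) {κ : Fin N → ℕ} (h : κ ∈ PP N (m + 1)) {ν : Fin N → ℕ} (hν : ν ∈ PP N m) :
    finrank ℂ (HomP (hw m ν) ((hw (m + 1) κ).comp (res1 m)) LinearMap.id) =
      if ∃ a : Fin N, IsRem κ a ∧ ν = subE κ a then 1 else 0 := by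
  have hle := branch_le κ (hw m ν)
  by_cases hex : ∃ a : Fin N, IsRem κ a ∧ ν = subE κ a
  · rw [if_pos hex]
    obtain ⟨a, ha, rfl⟩ := hex
    apply le_antisymm
    · refine hle.trans ?_
      rw [Finset.sum_eq_single a]
      · have : Nontrivial (HW m (subE κ a)) :=
          Submodule.nontrivial_iff_ne_bot.2 (HW_ne_bot m _ (mem_PP.1 hν).1 (mem_PP.1 hν).2)
        have := (hw_irr (show m ≤ N by omega)).1 _ hν
        exact schur75 _
      · intro a' ha' hne
        by_contra h0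
        have h1 := (term75 (by omega) h hν a' (Finset.mem_filter.1 ha').2 h0).2
        have h2 := congrFun h1 a
        unfold subE at h2
        rw [if_pos rfl, if_neg (Ne.symm hne)] at h2
        have := ha.1
        omega
      · intro h0
        exact absurd (Finset.mem_filter.2 ⟨Finset.mem_univ a, ha.1⟩) h0
    · obtain ⟨F, hF0, hF⟩ := branch_all hN h a ha
      exact Nat.one_le_iff_ne_zero.2 ((hom_ne75 (hw m (subE κ a))
        ((hw (m + 1) κ).comp (res1 m))).2 ⟨F, hF0, fun g u => hF g u⟩)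
  · rw [if_neg hex]
    rw [Finset.sum_eq_zero] at hle
    · omega
    · intro a ha
      by_contra h0
      exact hex ⟨a, term75 (by omega) h hν a (Finset.mem_filter.1 ha).2 h0⟩

end Pool.Agent.Helper51.TF
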