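import Pool.Agent.Helper51.TF.H8
import Pool.Agent.Helper51.TN.S2

/-!
BLOCK TF-H11 (about 150 lines). The corners of an irreducible representation are the contents of the removable boxes of its label.

Proof in words. `corners_last` / `mem_CC` (`TN/S2`) and the definition of `corners` (`TN/Defs`): `a ∈ CC ρ` iff there is a joint eigenvector of all the `jm ρ i` with eigenvalue `a` for `jm ρ 0`. By `jm_diag` (`TN/S2`) every eigenvalue (real) of `jm ρ 0` belongs to a joint eigenvector: the eigenspace of `jm ρ 0` is stable under the other `jm`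
(they commute, `jm_comm'` in `TN/R1`). Transport along the isomorphism `ρ ≅ hw (m+1) κ`. So `CC ρ` is the set of the real eigenvalues of `jm (hw (m+1) κ) 0`: by `jm_zero_spec` each of them is `κ a - 1 - a` for a removable `a`, and by `branch_all`, `jm_zero` all of these occur. `a ↦ κ a - 1 - a` is injective (strictly decreasing).
-/

set_option autoImplicit false

open Module Equiv Pool.Agent.Helper1.TS Pool.Agent.Helper70.TU Pool.Agent.Helper51.TN

namespace Pool.Agent.Helper51.TF

variable {N : ℕ}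

open Classical in
theorem CC_lab {m : ℕ} (hN : m + 1 ≤ N) {V : Type*} [AddCommGroup V] [Module ℂ V] [FiniteDimensional ℂ V]
    (ρ : Representation ℂ (Perm (Fin (m + 1))) V) {κ : Fin N → ℕ} (h : κ ∈ PP N (m + 1)) (hl : Lab ρ κ) :
    CC ρ = (Finset.univ.filter (fun a : Fin N => IsRem κ a)).image
      (fun a : Fin N => (((κ a : ℤ) - 1 - ((a : ℕ) : ℤ) : ℤ) : ℝ)) := by
  obtain ⟨e, he⟩ := hl
  have hjm : ∀ v : V, e (jm ρ 0 v) = jm (hw (m + 1) κ) 0 (e v) := by
    intro v
    unfold jm
    rw [LinearMap.sum_apply, LinearMap.sum_apply, map_sum]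
    exact Finset.sum_congr rfl fun j _ => he _ _
  refine Finset.ext fun a => ?_
  rw [mem_CC, Finset.mem_image]
  constructor
  · rintro ⟨c, v, h0, hv, rfl⟩
    have h1 : jm (hw (m + 1) κ) 0 (e v) = ((c 0 : ℝ) : ℂ) • e v := by
      rw [← hjm, hv.2 0, map_smul]
    obtain ⟨a, ha, hc, -⟩ := jm_zero_spec hN h _ (e v) (fun h2 => hv.1 (by simpa using h2)) h1
    refine ⟨a, Finset.mem_filter.2 ⟨Finset.mem_univ _, ha⟩, ?_⟩
    have h3 : (((((κ a : ℤ) - 1 - ((a : ℕ) : ℤ) : ℤ) : ℝ)) : ℂ) = ((c 0 : ℝ) : ℂ) := by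
      rw [hc]
      push_cast
      ring
    exact Complex.ofReal_injective h3
  · rintro ⟨b, hb, rfl⟩
    rw [Finset.mem_filter] at hb
    obtain ⟨F, hF0, hF⟩ := branch_all hN h b hb.2
    obtain ⟨w, hw0⟩ : ∃ w, F w ≠ 0 := by
      by_contra h0
      push Not at h0
      exact hF0 (LinearMap.ext h0)
    have h1 := jm_zero b hb.2.1 F hF w
    have h2 : EE ρ (Nat.le_add_left 1 m) (fun _ => (((κ b : ℤ) - 1 - ((b : ℕ) : ℤ) : ℤ) : ℝ)) ≠ ⊥ := by
      intro h3
      have h4 : e.symm (F w) ∈ EE ρ (Nat.le_add_left 1 m)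
          (fun _ => (((κ b : ℤ) - 1 - ((b : ℕ) : ℤ) : ℤ) : ℝ)) := by
        rw [mem_EE]
        intro i
        have h5 : Fin.castLE (Nat.le_add_left 1 m) i = 0 := by
          have := i.2
          refine Fin.ext ?_
          simp only [Fin.val_castLE, Fin.val_zero]
          omega
        rw [h5]
        apply e.injective
        rw [hjm, e.apply_symm_apply, h1, map_smul, e.apply_symm_apply]
        push_cast
        rfl
      rw [h3, Submodule.mem_bot] at h4
      exact hw0 (by simpa using h4)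
    exact mem_corners_of_EE ρ (Nat.le_add_left 1 m) Nat.one_pos _ h2

open Classical in
theorem card_CC {m : ℕ} (hN : m + 1 ≤ N) {V : Type*} [AddCommGroup V] [Module ℂ V] [FiniteDimensional ℂ V]
    (ρ : Representation ℂ (Perm (Fin (m + 1))) V) {κ : Fin N → ℕ} (h : κ ∈ PP N (m + 1)) (hl : Lab ρ κ) :
    (CC ρ).card = (Finset.univ.filter (fun a : Fin N => IsRem κ a)).card := by
  rw [CC_lab hN ρ h hl]
  refine Finset.card_image_of_injective _ fun a b hab => ?_
  have h1 : ((κ a : ℤ) - 1 - ((a : ℕ) : ℤ)) = ((κ b : ℤ) - 1 - ((b : ℕ) : ℤ)) := by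
    exact_mod_cast hab
  have hanti := (mem_PP.1 h).1
  rcases lt_trichotomy a b with hlt | heq | hlt
  · have h2 := hanti hlt.le
    have h3 : (a : ℕ) < b := hlt
    omega
  · exact heq
  · have h2 := hanti hlt.le
    have h3 : (b : ℕ) < a := hlt
    omega

end Pool.Agent.Helper51.TF
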