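import Pool.Agent.Helper51.TF.H8

/-!
BLOCK TF-H9 (about 180 lines). The sign twist transposes the label.

Proof in words. By `Lab ρ κ` it is enough to show `Iso (tw (hw m κ)) (hw m (conjP κ))` (an isomorphism `ρ ≅ σ` is one `tw ρ ≅ tw σ`; composition of isomorphisms). Induction on `m`, for all `κ ∈ PP N m`.
* `m = 0`: `κ = 0 = conjP κ` and all permutations of `Fin 0` are `1`: the identity map.
* `m + 1`: `tw (hw (m+1) κ)` is irreducible (`hw_irr`; a subspace is stable for `tw ρ` iff it is for `ρ`), so it has a label `κ' ∈ PP N (m+1)` (`exists_lab`; `HW (m+1) κ` is a type in `Type`). The sum of the `jm` of `tw ρ` is minus that of `ρ` (the transpositions have sign `-1`):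
  `casimir` gives `ct κ' = - ct κ = ct (conjP κ)` (the space is not `0`: `HW_ne_bot`). Let `a` be removable in `κ` (`exists_rem`), `F : HW m (subE κ a) → HW (m+1) κ` from `branch_all`. The same `F` intertwines the twists (`sign (res1 m g) = sign g`: `Perm.sign_extendDomain`), so by induction (`tw (hw m (subE κ a)) ≅ hw m (conjP (subE κ a))`) there is
  a nonzero element of `HomP (hw m (conjP (subE κ a))) ((hw (m+1) κ').comp (res1 m)) id`. By `branch_eq` (`conjP (subE κ a) ∈ PP N m`) there is `b'` with `IsRem κ' b'`, `conjP (subE κ a) = subE κ' b'`. By `conjP_subE` it is also `subE (conjP κ) b`, `IsRem (conjP κ) b`. `subE_inj` gives `κ' = conjP κ`.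
-/

set_option autoImplicit false

open Module Equiv Pool.Agent.Helper1.TS Pool.Agent.Helper70.TU Pool.Agent.Helper51.TN

namespace Pool.Agent.Helper51.TF

variable {N : ℕ}

private theorem sgn_sq65 {m : ℕ} (g : Perm (Fin m)) :
    ((Perm.sign g : ℤ) : ℂ) * ((Perm.sign g : ℤ) : ℂ) = 1 := by
  rw [← Int.cast_mul, Int.units_coe_mul_self, Int.cast_one]

private theorem tw_irr65 {m : ℕ} {V : Type} [AddCommGroup V] [Module ℂ V]
    (ρ : Representation ℂ (Perm (Fin m)) V) (hirr : ρ.IsIrreducible) : (tw ρ).IsIrreducible := by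
  have hnt0 : Nontrivial (Subrepresentation ρ) := hirr.toNontrivial
  have hnt : Nontrivial (Subrepresentation (tw ρ)) := by
    refine ⟨⟨⊥, ⊤, fun h0 => ?_⟩⟩
    have h1 : (⊥ : Submodule ℂ V) = ⊤ := congrArg Subrepresentation.toSubmodule h0
    have h2 : (⊥ : Subrepresentation ρ) = ⊤ := Subrepresentation.toSubmodule_injective h1
    exact bot_ne_top h2
  refine @IsSimpleOrder.mk _ _ _ hnt (fun A => ?_)
  have hA : ∀ (g : Perm (Fin m)) (v : V), v ∈ A.toSubmodule → ρ g v ∈ A.toSubmodule := by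
    intro g v hv
    have h1 := A.apply_mem_toSubmodule g hv
    rw [tw_apply] at h1
    have h2 := A.toSubmodule.smul_mem ((Perm.sign g : ℤ) : ℂ) h1
    rwa [smul_smul, sgn_sq65, one_smul] at h2
  rcases hirr.eq_bot_or_eq_top (⟨A.toSubmodule, hA⟩ : Subrepresentation ρ) with h | h
  · left
    have h' : A.toSubmodule = ⊥ :=
      congrArg (Subrepresentation.toSubmodule (ρ := ρ)) h
    exact Subrepresentation.toSubmodule_injective h'
  · right
    have h' : A.toSubmodule = ⊤ :=
      congrArg (Subrepresentation.toSubmodule (ρ := ρ)) h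
    exact Subrepresentation.toSubmodule_injective h'

private theorem homP_zero65 {G : Type} [Group G] {E X : Type} [AddCommGroup E] [Module ℂ E]
    [FiniteDimensional ℂ E] [AddCommGroup X] [Module ℂ X] [FiniteDimensional ℂ X]
    (ρ : Representation ℂ G E) (σ : Representation ℂ G X)
    (h : finrank ℂ (HomP ρ σ LinearMap.id) = 0) {f : E →ₗ[ℂ] X}
    (hf : f ∈ HomP ρ σ LinearMap.id) : f = 0 := by
  have h1 := Submodule.finrank_eq_zero.1 h
  rw [h1, Submodule.mem_bot] at hf
  exact hf

private theorem sign_res65 {m : ℕ} (g : Perm (Fin m)) : Perm.sign (res1 m g) = Perm.sign g :=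
  Perm.sign_extendDomain _ _

/-- the label of the twist has the opposite content sum -/
private theorem ct_tw65 {m : ℕ} {κ κ' : Fin N → ℕ} (h : κ ∈ PP N m)
    (e : HW m κ ≃ₗ[ℂ] HW m κ') (he : ∀ g v, e (tw (hw m κ) g v) = hw m κ' g (e v)) :
    ct κ' = - ct κ := by
  obtain ⟨v, hv, hv0⟩ := (Submodule.ne_bot_iff _).1 (HW_ne_bot m κ (mem_PP.1 h).1 (mem_PP.1 h).2)
  have hv0' : (⟨v, hv⟩ : HW m κ) ≠ 0 := fun h0 => hv0 (congrArg Subtype.val h0)
  generalize (⟨v, hv⟩ : HW m κ) = w at hv0'
  have h1 := casimir κ' (e w)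
  have h2 := casimir κ w
  have h3 : ∀ i : Fin m, jm (hw m κ') i (e w) = - e (jm (hw m κ) i w) := by
    intro i
    rw [jm, jm, LinearMap.sum_apply, LinearMap.sum_apply, map_sum, ← Finset.sum_neg_distrib]
    refine Finset.sum_congr rfl fun j hj => ?_
    have hij : i ≠ j := (Finset.mem_filter.1 hj).2.ne
    rw [← he, tw_apply, Perm.sign_swap hij, map_smul]
    push_cast
    exact neg_one_smul ℂ (e (hw m κ (Equiv.swap i j) w))
  rw [Finset.sum_congr rfl (fun i _ => h3 i), Finset.sum_neg_distrib, ← map_sum, h2, map_smul] at h1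
  have hew : e w ≠ 0 := fun h0 => hv0' (by simpa using h0)
  have h6 : (-((ct κ : ℤ) : ℂ)) • e w = ((ct κ' : ℤ) : ℂ) • e w := (neg_smul _ _).trans h1
  have h4 : -((ct κ : ℤ) : ℂ) = ((ct κ' : ℤ) : ℂ) := smul_left_injective ℂ hew h6
  have h5 : (((- ct κ : ℤ)) : ℂ) = ((ct κ' : ℤ) : ℂ) := by rw [← h4]; push_cast; ring
  exact (Int.cast_injective h5).symm

private theorem key65 (m : ℕ) : m ≤ N → ∀ κ ∈ PP N m, Iso (tw (hw m κ)) (hw m (conjP κ)) := by
  induction m with
  | zero =>
    intro _ κ h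
    have h0 : κ = 0 := by
      funext i
      exact (Finset.sum_eq_zero_iff.1 (mem_PP.1 h).2) i (Finset.mem_univ i)
    have h1 : conjP κ = κ := by
      rw [h0]
      funext j
      simp [conjP]
    rw [h1]
    refine ⟨LinearEquiv.refl ℂ _, fun g v => ?_⟩
    have hg : g = 1 := Subsingleton.elim _ _
    rw [hg, tw_apply, Perm.sign_one]
    simp
  | succ m ih =>
    intro hN κ h
    have hirr := tw_irr65 _ ((hw_irr hN).1 κ h)
    obtain ⟨κ', h', e, he⟩ := @exists_lab N (m + 1) hN (HW (m + 1) κ) _ _ _ (tw (hw (m + 1) κ)) hirr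
    have hct := ct_tw65 h e he
    obtain ⟨a, ha⟩ := exists_rem h
    obtain ⟨F, hF0, hF⟩ := branch_all hN h a ha
    have hν := subE_mem h a ha
    obtain ⟨e1, he1⟩ := ih (by omega) (subE κ a) hν
    have hνc := conjP_mem (by omega) hν
    have hfin := branch_eq hN h' hνc
    have hmem : (e.toLinearMap ∘ₗ F ∘ₗ e1.symm.toLinearMap) ∈
        HomP (hw m (conjP (subE κ a))) ((hw (m + 1) κ').comp (res1 m)) LinearMap.id := by
      refine ⟨fun g w => ?_, fun w => rfl⟩
      obtain ⟨w', rfl⟩ := e1.surjective w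
      have h1 : hw m (conjP (subE κ a)) g (e1 w') = e1 (tw (hw m (subE κ a)) g w') := (he1 g w').symm
      rw [h1]
      simp only [LinearMap.comp_apply, LinearEquiv.coe_coe, LinearEquiv.symm_apply_apply]
      rw [tw_apply, map_smul, hF]
      show e _ = hw (m + 1) κ' (res1 m g) (e (F w'))
      rw [← he, tw_apply, sign_res65]
    have hne : (e.toLinearMap ∘ₗ F ∘ₗ e1.symm.toLinearMap) ≠ 0 := by
      intro h0
      apply hF0
      ext1 w
      have h1 := LinearMap.congr_fun h0 (e1 w)
      simp only [LinearMap.comp_apply, LinearEquiv.coe_coe, LinearEquiv.symm_apply_apply,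
        LinearMap.zero_apply] at h1
      rw [LinearMap.zero_apply]
      exact e.map_eq_zero_iff.1 h1
    have hex : ∃ b : Fin N, IsRem κ' b ∧ conjP (subE κ a) = subE κ' b := by
      by_contra hcon
      rw [if_neg hcon] at hfin
      exact hne (homP_zero65 _ _ hfin hmem)
    obtain ⟨b', hb', hb'2⟩ := hex
    obtain ⟨b, -, hb, hb2⟩ := conjP_subE hN h a ha
    have hcc := conjP_mem hN h
    have heq : κ' = conjP κ := by
      refine subE_inj h' hcc b' b hb'.1 hb.1 (hb'2.symm.trans hb2) ?_ ?_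
      · rw [← hb'2]; exact hνc
      · rw [hct, ct_conjP hN h]
    rw [← heq]
    exact ⟨e, he⟩

theorem lab_tw {m : ℕ} (hN : m ≤ N) {V : Type*} [AddCommGroup V] [Module ℂ V]
    (ρ : Representation ℂ (Perm (Fin m)) V) {κ : Fin N → ℕ} (h : κ ∈ PP N m) (hl : Lab ρ κ) :
    Lab (tw ρ) (conjP κ) := by
  obtain ⟨e, he⟩ := hl
  obtain ⟨e', he'⟩ := key65 m hN κ h
  refine ⟨e.trans e', fun g v => ?_⟩
  rw [LinearEquiv.trans_apply, LinearEquiv.trans_apply, tw_apply, map_smul, he, ← he', tw_apply]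

end Pool.Agent.Helper51.TF
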