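import Pool.Agent.Helper51.TF.H10
import Pool.Agent.Helper51.TF.H9

/-!
BLOCK TF-AL1 (about 250 lines). A partition with a long row has a small dimension.

Proof in words. `f(κ) = finrank (HW m κ)`, `dn κ` = `κ` without its first row (`dn κ i = κ (i + 1)`, `0` for the last `i`).
* `finrank_row`: for `κ ∈ PP N m` (`m ≤ N`, `0 < N`): `f(κ) ≤ binom(m, κ 0) f(dn κ)`, `dn κ ∈ PP N (m - κ 0)`. Induction on `m`. `m = 0`: all is `1` (`HW 0 0` is one dimensional: `finrank_expand`/`base`, or the definition). `m + 1`: by `finrank_branch` `f(κ) = ∑_{a removable} f(subE κ a)`. For `a = 0`: `dn (subE κ 0) = dn κ` and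
  `f(subE κ 0) ≤ binom(m, κ 0 - 1) f(dn κ)`. For `a > 0`: `f(subE κ a) ≤ binom(m, κ 0) f(dn (subE κ a))`, `dn (subE κ a) = subE (dn κ) (a - 1)`, and `a - 1` is removable in `dn κ`; the sum over `a > 0` is at most `binom(m, κ 0) f(dn κ)` by `finrank_branch` for `dn κ` (if `dn κ` has size `0` there are no such `a`). Pascal.
* `sq_le`: `f(κ)² ≤ m!` for `κ ∈ PP N m`: `∑_ν f(ν)² = m!`, or `∑_g χ(g) χ(g⁻¹) = m!` (`norm_one` in `TN/B3`, all terms `≥ 0` since `χ` is real, the term `g = 1` is `f²`).
* `row_bound`: `f(κ)² (κ 0)! ≤ binom(m, κ 0)² (m - κ 0)! (κ 0)! = binom(m, κ 0) m!`.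
-/

set_option autoImplicit false

open Module Equiv Pool.Agent.Helper1.TS Pool.Agent.Helper70.TU Pool.Agent.Helper51.TN

namespace Pool.Agent.Helper51.TF

variable {N : ℕ}

/-- `κ` without its first row -/
private def dn26 (κ : Fin N → ℕ) : Fin N → ℕ := fun i => if h : (i : ℕ) + 1 < N then κ ⟨i + 1, h⟩ else 0

private theorem dn_mem26 (h0 : 0 < N) {m : ℕ} {κ : Fin N → ℕ} (h : κ ∈ PP N m) (r : ℕ)
    (hr : κ ⟨0, h0⟩ + r = m) : dn26 κ ∈ PP N r := by
  have h' := mem_PP.1 h
  rw [mem_PP]
  constructor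
  · intro i j hij
    have hij' : (i : ℕ) ≤ j := hij
    unfold dn26
    by_cases hj : (j : ℕ) + 1 < N
    · rw [dif_pos hj, dif_pos (by omega : (i : ℕ) + 1 < N)]
      exact h'.1 (Fin.le_def.2 (by simpa using hij'))
    · rw [dif_neg hj]
      exact Nat.zero_le _
  · obtain ⟨k, rfl⟩ := Nat.exists_eq_succ_of_ne_zero h0.ne'
    have h1 := h'.2
    rw [Fin.sum_univ_succ] at h1
    have h2 : ∑ i : Fin (k + 1), dn26 κ i = ∑ i : Fin k, κ i.succ := by
      rw [Fin.sum_univ_castSucc]
      have h3 : dn26 κ (Fin.last k) = 0 := by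
        unfold dn26
        rw [dif_neg (by simp)]
      rw [h3, add_zero]
      refine Finset.sum_congr rfl fun i _ => ?_
      unfold dn26
      rw [dif_pos (by simp)]
      rfl
    have h4 : κ (0 : Fin (k + 1)) = κ ⟨0, h0⟩ := rfl
    rw [h2]
    omega

private theorem dn_subE_zero26 (h0 : 0 < N) (κ : Fin N → ℕ) : dn26 (subE κ ⟨0, h0⟩) = dn26 κ := by
  funext i
  unfold dn26 subE
  by_cases hi : (i : ℕ) + 1 < N
  · rw [dif_pos hi, dif_pos hi, if_neg (by
      intro h
      have := congrArg Fin.val h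
      simp at this), Nat.sub_zero]
  · rw [dif_neg hi, dif_neg hi]

/-- the row before `a` -/
private def pr26 (a : Fin N) : Fin N := ⟨(a : ℕ) - 1, (Nat.sub_le _ _).trans_lt a.2⟩

private theorem dn_subE26 (κ : Fin N → ℕ) (a : Fin N) (ha : 0 < (a : ℕ)) :
    dn26 (subE κ a) = subE (dn26 κ) (pr26 a) := by
  funext i
  unfold dn26 subE
  beta_reduce
  by_cases hi : (i : ℕ) + 1 < N
  · rw [dif_pos hi, dif_pos hi]
    congr 1
    refine if_congr ?_ rfl rfl
    unfold pr26
    rw [Fin.ext_iff, Fin.ext_iff]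
    simp only
    omega
  · rw [dif_neg hi, dif_neg hi, Nat.zero_sub]

private theorem isRem_dn26 {κ : Fin N → ℕ} (hκ : Antitone κ) (hd : Antitone (dn26 κ)) (a : Fin N) (ha : 0 < (a : ℕ))
    (hr : IsRem κ a) : IsRem (dn26 κ) (pr26 a) := by
  obtain ⟨h1, h2⟩ := (isRem_iff hκ a).1 hr
  have h3 : dn26 κ (pr26 a) = κ a := by
    have h4 : ((pr26 a : Fin N) : ℕ) + 1 = a := by
      unfold pr26
      simp only
      omega
    unfold dn26
    rw [dif_pos (by rw [h4]; exact a.2)]
    congr 1
    exact Fin.ext h4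
  rw [isRem_iff hd]
  rw [h3]
  refine ⟨h1, fun b hb => ?_⟩
  have hb' : (a : ℕ) - 1 < b := hb
  unfold dn26
  by_cases hbN : (b : ℕ) + 1 < N
  · rw [dif_pos hbN]
    exact h2 _ (Fin.lt_def.2 (by simp only; omega))
  · rw [dif_neg hbN]
    exact h1

/-- the square of the dimension is at most `m!` -/
private theorem sq_le26 {m : ℕ} (hN : m ≤ N) {κ : Fin N → ℕ} (h : κ ∈ PP N m) :
    (finrank ℂ (HW m κ)) ^ 2 ≤ m.factorial := by
  classical
  have hirr := (hw_irr hN).1 κ h
  have hc : (Nat.card (Perm (Fin m)) : ℂ) ≠ 0 := by exact_mod_cast Nat.card_pos.ne'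
  have : Invertible (Nat.card (Perm (Fin m)) : ℂ) := invertibleOfNonzero hc
  have h1 := Representation.char_orthonormal (hw m κ) (hw m κ)
  rw [if_pos ⟨Representation.Equiv.refl (hw m κ)⟩] at h1
  have h2 : ∑ g : Perm (Fin m), (hw m κ).character g * (hw m κ).character g⁻¹ = Nat.card (Perm (Fin m)) := by
    have h3 := congrArg (fun z => (Nat.card (Perm (Fin m)) : ℂ) * z) h1
    simp only [mul_one] at h3
    rw [← mul_assoc, mul_inv_cancel₀ hc, one_mul] at h3
    exact h3
  have h4 : ∀ g : Perm (Fin m), (hw m κ).character g * (hw m κ).character g⁻¹ =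
      (((hw m κ).character g).re ^ 2 : ℝ) := by
    intro g
    rw [char_perm_inv, char_perm_real (hw m κ) g]
    push_cast
    rw [Complex.ofReal_re]
    ring
  rw [Finset.sum_congr rfl fun g _ => h4 g, ← Complex.ofReal_sum, Nat.card_eq_fintype_card, Fintype.card_perm,
    Fintype.card_fin] at h2
  have h5 : ∑ g : Perm (Fin m), ((hw m κ).character g).re ^ 2 = (m.factorial : ℝ) := by exact_mod_cast h2
  have h6 : ((hw m κ).character 1).re ^ 2 ≤ ∑ g : Perm (Fin m), ((hw m κ).character g).re ^ 2 :=
    Finset.single_le_sum (f := fun g => ((hw m κ).character g).re ^ 2) (fun g _ => sq_nonneg _)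
      (Finset.mem_univ (1 : Perm (Fin m)))
  rw [h5, Representation.char_one, Complex.natCast_re] at h6
  exact_mod_cast h6

private theorem row26 : ∀ (m : ℕ) (_ : m ≤ N) (h0 : 0 < N) (κ : Fin N → ℕ) (_ : κ ∈ PP N m) (r : ℕ)
    (_ : κ ⟨0, h0⟩ + r = m), finrank ℂ (HW m κ) ≤ m.choose r * finrank ℂ (HW r (dn26 κ)) := by
  classical
  intro m
  induction m with
  | zero =>
    intro _ h0 κ h r hr
    have hr0 : r = 0 := by omega
    subst hr0
    have hκ : κ = fun _ => 0 := by
      funext i
      have h1 := (mem_PP.1 h).2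
      have h2 := Finset.single_le_sum (fun j _ => Nat.zero_le (κ j)) (Finset.mem_univ i)
      omega
    have hd : dn26 κ = κ := by
      rw [hκ]
      funext i
      unfold dn26
      split_ifs <;> rfl
    rw [hd, Nat.choose_self, one_mul]
  | succ m ih =>
    intro hN h0 κ h r hr
    have h' := mem_PP.1 h
    have hdm := dn_mem26 h0 h r hr
    have hd' := mem_PP.1 hdm
    rw [finrank_branch hN h, ← Finset.sum_filter_add_sum_filter_not _ (fun a : Fin N => (a : ℕ) = 0)]
    -- the first row
    have hfirst : ∑ a ∈ (Finset.univ.filter (fun a : Fin N => IsRem κ a)).filter (fun a : Fin N => (a : ℕ) = 0),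
        finrank ℂ (HW m (subE κ a)) ≤ m.choose r * finrank ℂ (HW r (dn26 κ)) := by
      by_cases hrem : IsRem κ ⟨0, h0⟩
      · have h1 : (Finset.univ.filter (fun a : Fin N => IsRem κ a)).filter (fun a : Fin N => (a : ℕ) = 0) =
            {⟨0, h0⟩} := by
          ext a
          rw [Finset.mem_filter, Finset.mem_filter, Finset.mem_singleton, Fin.ext_iff]
          constructor
          · exact fun h2 => h2.2
          · intro h2
            have h3 : a = ⟨0, h0⟩ := Fin.ext h2
            rw [h3]
            exact ⟨⟨Finset.mem_univ _, hrem⟩, rfl⟩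
        rw [h1, Finset.sum_singleton]
        have h2 := ih (by omega) h0 (subE κ ⟨0, h0⟩) (subE_mem h _ hrem) r (by
          have h3 : subE κ ⟨0, h0⟩ ⟨0, h0⟩ = κ ⟨0, h0⟩ - 1 := by
            unfold subE
            rw [if_pos rfl]
          have h4 := hrem.1
          rw [h3]
          omega)
        rwa [dn_subE_zero26] at h2
      · have h1 : (Finset.univ.filter (fun a : Fin N => IsRem κ a)).filter (fun a : Fin N => (a : ℕ) = 0) = ∅ := by
          rw [Finset.eq_empty_iff_forall_notMem]
          intro a ha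
          rw [Finset.mem_filter, Finset.mem_filter] at ha
          have h3 : a = ⟨0, h0⟩ := Fin.ext ha.2
          rw [h3] at ha
          exact hrem ha.1.2
        rw [h1, Finset.sum_empty]
        exact Nat.zero_le _
    rcases Nat.eq_zero_or_pos r with hr0 | hr0
    · -- only one row
      have h1 : (Finset.univ.filter (fun a : Fin N => IsRem κ a)).filter (fun a : Fin N => ¬ (a : ℕ) = 0) = ∅ := by
        rw [Finset.eq_empty_iff_forall_notMem]
        intro a ha
        rw [Finset.mem_filter, Finset.mem_filter] at ha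
        have h2 : κ ⟨0, h0⟩ + κ a ≤ ∑ i, κ i := by
          rw [← Finset.sum_pair (f := κ) (a := (⟨0, h0⟩ : Fin N)) (b := a) (by
            intro h3
            have := congrArg Fin.val h3
            exact ha.2 this.symm)]
          exact Finset.sum_le_sum_of_subset (Finset.subset_univ _)
        have h3 := ha.1.2.1
        rw [h'.2] at h2
        omega
      rw [h1, Finset.sum_empty, add_zero]
      rw [hr0] at hfirst ⊢
      rw [Nat.choose_zero_right] at hfirst ⊢
      exact hfirst
    · obtain ⟨s, rfl⟩ : ∃ s, r = s + 1 := ⟨r - 1, by omega⟩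
      have hrest : ∑ a ∈ (Finset.univ.filter (fun a : Fin N => IsRem κ a)).filter (fun a : Fin N => ¬ (a : ℕ) = 0),
          finrank ℂ (HW m (subE κ a)) ≤ m.choose s * finrank ℂ (HW (s + 1) (dn26 κ)) := by
        have hinj : Set.InjOn (pr26 : Fin N → Fin N)
            ((Finset.univ.filter (fun a : Fin N => IsRem κ a)).filter (fun a : Fin N => ¬ (a : ℕ) = 0) :
              Finset (Fin N)) := by
          intro a ha b hb hab
          rw [Finset.mem_coe, Finset.mem_filter] at ha hb
          have h1 := congrArg Fin.val hab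
          unfold pr26 at h1
          simp only at h1
          have h2 := ha.2
          have h3 := hb.2
          exact Fin.ext (by omega)
        calc ∑ a ∈ (Finset.univ.filter (fun a : Fin N => IsRem κ a)).filter (fun a : Fin N => ¬ (a : ℕ) = 0),
              finrank ℂ (HW m (subE κ a))
            ≤ ∑ a ∈ (Finset.univ.filter (fun a : Fin N => IsRem κ a)).filter (fun a : Fin N => ¬ (a : ℕ) = 0),
              m.choose s * finrank ℂ (HW s (subE (dn26 κ) (pr26 a))) := by
              refine Finset.sum_le_sum fun a ha => ?_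
              rw [Finset.mem_filter, Finset.mem_filter] at ha
              have ha0 : 0 < (a : ℕ) := Nat.pos_of_ne_zero ha.2
              have h2 := ih (by omega) h0 (subE κ a) (subE_mem h _ ha.1.2) s (by
                have h3 : subE κ a ⟨0, h0⟩ = κ ⟨0, h0⟩ := by
                  unfold subE
                  rw [if_neg (by
                    intro h4
                    have := congrArg Fin.val h4
                    simp only at this
                    omega), Nat.sub_zero]
                rw [h3]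
                omega)
              rwa [dn_subE26 κ a ha0] at h2
          _ = m.choose s * ∑ b ∈ ((Finset.univ.filter (fun a : Fin N => IsRem κ a)).filter
                (fun a : Fin N => ¬ (a : ℕ) = 0)).image pr26, finrank ℂ (HW s (subE (dn26 κ) b)) := by
              rw [← Finset.mul_sum, Finset.sum_image hinj]
          _ ≤ m.choose s * ∑ b ∈ Finset.univ.filter (fun b : Fin N => IsRem (dn26 κ) b),
                finrank ℂ (HW s (subE (dn26 κ) b)) := by
              refine Nat.mul_le_mul_left _ (Finset.sum_le_sum_of_subset fun b hb => ?_)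
              rw [Finset.mem_image] at hb
              obtain ⟨a, ha, rfl⟩ := hb
              rw [Finset.mem_filter, Finset.mem_filter] at ha
              rw [Finset.mem_filter]
              exact ⟨Finset.mem_univ _, isRem_dn26 h'.1 hd'.1 a (Nat.pos_of_ne_zero ha.2) ha.1.2⟩
          _ = m.choose s * finrank ℂ (HW (s + 1) (dn26 κ)) := by
              rw [finrank_branch (by omega) hdm]
      have hp := Nat.choose_succ_succ m s
      rw [Nat.succ_eq_add_one, Nat.succ_eq_add_one] at hp
      rw [hp, add_mul]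
      linarith

theorem row_bound {m : ℕ} (hN : m ≤ N) (h0 : 0 < N) {κ : Fin N → ℕ} (h : κ ∈ PP N m) :
    (finrank ℂ (HW m κ)) ^ 2 * (κ ⟨0, h0⟩).factorial ≤ m.choose (κ ⟨0, h0⟩) * m.factorial := by
  have h' := mem_PP.1 h
  have hle : κ ⟨0, h0⟩ ≤ m := by
    rw [← h'.2]
    exact Finset.single_le_sum (fun j _ => Nat.zero_le (κ j)) (Finset.mem_univ _)
  obtain ⟨r, hr⟩ := Nat.exists_eq_add_of_le hle
  have h1 := row26 m hN h0 κ h r hr.symm
  have h2 := sq_le26 (by omega : r ≤ N) (dn_mem26 h0 h r hr.symm)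
  have h3 : m.choose (κ ⟨0, h0⟩) = m.choose r := by
    rw [hr]
    exact Nat.choose_symm_add
  have h4 : m.choose r * (r.factorial * (κ ⟨0, h0⟩).factorial) = m.factorial := by
    have h5 := Nat.choose_mul_factorial_mul_factorial (by omega : r ≤ m)
    have h6 : m - r = κ ⟨0, h0⟩ := by omega
    rw [h6] at h5
    rw [← h5, mul_assoc]
  calc (finrank ℂ (HW m κ)) ^ 2 * (κ ⟨0, h0⟩).factorial
      ≤ (m.choose r * finrank ℂ (HW r (dn26 κ))) ^ 2 * (κ ⟨0, h0⟩).factorial := by gcongr
    _ = m.choose r ^ 2 * (finrank ℂ (HW r (dn26 κ)) ^ 2 * (κ ⟨0, h0⟩).factorial) := by ring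
    _ ≤ m.choose r ^ 2 * (r.factorial * (κ ⟨0, h0⟩).factorial) := by gcongr
    _ = m.choose r * (m.choose r * (r.factorial * (κ ⟨0, h0⟩).factorial)) := by ring
    _ = _ := by rw [h4, h3]

theorem finrank_conjP {m : ℕ} (hN : m ≤ N) {κ : Fin N → ℕ} (h : κ ∈ PP N m) :
    finrank ℂ (HW m (conjP κ)) = finrank ℂ (HW m κ) := by
  obtain ⟨e, -⟩ := lab_tw hN (hw m κ) h ⟨LinearEquiv.refl ℂ _, fun _ _ => rfl⟩
  exact e.finrank_eq.symm

end Pool.Agent.Helper51.TF
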