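import Pool.Agent.Helper51.TF.AL1
import Pool.Agent.Helper51.TN.A6

/-!
BLOCK TF-AL2 (about 200 lines). The typical partition `α` of `m`, with rows and columns at most `8 √m`.

Proof in words. `exists_V` (`TN/A6`) gives an irreducible `U` of `S_m` (`irr_of_simple` in `TN`: irreducible), it has a label `α ∈ PP N m` (`exists_lab`), and all the properties are invariant under isomorphism (`rr (hw m α) g = rr U.ρ g`, equal dimensions: `f = finrank (HW m α)`). `m ≥ 1`, so `0 < N`.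
Let `L = α 0`. `row_bound`: `f² L! ≤ binom(m, L) m! ≤ m! m^L/L!`, and `m! ≤ 10 (m+1) exp (5√m) f²`, so `(L!)² ≤ 10 (m+1) exp (5√m) m^L`. `L! ≥ (L/e)^L` (`Nat.factorial_lt`..., Mathlib: `Real.add_pow_le_pow_mul_pow_of_add_eq_one`.. or `exp L ≥ L^L/L!`: `Real.pow_div_factorial_le_exp`): if `L > 8 √m` then
`(L!)² ≥ (L/e)^{2L} ≥ (64 m/e²)^L ≥ (8.6 m)^L`, `8.6^L ≤ 10 (m+1) exp (5 √m)` while `8.6^L ≥ exp (2.15 * 8 √m) = exp (17.2 √m)`: false for large `m`. So `L ≤ 8 √m`, and `α i ≤ α 0`. The same for `conjP α` (`conjP_mem`, `finrank_conjP`).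
-/

set_option autoImplicit false

open Module Equiv CategoryTheory Pool.Agent.Helper1.TS Pool.Agent.Helper70.TU Pool.Agent.Helper51.TN

namespace Pool.Agent.Helper51.TF

private theorem num30 {m L : ℕ} (hm : 1 ≤ m)
    (h : ((L.factorial : ℕ) : ℝ) ^ 2 ≤ 10 * (m + 1) * Real.exp (5 * Real.sqrt m) * (m : ℝ) ^ L) :
    (L : ℝ) ≤ 8 * Real.sqrt m := by
  by_contra hlt
  push Not at hlt
  have hmR : (1 : ℝ) ≤ m := by exact_mod_cast hm
  have hs0 : 0 ≤ Real.sqrt m := Real.sqrt_nonneg _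
  have hsq : Real.sqrt m * Real.sqrt m = m := Real.mul_self_sqrt (by linarith)
  have hL0 : (0 : ℝ) ≤ L := Nat.cast_nonneg _
  have hL2 : 64 * (m : ℝ) ≤ (L : ℝ) ^ 2 := by nlinarith
  have hfac : (0 : ℝ) < ((L.factorial : ℕ) : ℝ) := by exact_mod_cast L.factorial_pos
  have h1 := Real.pow_div_factorial_le_exp (L : ℝ) hL0 L
  rw [div_le_iff₀ hfac] at h1
  have h2 : (L : ℝ) ^ L * (L : ℝ) ^ L ≤ (Real.exp L * ((L.factorial : ℕ) : ℝ)) * (Real.exp L * ((L.factorial : ℕ) : ℝ)) :=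
    mul_le_mul h1 h1 (by positivity) (by positivity)
  have h3 : (64 * (m : ℝ)) ^ L ≤ (L : ℝ) ^ L * (L : ℝ) ^ L := by
    calc (64 * (m : ℝ)) ^ L ≤ ((L : ℝ) ^ 2) ^ L := pow_le_pow_left₀ (by positivity) hL2 L
      _ = (L : ℝ) ^ L * (L : ℝ) ^ L := by rw [← pow_mul, ← pow_add, two_mul]
  have he4 : Real.exp 4 ≤ 64 := by
    have h4 : Real.exp 4 = Real.exp 1 ^ 4 := by
      rw [← Real.exp_nat_mul]
      norm_num
    have h5 : Real.exp 1 < 2.7182818286 := Real.exp_one_lt_d9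
    rw [h4]
    calc Real.exp 1 ^ 4 ≤ 2.7182818286 ^ 4 := pow_le_pow_left₀ (Real.exp_pos 1).le h5.le 4
      _ ≤ 64 := by norm_num
  have h4 : Real.exp (4 * L) ≤ 64 ^ L := by
    have h5 : Real.exp (4 * L) = Real.exp 4 ^ L := by
      rw [← Real.exp_nat_mul]
      congr 1
      ring
    rw [h5]
    exact pow_le_pow_left₀ (Real.exp_pos 4).le he4 L
  have hmL : (0 : ℝ) < (m : ℝ) ^ L := by positivity
  have h5 : Real.exp (4 * L) * (m : ℝ) ^ L ≤
      Real.exp (2 * L) * (10 * (m + 1) * Real.exp (5 * Real.sqrt m) * (m : ℝ) ^ L) := by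
    calc Real.exp (4 * L) * (m : ℝ) ^ L ≤ 64 ^ L * (m : ℝ) ^ L := mul_le_mul_of_nonneg_right h4 hmL.le
      _ = (64 * (m : ℝ)) ^ L := by rw [mul_pow]
      _ ≤ (L : ℝ) ^ L * (L : ℝ) ^ L := h3
      _ ≤ (Real.exp L * ((L.factorial : ℕ) : ℝ)) * (Real.exp L * ((L.factorial : ℕ) : ℝ)) := h2
      _ = Real.exp (2 * L) * ((L.factorial : ℕ) : ℝ) ^ 2 := by
          have h6 : Real.exp (2 * L) = Real.exp L * Real.exp L := by
            rw [← Real.exp_add]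
            congr 1
            ring
          rw [h6]
          ring
      _ ≤ _ := mul_le_mul_of_nonneg_left h (Real.exp_pos _).le
  have h6 : Real.exp (4 * L) ≤ Real.exp (2 * L) * (10 * (m + 1) * Real.exp (5 * Real.sqrt m)) := by
    have h7 : Real.exp (4 * L) * (m : ℝ) ^ L ≤
        (Real.exp (2 * L) * (10 * (m + 1) * Real.exp (5 * Real.sqrt m))) * (m : ℝ) ^ L := by
      refine h5.trans (le_of_eq ?_)
      ring
    exact le_of_mul_le_mul_right h7 hmL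
  have h7 : Real.exp (11 * Real.sqrt m) * Real.exp (2 * L + 5 * Real.sqrt m) ≤ Real.exp (4 * L) := by
    rw [← Real.exp_add]
    apply Real.exp_le_exp.2
    linarith
  have h8 : Real.exp (11 * Real.sqrt m) ≤ 10 * (m + 1) := by
    have h9 : Real.exp (2 * L) * (10 * (m + 1) * Real.exp (5 * Real.sqrt m)) =
        10 * (m + 1) * Real.exp (2 * L + 5 * Real.sqrt m) := by
      rw [Real.exp_add]
      ring
    rw [h9] at h6
    exact le_of_mul_le_mul_right (h7.trans h6) (Real.exp_pos _)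
  have h9 := Real.pow_div_factorial_le_exp (11 * Real.sqrt m) (by positivity) 2
  have h10 : (11 * Real.sqrt m) ^ 2 / ((Nat.factorial 2 : ℕ) : ℝ) = 60.5 * m := by
    have h11 : ((Nat.factorial 2 : ℕ) : ℝ) = 2 := by norm_num [Nat.factorial]
    rw [h11]
    calc (11 * Real.sqrt m) ^ 2 / 2 = 60.5 * (Real.sqrt m * Real.sqrt m) := by ring
      _ = 60.5 * m := by rw [hsq]
  rw [h10] at h9
  linarith

private theorem row30 {m N : ℕ} (hm : 1 ≤ m) (hN : m ≤ N) {κ : Fin N → ℕ} (h : κ ∈ PP N m)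
    (hf : (m.factorial : ℝ) ≤ 10 * (m + 1) * Real.exp (5 * Real.sqrt m) * (finrank ℂ (HW m κ) : ℝ) ^ 2) :
    ∀ i, (κ i : ℝ) ≤ 8 * Real.sqrt m := by
  intro i
  have h0 : 0 < N := by omega
  have hle : κ i ≤ κ ⟨0, h0⟩ := (mem_PP.1 h).1 (Fin.mk_le_of_le_val (Nat.zero_le _))
  have hleR : (κ i : ℝ) ≤ κ ⟨0, h0⟩ := by exact_mod_cast hle
  refine hleR.trans (num30 hm ?_)
  obtain ⟨L, hL⟩ : ∃ L, L = κ ⟨0, h0⟩ := ⟨_, rfl⟩
  have h1 := row_bound hN h0 h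
  rw [← hL] at h1 ⊢
  have h2 : ((finrank ℂ (HW m κ) : ℕ) : ℝ) ^ 2 * ((L.factorial : ℕ) : ℝ) ≤
      ((m.choose L : ℕ) : ℝ) * ((m.factorial : ℕ) : ℝ) := by exact_mod_cast h1
  have h3 : ((m.choose L : ℕ) : ℝ) * ((L.factorial : ℕ) : ℝ) ≤ (m : ℝ) ^ L := by
    have h4 := Nat.choose_le_pow_div (α := ℝ) L m
    have h5 : (0 : ℝ) < ((L.factorial : ℕ) : ℝ) := by exact_mod_cast L.factorial_pos
    rwa [le_div_iff₀ h5] at h4
  have hm0 : (0 : ℝ) < ((m.factorial : ℕ) : ℝ) := by exact_mod_cast m.factorial_pos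
  have hf0 : (0 : ℝ) < ((finrank ℂ (HW m κ) : ℕ) : ℝ) ^ 2 := by
    have h4 : (0 : ℝ) < 10 * (m + 1) * Real.exp (5 * Real.sqrt m) * (finrank ℂ (HW m κ) : ℝ) ^ 2 := hm0.trans_le hf
    exact (mul_pos_iff_of_pos_left (by positivity)).1 h4
  have h4 : ((finrank ℂ (HW m κ) : ℕ) : ℝ) ^ 2 * ((L.factorial : ℕ) : ℝ) ^ 2 ≤
      ((finrank ℂ (HW m κ) : ℕ) : ℝ) ^ 2 * (10 * (m + 1) * Real.exp (5 * Real.sqrt m) * (m : ℝ) ^ L) := by
    calc ((finrank ℂ (HW m κ) : ℕ) : ℝ) ^ 2 * ((L.factorial : ℕ) : ℝ) ^ 2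
        = (((finrank ℂ (HW m κ) : ℕ) : ℝ) ^ 2 * ((L.factorial : ℕ) : ℝ)) * ((L.factorial : ℕ) : ℝ) := by ring
      _ ≤ (((m.choose L : ℕ) : ℝ) * ((m.factorial : ℕ) : ℝ)) * ((L.factorial : ℕ) : ℝ) :=
          mul_le_mul_of_nonneg_right h2 (by positivity)
      _ = (((m.choose L : ℕ) : ℝ) * ((L.factorial : ℕ) : ℝ)) * ((m.factorial : ℕ) : ℝ) := by ring
      _ ≤ (m : ℝ) ^ L * (10 * (m + 1) * Real.exp (5 * Real.sqrt m) * (finrank ℂ (HW m κ) : ℝ) ^ 2) :=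
          mul_le_mul h3 hf (by positivity) (by positivity)
      _ = _ := by ring
  exact le_of_mul_le_mul_left h4 hf0

private theorem rr30 {m : ℕ} {V W : Type} [AddCommGroup V] [Module ℂ V] [FiniteDimensional ℂ V] [AddCommGroup W]
    [Module ℂ W] [FiniteDimensional ℂ W] {ρ : Representation ℂ (Perm (Fin m)) V}
    {σ : Representation ℂ (Perm (Fin m)) W} (h : Iso ρ σ) (g : Perm (Fin m)) : rr σ g = rr ρ g := by
  obtain ⟨e, he⟩ := h
  have h1 : σ g = e.conj (ρ g) := by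
    refine LinearMap.ext fun w => ?_
    rw [LinearEquiv.conj_apply_apply, he, e.apply_symm_apply]
  have h2 : σ.character g = ρ.character g := by
    unfold Representation.character
    rw [h1, LinearMap.trace_conj']
  unfold rr
  rw [h2, e.finrank_eq]

theorem exists_alpha : ∃ M : ℕ, ∀ m ≥ M, ∀ N ≥ m, ∃ α : Fin N → ℕ, α ∈ PP N m ∧
    (∀ s : ℕ, 1 ≤ s →
      ∑ g ∈ Finset.univ.filter (fun g : Perm (Fin m) => g.support.card = s), (rr (hw m α) g) ^ 2 ≤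
        240 * Real.exp (6 * Real.sqrt s)) ∧
    (m.factorial : ℝ) ≤ 10 * (m + 1) * Real.exp (5 * Real.sqrt m) * (finrank ℂ (HW m α) : ℝ) ^ 2 ∧
    (∀ i, (α i : ℝ) ≤ 8 * Real.sqrt m) ∧ ∀ j, (conjP α j : ℝ) ≤ 8 * Real.sqrt m := by
  obtain ⟨N₀, hN₀⟩ := exists_V
  refine ⟨max N₀ 1, fun m hm N hN => ?_⟩
  have hm1 : 1 ≤ m := (le_max_right _ _).trans hm
  obtain ⟨U, hU, h1, h2, -⟩ := hN₀ m ((le_max_left _ _).trans hm)
  have hirr := irr_of_simple U hU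
  obtain ⟨α, hα, hlab⟩ := exists_lab hN U.ρ
  have hfr : finrank ℂ (HW m α) = finrank ℂ U := hlab.choose.finrank_eq.symm
  have h3 : (m.factorial : ℝ) ≤ 10 * (m + 1) * Real.exp (5 * Real.sqrt m) * (finrank ℂ (HW m α) : ℝ) ^ 2 := by
    rw [hfr]
    exact h2
  refine ⟨α, hα, ?_, h3, row30 hm1 hN hα h3, row30 hm1 hN (conjP_mem hN hα) ?_⟩
  · intro s hs
    refine le_trans (le_of_eq ?_) (h1 s hs)
    refine Finset.sum_congr rfl fun g _ => ?_
    rw [rr30 hlab g]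
  · rw [finrank_conjP hN hα]
    exact h3

end Pool.Agent.Helper51.TF
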