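import Mathlib

/-!
BLOCK TF-X7 (about 150 lines). Symmetric subsets and a numerical inequality. Only Mathlib.

Proof in words.
* `card_symm_le`: `C = -C`. Let `C⁺ = {a ∈ C : 0 < a}`. A subset `J = -J` of `C` with `e` elements is determined by `J ∩ C⁺`: `J = (J ∩ C⁺) ∪ -(J ∩ C⁺) ∪ (J ∩ {0})`, `e = 2 |J ∩ C⁺| + [0 ∈ J]`, so `|J ∩ C⁺| = e/2` and the parity of `e` says whether `0 ∈ J`. `|C⁺| ≤ |C|/2`. So there are at most
  `binom(|C⁺|, e/2) ≤ binom(|C|/2, e/2)` such `J`.
* `choose_half`: `4 binom(c/2, d/2) ≤ binom(c, d)` for `1 ≤ d`, `d + 6 ≤ c`. Vandermonde: `binom(c, d) ≥ binom(c/2, d/2) binom(c - c/2, d - d/2)` (one term of `Nat.add_choose_eq`), and `binom(a, b) ≥ a ≥ 4` for `1 ≤ b ≤ a - 1`, `a = c - c/2 ≥ 4`, `b = d - d/2`.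
* `num_tw`: `d = e + 1`. `binom(c, d) d! = (c - d + 1) binom(c, d-1) (d-1)! ≥ 7 binom(c, d-1) (d-1)!`. Right side `≥ (3/4) binom(c,d) d! ≥ (21/4) binom(c,d-1) (d-1)!`; left side `≤ 2 binom(c, d-1) (d-1)!` (`binom(c/2, (d-1)/2) ≤ binom(c, d-1)`).
-/

set_option autoImplicit false

namespace Pool.Agent.Helper51.TF

open Classical in
private theorem symm_card6 (S : Finset ℝ) (hS : ∀ a ∈ S, -a ∈ S) :
    S.card = 2 * (S.filter (fun x => 0 < x)).card + if (0 : ℝ) ∈ S then 1 else 0 := by
  have h1 : S.card = (S.filter (fun x => 0 < x)).card + (S.filter (fun x => x < 0)).card +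
      (S.filter (fun x => x = 0)).card := by
    have hu : S = ((S.filter (fun x => 0 < x)) ∪ (S.filter (fun x => x < 0))) ∪ (S.filter (fun x => x = 0)) := by
      ext x
      simp only [Finset.mem_union, Finset.mem_filter]
      constructor
      · intro hx
        rcases lt_trichotomy 0 x with h | h | h
        · exact Or.inl (Or.inl ⟨hx, h⟩)
        · exact Or.inr ⟨hx, h.symm⟩
        · exact Or.inl (Or.inr ⟨hx, h⟩)
      · rintro ((h | h) | h) <;> exact h.1
    conv_lhs => rw [hu]
    rw [Finset.card_union_of_disjoint, Finset.card_union_of_disjoint]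
    · rw [Finset.disjoint_left]
      intro x hx hx'
      have h2 := (Finset.mem_filter.1 hx).2
      have h3 := (Finset.mem_filter.1 hx').2
      linarith
    · rw [Finset.disjoint_left]
      intro x hx hx'
      have h3 := (Finset.mem_filter.1 hx').2
      rcases Finset.mem_union.1 hx with h | h
      · have h2 := (Finset.mem_filter.1 h).2
        linarith
      · have h2 := (Finset.mem_filter.1 h).2
        linarith
  have h2 : (S.filter (fun x => x < 0)).card = (S.filter (fun x => 0 < x)).card := by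
    refine Finset.card_nbij' (fun x => -x) (fun x => -x) ?_ ?_ ?_ ?_
    · intro x hx
      have hx' := Finset.mem_filter.1 (Finset.mem_coe.1 hx)
      refine Finset.mem_coe.2 (Finset.mem_filter.2 ⟨hS x hx'.1, ?_⟩)
      have := hx'.2
      change 0 < -x
      linarith
    · intro x hx
      have hx' := Finset.mem_filter.1 (Finset.mem_coe.1 hx)
      refine Finset.mem_coe.2 (Finset.mem_filter.2 ⟨hS x hx'.1, ?_⟩)
      have := hx'.2
      change -x < 0
      linarith
    · intro x _
      exact neg_neg x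
    · intro x _
      exact neg_neg x
  have h3 : (S.filter (fun x => x = 0)).card = if (0 : ℝ) ∈ S then 1 else 0 := by
    rw [Finset.filter_eq']
    split_ifs
    · exact Finset.card_singleton _
    · exact Finset.card_empty
  rw [h1, h2, h3]
  ring

open Classical in
private theorem symm_mem6 {J : Finset ℝ} (h : J.image (fun x => -x) = J) : ∀ a ∈ J, -a ∈ J := by
  intro a ha
  have h1 : -a ∈ J.image (fun x => -x) := Finset.mem_image_of_mem _ ha
  rwa [h] at h1

private theorem vand6 (c d : ℕ) :
    (c / 2).choose (d / 2) * (c - c / 2).choose (d - d / 2) ≤ c.choose d := by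
  have h1 : c / 2 + (c - c / 2) = c := by omega
  have h2 := Nat.add_choose_eq (c / 2) (c - c / 2) d
  rw [h1] at h2
  rw [h2]
  refine Finset.single_le_sum (f := fun ij : ℕ × ℕ => (c / 2).choose ij.1 * (c - c / 2).choose ij.2)
    (fun _ _ => Nat.zero_le _) (a := (d / 2, d - d / 2)) ?_
  refine Finset.HasAntidiagonal.mem_antidiagonal.2 ?_
  change d / 2 + (d - d / 2) = d
  omega

private theorem choose_ge6 (a b : ℕ) (hb : 1 ≤ b) (hb' : b + 1 ≤ a) : a ≤ a.choose b := by
  induction a generalizing b with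
  | zero => omega
  | succ a ih =>
    obtain ⟨b, rfl⟩ : ∃ b', b = b' + 1 := ⟨b - 1, by omega⟩
    rw [Nat.choose_succ_succ]
    rcases Nat.lt_or_ge (b + 1 + 1) (a + 1) with h | h
    · have h1 := ih (b + 1) (by omega) (by omega)
      have h2 : 0 < a.choose b := Nat.choose_pos (by omega)
      change a + 1 ≤ a.choose b + a.choose (b + 1)
      omega
    · have h3 : b + 1 = a := by omega
      subst h3
      rw [Nat.choose_self, Nat.choose_succ_self_right]

open Classical in
theorem card_symm_le (C : Finset ℝ) (hC : ∀ a ∈ C, -a ∈ C) (e : ℕ) :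
    ((C.powersetCard e).filter (fun J => J.image (fun x => -x) = J)).card ≤ (C.card / 2).choose (e / 2) := by
  have h1 : ((C.filter (fun x => 0 < x)).powersetCard (e / 2)).card ≤ (C.card / 2).choose (e / 2) := by
    rw [Finset.card_powersetCard]
    refine Nat.choose_le_choose _ ?_
    have := symm_card6 C hC
    split_ifs at this <;> omega
  refine le_trans (Finset.card_le_card_of_injOn (fun J => J.filter (fun x => 0 < x)) ?_ ?_) h1
  · intro J hJ
    have hJ' := Finset.mem_filter.1 (Finset.mem_coe.1 hJ)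
    have hJ1 := Finset.mem_powersetCard.1 hJ'.1
    refine Finset.mem_coe.2 (Finset.mem_powersetCard.2 ⟨?_, ?_⟩)
    · intro x hx
      have hx' := Finset.mem_filter.1 hx
      exact Finset.mem_filter.2 ⟨hJ1.1 hx'.1, hx'.2⟩
    · have h2 := symm_card6 J (symm_mem6 hJ'.2)
      rw [hJ1.2] at h2
      change (J.filter (fun x => 0 < x)).card = e / 2
      split_ifs at h2 <;> omega
  · intro J hJ J' hJ' hJJ
    have hJ1 := Finset.mem_filter.1 (Finset.mem_coe.1 hJ)
    have hJ2 := Finset.mem_filter.1 (Finset.mem_coe.1 hJ')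
    have hc := symm_card6 J (symm_mem6 hJ1.2)
    have hc' := symm_card6 J' (symm_mem6 hJ2.2)
    rw [(Finset.mem_powersetCard.1 hJ1.1).2] at hc
    rw [(Finset.mem_powersetCard.1 hJ2.1).2] at hc'
    have hJJ' : J.filter (fun x => 0 < x) = J'.filter (fun x => 0 < x) := hJJ
    rw [hJJ'] at hc
    have h0 : (0 : ℝ) ∈ J ↔ (0 : ℝ) ∈ J' := by
      by_cases h : (0 : ℝ) ∈ J <;> by_cases h' : (0 : ℝ) ∈ J' <;> simp only [h, h', if_true, if_false] at hc hc' ⊢ <;> omega
    have hpos : ∀ x : ℝ, 0 < x → (x ∈ J ↔ x ∈ J') := by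
      intro x hx
      have h2 : x ∈ J.filter (fun x => 0 < x) ↔ x ∈ J'.filter (fun x => 0 < x) := by rw [hJJ']
      rw [Finset.mem_filter, Finset.mem_filter] at h2
      constructor
      · intro h
        exact (h2.1 ⟨h, hx⟩).1
      · intro h
        exact (h2.2 ⟨h, hx⟩).1
    ext x
    rcases lt_trichotomy 0 x with h | h | h
    · exact hpos x h
    · rw [← h]
      exact h0
    · have h3 := hpos (-x) (by linarith)
      constructor
      · intro hx
        have h4 := symm_mem6 hJ2.2 _ (h3.1 (symm_mem6 hJ1.2 _ hx))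
        rwa [neg_neg] at h4
      · intro hx
        have h4 := symm_mem6 hJ1.2 _ (h3.2 (symm_mem6 hJ2.2 _ hx))
        rwa [neg_neg] at h4

theorem choose_half (c d : ℕ) (hd : 1 ≤ d) (hc : d + 6 ≤ c) : 4 * (c / 2).choose (d / 2) ≤ c.choose d := by
  refine le_trans ?_ (vand6 c d)
  rw [mul_comm]
  refine Nat.mul_le_mul_left _ ?_
  exact le_trans (by omega) (choose_ge6 (c - c / 2) (d - d / 2) (by omega) (by omega))

theorem num_tw (c e : ℕ) (hc : e + 1 + 6 ≤ c) :
    (c.choose e + (c / 2).choose (e / 2)) * e.factorial + (c / 2).choose ((e + 1) / 2) * (e + 1).factorial <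
      c.choose (e + 1) * (e + 1).factorial := by
  have h1 := choose_half c (e + 1) (by omega) hc
  have h2 : (c / 2).choose (e / 2) ≤ c.choose e := by
    refine le_trans ?_ (vand6 c e)
    refine Nat.le_mul_of_pos_right _ (Nat.choose_pos (by omega))
  have h3 : c.choose (e + 1) * (e + 1) = c.choose e * (c - e) := Nat.choose_succ_right_eq c e
  have h4 : 7 * c.choose e ≤ c.choose (e + 1) * (e + 1) := by
    rw [h3, mul_comm]
    exact Nat.mul_le_mul_left _ (by omega)
  have hf : (e + 1).factorial = (e + 1) * e.factorial := Nat.factorial_succ e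
  have hfp : 0 < e.factorial := Nat.factorial_pos e
  have hcp : 0 < c.choose (e + 1) := Nat.choose_pos (by omega)
  have h5 : 4 * ((c / 2).choose ((e + 1) / 2) * (e + 1)) ≤ c.choose (e + 1) * (e + 1) := by
    have := Nat.mul_le_mul_right (e + 1) h1
    linarith
  have h6 : c.choose e + (c / 2).choose (e / 2) + (c / 2).choose ((e + 1) / 2) * (e + 1) <
      c.choose (e + 1) * (e + 1) := by
    have hpos : 0 < c.choose (e + 1) * (e + 1) := Nat.mul_pos hcp (Nat.succ_pos e)
    omega
  have h7 := Nat.mul_lt_mul_of_pos_right h6 hfp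
  rw [hf]
  calc _ = (c.choose e + (c / 2).choose (e / 2) + (c / 2).choose ((e + 1) / 2) * (e + 1)) * e.factorial := by ring
    _ < _ := h7
    _ = _ := by ring

end Pool.Agent.Helper51.TF
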