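import Pool.Agent.Helper51.TF.X6
import Pool.Agent.Helper51.TF.X7

/-!
BLOCK TF-X8 (about 120 lines). Columns, small depth.

Proof in words (compare `shallow_of_lt`, `lt_of_real` in `TN/B8.lean`). `d = e + 1`, `τ = rhoE θ hd.1`, `E = inv θ (TT n d)`, `D = finrank E > 0` (`depth_pos_finrank`). By `finrank_block_tw`, `card_symm_le` (`CC_neg`) and `num_tw` (times `D/2`) `finrank HomE(d-1) < finrank HomE(d)` with `P = PiE ρ hd.1 ∘ pt θ₀ ε`, `P' = PiE ρ _ ∘ pt θ₀ ε`.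
`HomE_le_NM` (`TF/E6`), hypothesis `hQ`: if `P z = z` then `pt θ₀ ε z = z` and `PiE z = z` (as `pe_of_proj`, `PiE_of_proj`: `PiE_pt`, `pt_idem`, `PiE_idem`), `pt_qq` and `image_block` (`TN/B6`). So `0 < finrank (NM hd.1 τ (bil ρ) P)`, and `NM (P) ≤ NM (pt θ₀ ε)`. `of_new_tw`.
-/

set_option autoImplicit false

open Module Equiv Pool.Agent.Helper1.TS Pool.Agent.Helper70.TU Pool.Agent.Helper51.TN

namespace Pool.Agent.Helper51.TF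

private theorem pt_of_proj_h12 {n : ℕ} {V : Type} [AddCommGroup V] [Module ℂ V] [FiniteDimensional ℂ V]
    (ρ : Representation ℂ (Perm (Fin n)) V) {θ₀ : V →ₗ[ℂ] V} (hθ₀ : IsTw ρ θ₀) {e : ℕ} (h : e ≤ n) (ε : ℂ)
    (hε : ε ^ 2 = 1) (b : Bil V) (hb : PiE ρ h (pt θ₀ ε b) = b) : pt θ₀ ε b = b := by
  have h1 : pt θ₀ ε (PiE ρ h (pt θ₀ ε b)) = PiE ρ h (pt θ₀ ε b) := by
    rw [← PiE_pt hθ₀, pt_idem hθ₀ ε hε]
  rwa [hb] at h1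

private theorem PiE_of_proj_h12 {n : ℕ} {V : Type} [AddCommGroup V] [Module ℂ V] [FiniteDimensional ℂ V]
    (ρ : Representation ℂ (Perm (Fin n)) V) (θ₀ : V →ₗ[ℂ] V) {e : ℕ} (h : e ≤ n) (ε : ℂ)
    (b : Bil V) (hb : PiE ρ h (pt θ₀ ε b) = b) : PiE ρ h b = b := by
  have h1 : PiE ρ h (PiE ρ h (pt θ₀ ε b)) = PiE ρ h (pt θ₀ ε b) := PiE_idem ρ h _
  rwa [hb] at h1

theorem cols_small {n d : ℕ} {V : Type} [AddCommGroup V] [Module ℂ V] [FiniteDimensional ℂ V]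
    (ρ : Representation ℂ (Perm (Fin n)) V) [ρ.IsIrreducible] {θ₀ : V →ₗ[ℂ] V} (hθ₀ : IsTw ρ θ₀)
    {W : Type*} [AddCommGroup W] [Module ℂ W] [FiniteDimensional ℂ W] (θ : Representation ℂ (Perm (Fin n)) W)
    [θ.IsIrreducible] (hd : IsDepth θ d) (h1 : 1 ≤ d) (hc : d + 6 ≤ (CC ρ).card) (ε : ℝ) (hε : ε ^ 2 = 1) :
    ∑ g : Perm (Fin n), (ρ.character g ^ 2 + (ε : ℂ) * ρ.character (g ^ 2)) / 2 * (tw θ).character g⁻¹ ≠ 0 := by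
  classical
  obtain ⟨e, rfl⟩ : ∃ e, d = e + 1 := ⟨d - 1, by omega⟩
  have hε' : (ε : ℂ) ^ 2 = 1 := by exact_mod_cast hε
  have hD : 0 < finrank ℂ (inv θ (TT n (e + 1))) := by
    rw [Module.finrank_pos_iff, Submodule.nontrivial_iff_ne_bot]
    exact hd.2.1
  have h' : e ≤ n := (Nat.le_succ e).trans hd.1
  have b1 := finrank_block_tw ρ hθ₀ hd.1 (rhoE θ hd.1) ε hε
  have b0 := finrank_block_tw ρ hθ₀ h' ((rhoE θ hd.1).comp (jD (Nat.le_succ e))) ε hε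
  have c1 := card_symm_le (CC ρ) (CC_neg hθ₀) (e + 1)
  have c0 := card_symm_le (CC ρ) (CC_neg hθ₀) e
  have hnum := num_tw (CC ρ).card e hc
  have hlt : finrank ℂ (HomE h' ((rhoE θ hd.1).comp (jD (Nat.le_succ e))) (bil ρ)
        (PiE ρ h' ∘ₗ pt θ₀ (ε : ℂ))) <
      finrank ℂ (HomE hd.1 (rhoE θ hd.1) (bil ρ) (PiE ρ hd.1 ∘ₗ pt θ₀ (ε : ℂ))) := by
    obtain ⟨D, hDe⟩ : ∃ D : ℕ, D = finrank ℂ (inv θ (TT n (e + 1))) := ⟨_, rfl⟩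
    obtain ⟨F1, hF1⟩ : ∃ F : ℕ, F = finrank ℂ (HomE hd.1 (rhoE θ hd.1) (bil ρ)
      (PiE ρ hd.1 ∘ₗ pt θ₀ (ε : ℂ))) := ⟨_, rfl⟩
    obtain ⟨F0, hF0⟩ : ∃ F : ℕ, F = finrank ℂ (HomE h' ((rhoE θ hd.1).comp (jD (Nat.le_succ e))) (bil ρ)
        (PiE ρ h' ∘ₗ pt θ₀ (ε : ℂ))) := ⟨_, rfl⟩
    rw [← hF1, ← hDe] at b1
    rw [← hF0, ← hDe] at b0
    rw [← hF1, ← hF0]
    rw [← hDe] at hD
    have hD' : (0 : ℝ) < D := by exact_mod_cast hD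
    have g1 := (abs_le.1 b1).1
    have g0 := (abs_le.1 b0).2
    have c1' := mul_le_mul_of_nonneg_right (Nat.cast_le (α := ℝ).2 c1)
      (by positivity : (0 : ℝ) ≤ (e + 1).factorial * D)
    have c0' := mul_le_mul_of_nonneg_right (Nat.cast_le (α := ℝ).2 c0)
      (by positivity : (0 : ℝ) ≤ e.factorial * D)
    have hnum' : (((CC ρ).card.choose e : ℝ) + ((CC ρ).card / 2).choose (e / 2)) * e.factorial +
        ((CC ρ).card / 2).choose ((e + 1) / 2) * (e + 1).factorial <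
        (CC ρ).card.choose (e + 1) * (e + 1).factorial := by exact_mod_cast hnum
    have hnum2 := mul_lt_mul_of_pos_right hnum' hD'
    have hfin : (F0 : ℝ) < F1 := by
      nlinarith [c1', c0', g1, g0, hnum2]
    exact_mod_cast hfin
  have hQ : ∀ z ∈ inv (bil ρ) (TT n (e + 1)), (PiE ρ hd.1 ∘ₗ pt θ₀ (ε : ℂ)) z = z →
      (PiE ρ h' ∘ₗ pt θ₀ (ε : ℂ)) (qq (bil ρ) (TT n (e + 1)) ⟨e, hd.1⟩ z) =
        qq (bil ρ) (TT n (e + 1)) ⟨e, hd.1⟩ z := by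
    intro z hz hPz
    have k1 : pt θ₀ (ε : ℂ) z = z := pt_of_proj_h12 ρ hθ₀ hd.1 (ε : ℂ) hε' z hPz
    have k2 : PiE ρ hd.1 z = z := PiE_of_proj_h12 ρ θ₀ hd.1 (ε : ℂ) z hPz
    rw [LinearMap.comp_apply, pt_qq hθ₀, k1]
    exact image_block ρ hd.1 z hz k2
  have hNM := HomE_le_NM hd.1 (rhoE θ hd.1) (bil ρ) (PiE ρ hd.1 ∘ₗ pt θ₀ (ε : ℂ))
    (PiE ρ h' ∘ₗ pt θ₀ (ε : ℂ)) hQ
  have hle : NM hd.1 (rhoE θ hd.1) (bil ρ) (PiE ρ hd.1 ∘ₗ pt θ₀ (ε : ℂ)) ≤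
      NM hd.1 (rhoE θ hd.1) (bil ρ) (pt θ₀ (ε : ℂ)) := by
    intro f hf
    rw [mem_NM] at hf ⊢
    exact ⟨hf.1, hf.2.1, fun v => pt_of_proj_h12 ρ hθ₀ hd.1 (ε : ℂ) hε' (f v) (hf.2.2 v)⟩
  have hfr := Submodule.finrank_mono hle
  refine of_new_tw hθ₀ (ε : ℂ) hε' θ hd ?_
  omega

end Pool.Agent.Helper51.TF
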