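import Pool.Agent.Helper51.TF.CM1
import Pool.Agent.Helper51.TF.X8

/-!
BLOCK TF-CM (about 80 lines). All columns.

Proof in words. `θ = tw W.ρ` is irreducible (a subspace is stable for `tw ρ` iff it is stable for `ρ`; `irr_of_simple`), `(tw θ).character g⁻¹ = W.character g⁻¹` (two signs). `δ` from `cols_med`. If `d + 6 ≤ |CC|`: `cols_small` (`TF/X8`) with `θ₀` from `exists_tw`. Otherwise `d ≥ |CC| - 5 ≥ √n - 5 ≥ √n/2` for `n ≥ 100`: `cols_med`.
-/

set_option autoImplicit false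

open Module Equiv CategoryTheory Pool.Agent.Helper1.TS Pool.Agent.Helper70.TU Pool.Agent.Helper51.TN

namespace Pool.Agent.Helper51.TF

private theorem sgn_sq19 {m : ℕ} (g : Perm (Fin m)) :
    ((Perm.sign g : ℤ) : ℂ) * ((Perm.sign g : ℤ) : ℂ) = 1 := by
  rw [← Int.cast_mul, Int.units_coe_mul_self, Int.cast_one]

private theorem tw_irr19 {m : ℕ} {V : Type} [AddCommGroup V] [Module ℂ V]
    (ρ : Representation ℂ (Perm (Fin m)) V) (hirr : ρ.IsIrreducible) : (tw ρ).IsIrreducible := by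
  have hnt0 : Nontrivial (Subrepresentation ρ) := hirr.toNontrivial
  have hnt : Nontrivial (Subrepresentation (tw ρ)) := by
    refine ⟨⟨⊥, ⊤, fun h0 => ?_⟩⟩
    have h1 : (⊥ : Submodule ℂ V) = ⊤ := congrArg Subrepresentation.toSubmodule h0
    have h2 : (⊥ : Subrepresentation ρ) = ⊤ := Subrepresentation.toSubmodule_injective h1
    exact bot_ne_top h2
  refine @IsSimpleOrder.mk _ _ _ hnt (fun A => ?_)
  have hA : ∀ (g : Perm (Fin m)) (v : V), v ∈ A.toSubmodule → ρ g v ∈ A.toSubmodule := by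
    intro g v hv
    have h1 := A.apply_mem_toSubmodule g hv
    rw [tw_apply] at h1
    have h2 := A.toSubmodule.smul_mem ((Perm.sign g : ℤ) : ℂ) h1
    rwa [smul_smul, sgn_sq19, one_smul] at h2
  rcases hirr.eq_bot_or_eq_top (⟨A.toSubmodule, hA⟩ : Subrepresentation ρ) with h | h
  · left
    have h' : A.toSubmodule = ⊥ :=
      congrArg (Subrepresentation.toSubmodule (ρ := ρ)) h
    exact Subrepresentation.toSubmodule_injective h'
  · right
    have h' : A.toSubmodule = ⊤ :=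
      congrArg (Subrepresentation.toSubmodule (ρ := ρ)) h
    exact Subrepresentation.toSubmodule_injective h'

private theorem tw_tw19 {m : ℕ} {V : Type} [AddCommGroup V] [Module ℂ V]
    (ρ : Representation ℂ (Perm (Fin m)) V) (g : Perm (Fin m)) : (tw (tw ρ)).character g = ρ.character g := by
  unfold Representation.character
  have h1 : tw (tw ρ) g = ρ g := by
    refine LinearMap.ext fun v => ?_
    rw [tw_apply, tw_apply, smul_smul, sgn_sq19, one_smul]
  rw [h1]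

theorem cols_medium : ∃ δ : ℝ, 0 < δ ∧ δ < 1 ∧ ∃ n₀ : ℕ, ∀ n ≥ n₀, ∀ N ≥ n, ∀ κ : Fin N → ℕ, κ ∈ PP N n → conjP κ = κ →
    WF N n κ → Real.sqrt n ≤ (CC (hw n κ)).card →
    ∀ W : FDRep ℂ (Perm (Fin n)), Simple W → ∀ d : ℕ, IsDepth (tw W.ρ) d → 0 < d → (d : ℝ) ≤ δ * n →
      ∀ η : ℝ, η ^ 2 = 1 →
        ∑ g : Perm (Fin n), ((hw n κ).character g ^ 2 + (η : ℂ) * (hw n κ).character (g ^ 2)) / 2 * W.character g⁻¹ ≠ 0 := by
  obtain ⟨δ, hδ0, hδ1, n₀, hmed⟩ := cols_med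
  refine ⟨δ, hδ0, hδ1, max n₀ 100, ?_⟩
  intro n hn N hN κ hκ hconj hWF hCC W hW d hd hd0 hdδ η hη
  have hn0 : n₀ ≤ n := (le_max_left _ _).trans hn
  have hn100 : 100 ≤ n := (le_max_right _ _).trans hn
  haveI hirr : (hw n κ).IsIrreducible := (hw_irr hN).1 κ hκ
  haveI hWirr : (tw W.ρ).IsIrreducible := tw_irr19 W.ρ (irr_of_simple W hW)
  have hchar : ∀ g : Perm (Fin n), W.character g = (tw (tw W.ρ)).character g := fun g =>
    (tw_tw19 W.ρ g).symm
  simp only [hchar]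
  by_cases hc : d + 6 ≤ (CC (hw n κ)).card
  · have hlab : Lab (hw n κ) κ := ⟨LinearEquiv.refl ℂ _, fun _ _ => rfl⟩
    obtain ⟨θ₀, hθ₀⟩ := exists_tw hN (hw n κ) hκ hconj hlab
    exact cols_small (hw n κ) hθ₀ (tw W.ρ) hd hd0 hc η hη
  · refine hmed n hn0 N hN κ hκ hconj hWF W (tw W.ρ) d hd ?_ hdδ η hη
    have h1 : (CC (hw n κ)).card ≤ d + 5 := by omega
    have h2 : ((CC (hw n κ)).card : ℝ) ≤ d + 5 := by exact_mod_cast h1
    have h3 : (10 : ℝ) ≤ Real.sqrt n := by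
      refine Real.le_sqrt_of_sq_le ?_
      have : (100 : ℝ) ≤ n := by exact_mod_cast hn100
      linarith
    linarith

end Pool.Agent.Helper51.TF
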