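import Pool.Agent.Helper51.TF.E4
import Pool.Agent.Helper51.TN.L6
import Pool.Agent.Helper51.TN.L7

/-!
BLOCK TF-E6 (about 250 lines). New maps: two inequalities.

Proof in words.
* `NM_le_mult`: read the proof of `link` in `TN/L5.lean`. There, for one new map `φ ≠ 0`, a vector `v'` of `E = inv θ (TT n d)` with `φ v' ≠ 0` and a functional `l` with `l v' = 1` are
  chosen and `Θ_φ w = ∑_g l (P_T (θ g⁻¹ w)) • σ g (φ v')` is an element of `HomP θ σ P` with `P_T (Θ_φ v') = c • φ v'`, `c ≠ 0` not depending on `φ` (`c dim W = n!`). Now fix any `v' ≠ 0` in `E`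
  (`E ≠ 0`: `hd.2.1`) and `l`, once for all: `φ ↦ Θ_φ` is linear on `NM`, and if `Θ_φ = 0` then `φ v' = 0`; the kernel of `φ` is stable under the irreducible `rhoE θ hd.1` (`rhoE_irr`, `TN/L6`) and
  contains `v' ≠ 0`, so `φ = 0`. So it is injective: `LinearMap.finrank_le_finrank_of_injective`.
* `HomE_le_NM`: read the proof of `exists_new` in `TN/L7.lean`: `f ↦ Q ∘ f`, `Q = qq σ (TT n (e + 1)) ⟨e, h⟩`, is a linear map `HomE h ρ σ P → HomE _ _ σ P'` whose kernel consists of new maps; rank plus nullity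
  (`LinearMap.finrank_range_add_finrank_ker`).
-/

set_option autoImplicit false

open Module Equiv Pool.Agent.Helper1.TS Pool.Agent.Helper70.TU Pool.Agent.Helper51.TN

namespace Pool.Agent.Helper51.TF

variable {n : ℕ}

private theorem key28 {X W : Type*} [AddCommGroup X] [Module ℂ X]
    [AddCommGroup W] [Module ℂ W]
    (θ : Representation ℂ (Perm (Fin n)) W)
    (σ : Representation ℂ (Perm (Fin n)) X) {d : ℕ} (hd : IsDepth θ d)
    (φ : inv θ (TT n d) →ₗ[ℂ] X)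
    (hφ : ∀ (y : Perm (Fin d)) (v : inv θ (TT n d)), φ (rhoE θ hd.1 y v) = σ (jD hd.1 y) (φ v))
    (hN : ∀ v, φ v ∈ New σ d) : ∀ (g : Perm (Fin n)) (v : inv θ (TT n d)),
      avT σ (TT n d) (σ g (φ v)) = φ ⟨avT θ (TT n d) (θ g v), avT_mem θ (TT n d) _⟩ := by
  classical
  have hdn : d ≤ n := hd.1
  -- the direct product representation
  let π : Representation ℂ (Perm (Fin n)) (X × W) :=
    { toFun := fun g => (σ g).prodMap (θ g)
      map_one' := by
        refine LinearMap.ext fun x => ?_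
        rw [map_one, map_one]
        rfl
      map_mul' := fun a b => by
        refine LinearMap.ext fun x => ?_
        rw [map_mul, map_mul]
        rfl }
  have hπ : ∀ (g : Perm (Fin n)) (x : X × W), π g x = (σ g x.1, θ g x.2) := fun g x => rfl
  have hsum : ∀ (s : Finset (Perm (Fin n))) (f : Perm (Fin n) → X × W),
      ∑ x ∈ s, f x = (∑ x ∈ s, (f x).1, ∑ x ∈ s, (f x).2) := by
    intro s f
    refine Prod.ext ?_ ?_
    · rw [Prod.fst_sum]
    · rw [Prod.snd_sum]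
  have hsum' : ∀ (s : Finset (Fin n)) (f : Fin n → X × W),
      ∑ x ∈ s, f x = (∑ x ∈ s, (f x).1, ∑ x ∈ s, (f x).2) := by
    intro s f
    refine Prod.ext ?_ ?_
    · rw [Prod.fst_sum]
    · rw [Prod.snd_sum]
  have havT : ∀ x : X × W, avT π (TT n d) x = (avT σ (TT n d) x.1, avT θ (TT n d) x.2) := by
    intro x
    unfold avT
    rw [LinearMap.smul_apply, LinearMap.smul_apply, LinearMap.smul_apply, LinearMap.sum_apply,
      LinearMap.sum_apply, LinearMap.sum_apply, hsum]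
    rfl
  have hqq : ∀ (a : Fin n) (x : X × W), qq π (TT n d) a x = (qq σ (TT n d) a x.1, qq θ (TT n d) a x.2) := by
    intro a x
    unfold qq
    rw [LinearMap.sum_apply, LinearMap.sum_apply, LinearMap.sum_apply, hsum']
    rfl
  let F : Submodule ℂ (X × W) := LinearMap.range (φ.prod (Submodule.subtype (inv θ (TT n d))))
  have hFmem : ∀ v : inv θ (TT n d), ((φ v, (v : W)) : X × W) ∈ F := fun v => ⟨v, rfl⟩
  have hFmem' : ∀ z ∈ F, ∃ v : inv θ (TT n d), z = (φ v, (v : W)) := by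
    rintro z ⟨v, rfl⟩
    exact ⟨v, rfl⟩
  have hFN : F ≤ New π d := by
    intro z hz
    obtain ⟨v, rfl⟩ := hFmem' z hz
    have h1 := hN v
    have h2 := inv_le_New θ hd v.2
    rw [mem_New] at h1 h2 ⊢
    refine ⟨fun x hx => ?_, fun a ha => ?_⟩
    · rw [hπ]
      exact Prod.ext (h1.1 x hx) (h2.1 x hx)
    · rw [hqq]
      have h3 := h1.2 a ha
      have h4 := h2.2 a ha
      exact Prod.ext h3 h4
  have hFst : ∀ (y : Perm (Fin d)), ∀ z ∈ F, π (jD hdn y) z ∈ F := by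
    intro y z hz
    obtain ⟨v, rfl⟩ := hFmem' z hz
    rw [hπ]
    have h1 := hFmem (rhoE θ hdn y v)
    rw [hφ, rhoE_coe] at h1
    exact h1
  have key : ∀ (g : Perm (Fin n)) (v : inv θ (TT n d)),
      avT σ (TT n d) (σ g (φ v)) = φ ⟨avT θ (TT n d) (θ g v), avT_mem θ (TT n d) _⟩ := by
    intro g v
    have h1 := av_new π hdn F hFN hFst g _ (hFmem v)
    rw [havT, hπ] at h1
    obtain ⟨v₂, hv₂⟩ := hFmem' _ h1
    have h2 : avT σ (TT n d) (σ g (φ v)) = φ v₂ := congrArg Prod.fst hv₂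
    have h3 : avT θ (TT n d) (θ g v) = (v₂ : W) := congrArg Prod.snd hv₂
    rw [h2]
    congr 1
    exact Subtype.ext h3.symm
  exact key

theorem NM_le_mult {X W : Type*} [AddCommGroup X] [Module ℂ X] [FiniteDimensional ℂ X]
    [AddCommGroup W] [Module ℂ W] [FiniteDimensional ℂ W]
    (θ : Representation ℂ (Perm (Fin n)) W) [θ.IsIrreducible]
    (σ : Representation ℂ (Perm (Fin n)) X) (P : X →ₗ[ℂ] X) (hP : ∀ x, P (P x) = P x)
    (hc : ∀ (g : Perm (Fin n)) (x : X), P (σ g x) = σ g (P x)) {d : ℕ} (hd : IsDepth θ d) :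
    finrank ℂ (NM hd.1 (rhoE θ hd.1) σ P) ≤ finrank ℂ (HomP θ σ P) := by

  classical
  -- the vector and the functional
  obtain ⟨w0, hw0, hw0'⟩ := (Submodule.ne_bot_iff _).1 hd.2.1
  let v' : inv θ (TT n d) := ⟨w0, hw0⟩
  have hv0 : v' ≠ 0 := fun h => hw0' (congrArg Subtype.val h)
  obtain ⟨l, hl⟩ : ∃ l : Module.Dual ℂ (inv θ (TT n d)), l v' = 1 :=
    Module.Projective.exists_dual_eq_one ℂ hv0
  -- the projection to `E`
  let PE : W →ₗ[ℂ] inv θ (TT n d) := (avT θ (TT n d)).codRestrict (inv θ (TT n d)) (fun w => avT_mem θ (TT n d) w)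
  have hPE : ∀ w, (PE w : W) = avT θ (TT n d) w := fun w => rfl
  have hPEv : PE (v' : W) = v' := Subtype.ext (avT_of_mem θ (TT n d) _ v'.2)
  let lP : W →ₗ[ℂ] ℂ := l ∘ₗ PE
  -- the endomorphism
  let A : W →ₗ[ℂ] W := ∑ g : Perm (Fin n), (lP ∘ₗ θ g⁻¹).smulRight (θ g v')
  have hA : ∀ w, A w = ∑ g : Perm (Fin n), lP (θ g⁻¹ w) • θ g v' := by
    intro w
    change (∑ g : Perm (Fin n), (lP ∘ₗ θ g⁻¹).smulRight (θ g v')) w = _
    rw [LinearMap.sum_apply]
    rfl
  have hAc : ∀ (x : Perm (Fin n)) (w : W), A (θ x w) = θ x (A w) := by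
    intro x w
    rw [hA, hA, map_sum]
    refine Fintype.sum_equiv (Equiv.mulLeft x⁻¹) _ _ fun g => ?_
    rw [Equiv.coe_mulLeft, map_smul, ← Module.End.mul_apply (θ x), ← map_mul, mul_inv_cancel_left, mul_inv_rev, inv_inv,
      map_mul, Module.End.mul_apply]
  obtain ⟨c, hc'⟩ := (Representation.IsIrreducible.algebraMap_intertwiningMap_bijective_of_isAlgClosed
    (ρ := θ)).2 (A.intertwiningMap_of_isIntertwiningMap θ θ hAc)
  have hAcc : ∀ w, A w = c • w := by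
    intro w
    have h2 := congrArg (fun f : Representation.IntertwiningMap θ θ => f.toLinearMap) hc'
    have h3 := congrArg (fun f : W →ₗ[ℂ] W => f w) h2
    have h4 : A w = (((algebraMap ℂ (Representation.IntertwiningMap θ θ)) c).toLinearMap) w := h3.symm
    rw [h4]
    rfl
  have hcard : (Fintype.card (Perm (Fin n)) : ℂ) ≠ 0 := Nat.cast_ne_zero.2 Fintype.card_ne_zero
  have htrA : LinearMap.trace ℂ W A = (Fintype.card (Perm (Fin n)) : ℂ) := by
    change LinearMap.trace ℂ W (∑ g : Perm (Fin n), (lP ∘ₗ θ g⁻¹).smulRight (θ g v')) = _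
    rw [map_sum]
    have h1 : ∀ g : Perm (Fin n), LinearMap.trace ℂ W ((lP ∘ₗ θ g⁻¹).smulRight (θ g v')) = 1 := by
      intro g
      rw [LinearMap.trace_smulRight, LinearMap.comp_apply, ← Module.End.mul_apply, ← map_mul, inv_mul_cancel, map_one,
        Module.End.one_apply]
      change l (PE v') = 1
      rw [hPEv, hl]
    rw [Finset.sum_congr rfl fun g _ => h1 g, Finset.sum_const, Finset.card_univ, nsmul_eq_mul, mul_one]
  have hc0 : c ≠ 0 := by
    rintro rfl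
    have h1 : A = 0 := LinearMap.ext fun w => by rw [hAcc w, zero_smul, LinearMap.zero_apply]
    rw [h1, map_zero] at htrA
    exact hcard htrA.symm
  -- the linear map
  let Λ : (inv θ (TT n d) →ₗ[ℂ] X) →ₗ[ℂ] (W →ₗ[ℂ] X) :=
    { toFun := fun φ => ∑ g : Perm (Fin n), (lP ∘ₗ θ g⁻¹).smulRight (σ g (φ v'))
      map_add' := by
        intro φ ψ
        rw [← Finset.sum_add_distrib]
        refine Finset.sum_congr rfl fun g _ => LinearMap.ext fun w => ?_
        simp only [LinearMap.smulRight_apply, LinearMap.add_apply, map_add, smul_add]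
      map_smul' := by
        intro a φ
        rw [RingHom.id_apply, Finset.smul_sum]
        refine Finset.sum_congr rfl fun g _ => LinearMap.ext fun w => ?_
        simp only [LinearMap.smulRight_apply, LinearMap.smul_apply, map_smul]
        rw [smul_comm] }
  have hΘ : ∀ φ w, Λ φ w = ∑ g : Perm (Fin n), lP (θ g⁻¹ w) • σ g (φ v') := by
    intro φ w
    change (∑ g : Perm (Fin n), (lP ∘ₗ θ g⁻¹).smulRight (σ g (φ v'))) w = _
    rw [LinearMap.sum_apply]
    rfl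
  have hΛmem : ∀ φ ∈ NM hd.1 (rhoE θ hd.1) σ P, Λ φ ∈ HomP θ σ P := by
    intro φ hφm
    rw [mem_HomP]
    refine ⟨fun x w => ?_, fun w => ?_⟩
    · rw [hΘ, hΘ, map_sum]
      refine Fintype.sum_equiv (Equiv.mulLeft x⁻¹) _ _ fun g => ?_
      rw [Equiv.coe_mulLeft, map_smul, ← Module.End.mul_apply (σ x), ← map_mul, mul_inv_cancel_left, mul_inv_rev, inv_inv,
        map_mul, Module.End.mul_apply]
    · rw [hΘ, map_sum]
      refine Finset.sum_congr rfl fun g _ => ?_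
      rw [map_smul, hc, hφm.2.2]
  have hinj : ∀ φ ∈ NM hd.1 (rhoE θ hd.1) σ P, Λ φ = 0 → φ = 0 := by
    intro φ hφm h0
    have key' : ∀ (g : Perm (Fin n)) (v : inv θ (TT n d)), avT σ (TT n d) (σ g (φ v)) = φ (PE (θ g v)) :=
      key28 θ σ hd φ hφm.1 hφm.2.1
    have h1 : avT σ (TT n d) (Λ φ v') = c • φ v' := by
      rw [hΘ, map_sum]
      have h2 : ∀ g : Perm (Fin n), avT σ (TT n d) (lP (θ g⁻¹ v') • σ g (φ v')) = φ (PE (lP (θ g⁻¹ v') • θ g v')) := by
        intro g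
        rw [map_smul, key', map_smul, map_smul]
      rw [Finset.sum_congr rfl fun g _ => h2 g, ← map_sum, ← map_sum, ← hA, hAcc, map_smul, hPEv, map_smul]
    rw [h0, LinearMap.zero_apply, map_zero] at h1
    have hφv : φ v' = 0 := by
      rcases smul_eq_zero.1 h1.symm with h2 | h2
      · exact absurd h2 hc0
      · exact h2
    have hirr := rhoE_irr θ hd
    let M : Subrepresentation (rhoE θ hd.1) :=
      { toSubmodule := LinearMap.ker φ
        apply_mem_toSubmodule := by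
          intro y v hv
          rw [LinearMap.mem_ker] at hv ⊢
          rw [hφm.1, hv, map_zero] }
    have hMt : M.toSubmodule = ⊤ := by
      rcases hirr.eq_bot_or_eq_top M with h | h
      · exfalso
        have h2 : M.toSubmodule = ⊥ := congrArg Subrepresentation.toSubmodule h
        have h3 : v' ∈ M.toSubmodule := LinearMap.mem_ker.2 hφv
        rw [h2, Submodule.mem_bot] at h3
        exact hv0 h3
      · exact congrArg Subrepresentation.toSubmodule h
    exact LinearMap.ker_eq_top.1 hMt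
  refine LinearMap.finrank_le_finrank_of_injective (f := Λ.restrict hΛmem) ?_
  rw [← LinearMap.ker_eq_bot, eq_bot_iff]
  intro φ hφ
  rw [LinearMap.mem_ker] at hφ
  have h1 : Λ φ.1 = 0 := congrArg Subtype.val hφ
  rw [Submodule.mem_bot]
  exact Subtype.ext (hinj φ.1 φ.2 h1)

section Priv

variable {E X : Type*} [AddCommGroup E] [Module ℂ E] [FiniteDimensional ℂ E]
  [AddCommGroup X] [Module ℂ X] [FiniteDimensional ℂ X]

omit [FiniteDimensional ℂ X] in
private theorem qq_conj28 (σ : Representation ℂ (Perm (Fin n)) X) {T : Finset (Fin n)} {a b : Fin n} (ha : a ∉ T)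
    (hb : b ∉ T) (u : Perm (Fin n)) (hu : ∀ t ∈ T, u t = t) (hub : u b = a) (z : X) :
    qq σ T a (σ u z) = σ u (qq σ T b z) := by
  have h1 : ∀ (c : Fin n) (w : X), c ∉ T → qq σ T c w = w + ∑ t ∈ T, σ (Equiv.swap c t) w := by
    intro c w hc
    unfold qq
    rw [Finset.sum_insert hc, LinearMap.add_apply, LinearMap.sum_apply, Equiv.swap_self]
    rw [show (Equiv.refl (Fin n) : Perm (Fin n)) = 1 from rfl, map_one]
    rfl
  rw [h1 a _ ha, h1 b _ hb, map_add, map_sum]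
  congr 1
  refine Finset.sum_congr rfl fun t ht => ?_
  rw [← Module.End.mul_apply, ← Module.End.mul_apply, ← map_mul, ← map_mul, Equiv.mul_swap_eq_swap_mul, hub, hu t ht]

omit [FiniteDimensional ℂ E] [FiniteDimensional ℂ X] in
private theorem homE_facts28 {e : ℕ} {h : e ≤ n} {ρ : Representation ℂ (Perm (Fin e)) E}
    {σ : Representation ℂ (Perm (Fin n)) X} {P : X →ₗ[ℂ] X} {f : E →ₗ[ℂ] X} (hf : f ∈ HomE h ρ σ P) :
    (∀ v, f v ∈ inv σ (TT n e)) ∧ ∀ (y : Perm (Fin e)) (v : E), f (ρ y v) = σ (jD h y) (f v) := by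
  refine ⟨fun v => (mem_inv_iff σ h _).2 fun x => ?_, fun y v => ?_⟩
  · have h1 := hf.1 (x, 1) v
    have h2 : (ρ.comp (MonoidHom.snd (Perm (Fin (n - e))) (Perm (Fin e)))) (x, 1) = 1 := by
      rw [MonoidHom.comp_apply]
      exact map_one ρ
    have h3 : (σ.comp (jH h)) (x, 1) = σ (jT h x) := by
      rw [MonoidHom.comp_apply, jH_apply]
      simp
    rw [h2, h3] at h1
    exact h1.symm
  · have h1 := hf.1 (1, y) v
    have h2 : (ρ.comp (MonoidHom.snd (Perm (Fin (n - e))) (Perm (Fin e)))) (1, y) = ρ y := rfl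
    have h3 : (σ.comp (jH h)) (1, y) = σ (jD h y) := by
      rw [MonoidHom.comp_apply, jH_apply]
      simp
    rw [h2, h3] at h1
    exact h1

private theorem jD_jD28 {e : ℕ} (h : e + 1 ≤ n) (y : Perm (Fin e)) :
    jD h (jD (Nat.le_succ e) y) = jD ((Nat.le_succ e).trans h) y := by
  refine Equiv.ext fun i => ?_
  rcases lt_or_ge (i : ℕ) e with hi | hi
  · rw [jD_apply h _ i (by omega), jD_apply _ _ i hi]
    refine Fin.ext ?_
    simp only
    rw [jD_apply (Nat.le_succ e) y ⟨(i : ℕ), by omega⟩ hi]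
  · rw [jD_apply_of_le _ _ i hi]
    rcases lt_or_ge (i : ℕ) (e + 1) with hi' | hi'
    · rw [jD_apply h _ i hi']
      refine Fin.ext ?_
      simp only
      rw [jD_apply_of_le (Nat.le_succ e) y ⟨(i : ℕ), hi'⟩ hi]
    · rw [jD_apply_of_le _ _ i hi']

omit [FiniteDimensional ℂ E] [FiniteDimensional ℂ X] in
private theorem maps28 {e : ℕ} (h : e + 1 ≤ n) (ρ : Representation ℂ (Perm (Fin (e + 1))) E)
    (σ : Representation ℂ (Perm (Fin n)) X) (P P' : X →ₗ[ℂ] X)
    (hQ : ∀ z ∈ inv σ (TT n (e + 1)), P z = z →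
      P' (qq σ (TT n (e + 1)) ⟨e, h⟩ z) = qq σ (TT n (e + 1)) ⟨e, h⟩ z) {f : E →ₗ[ℂ] X} (hf : f ∈ HomE h ρ σ P) :
    qq σ (TT n (e + 1)) ⟨e, h⟩ ∘ₗ f ∈ HomE ((Nat.le_succ e).trans h) (ρ.comp (jD (Nat.le_succ e))) σ P' := by
  obtain ⟨h1, h2⟩ := homE_facts28 hf
  have ha0 : (⟨e, h⟩ : Fin n) ∉ TT n (e + 1) := by
    rw [mem_TT]
    simp only
    omega
  have h3 : ∀ v, qq σ (TT n (e + 1)) ⟨e, h⟩ (f v) ∈ inv σ (TT n e) := fun v => by
    rw [← TT_insert h]
    exact qq_mem σ _ _ ha0 _ (h1 v)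
  refine ⟨fun p v => ?_, fun v => hQ _ (h1 v) (hf.2 v)⟩
  have h4 : (((ρ.comp (jD (Nat.le_succ e))).comp (MonoidHom.snd (Perm (Fin (n - e))) (Perm (Fin e)))) p) =
      ρ (jD (Nat.le_succ e) p.2) := rfl
  have h5 : (σ.comp (jH ((Nat.le_succ e).trans h))) p =
      σ (jT ((Nat.le_succ e).trans h) p.1) * σ (jD ((Nat.le_succ e).trans h) p.2) := by
    rw [MonoidHom.comp_apply, jH_apply, map_mul]
  rw [h4, h5, LinearMap.comp_apply, LinearMap.comp_apply, Module.End.mul_apply]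
  have h6 : σ (jD ((Nat.le_succ e).trans h) p.2) (qq σ (TT n (e + 1)) ⟨e, h⟩ (f v)) =
      qq σ (TT n (e + 1)) ⟨e, h⟩ (f (ρ (jD (Nat.le_succ e) p.2) v)) := by
    rw [h2, jD_jD28 h, qq_conj28 σ ha0 ha0]
    · intro t ht
      exact jD_apply_of_le _ _ t (by have := mem_TT.1 ht; omega)
    · exact jD_apply_of_le _ _ _ (by simp)
  rw [h6]
  exact ((mem_inv_iff σ ((Nat.le_succ e).trans h) _).1 (h3 _) p.1).symm

/-- `f ↦ A ∘ f`. -/
private noncomputable def cp28 (A : X →ₗ[ℂ] X) : (E →ₗ[ℂ] X) →ₗ[ℂ] (E →ₗ[ℂ] X) where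
  toFun f := A ∘ₗ f
  map_add' f g := LinearMap.comp_add _ _ _
  map_smul' c f := LinearMap.comp_smul _ _ _

private theorem ker_new28 {e : ℕ} (h : e + 1 ≤ n) (ρ : Representation ℂ (Perm (Fin (e + 1))) E)
    (σ : Representation ℂ (Perm (Fin n)) X) (P : X →ₗ[ℂ] X) {f : E →ₗ[ℂ] X} (hf : f ∈ HomE h ρ σ P)
    (hQ0 : ∀ v, qq σ (TT n (e + 1)) ⟨e, h⟩ (f v) = 0) : f ∈ NM h ρ σ P := by
  obtain ⟨h1, h2⟩ := homE_facts28 hf
  refine ⟨h2, fun v => mem_New.2 ⟨h1 v, fun a ha => ?_⟩, hf.2⟩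
  have ha1 : ∀ b : Fin n, (b : ℕ) < e + 1 → b ∉ TT n (e + 1) := fun b hb hb' => by
    have := mem_TT.1 hb'
    omega
  have hu : ∀ t ∈ TT n (e + 1), jD h (Equiv.swap ⟨a, ha⟩ (Fin.last e)) t = t := fun t ht =>
    jD_apply_of_le _ _ t (mem_TT.1 ht)
  have hub : jD h (Equiv.swap ⟨a, ha⟩ (Fin.last e)) ⟨e, h⟩ = a := by
    rw [jD_apply h _ _ (Nat.lt_succ_self e)]
    refine Fin.ext ?_
    have h3 : (Equiv.swap ⟨(a : ℕ), ha⟩ (Fin.last e)) ⟨e, Nat.lt_succ_self e⟩ = ⟨(a : ℕ), ha⟩ := Equiv.swap_apply_right _ _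
    simp only
    rw [h3]
  have h3 : f v = σ (jD h (Equiv.swap ⟨a, ha⟩ (Fin.last e)))
      (f (ρ ((Equiv.swap ⟨a, ha⟩ (Fin.last e) : Perm (Fin (e + 1)))⁻¹) v)) := by
    rw [← h2, ← Module.End.mul_apply, ← map_mul, mul_inv_cancel, map_one]
    rfl
  rw [h3, qq_conj28 σ (ha1 a ha) (ha1 ⟨e, h⟩ (Nat.lt_succ_self e)) _ hu hub, hQ0, map_zero]

end Priv

theorem HomE_le_NM {E X : Type*} [AddCommGroup E] [Module ℂ E] [FiniteDimensional ℂ E]
    [AddCommGroup X] [Module ℂ X] [FiniteDimensional ℂ X] {e : ℕ} (h : e + 1 ≤ n)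
    (ρ : Representation ℂ (Perm (Fin (e + 1))) E)
    (σ : Representation ℂ (Perm (Fin n)) X) (P P' : X →ₗ[ℂ] X)
    (hQ : ∀ z ∈ inv σ (TT n (e + 1)), P z = z →
      P' (qq σ (TT n (e + 1)) ⟨e, h⟩ z) = qq σ (TT n (e + 1)) ⟨e, h⟩ z) :
    finrank ℂ (HomE h ρ σ P) ≤
      finrank ℂ (HomE ((Nat.le_succ e).trans h) (ρ.comp (jD (Nat.le_succ e))) σ P') + finrank ℂ (NM h ρ σ P) := by

  have hm : ∀ f ∈ HomE h ρ σ P, cp28 (qq σ (TT n (e + 1)) ⟨e, h⟩) f ∈
      HomE ((Nat.le_succ e).trans h) (ρ.comp (jD (Nat.le_succ e))) σ P' := fun f hf => maps28 h ρ σ P P' hQ hf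
  have h1 := LinearMap.finrank_range_add_finrank_ker ((cp28 (qq σ (TT n (e + 1)) ⟨e, h⟩)).restrict hm)
  have h2 : finrank ℂ (LinearMap.range ((cp28 (qq σ (TT n (e + 1)) ⟨e, h⟩)).restrict hm)) ≤
      finrank ℂ (HomE ((Nat.le_succ e).trans h) (ρ.comp (jD (Nat.le_succ e))) σ P') := Submodule.finrank_le _
  have h3 : finrank ℂ (LinearMap.ker ((cp28 (qq σ (TT n (e + 1)) ⟨e, h⟩)).restrict hm)) ≤
      finrank ℂ (NM h ρ σ P) := by
    rw [← Submodule.finrank_map_subtype_eq (HomE h ρ σ P)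
      (LinearMap.ker ((cp28 (qq σ (TT n (e + 1)) ⟨e, h⟩)).restrict hm))]
    refine Submodule.finrank_mono ?_
    rintro _ ⟨f, hf, rfl⟩
    refine ker_new28 h ρ σ P f.2 fun v => ?_
    have h4 : ((cp28 (qq σ (TT n (e + 1)) ⟨e, h⟩)).restrict hm) f = 0 := hf
    exact LinearMap.congr_fun (congrArg Subtype.val h4) v
  omega

end Pool.Agent.Helper51.TF
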