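import Pool.Agent.Helper51.TF.H7
import Pool.Agent.Helper1.TS.A0

/-!
BLOCK TF-G1 (about 180 lines). Completeness: every class function is a combination of the characters of the `hw m ν`, `ν ∈ PP N m`.

Proof in words.
* `card_eq`: the `hw m ν`, `ν ∈ PP N m`, are irreducible and pairwise not isomorphic (`hw_irr`), so `|PP N m| ≤ #classes` (`card_irr_le`; `K = {ν // ν ∈ PP N m}`), and `#classes ≤ |PP N m|` (`card_classes_le`).
* `class_expand`: the characters of the `hw m ν` are orthonormal (`Representation.char_orthonormal`), hence linearly independent, elements of the space of class functions, whose dimension is `#classes = |PP N m|` (isomorphic to `ConjClasses (Perm (Fin m)) → ℂ`), so they are a basis; the coefficients of `F` are found by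
  pairing with the characters.
* `trace_expand`: `F g = trace (σ g ∘ P)` is a class function (`P` commutes with `σ`), and its coefficients are `finrank (HomP (hw m ν) σ P)` by `dim_hom` (`TN/L1`).
-/

set_option autoImplicit false

open Module Equiv Pool.Agent.Helper1.TS Pool.Agent.Helper70.TU Pool.Agent.Helper51.TN

namespace Pool.Agent.Helper51.TF

variable {N : ℕ}

theorem card_eq {m : ℕ} (hN : m ≤ N) : Nat.card (ConjClasses (Perm (Fin m))) = (PP N m).card := by
  have h := hw_irr hN
  refine le_antisymm (card_classes_le hN) ?_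
  have h1 := card_irr_le (K := {κ : Fin N → ℕ // κ ∈ PP N m}) (fun κ => HW m κ.1) (fun κ => hw m κ.1)
    (fun κ => h.1 κ.1 κ.2) (fun κ κ' hne hi => hne (Subtype.ext (h.2 κ.1 κ.2 κ'.1 κ'.2 hi)))
  rwa [Fintype.card_coe] at h1

private theorem orth62 {m : ℕ} (hN : m ≤ N) (k l : {κ : Fin N → ℕ // κ ∈ PP N m}) :
    (Nat.card (Perm (Fin m)) : ℂ)⁻¹ * ∑ g : Perm (Fin m), (hw m k.1).character g * (hw m l.1).character g⁻¹ =
      if k = l then 1 else 0 := by
  classical
  have hinv : (Nat.card (Perm (Fin m)) : ℂ) ≠ 0 := Nat.cast_ne_zero.2 Nat.card_pos.ne'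
  let _ : Invertible (Nat.card (Perm (Fin m)) : ℂ) := invertibleOfNonzero hinv
  have h := hw_irr hN
  have := h.1 k.1 k.2
  have := h.1 l.1 l.2
  rw [Representation.char_orthonormal]
  by_cases hkl : k = l
  · subst hkl
    rw [if_pos rfl, if_pos ⟨Representation.Equiv.refl _⟩]
  · rw [if_neg hkl, if_neg]
    rintro ⟨e⟩
    refine hkl (Subtype.ext (h.2 l.1 l.2 k.1 k.2 ⟨e.toLinearEquiv, fun g v => ?_⟩).symm)
    exact LinearMap.congr_fun (e.toIntertwiningMap.isIntertwining' g) v

private theorem coef62 {m : ℕ} (hN : m ≤ N) (a : {κ : Fin N → ℕ // κ ∈ PP N m} → ℂ) (F : Perm (Fin m) → ℂ)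
    (hF : ∀ g, F g = ∑ k, a k * (hw m k.1).character g) (l : {κ : Fin N → ℕ // κ ∈ PP N m}) :
    (Nat.card (Perm (Fin m)) : ℂ)⁻¹ * ∑ g : Perm (Fin m), F g * (hw m l.1).character g⁻¹ = a l := by
  classical
  have h1 : ∑ g : Perm (Fin m), F g * (hw m l.1).character g⁻¹ =
      ∑ k, a k * ∑ g : Perm (Fin m), (hw m k.1).character g * (hw m l.1).character g⁻¹ := by
    simp_rw [hF, Finset.sum_mul, Finset.mul_sum]
    rw [Finset.sum_comm]
    refine Finset.sum_congr rfl fun k _ => Finset.sum_congr rfl fun g _ => ?_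
    rw [mul_assoc]
  rw [h1, Finset.mul_sum]
  have h2 : ∀ k, (Nat.card (Perm (Fin m)) : ℂ)⁻¹ *
      (a k * ∑ g : Perm (Fin m), (hw m k.1).character g * (hw m l.1).character g⁻¹) = if k = l then a k else 0 := by
    intro k
    rw [mul_left_comm, orth62 hN k l]
    by_cases hkl : k = l
    · rw [if_pos hkl, if_pos hkl, mul_one]
    · rw [if_neg hkl, if_neg hkl, mul_zero]
  rw [Finset.sum_congr rfl fun k _ => h2 k, Finset.sum_ite_eq' Finset.univ l, if_pos (Finset.mem_univ _)]

private theorem exists62 {m : ℕ} (hN : m ≤ N) (F : Perm (Fin m) → ℂ) (hF : ∀ x g, F (x * g * x⁻¹) = F g) :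
    ∃ a : {κ : Fin N → ℕ // κ ∈ PP N m} → ℂ, ∀ g, F g = ∑ k, a k * (hw m k.1).character g := by
  classical
  have hout : ∀ (f : Perm (Fin m) → ℂ), (∀ x g, f (x * g * x⁻¹) = f g) → ∀ g, f (Quotient.out (ConjClasses.mk g)) = f g := by
    intro f hf g
    have h3 : IsConj (Quotient.out (ConjClasses.mk g)) g :=
      ConjClasses.mk_eq_mk_iff_isConj.1 (Quotient.out_eq (ConjClasses.mk g))
    obtain ⟨c, hc⟩ := isConj_iff.1 h3
    rw [← hf c, hc]
  have hli : LinearIndependent ℂ (fun k : {κ : Fin N → ℕ // κ ∈ PP N m} => fun c : ConjClasses (Perm (Fin m)) =>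
      (hw m k.1).character (Quotient.out c)) := by
    rw [Fintype.linearIndependent_iff]
    intro a ha l
    have h1 : ∀ g : Perm (Fin m), (0 : ℂ) = ∑ k, a k * (hw m k.1).character g := by
      intro g
      have h2 := congrFun ha (ConjClasses.mk g)
      rw [Finset.sum_apply] at h2
      refine (Eq.trans (Finset.sum_congr rfl fun k _ => ?_) h2).symm
      rw [Pi.smul_apply, smul_eq_mul]
      congr 1
      exact (hout (hw m k.1).character (fun x g => Representation.char_conj _ _ _) g).symm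
    have h2 := coef62 hN a (fun _ => 0) h1 l
    rw [← h2]
    simp
  have hcard : Fintype.card {κ : Fin N → ℕ // κ ∈ PP N m} = finrank ℂ (ConjClasses (Perm (Fin m)) → ℂ) := by
    rw [Module.finrank_fintype_fun_eq_card, Fintype.card_coe, ← card_eq hN, Nat.card_eq_fintype_card]
  have hspan := hli.span_eq_top_of_card_eq_finrank' hcard
  have hmem : (fun c : ConjClasses (Perm (Fin m)) => F (Quotient.out c)) ∈
      Submodule.span ℂ (Set.range (fun k : {κ : Fin N → ℕ // κ ∈ PP N m} => fun c : ConjClasses (Perm (Fin m)) =>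
      (hw m k.1).character (Quotient.out c))) := by
    rw [hspan]
    exact Submodule.mem_top
  rw [Submodule.mem_span_range_iff_exists_fun] at hmem
  obtain ⟨a, ha⟩ := hmem
  refine ⟨a, fun g => ?_⟩
  have h2 := congrFun ha (ConjClasses.mk g)
  rw [Finset.sum_apply] at h2
  rw [← hout F hF g]
  refine h2.symm.trans (Finset.sum_congr rfl fun k _ => ?_)
  rw [Pi.smul_apply, smul_eq_mul]
  congr 1
  exact hout (hw m k.1).character (fun x g => Representation.char_conj _ _ _) g

theorem class_expand {m : ℕ} (hN : m ≤ N) (F : Perm (Fin m) → ℂ) (hF : ∀ x g, F (x * g * x⁻¹) = F g) (g : Perm (Fin m)) :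
    F g = ∑ ν ∈ PP N m, ((∑ x : Perm (Fin m), F x * (hw m ν).character x⁻¹) / m.factorial) * (hw m ν).character g := by
  obtain ⟨a, ha⟩ := exists62 hN F hF
  have hc : (Nat.card (Perm (Fin m)) : ℂ) = (m.factorial : ℂ) := by
    rw [Nat.card_eq_fintype_card, Fintype.card_perm, Fintype.card_fin]
  rw [ha g, ← Finset.sum_coe_sort (PP N m)]
  refine Finset.sum_congr rfl fun k _ => ?_
  rw [← coef62 hN a F ha k, hc, div_eq_inv_mul]

theorem trace_expand {m : ℕ} (hN : m ≤ N) {X : Type*} [AddCommGroup X] [Module ℂ X] [FiniteDimensional ℂ X]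
    (σ : Representation ℂ (Perm (Fin m)) X) (P : X →ₗ[ℂ] X) (hP : ∀ x, P (P x) = P x)
    (hc : ∀ (g : Perm (Fin m)) (x : X), P (σ g x) = σ g (P x)) (g : Perm (Fin m)) :
    LinearMap.trace ℂ X (σ g ∘ₗ P) = ∑ ν ∈ PP N m, (finrank ℂ (HomP (hw m ν) σ P) : ℂ) * (hw m ν).character g := by
  have hcl : ∀ x g : Perm (Fin m), LinearMap.trace ℂ X (σ (x * g * x⁻¹) ∘ₗ P) = LinearMap.trace ℂ X (σ g ∘ₗ P) := by
    intro x g
    have h1 : σ (x * g * x⁻¹) ∘ₗ P = σ x ∘ₗ ((σ g ∘ₗ P) ∘ₗ σ x⁻¹) := by
      refine LinearMap.ext fun v => ?_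
      rw [LinearMap.comp_apply, LinearMap.comp_apply, LinearMap.comp_apply, LinearMap.comp_apply, map_mul, map_mul,
        Module.End.mul_apply, Module.End.mul_apply, hc]
    rw [h1, LinearMap.trace_comp_comm', LinearMap.comp_assoc, LinearMap.comp_assoc]
    congr 1
    refine LinearMap.ext fun v => ?_
    rw [LinearMap.comp_apply, LinearMap.comp_apply, LinearMap.comp_apply, LinearMap.comp_apply, ← Module.End.mul_apply (σ x⁻¹),
      ← map_mul, inv_mul_cancel, map_one, Module.End.one_apply]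
  refine (class_expand hN (fun g => LinearMap.trace ℂ X (σ g ∘ₗ P)) hcl g).trans ?_
  refine Finset.sum_congr rfl fun ν _ => ?_
  congr 1
  have h1 := dim_hom (hw m ν) σ P hP hc
  rw [Fintype.card_perm, Fintype.card_fin] at h1
  rw [div_eq_iff (Nat.cast_ne_zero.2 (Nat.factorial_ne_zero m)), ← h1, mul_comm]

theorem char_expand {m : ℕ} (hN : m ≤ N) {X : Type*} [AddCommGroup X] [Module ℂ X] [FiniteDimensional ℂ X]
    (σ : Representation ℂ (Perm (Fin m)) X) (g : Perm (Fin m)) :
    σ.character g = ∑ ν ∈ PP N m, (finrank ℂ (HomP (hw m ν) σ LinearMap.id) : ℂ) * (hw m ν).character g := by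
  have h1 := trace_expand hN σ LinearMap.id (fun _ => rfl) (fun _ _ => rfl) g
  rw [← h1]
  rfl

theorem finrank_expand {m : ℕ} (hN : m ≤ N) {X : Type*} [AddCommGroup X] [Module ℂ X] [FiniteDimensional ℂ X]
    (σ : Representation ℂ (Perm (Fin m)) X) :
    finrank ℂ X = ∑ ν ∈ PP N m, finrank ℂ (HomP (hw m ν) σ LinearMap.id) * finrank ℂ (HW m ν) := by
  have h1 := char_expand hN σ 1
  rw [Representation.char_one] at h1
  have h2 : ∀ ν : Fin N → ℕ, (hw m ν).character 1 = (finrank ℂ (HW m ν) : ℂ) := fun ν => Representation.char_one _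
  rw [Finset.sum_congr rfl fun ν _ => by rw [h2 ν]] at h1
  exact_mod_cast h1

end Pool.Agent.Helper51.TF
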