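import Pool.Agent.Helper51.TF.M3
import Pool.Agent.Helper51.TF.G1
import Pool.Agent.Helper51.TF.E6

/-!
BLOCK TF-M4 (about 220 lines). The multiplicities of the representations of depth `e ≤ d`.

Proof in words. For `κ ∈ PP N n` of depth `e` let `E_κ = inv (hw n κ) (TT n e)`, `ρ_κ = rhoE (hw n κ) _` (irreducible: `rhoE_irr`, `TN/L6`; `hw n κ` is irreducible by `hw_irr`).
(1) `φ ↦ avT (hw n κ) (TT n e) ∘ φ` (with values in `E_κ`: `avT_mem`) is an injective linear map from `HomE hdn τ (hw n κ) id` to `HomP (τ.comp (jD hed)) ρ_κ id`: equivariance: for `y : Perm (Fin e)` `φ (τ (jD hed y) v) = hw n κ (jD hdn (jD hed y)) (φ v)`, `jD hdn (jD hed y) = jD _ y`, and `avT` over `Sym(TT n e)` commutes with it (`jD_support_mem`). Injective: `av_inj`.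
(2) `finrank (HomP (τ.comp (jD hed)) ρ_κ id) = finrank (HomP ρ_κ (τ.comp (jD hed)) id)`: both are `(1/e!) ∑ χ_τ(g) χ_κ(g⁻¹)` up to `g ↦ g⁻¹` (`dim_hom`).
(3) The `ρ_κ` are pairwise not isomorphic for different `κ` of depth `e`: an isomorphism `ρ_κ ≅ ρ_{κ'}` composed with `E_{κ'} ⊆ New (hw n κ') e` (`inv_le_New`) is a nonzero element of `NM _ ρ_κ (hw n κ') id`, so `HomP (hw n κ) (hw n κ') id ≠ ⊥` (`NM_le_mult`, `TF/E6`), `hw n κ ≅ hw n κ'` (`iso_of_ne`, `TF/H6`) and `κ = κ'` (`hw_irr`).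
(4) Each `ρ_κ` has a label `ν_κ ∈ PP N e` (`exists_lab`, `e ≤ n ≤ N`), `κ ↦ ν_κ` is injective by (3), `finrank E_κ = finrank (HW e ν_κ)`, `finrank (HomP ρ_κ (τ.comp _) id) = finrank (HomP (hw e ν_κ) (τ.comp _) id)`. `finrank_expand` (`TF/G1`) for `σ = τ.comp (jD hed)`: `finrank E = ∑_{ν ∈ PP N e} finrank (HomP (hw e ν) σ id) * finrank (HW e ν)`; keep the terms `ν = ν_κ`
(`Finset.sum_le_sum_of_subset`, `Finset.sum_image`).
-/

set_option autoImplicit false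

open Module Equiv Pool.Agent.Helper1.TS Pool.Agent.Helper70.TU Pool.Agent.Helper51.TN

namespace Pool.Agent.Helper51.TF

private theorem jD_jD33 {n d e : ℕ} (hed : e ≤ d) (hdn : d ≤ n) (y : Perm (Fin e)) :
    jD hdn (jD hed y) = jD (hed.trans hdn) y := by
  refine Equiv.ext fun i => ?_
  rcases lt_or_ge (i : ℕ) e with hi | hi
  · rw [jD_apply (hed.trans hdn) y i hi, jD_apply hdn (jD hed y) i (hi.trans_le hed),
      jD_apply hed y ⟨i, hi.trans_le hed⟩ hi]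
  · rw [jD_apply_of_le (hed.trans hdn) y i hi]
    rcases lt_or_ge (i : ℕ) d with hi' | hi'
    · rw [jD_apply hdn (jD hed y) i hi', jD_apply_of_le hed y ⟨i, hi'⟩ hi]
    · rw [jD_apply_of_le hdn _ i hi']

private theorem avT_comm33 {n e : ℕ} {W : Type*} [AddCommGroup W] [Module ℂ W]
    (θ : Representation ℂ (Perm (Fin n)) W) (h : e ≤ n) (y : Perm (Fin e)) (w : W) :
    avT θ (TT n e) (θ (jD h y) w) = θ (jD h y) (avT θ (TT n e) w) := by
  unfold avT
  rw [LinearMap.smul_apply, LinearMap.smul_apply, map_smul, LinearMap.sum_apply, LinearMap.sum_apply, map_sum]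
  congr 1
  refine Finset.sum_congr rfl fun x hx => ?_
  have h1 := jD_support_mem h y x (Finset.mem_filter.1 hx).2
  rw [← Module.End.mul_apply, ← map_mul, h1.eq, map_mul, Module.End.mul_apply]

private theorem step1_33 {n d e : ℕ} {W : Type*} [AddCommGroup W] [Module ℂ W] [FiniteDimensional ℂ W]
    (θ : Representation ℂ (Perm (Fin n)) W) [θ.IsIrreducible] (he : IsDepth θ e) (hed : e ≤ d) (hdn : d ≤ n)
    {E : Type*} [AddCommGroup E] [Module ℂ E] [FiniteDimensional ℂ E] (τ : Representation ℂ (Perm (Fin d)) E) :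
    finrank ℂ (HomE hdn τ θ LinearMap.id) ≤
      finrank ℂ (HomP (τ.comp (jD hed)) (rhoE θ he.1) LinearMap.id) := by
  let A : W →ₗ[ℂ] inv θ (TT n e) := (avT θ (TT n e)).codRestrict _ fun z => avT_mem θ (TT n e) z
  have hA : ∀ w, ((A w : inv θ (TT n e)) : W) = avT θ (TT n e) w := fun _ => rfl
  have hmem : ∀ φ ∈ HomE hdn τ θ LinearMap.id,
      (A ∘ₗ φ) ∈ HomP (τ.comp (jD hed)) (rhoE θ he.1) LinearMap.id := by
    intro φ hφ
    refine ⟨fun y v => Subtype.ext ?_, fun _ => rfl⟩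
    have h1 := hφ.1 (1, jD hed y) v
    have h2 : φ (τ (jD hed y) v) = θ (jD he.1 y) (φ v) := by
      have h3 : jH hdn (1, jD hed y) = jD he.1 y := by
        rw [jH_apply, map_one, one_mul, jD_jD33 hed hdn y]
      have h4 : φ (τ (jD hed y) v) = θ (jH hdn (1, jD hed y)) (φ v) := h1
      rw [h4, h3]
    show avT θ (TT n e) (φ (τ (jD hed y) v)) = θ (jD he.1 y) (avT θ (TT n e) (φ v))
    rw [h2, avT_comm33]
  let F : HomE hdn τ θ LinearMap.id →ₗ[ℂ] HomP (τ.comp (jD hed)) (rhoE θ he.1) LinearMap.id :=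
    { toFun := fun φ => ⟨A ∘ₗ φ.1, hmem φ.1 φ.2⟩
      map_add' := fun φ ψ => Subtype.ext (LinearMap.comp_add _ _ _)
      map_smul' := fun c φ => Subtype.ext (LinearMap.comp_smul _ _ _) }
  refine LinearMap.finrank_le_finrank_of_injective (f := F) ?_
  rw [injective_iff_map_eq_zero]
  intro φ hφ
  refine Subtype.ext (av_inj θ he hed hdn τ φ.1 φ.2 fun v => ?_)
  have h1 : A ∘ₗ φ.1 = 0 := congrArg Subtype.val hφ
  have h2 := LinearMap.congr_fun h1 v
  rw [← hA]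
  exact congrArg Subtype.val h2

private theorem step2_33 {e : ℕ} {E X : Type*} [AddCommGroup E] [Module ℂ E] [FiniteDimensional ℂ E]
    [AddCommGroup X] [Module ℂ X] [FiniteDimensional ℂ X] (ρ : Representation ℂ (Perm (Fin e)) E)
    (σ : Representation ℂ (Perm (Fin e)) X) :
    finrank ℂ (HomP ρ σ LinearMap.id) = finrank ℂ (HomP σ ρ LinearMap.id) := by
  have h1 := dim_hom ρ σ LinearMap.id (fun _ => rfl) (fun _ _ => rfl)
  have h2 := dim_hom σ ρ LinearMap.id (fun _ => rfl) (fun _ _ => rfl)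
  have h3 : ∑ h : Perm (Fin e), LinearMap.trace ℂ X (σ h ∘ₗ LinearMap.id) * ρ.character h⁻¹ =
      ∑ h : Perm (Fin e), LinearMap.trace ℂ E (ρ h ∘ₗ LinearMap.id) * σ.character h⁻¹ := by
    rw [← Equiv.sum_comp (Equiv.inv (Perm (Fin e)))]
    refine Finset.sum_congr rfl fun g _ => ?_
    rw [Equiv.inv_apply, inv_inv, LinearMap.comp_id, LinearMap.comp_id, mul_comm]
    rfl
  rw [h3, ← h2] at h1
  have h4 : (Fintype.card (Perm (Fin e)) : ℂ) ≠ 0 := by
    exact_mod_cast Fintype.card_ne_zero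
  exact_mod_cast mul_left_cancel₀ h4 h1

private theorem pos33 {V : Type*} [AddCommGroup V] [Module ℂ V] [FiniteDimensional ℂ V] (S : Submodule ℂ V)
    (f : V) (hf : f ∈ S) (h0 : f ≠ 0) : 0 < finrank ℂ S := by
  refine Nat.pos_of_ne_zero fun h => ?_
  have h1 := Submodule.finrank_eq_zero.1 h
  rw [h1, Submodule.mem_bot] at hf
  exact h0 hf

private theorem ex33 {V : Type*} [AddCommGroup V] [Module ℂ V] (S : Submodule ℂ V)
    (h : 0 < finrank ℂ S) : ∃ f ∈ S, f ≠ 0 := by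
  refine (Submodule.ne_bot_iff _).1 fun h0 => ?_
  rw [h0, finrank_bot] at h
  exact lt_irrefl 0 h

private theorem iso33 {n e : ℕ} {W W' : Type} [AddCommGroup W] [Module ℂ W] [FiniteDimensional ℂ W]
    [AddCommGroup W'] [Module ℂ W'] [FiniteDimensional ℂ W'] (θ : Representation ℂ (Perm (Fin n)) W)
    [θ.IsIrreducible] (θ' : Representation ℂ (Perm (Fin n)) W') [θ'.IsIrreducible]
    (hd : IsDepth θ e) (hd' : IsDepth θ' e) (he : e ≤ n) (ψ : inv θ (TT n e) ≃ₗ[ℂ] inv θ' (TT n e))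
    (hψ : ∀ g v, ψ (rhoE θ he g v) = rhoE θ' he g (ψ v)) : Iso θ θ' := by
  obtain ⟨F, hF⟩ : ∃ F : inv θ (TT n e) →ₗ[ℂ] W', F = (inv θ' (TT n e)).subtype ∘ₗ ψ.toLinearMap := ⟨_, rfl⟩
  have hFv : ∀ v, F v = (ψ v : W') := fun v => by rw [hF]; rfl
  have hmem : F ∈ NM he (rhoE θ he) θ' LinearMap.id := by
    refine mem_NM.2 ⟨fun y v => ?_, fun v => ?_, fun _ => rfl⟩
    · rw [hFv, hFv, hψ]
      rfl
    · rw [hFv]
      exact inv_le_New θ' hd' (ψ v).2
  have hne : F ≠ 0 := by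
    intro h0
    obtain ⟨v, hv, hv0⟩ := (Submodule.ne_bot_iff _).1 hd.2.1
    have h1 := hFv ⟨v, hv⟩
    rw [h0, LinearMap.zero_apply] at h1
    have h2 : ψ ⟨v, hv⟩ = 0 := Subtype.ext h1.symm
    have h3 : (⟨v, hv⟩ : inv θ (TT n e)) = 0 := ψ.map_eq_zero_iff.1 h2
    exact hv0 (congrArg Subtype.val h3)
  have h1 : 0 < finrank ℂ (NM he (rhoE θ he) θ' LinearMap.id) :=
    pos33 (V := inv θ (TT n e) →ₗ[ℂ] W') (NM he (rhoE θ he) θ' LinearMap.id) F hmem hne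
  have h2 : finrank ℂ (NM he (rhoE θ he) θ' LinearMap.id) ≤ finrank ℂ (HomP θ θ' LinearMap.id) :=
    NM_le_mult θ θ' LinearMap.id (fun _ => rfl) (fun _ _ => rfl) hd
  obtain ⟨f, hf, hf0⟩ := ex33 (V := W →ₗ[ℂ] W') (HomP θ θ' LinearMap.id) (h1.trans_le h2)
  have h4 := iso_of_ne θ θ' f hf.1 hf0
  exact ⟨LinearEquiv.ofBijective f h4, hf.1⟩

private theorem step3_33 {N n e : ℕ} (hN : n ≤ N) {κ κ' : Fin N → ℕ} (hκ : κ ∈ PP N n) (hκ' : κ' ∈ PP N n)
    (hd : IsDepth (hw n κ) e) (hd' : IsDepth (hw n κ') e) (he : e ≤ n)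
    (ψ : inv (hw n κ) (TT n e) ≃ₗ[ℂ] inv (hw n κ') (TT n e))
    (hψ : ∀ g v, ψ (rhoE (hw n κ) he g v) = rhoE (hw n κ') he g (ψ v)) : κ = κ' := by
  have := (hw_irr hN).1 κ hκ
  have := (hw_irr hN).1 κ' hκ'
  exact (hw_irr hN).2 κ hκ κ' hκ' (iso33 (hw n κ) (hw n κ') hd hd' he ψ hψ)

private theorem step4_33 {e : ℕ} {V W X : Type*} [AddCommGroup V] [Module ℂ V] [FiniteDimensional ℂ V]
    [AddCommGroup W] [Module ℂ W] [FiniteDimensional ℂ W] [AddCommGroup X] [Module ℂ X] [FiniteDimensional ℂ X]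
    (ρ : Representation ℂ (Perm (Fin e)) V) (ρ' : Representation ℂ (Perm (Fin e)) W)
    (σ : Representation ℂ (Perm (Fin e)) X) (hi : Iso ρ ρ') :
    finrank ℂ (HomP ρ σ LinearMap.id) ≤ finrank ℂ (HomP ρ' σ LinearMap.id) := by
  obtain ⟨ψ, hψ⟩ := hi
  have hmem : ∀ f ∈ HomP ρ σ LinearMap.id, (f ∘ₗ ψ.symm.toLinearMap) ∈ HomP ρ' σ LinearMap.id := by
    intro f hf
    refine ⟨fun g v => ?_, fun _ => rfl⟩
    obtain ⟨w, rfl⟩ := ψ.surjective v
    show f (ψ.symm (ρ' g (ψ w))) = σ g (f (ψ.symm (ψ w)))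
    rw [← hψ, LinearEquiv.symm_apply_apply, LinearEquiv.symm_apply_apply, hf.1]
  let F : HomP ρ σ LinearMap.id →ₗ[ℂ] HomP ρ' σ LinearMap.id :=
    { toFun := fun f => ⟨f.1 ∘ₗ ψ.symm.toLinearMap, hmem f.1 f.2⟩
      map_add' := fun f f' => Subtype.ext (LinearMap.add_comp _ _ _)
      map_smul' := fun c f => Subtype.ext (LinearMap.smul_comp _ _ _) }
  refine LinearMap.finrank_le_finrank_of_injective (f := F) ?_
  rw [injective_iff_map_eq_zero]
  intro f hf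
  refine Subtype.ext (LinearMap.ext fun v => ?_)
  have h1 : f.1 ∘ₗ ψ.symm.toLinearMap = 0 := congrArg Subtype.val hf
  have h2 := LinearMap.congr_fun h1 (ψ v)
  have h3 : f.1 (ψ.symm (ψ v)) = 0 := h2
  rw [LinearEquiv.symm_apply_apply] at h3
  exact h3

open Classical in
theorem mult_sum_le {N n d e : ℕ} (hN : n ≤ N) (hed : e ≤ d) (hdn : d ≤ n) {E : Type*} [AddCommGroup E] [Module ℂ E]
    [FiniteDimensional ℂ E] (τ : Representation ℂ (Perm (Fin d)) E) :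
    ∑ κ ∈ (PP N n).filter (fun κ => IsDepth (hw n κ) e),
      finrank ℂ (HomE hdn τ (hw n κ) LinearMap.id) * finrank ℂ (inv (hw n κ) (TT n e)) ≤ finrank ℂ E := by
  have hen : e ≤ n := hed.trans hdn
  have heN : e ≤ N := hen.trans hN
  have hlab : ∀ κ : Fin N → ℕ, κ ∈ (PP N n).filter (fun κ => IsDepth (hw n κ) e) →
      ∃ ν ∈ PP N e, Lab (V := inv (hw n κ) (TT n e)) (rhoE (hw n κ) hen) ν := by
    intro κ hκ
    obtain ⟨h1, h2⟩ := Finset.mem_filter.1 hκ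
    have := (hw_irr hN).1 κ h1
    have := rhoE_irr (hw n κ) h2
    exact @exists_lab N e heN (inv (hw n κ) (TT n e)) _ _ _ (rhoE (hw n κ) hen) this
  choose! ν hν hl using hlab
  have hinj : Set.InjOn ν ((PP N n).filter (fun κ => IsDepth (hw n κ) e)) := by
    intro κ hκ κ' hκ' heq
    obtain ⟨h1, h2⟩ := Finset.mem_filter.1 hκ
    obtain ⟨h1', h2'⟩ := Finset.mem_filter.1 hκ'
    obtain ⟨ψ, hψ⟩ := hl κ hκ
    have h3 := hl κ' hκ'
    rw [← heq] at h3
    obtain ⟨ψ', hψ'⟩ := h3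
    refine step3_33 hN h1 h1' h2 h2' hen (ψ.trans ψ'.symm) fun g v => ?_
    rw [LinearEquiv.trans_apply, LinearEquiv.trans_apply, hψ]
    rw [LinearEquiv.symm_apply_eq, hψ', LinearEquiv.apply_symm_apply]
  rw [finrank_expand heN (τ.comp (jD hed))]
  have h1 : ∑ κ ∈ (PP N n).filter (fun κ => IsDepth (hw n κ) e),
      finrank ℂ (HomE hdn τ (hw n κ) LinearMap.id) * finrank ℂ (inv (hw n κ) (TT n e)) ≤
      ∑ κ ∈ (PP N n).filter (fun κ => IsDepth (hw n κ) e),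
        finrank ℂ (HomP (hw e (ν κ)) (τ.comp (jD hed)) LinearMap.id) * finrank ℂ (HW e (ν κ)) := by
    refine Finset.sum_le_sum fun κ hκ => ?_
    obtain ⟨h1, h2⟩ := Finset.mem_filter.1 hκ
    have := (hw_irr hN).1 κ h1
    have h3 := step1_33 (hw n κ) h2 hed hdn τ
    have h5 := step2_33 (X := inv (hw n κ) (TT n e)) (τ.comp (jD hed)) (rhoE (hw n κ) hen)
    have hl' : Iso (V := inv (hw n κ) (TT n e)) (W := HW e (ν κ)) (rhoE (hw n κ) hen) (hw e (ν κ)) := hl κ hκ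
    have h4 := step4_33 (V := inv (hw n κ) (TT n e)) (W := HW e (ν κ)) _ (hw e (ν κ)) (τ.comp (jD hed)) hl'
    obtain ⟨ψ, -⟩ := hl κ hκ
    exact Nat.mul_le_mul (h3.trans (h5.le.trans h4)) ψ.finrank_eq.le
  refine h1.trans ?_
  rw [← Finset.sum_image (f := fun ν => finrank ℂ (HomP (hw e ν) (τ.comp (jD hed)) LinearMap.id) *
    finrank ℂ (HW e ν)) hinj]
  refine Finset.sum_le_sum_of_subset ?_
  intro x hx
  obtain ⟨κ, hκ, rfl⟩ := Finset.mem_image.1 hx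
  exact hν κ hκ

end Pool.Agent.Helper51.TF
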