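import Pool.Agent.Helper51.TF.H7
import Pool.Agent.Helper51.TF.E6
import Pool.Agent.Helper51.TN.L6
import Pool.Agent.Helper51.TN.FIN

/-!
BLOCK TF-M5 (about 150 lines). The representations of depth `≥ d` in the representation induced from the top of `θ`.

Proof in words. `τ = rhoE θ hd.1` (irreducible, `rhoE_irr`), on `E = inv θ (TT n d) ≠ 0`. An element of `HomE hd.1 τ (hw n κ) id` is a linear map `f : E → HW n κ` with values in `inv (hw n κ) (TT n d)` and `f (τ y v) = hw n κ (jD _ y) (f v)`.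
* `homE_top_zero`: let `d'` be the depth of `hw n κ` (`exists_depth` in `TN/FIN`; `HW n κ ≠ 0`), `d' ≥ d` by `hdep`. If `d' > d` then `inv (hw n κ) (TT n d) = ⊥` and `f = 0`. If `d' = d`, a nonzero `f` is an element of `NM hd.1 τ (hw n κ) id` (`inv_le_New`, `TN/L3`), so `HomP θ (hw n κ) id ≠ ⊥` (`NM_le_mult`, `TF/E6`) and a nonzero intertwining map between the irreducible `θ` and `hw n κ` is an
  isomorphism (`iso_of_ne`, `TF/H6`): `Lab θ κ`, contradiction.
* `homE_top_eq`: `HomE` is the space of the intertwining maps from `τ` to `rhoE (hw n κ) _` (depth of `hw n κ` is `d` by the isomorphism), and these two are isomorphic irreducible representations: dimension `1` by Schur's lemma.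
-/

set_option autoImplicit false

open Module Equiv Pool.Agent.Helper1.TS Pool.Agent.Helper70.TU Pool.Agent.Helper51.TN

namespace Pool.Agent.Helper51.TF

private theorem mem_homE52 {n d : ℕ} {E X : Type*} [AddCommGroup E] [Module ℂ E] [AddCommGroup X] [Module ℂ X]
    (h : d ≤ n) (τ : Representation ℂ (Perm (Fin d)) E) (σ : Representation ℂ (Perm (Fin n)) X)
    (f : E →ₗ[ℂ] X) : f ∈ HomE h τ σ LinearMap.id ↔
      (∀ v, f v ∈ inv σ (TT n d)) ∧ ∀ (y : Perm (Fin d)) (v : E), f (τ y v) = σ (jD h y) (f v) := by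
  constructor
  · intro hf
    have h1 : ∀ (p : Perm (Fin (n - d)) × Perm (Fin d)) (v : E), f (τ p.2 v) = σ (jH h p) (f v) :=
      (mem_HomP.1 hf).1
    refine ⟨fun v => (mem_inv_iff σ h (f v)).2 fun x => ?_, fun y v => ?_⟩
    · have h2 := h1 (x, 1) v
      rw [jH_apply] at h2
      simp only [map_one, mul_one, Module.End.one_apply] at h2
      exact h2.symm
    · have h2 := h1 (1, y) v
      rw [jH_apply] at h2
      simp only [map_one, one_mul] at h2
      exact h2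
  · rintro ⟨h1, h2⟩
    refine mem_HomP.2 ⟨fun p v => ?_, fun v => rfl⟩
    change f (τ p.2 v) = σ (jH h p) (f v)
    rw [jH_apply, map_mul, Module.End.mul_apply, ← h2]
    exact ((mem_inv_iff σ h _).1 (h1 _) p.1).symm

private theorem ex52 {E X : Type*} [AddCommGroup E] [Module ℂ E] [AddCommGroup X] [Module ℂ X]
    [FiniteDimensional ℂ E] [FiniteDimensional ℂ X] (S : Submodule ℂ (E →ₗ[ℂ] X)) (h : finrank ℂ S ≠ 0) :
    ∃ f ∈ S, f ≠ 0 := by
  obtain ⟨f, hf⟩ := Module.finrank_pos_iff_exists_ne_zero.1 (Nat.pos_of_ne_zero h)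
  exact ⟨f, f.2, fun h0 => hf (Subtype.ext h0)⟩

private theorem pos52 {E X : Type*} [AddCommGroup E] [Module ℂ E] [AddCommGroup X] [Module ℂ X]
    [FiniteDimensional ℂ E] [FiniteDimensional ℂ X] (S : Submodule ℂ (E →ₗ[ℂ] X)) (f : E →ₗ[ℂ] X)
    (hf : f ∈ S) (hf0 : f ≠ 0) : finrank ℂ S ≠ 0 :=
  (Module.finrank_pos_iff_exists_ne_zero.2 ⟨⟨f, hf⟩, fun h => hf0 (congrArg Subtype.val h)⟩).ne'

/-- Schur's lemma, for an injective map onto the invariants. -/
private theorem one52 {n d : ℕ} {E X : Type} [AddCommGroup E] [Module ℂ E] [AddCommGroup X] [Module ℂ X]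
    [FiniteDimensional ℂ E] [FiniteDimensional ℂ X] (h : d ≤ n) (τ : Representation ℂ (Perm (Fin d)) E)
    [τ.IsIrreducible] (σ : Representation ℂ (Perm (Fin n)) X) (f0 : E →ₗ[ℂ] X)
    (hf0 : f0 ∈ HomE h τ σ LinearMap.id) (hinj : Function.Injective f0)
    (hsur : ∀ z ∈ inv σ (TT n d), ∃ v, f0 v = z) (w0 : E) (hw0 : w0 ≠ 0) :
    finrank ℂ (HomE h τ σ LinearMap.id) = 1 := by
  classical
  have hf0' := (mem_homE52 h τ σ f0).1 hf0
  have hf0ne : (⟨f0, hf0⟩ : HomE h τ σ LinearMap.id) ≠ 0 := by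
    intro h0
    have h1 : f0 = 0 := congrArg Subtype.val h0
    have h2 : f0 w0 = f0 0 := by rw [map_zero, h1, LinearMap.zero_apply]
    exact hw0 (hinj h2)
  refine finrank_eq_one (⟨f0, hf0⟩ : HomE h τ σ LinearMap.id) hf0ne fun f => ?_
  have hf := (mem_homE52 h τ σ (f : E →ₗ[ℂ] X)).1 f.2
  let F : E ≃ₗ[ℂ] inv σ (TT n d) := LinearEquiv.ofBijective (f0.codRestrict (inv σ (TT n d)) hf0'.1)
    ⟨fun a b hab => hinj (congrArg Subtype.val hab), fun z => by
      obtain ⟨v, hv⟩ := hsur z z.2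
      exact ⟨v, Subtype.ext hv⟩⟩
  have hF : ∀ v, ((F v : inv σ (TT n d)) : X) = f0 v := fun v => rfl
  let g : Module.End ℂ E := F.symm.toLinearMap ∘ₗ (f : E →ₗ[ℂ] X).codRestrict (inv σ (TT n d)) hf.1
  have hgv : ∀ v, f0 (g v) = (f : E →ₗ[ℂ] X) v := by
    intro v
    rw [← hF]
    change ((F (F.symm _) : inv σ (TT n d)) : X) = _
    rw [F.apply_symm_apply]
    rfl
  have hgc : ∀ (y : Perm (Fin d)) (v : E), g (τ y v) = τ y (g v) := by
    intro y v
    apply hinj
    rw [hgv, hf.2, hf0'.2, hgv]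
  have hnt : Nontrivial E := ⟨⟨w0, 0, hw0⟩⟩
  obtain ⟨c, hc⟩ := Module.End.exists_eigenvalue g
  obtain ⟨v, hv⟩ := hc.exists_hasEigenvector
  have hv1 : g v = c • v := hv.apply_eq_smul
  refine ⟨c, ?_⟩
  have hz : g - c • LinearMap.id = 0 := by
    by_contra hne
    have hb := iso_of_ne τ τ (g - c • LinearMap.id) (fun y u => by
      rw [LinearMap.sub_apply, LinearMap.smul_apply, LinearMap.id_apply, hgc, LinearMap.sub_apply,
        LinearMap.smul_apply, LinearMap.id_apply, map_sub, map_smul]) hne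
    apply hv.2
    apply hb.1
    rw [map_zero, LinearMap.sub_apply, LinearMap.smul_apply, LinearMap.id_apply, hv1, sub_self]
  refine Subtype.ext (LinearMap.ext fun u => ?_)
  change c • f0 u = (f : E →ₗ[ℂ] X) u
  have h1 : g u = c • u := by
    have h2 := LinearMap.congr_fun hz u
    rw [LinearMap.sub_apply, LinearMap.smul_apply, LinearMap.id_apply, LinearMap.zero_apply, sub_eq_zero] at h2
    exact h2
  rw [← hgv, h1, map_smul]

variable {N n d : ℕ} {W : Type} [AddCommGroup W] [Module ℂ W] [FiniteDimensional ℂ W]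

theorem homE_top_eq (hN : n ≤ N) (θ : Representation ℂ (Perm (Fin n)) W) [θ.IsIrreducible] (hd : IsDepth θ d)
    {κ : Fin N → ℕ} (hκ : κ ∈ PP N n) (hl : Lab θ κ) :
    finrank ℂ (HomE hd.1 (rhoE θ hd.1) (hw n κ) LinearMap.id) = 1 := by
  classical
  have hirr : (rhoE θ hd.1).IsIrreducible := rhoE_irr θ hd
  obtain ⟨e, he⟩ := hl
  have he' : ∀ (g : Perm (Fin n)) (x : HW n κ), e.symm (hw n κ g x) = θ g (e.symm x) := by
    intro g x
    rw [LinearEquiv.symm_apply_eq, he, e.apply_symm_apply]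
  obtain ⟨w0, hw0, hw0'⟩ := (Submodule.ne_bot_iff _).1 hd.2.1
  refine one52 hd.1 (rhoE θ hd.1) (hw n κ) (e.toLinearMap ∘ₗ (inv θ (TT n d)).subtype) ?_ ?_ ?_
    ⟨w0, hw0⟩ (fun h => hw0' (congrArg Subtype.val h))
  · rw [mem_homE52]
    refine ⟨fun v x hx => ?_, fun y v => ?_⟩
    · change hw n κ x (e (v : W)) = e (v : W)
      rw [← he, v.2 x hx]
    · change e (rhoE θ hd.1 y v : W) = hw n κ (jD hd.1 y) (e (v : W))
      rw [rhoE_coe, he]
  · intro a b hab
    exact Subtype.ext (e.injective hab)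
  · intro z hz
    refine ⟨⟨e.symm z, fun x hx => ?_⟩, e.apply_symm_apply z⟩
    rw [← he', hz x hx]

theorem homE_top_zero (hN : n ≤ N) (θ : Representation ℂ (Perm (Fin n)) W) [θ.IsIrreducible] (hd : IsDepth θ d)
    {κ : Fin N → ℕ} (hκ : κ ∈ PP N n) (hl : ¬ Lab θ κ) (hdep : ∀ e < d, ¬ IsDepth (hw n κ) e) :
    finrank ℂ (HomE hd.1 (rhoE θ hd.1) (hw n κ) LinearMap.id) = 0 := by
  classical
  have hirr : (hw n κ).IsIrreducible := (hw_irr hN).1 κ hκ
  by_contra hne
  obtain ⟨f, hfS, hf0⟩ := ex52 _ hne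
  have hfm := (mem_homE52 hd.1 (rhoE θ hd.1) (hw n κ) f).1 hfS
  obtain ⟨v, hv⟩ : ∃ v, f v ≠ 0 := by
    by_contra hcon
    push Not at hcon
    exact hf0 (LinearMap.ext hcon)
  obtain ⟨d', hd'⟩ := exists_depth (hw n κ) ⟨_, hv⟩
  have h1 : ¬ d' < d := fun h => hdep d' h hd'
  have h2 : ¬ d < d' := by
    intro h
    have h3 := hfm.1 v
    rw [hd'.2.2 d h, Submodule.mem_bot] at h3
    exact hv h3
  obtain rfl : d' = d := by omega
  have hNM : f ∈ NM hd.1 (rhoE θ hd.1) (hw n κ) LinearMap.id :=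
    ⟨hfm.2, fun u => inv_le_New (hw n κ) hd' (hfm.1 u), fun u => rfl⟩
  have h4 := NM_le_mult θ (hw n κ) LinearMap.id (fun x => rfl) (fun g x => rfl) hd
  have h5 := pos52 _ f hNM hf0
  have h6 : finrank ℂ (HomP θ (hw n κ) LinearMap.id) ≠ 0 := by omega
  obtain ⟨g, hgS, hg0⟩ := ex52 _ h6
  have hb := iso_of_ne θ (hw n κ) g (mem_HomP.1 hgS).1 hg0
  exact hl ⟨LinearEquiv.ofBijective g hb, (mem_HomP.1 hgS).1⟩

end Pool.Agent.Helper51.TF
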