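import Pool.Agent.Helper51.TF.M1
import Pool.Agent.Helper51.TF.M4
import Pool.Agent.Helper51.TF.M5

/-!
BLOCK TF-M7 (about 200 lines). A bound for the coefficients of a class function.

Proof in words. Strong induction on `d`. `τ = rhoE θ hd.1`, `E = inv θ (TT n d)`, `D = finrank E > 0`. `avH_expand` (`TF/M1`): `avH hd.1 f (fun y => (τ.character y).re) = ∑_κ cf f (hw n κ) * finrank (HomE hd.1 τ (hw n κ) id)`.
Left side: `(τ.character y).re = D * q y` with `|q y| ≤ 1` (`norm_char_le`: `‖τ.character y‖ ≤ finrank E`), so it is at most `B D` in absolute value (`hB`; `avH` is linear in `q`).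
Right side: let `κ₀` be the label of `θ` (`exists_lab`): its term is `cf f (hw n κ₀) * 1 = cf f θ` (`homE_top_eq`; isomorphic representations have the same character). For `κ ≠ κ₀` (then `¬ Lab θ κ`, `lab_unique`) without depth `< d` the term is `0` (`homE_top_zero`). The other `κ` have a depth `e < d` (unique), and
`|cf f (hw n κ)| ≤ 2^e B finrank (inv (hw n κ) (TT n e))` by induction (`hw n κ` is irreducible, `HW n κ : Type`). So by `mult_sum_le` (`TF/M4`): `|∑_{κ of depth e} ...| ≤ 2^e B D`, and `∑_{e<d} 2^e = 2^d - 1`. Total `|cf f θ| ≤ B D + (2^d - 1) B D`.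
-/

set_option autoImplicit false

open Module Equiv Pool.Agent.Helper1.TS Pool.Agent.Helper70.TU Pool.Agent.Helper51.TN

namespace Pool.Agent.Helper51.TF

private theorem cf_iso99 {n : ℕ} {V W : Type*} [AddCommGroup V] [Module ℂ V] [AddCommGroup W] [Module ℂ W]
    (f : Perm (Fin n) → ℝ) (θ : Representation ℂ (Perm (Fin n)) V) (σ : Representation ℂ (Perm (Fin n)) W)
    (h : Iso θ σ) : cf f θ = cf f σ := by
  obtain ⟨e, he⟩ := h
  unfold cf
  congr 1
  refine Finset.sum_congr rfl fun g _ => ?_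
  have h1 : σ g = e.conj (θ g) := by
    refine LinearMap.ext fun w => ?_
    rw [LinearEquiv.conj_apply_apply, he, e.apply_symm_apply]
  have h2 : θ.character g = σ.character g := by
    show LinearMap.trace ℂ V (θ g) = LinearMap.trace ℂ W (σ g)
    rw [h1, LinearMap.trace_conj']
  rw [h2]

private theorem avH_mul99 {n e : ℕ} (h : e ≤ n) (f : Perm (Fin n) → ℝ) (c : ℝ) (q : Perm (Fin e) → ℝ) :
    avH h f (fun y => c * q y) = c * avH h f q := by
  unfold avH
  rw [mul_div_assoc', Finset.mul_sum]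
  congr 1
  refine Finset.sum_congr rfl fun x _ => ?_
  rw [Finset.mul_sum]
  refine Finset.sum_congr rfl fun y _ => ?_
  ring

private theorem geom99 (d : ℕ) : ∑ e ∈ Finset.range d, (2 : ℝ) ^ e = 2 ^ d - 1 := by
  induction d with
  | zero => simp
  | succ d ih =>
    rw [Finset.sum_range_succ, ih, pow_succ]
    ring

theorem cf_le {N n : ℕ} (hN : n ≤ N) (f : Perm (Fin n) → ℝ) (hf : ∀ x g, f (x * g * x⁻¹) = f g) (B : ℝ) (hB0 : 0 ≤ B)
    (D₀ : ℕ) (hB : ∀ (e : ℕ) (h : e ≤ n), e ≤ D₀ → ∀ q : Perm (Fin e) → ℝ, (∀ y, |q y| ≤ 1) → |avH h f q| ≤ B) :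
    ∀ d : ℕ, d ≤ D₀ → ∀ (W : Type) [AddCommGroup W] [Module ℂ W] [FiniteDimensional ℂ W]
      (θ : Representation ℂ (Perm (Fin n)) W) [θ.IsIrreducible], IsDepth θ d →
      |cf f θ| ≤ 2 ^ d * B * finrank ℂ (inv θ (TT n d)) := by
  classical
  intro d
  induction d using Nat.strong_induction_on with
  | _ d ih =>
    intro hdD W _ _ _ θ _ hd
    set τ := rhoE θ hd.1 with hτ
    have hexp := avH_expand hN hd.1 f hf τ
    obtain ⟨κ₀, hκ₀, hl₀⟩ := exists_lab hN θ
    set D : ℝ := ((finrank ℂ (inv θ (TT n d)) : ℕ) : ℝ) with hD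
    have hD0 : 0 < D := by
      have h1 : finrank ℂ (inv θ (TT n d)) ≠ 0 := by
        intro h
        exact hd.2.1 (Submodule.finrank_eq_zero.1 h)
      have h2 : 0 < finrank ℂ (inv θ (TT n d)) := Nat.pos_of_ne_zero h1
      rw [hD]
      exact_mod_cast h2
    -- the left side
    have hleft : |avH hd.1 f (fun y => (τ.character y).re)| ≤ D * B := by
      have h1 : (fun y => (τ.character y).re) = fun y => D * ((τ.character y).re / D) := by
        funext y
        field_simp
      rw [h1, avH_mul99, abs_mul, abs_of_pos hD0]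
      apply mul_le_mul_of_nonneg_left _ hD0.le
      refine hB d hd.1 hdD _ fun y => ?_
      rw [abs_div, abs_of_pos hD0, div_le_one hD0]
      exact (Complex.abs_re_le_norm _).trans (norm_char_le τ y)
    -- the right side
    have hterm₀ : cf f (hw n κ₀) * (finrank ℂ (HomE hd.1 τ (hw n κ₀) LinearMap.id) : ℝ) = cf f θ := by
      rw [hτ, homE_top_eq hN θ hd hκ₀ hl₀, cf_iso99 f θ (hw n κ₀) hl₀]
      simp
    rw [← Finset.add_sum_erase _ _ hκ₀, hterm₀] at hexp
    set T : (Fin N → ℕ) → ℕ → ℝ := fun κ e => if IsDepth (hw n κ) e then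
      2 ^ e * B * ((finrank ℂ (HomE hd.1 τ (hw n κ) LinearMap.id) : ℝ) *
        (finrank ℂ (inv (hw n κ) (TT n e)) : ℝ)) else 0 with hT
    have hT0 : ∀ κ e, 0 ≤ T κ e := by
      intro κ e
      simp only [hT]
      split_ifs
      · positivity
      · exact le_rfl
    have hterm : ∀ κ ∈ (PP N n).erase κ₀,
        |cf f (hw n κ) * (finrank ℂ (HomE hd.1 τ (hw n κ) LinearMap.id) : ℝ)| ≤
          ∑ e ∈ Finset.range d, T κ e := by
      intro κ hκ
      have hκP : κ ∈ PP N n := Finset.mem_of_mem_erase hκ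
      have hne : κ ≠ κ₀ := Finset.ne_of_mem_erase hκ
      have hnl : ¬ Lab θ κ := fun h => hne (lab_unique hN θ hκP hκ₀ h hl₀)
      by_cases hex : ∃ e < d, IsDepth (hw n κ) e
      · obtain ⟨e, he, hde⟩ := hex
        have : (hw n κ).IsIrreducible := (hw_irr hN).1 κ hκP
        have h1 := ih e he (by omega) (HW n κ) (hw n κ) hde
        refine le_trans ?_ (Finset.single_le_sum (f := fun e => T κ e) (fun e _ => hT0 κ e)
          (Finset.mem_range.2 he))
        simp only [hT]
        rw [if_pos hde, abs_mul, abs_of_nonneg (Nat.cast_nonneg (α := ℝ) _)]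
        calc |cf f (hw n κ)| * (finrank ℂ (HomE hd.1 τ (hw n κ) LinearMap.id) : ℝ)
            ≤ (2 ^ e * B * (finrank ℂ (inv (hw n κ) (TT n e)) : ℝ)) *
              (finrank ℂ (HomE hd.1 τ (hw n κ) LinearMap.id) : ℝ) :=
              mul_le_mul_of_nonneg_right h1 (Nat.cast_nonneg _)
          _ = _ := by ring
      · have h1 := homE_top_zero hN θ hd hκP hnl fun e he h => hex ⟨e, he, h⟩
        rw [← hτ] at h1
        rw [h1, Nat.cast_zero, mul_zero, abs_zero]
        exact Finset.sum_nonneg fun e _ => hT0 κ e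
    have hright : |∑ κ ∈ (PP N n).erase κ₀,
        cf f (hw n κ) * (finrank ℂ (HomE hd.1 τ (hw n κ) LinearMap.id) : ℝ)| ≤ (2 ^ d - 1) * (B * D) := by
      calc |∑ κ ∈ (PP N n).erase κ₀,
            cf f (hw n κ) * (finrank ℂ (HomE hd.1 τ (hw n κ) LinearMap.id) : ℝ)|
          ≤ ∑ κ ∈ (PP N n).erase κ₀, ∑ e ∈ Finset.range d, T κ e :=
            (Finset.abs_sum_le_sum_abs _ _).trans (Finset.sum_le_sum hterm)
        _ ≤ ∑ κ ∈ PP N n, ∑ e ∈ Finset.range d, T κ e :=
            Finset.sum_le_sum_of_subset_of_nonneg (Finset.erase_subset _ _)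
              fun κ _ _ => Finset.sum_nonneg fun e _ => hT0 κ e
        _ = ∑ e ∈ Finset.range d, ∑ κ ∈ PP N n, T κ e := Finset.sum_comm
        _ ≤ ∑ e ∈ Finset.range d, 2 ^ e * (B * D) := by
            refine Finset.sum_le_sum fun e he => ?_
            have hed : e ≤ d := (Finset.mem_range.1 he).le
            have h1 := mult_sum_le hN hed hd.1 τ
            have h2 : ∑ κ ∈ PP N n, T κ e = 2 ^ e * B *
                ((∑ κ ∈ (PP N n).filter (fun κ => IsDepth (hw n κ) e),
                  finrank ℂ (HomE hd.1 τ (hw n κ) LinearMap.id) *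
                    finrank ℂ (inv (hw n κ) (TT n e)) : ℕ) : ℝ) := by
              simp only [hT]
              rw [← Finset.sum_filter, ← Finset.mul_sum]
              push_cast
              rfl
            rw [h2, mul_assoc]
            apply mul_le_mul_of_nonneg_left _ (by positivity)
            apply mul_le_mul_of_nonneg_left _ hB0
            rw [hD]
            exact_mod_cast h1
        _ = (2 ^ d - 1) * (B * D) := by rw [← Finset.sum_mul, geom99]
    have hcf : cf f θ = avH hd.1 f (fun y => (τ.character y).re) - ∑ κ ∈ (PP N n).erase κ₀,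
        cf f (hw n κ) * (finrank ℂ (HomE hd.1 τ (hw n κ) LinearMap.id) : ℝ) := by
      rw [hexp]
      ring
    rw [hcf]
    refine (abs_sub _ _).trans ?_
    calc _ ≤ D * B + (2 ^ d - 1) * (B * D) := add_le_add hleft hright
      _ = 2 ^ d * B * D := by ring

end Pool.Agent.Helper51.TF
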