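import Mathlib

/-!
BLOCK TF-M8 (about 150 lines). Binomial coefficients. Only Mathlib.

Proof in words. `m = n/400`, `m ≥ n/401` for large `n`. `binom(m, d) ≥ (m/d)^d` (`Nat.pow_le_choose`-type bounds; or the weaker `(m/(2d))^d` as in `choose_lower6` in `Helper51/TN/C9.lean`, enough as well) and `binom(n, d) ≤ n^d/d! ≤ (e n/d)^d` (`Nat.choose_le_pow_div`, `Real.pow_div_factorial_le_exp`). With `q = n/d ≥ 1/δ`:
left side `≤ 2^d (e q)^{d/2} (n+1) exp (5√n)`, right side `≥ (q/802)^d / (160 (n+1) exp (5√n))`. So it is enough that `(q^{1/2}/(1604 e^{1/2}))^d > 160 (n+1)² exp (10 √n)`: `q^{1/2}/(1604 e^{1/2}) ≥ exp 30` if `δ` is small (`δ = exp (-100)`), and `exp (30 d) ≥ exp (15 √n) > 160 (n+1)² exp (10 √n)` for large `n` (`d ≥ √n/2`).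
-/

set_option autoImplicit false

namespace Pool.Agent.Helper51.TF

private theorem m8_lower {m d : ℕ} (hd : 0 < d) (h : 2 * d ≤ m) :
    ((m : ℝ) / (2 * d)) ^ d ≤ (m.choose d : ℝ) := by
  have h1 : (((m + 1 - d : ℕ) : ℝ)) ^ d ≤ (d.factorial : ℝ) * (m.choose d : ℝ) := by
    have h0 := Nat.pow_le_choose (α := ℝ) d m
    rw [div_le_iff₀ (by exact_mod_cast Nat.factorial_pos d)] at h0
    rw [mul_comm]
    exact h0
  have h2 : (m : ℝ) / 2 ≤ ((m + 1 - d : ℕ) : ℝ) := by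
    have : (m : ℝ) ≤ 2 * ((m + 1 - d : ℕ) : ℝ) := by
      exact_mod_cast (by omega : m ≤ 2 * (m + 1 - d))
    linarith
  have h3 : (d.factorial : ℝ) ≤ (d : ℝ) ^ d := by
    exact_mod_cast Nat.factorial_le_pow d
  have hd' : (0 : ℝ) < d := by exact_mod_cast hd
  have h4 : ((m : ℝ) / 2) ^ d ≤ (d : ℝ) ^ d * (m.choose d : ℝ) := by
    refine (pow_le_pow_left₀ (by positivity) h2 d).trans (h1.trans ?_)
    exact mul_le_mul_of_nonneg_right h3 (by positivity)
  have h5 : ((m : ℝ) / (2 * d)) ^ d = ((m : ℝ) / 2) ^ d / (d : ℝ) ^ d := by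
    rw [← div_pow, div_div]
  rw [h5, div_le_iff₀ (by positivity)]
  linarith

private theorem m8_upper {n d : ℕ} (hd : 0 < d) :
    (n.choose d : ℝ) ≤ (Real.exp 1 * (n / d)) ^ d := by
  have hd' : (0 : ℝ) < d := by exact_mod_cast hd
  have h1 : (n.choose d : ℝ) ≤ (n : ℝ) ^ d / d.factorial := Nat.choose_le_pow_div d n
  have h2 := Real.pow_div_factorial_le_exp (d : ℝ) hd'.le d
  have h3 : (0 : ℝ) < d.factorial := by exact_mod_cast Nat.factorial_pos d
  have h4 : Real.exp (d : ℝ) = Real.exp 1 ^ d := by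
    rw [← Real.exp_nat_mul, mul_one]
  rw [h4, div_le_iff₀ h3] at h2
  refine h1.trans ?_
  rw [mul_pow, div_pow, div_le_iff₀ h3]
  have h5 : Real.exp 1 ^ d * ((n : ℝ) ^ d / (d : ℝ) ^ d) * d.factorial =
      (n : ℝ) ^ d * ((Real.exp 1 ^ d * d.factorial) / (d : ℝ) ^ d) := by ring
  rw [h5]
  have h6 : 1 ≤ (Real.exp 1 ^ d * d.factorial) / (d : ℝ) ^ d := by
    rw [one_le_div (by positivity)]
    exact h2
  exact le_mul_of_one_le_right (by positivity) h6

theorem num_cols : ∃ δ : ℝ, 0 < δ ∧ δ ≤ 1 / 1000 ∧ ∃ n₀ : ℕ, ∀ n ≥ n₀, ∀ d : ℕ, Real.sqrt n / 2 ≤ d → (d : ℝ) ≤ δ * n →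
    2 ^ d * (Real.sqrt (n.choose d) * (((n : ℝ) + 1) * Real.exp (5 * Real.sqrt n))) <
      ((n / 400).choose d : ℝ) / (160 * (n + 1) * Real.exp (5 * Real.sqrt n)) := by
  have hδ : Real.exp (-100) ≤ 1 / 1000 := by
    have h1 := Real.pow_div_factorial_le_exp (100 : ℝ) (by norm_num) 2
    rw [Real.exp_neg, inv_eq_one_div]
    refine one_div_le_one_div_of_le (by norm_num) (le_trans ?_ h1)
    norm_num [Nat.factorial]
  refine ⟨Real.exp (-100), Real.exp_pos _, hδ, 10 ^ 6, fun n hn d hd1 hd2 => ?_⟩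
  have hn' : (10 : ℝ) ^ 6 ≤ n := by exact_mod_cast hn
  have hn0 : (0 : ℝ) < n := by linarith [show (0 : ℝ) < 10 ^ 6 by norm_num]
  have hS : 0 < Real.sqrt n := Real.sqrt_pos.2 hn0
  have hS2 : Real.sqrt n ^ 2 = n := Real.sq_sqrt hn0.le
  have hd0 : (0 : ℝ) < d := by linarith
  have hdn : 0 < d := by exact_mod_cast hd0
  have hm : (n : ℝ) / 401 ≤ ((n / 400 : ℕ) : ℝ) := by
    have h1 : (n : ℝ) ≤ 400 * ((n / 400 : ℕ) : ℝ) + 399 := by
      exact_mod_cast (by omega : n ≤ 400 * (n / 400) + 399)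
    linarith
  have hdm : 2 * d ≤ n / 400 := by
    have h1 : (d : ℝ) ≤ n / 1000 := by
      refine hd2.trans ?_
      nlinarith
    have : (2 : ℝ) * d ≤ ((n / 400 : ℕ) : ℝ) := by linarith
    exact_mod_cast this
  have hL := m8_lower hdn hdm
  have hU := m8_upper (n := n) hdn
  set q : ℝ := n / d with hq
  have hqpos : 0 < q := by positivity
  have hqδ : Real.exp 100 ≤ q := by
    rw [hq, le_div_iff₀ hd0]
    have h1 : Real.exp 100 * (Real.exp (-100) * n) = n := by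
      rw [← mul_assoc, ← Real.exp_add]
      simp
    calc Real.exp 100 * d ≤ Real.exp 100 * (Real.exp (-100) * n) :=
          mul_le_mul_of_nonneg_left hd2 (Real.exp_pos _).le
      _ = n := h1
  set s : ℝ := Real.sqrt q with hs
  have hs2 : s ^ 2 = q := Real.sq_sqrt hqpos.le
  have hspos : 0 < s := Real.sqrt_pos.2 hqpos
  have hs50 : Real.exp 50 ≤ s := by
    rw [hs]
    refine Real.le_sqrt_of_sq_le ?_
    rw [← Real.exp_nat_mul]
    norm_num
    exact hqδ
  -- upper bound of the left side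
  have hU2 : Real.sqrt (n.choose d) ≤ (Real.exp (1 / 2) * s) ^ d := by
    refine Real.sqrt_le_iff.2 ⟨by positivity, hU.trans (le_of_eq ?_)⟩
    have h1 : (Real.exp (1 / 2)) ^ 2 = Real.exp 1 := by
      rw [← Real.exp_nat_mul]
      norm_num
    rw [← pow_mul, mul_comm d 2, pow_mul, mul_pow (Real.exp (1 / 2)) s 2, h1, hs2]
  have hL2 : (s ^ 2 / 802) ^ d ≤ ((n / 400).choose d : ℝ) := by
    refine le_trans (pow_le_pow_left₀ (by positivity) ?_ d) hL
    rw [hs2, hq, div_div, div_le_div_iff₀ (by positivity) (by positivity)]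
    nlinarith
  -- the main inequality
  have hT : Real.exp 30 ≤ s / (1604 * Real.exp (1 / 2)) := by
    rw [le_div_iff₀ (by positivity)]
    refine le_trans ?_ hs50
    have h1 : (1604 : ℝ) ≤ Real.exp (39 / 2) := by
      have h2 := Real.pow_div_factorial_le_exp (39 / 2 : ℝ) (by norm_num) 4
      refine le_trans ?_ h2
      norm_num [Nat.factorial]
    calc Real.exp 30 * (1604 * Real.exp (1 / 2)) ≤ Real.exp 30 * (Real.exp (39 / 2) * Real.exp (1 / 2)) := by
          gcongr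
      _ = Real.exp 50 := by rw [← Real.exp_add, ← Real.exp_add]; norm_num
  have hE : 160 * ((n : ℝ) + 1) ^ 2 < Real.exp (5 * Real.sqrt n) := by
    have h2 := Real.pow_div_factorial_le_exp (5 * Real.sqrt n) (by positivity) 6
    refine lt_of_lt_of_le ?_ h2
    have h3 : (5 * Real.sqrt n) ^ 6 = 15625 * (n : ℝ) ^ 3 := by
      rw [mul_pow, show (6 : ℕ) = 2 * 3 by norm_num, pow_mul (Real.sqrt n) 2 3, hS2]
      norm_num
    rw [h3]
    have h4 : ((Nat.factorial 6 : ℕ) : ℝ) = 720 := by norm_num [Nat.factorial]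
    rw [h4, lt_div_iff₀ (by norm_num)]
    have h5 : ((n : ℝ) + 1) ^ 2 ≤ 4 * (n : ℝ) ^ 2 := by nlinarith
    have h6 : 0 < (n : ℝ) ^ 2 := by positivity
    nlinarith
  have hTd : Real.exp (15 * Real.sqrt n) ≤ (s / (1604 * Real.exp (1 / 2))) ^ d := by
    calc Real.exp (15 * Real.sqrt n) ≤ Real.exp (d * 30) := Real.exp_le_exp.2 (by linarith)
      _ = Real.exp 30 ^ d := by rw [Real.exp_nat_mul]
      _ ≤ _ := pow_le_pow_left₀ (Real.exp_pos _).le hT d
  have hmain : 160 * ((n : ℝ) + 1) ^ 2 * (Real.exp (5 * Real.sqrt n)) ^ 2 <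
      (s / (1604 * Real.exp (1 / 2))) ^ d := by
    refine lt_of_lt_of_le ?_ hTd
    have h1 : Real.exp (15 * Real.sqrt n) = Real.exp (5 * Real.sqrt n) * (Real.exp (5 * Real.sqrt n)) ^ 2 := by
      rw [← Real.exp_nat_mul, ← Real.exp_add]
      congr 1
      push_cast
      ring
    rw [h1]
    exact mul_lt_mul_of_pos_right hE (by positivity)
  rw [lt_div_iff₀ (by positivity)]
  have hA : (2 : ℝ) ^ d * (Real.exp (1 / 2) * s) ^ d * (s / (1604 * Real.exp (1 / 2))) ^ d =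
      (s ^ 2 / 802) ^ d := by
    rw [← mul_pow, ← mul_pow]
    congr 1
    have : Real.exp (1 / 2) ≠ 0 := (Real.exp_pos _).ne'
    field_simp
    norm_num
  calc 2 ^ d * (Real.sqrt (n.choose d) * (((n : ℝ) + 1) * Real.exp (5 * Real.sqrt n))) *
        (160 * (n + 1) * Real.exp (5 * Real.sqrt n))
      ≤ 2 ^ d * ((Real.exp (1 / 2) * s) ^ d * (((n : ℝ) + 1) * Real.exp (5 * Real.sqrt n))) *
        (160 * (n + 1) * Real.exp (5 * Real.sqrt n)) := by gcongr
    _ = (2 : ℝ) ^ d * (Real.exp (1 / 2) * s) ^ d *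
        (160 * ((n : ℝ) + 1) ^ 2 * (Real.exp (5 * Real.sqrt n)) ^ 2) := by ring
    _ < (2 : ℝ) ^ d * (Real.exp (1 / 2) * s) ^ d * (s / (1604 * Real.exp (1 / 2))) ^ d :=
        mul_lt_mul_of_pos_left hmain (by positivity)
    _ = (s ^ 2 / 802) ^ d := hA
    _ ≤ _ := hL2

end Pool.Agent.Helper51.TF
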