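import Pool.Agent.Helper51.TF.D1

/-!
BLOCK TF-D3 (about 200 lines). The number `nu` of new maps does not decrease when rows or columns are added. (`nu`, `nu_lab`, `nu_conj` are in `TF/D1.lean`.)

Proof in words.
* `nu_add`: adding an antitone `ν`. Induction on `∑ ν` (for all `n`, `ν`): `ν = 0`: nothing to do. Otherwise let `r = #{i : 0 < ν i} ≤ N`, `ν' i = ν i - 1` (antitone); `0 < ν i ↔ i < r`, so `α + ν = addCol (α + ν') r`; `NM_addCol` (`TF/E4`).
* `nu_two`: if `α j + ν j ≤ N` for all `j`: `β = α + ν` is antitone, and (since `β j ≤ N`) `∑ conjP β = ∑ β` (see `conjP_mem`), `β ∈ PP N (∑ β)`, `m ≤ ∑ β ≤ n ≤ N`: `nu α ≤ nu β = nu (conjP β) ≤ nu κ` by `nu_add`, `nu_conj`, `nu_add`.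
  If some `α j + ν j > N` then `α 0 + ν 0 > N`, so `conjP β j ≥ 1` for all `j : Fin N` and `N ≤ ∑ conjP β ≤ ∑ κ = n ≤ N`: so `n = N`, `μ = 0`, and `conjP β j = 1` for all `j` (sum `N`), that is `κ = (1, …, 1)`, and `α i + ν i = 0` for `i > 0` (`j = 0` in `conjP β j = 1`). Replace `ν` by `ν' = (N - α 0, 0, …, 0)`
  (`α 0 = m ≤ n = N`): `conjP (α + ν') = κ` as well, and we are in the first case.
-/

set_option autoImplicit false

open Module Equiv Pool.Agent.Helper1.TS Pool.Agent.Helper70.TU Pool.Agent.Helper51.TN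

namespace Pool.Agent.Helper51.TF

variable {N : ℕ} {E : Type*} [AddCommGroup E] [Module ℂ E] [FiniteDimensional ℂ E]

private theorem addCol26 {n m d r : ℕ} (hr : r ≤ N) (κ β : Fin N → ℕ) (hβ : β = addCol κ r) (hn : n = m + r)
    (hd : d ≤ m) (hdn : d ≤ n) (τ : Representation ℂ (Perm (Fin d)) E) (ε : ℂ) :
    nu κ hd τ ε ≤ nu β hdn τ ε := by
  subst hn
  subst hβ
  exact NM_addCol hr κ hd τ ε

theorem nu_add {n m d : ℕ} (α ν : Fin N → ℕ) (hν : Antitone ν) (hs : ∑ i, α i = m) (hn : ∑ i, (α i + ν i) = n)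
    (hd : d ≤ m) (hdn : d ≤ n) (τ : Representation ℂ (Perm (Fin d)) E) (ε : ℂ) :
    nu α hd τ ε ≤ nu (fun i => α i + ν i) hdn τ ε := by
  obtain ⟨k, hk⟩ : ∃ k, ∑ i, ν i = k := ⟨_, rfl⟩
  induction k using Nat.strong_induction_on generalizing n ν with
  | _ k ih =>
    by_cases h0 : ∃ i, 0 < ν i
    · obtain ⟨i₀, hi₀⟩ := h0
      have hN : 0 < N := lt_of_le_of_lt (Nat.zero_le _) i₀.2
      obtain ⟨r, hr⟩ : ∃ r : ℕ, r = conjP ν ⟨0, hN⟩ := ⟨_, rfl⟩
      have hrN : r ≤ N := by
        rw [hr]
        exact (Finset.card_filter_le _ _).trans (by simp)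
      have hiff : ∀ i : Fin N, (i : ℕ) < r ↔ 0 < ν i := by
        intro i
        rw [hr]
        exact lt_conjP hν i ⟨0, hN⟩
      have hν' : Antitone fun i => ν i - 1 := fun i j hij => Nat.sub_le_sub_right (hν hij) 1
      have hone : ∀ i : Fin N, α i + ν i = (α i + (ν i - 1)) + if (i : ℕ) < r then 1 else 0 := by
        intro i
        by_cases hi : 0 < ν i
        · rw [if_pos ((hiff i).2 hi)]
          omega
        · rw [if_neg fun h => hi ((hiff i).1 h)]
          omega
      have hcard : ∑ i : Fin N, (if (i : ℕ) < r then 1 else 0) = r := by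
        rw [← Finset.card_filter]
        conv_rhs => rw [hr]
        unfold conjP
        congr 1
        ext i
        simp only [Finset.mem_filter, Finset.mem_univ, true_and]
        exact hiff i
      have hsum : n = (∑ i, (α i + (ν i - 1))) + r := by
        rw [← hn, Finset.sum_congr rfl fun i _ => hone i, Finset.sum_add_distrib, hcard]
      have hm : m ≤ ∑ i, (α i + (ν i - 1)) := by
        rw [← hs]
        exact Finset.sum_le_sum fun i _ => Nat.le_add_right _ _
      have hlt : ∑ i, (ν i - 1) < k := by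
        rw [← hk]
        exact Finset.sum_lt_sum (fun i _ => Nat.sub_le _ _) ⟨i₀, Finset.mem_univ _, by omega⟩
      have h1 := ih _ hlt (fun i => ν i - 1) hν' rfl (hd.trans hm) rfl
      refine h1.trans ?_
      exact addCol26 hrN _ _ (funext hone) hsum (hd.trans hm) hdn τ ε
    · push Not at h0
      have h1 : (fun i => α i + ν i) = α := by
        funext i
        have := h0 i
        omega
      have h2 : n = m := by
        rw [← hs, ← hn]
        exact Finset.sum_congr rfl fun i _ => congrFun h1 i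
      subst h2
      rw [h1]

/-- the case of small rows -/
private theorem two26 {n m d : ℕ} (hN : n ≤ N) {α κ : Fin N → ℕ} (hα : α ∈ PP N m) (hκ : κ ∈ PP N n)
    (ν μ : Fin N → ℕ) (hν : Antitone ν) (hμ : Antitone μ) (hall : ∀ j, α j + ν j ≤ N)
    (he : κ = fun i => conjP (fun j => α j + ν j) i + μ i)
    (hd : d ≤ m) (hdn : d ≤ n) (τ : Representation ℂ (Perm (Fin d)) E) (ε : ℂ) :
    nu α hd τ ε ≤ nu κ hdn τ ε := by
  have hα' := mem_PP.1 hα
  have hκ' := mem_PP.1 hκ
  obtain ⟨β, hβ⟩ : ∃ β : Fin N → ℕ, β = fun j => α j + ν j := ⟨_, rfl⟩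
  have hβa : Antitone β := by
    rw [hβ]
    exact fun i j hij => Nat.add_le_add (hα'.1 hij) (hν hij)
  have hβN : ∀ j, β j ≤ N := by
    rw [hβ]
    exact hall
  have hsum : ∑ i, conjP β i = ∑ i, β i := by
    have h1 : ∀ j : Fin N, conjP β j = ∑ i : Fin N, if (j : ℕ) < β i then 1 else 0 := fun j =>
      Finset.card_filter _ _
    rw [Finset.sum_congr rfl fun j _ => h1 j, Finset.sum_comm]
    refine Finset.sum_congr rfl fun i _ => ?_
    rw [Fin.sum_univ_eq_sum_range (fun j => if j < β i then 1 else 0) N, ← Finset.sum_filter,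
      Finset.sum_const, smul_eq_mul, mul_one]
    have h2 : (Finset.range N).filter (fun j => j < β i) = Finset.range (β i) := by
      ext j
      rw [Finset.mem_filter, Finset.mem_range, Finset.mem_range]
      have := hβN i
      omega
    rw [h2, Finset.card_range]
  rw [← hβ] at he
  have hn : ∑ i, (conjP β i + μ i) = n := by
    rw [← hκ'.2, he]
  have hbn : ∑ i, β i ≤ n := by
    rw [← hn, ← hsum]
    exact Finset.sum_le_sum fun i _ => Nat.le_add_right _ _
  have hmb : m ≤ ∑ i, β i := by
    rw [← hα'.2, hβ]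
    exact Finset.sum_le_sum fun i _ => Nat.le_add_right _ _
  have hβP : β ∈ PP N (∑ i, β i) := mem_PP.2 ⟨hβa, rfl⟩
  have h1 := nu_add α ν hν hα'.2 (n := ∑ i, β i) (by rw [hβ]) hd (hd.trans hmb) τ ε
  rw [← hβ] at h1
  have h2 := nu_conj (hbn.trans hN) (hd.trans hmb) hβP τ ε
  have h3 := nu_add (conjP β) μ hμ hsum hn (hd.trans hmb) hdn τ ε
  rw [he]
  calc nu α hd τ ε ≤ nu β (hd.trans hmb) τ ε := h1
    _ = nu (conjP β) (hd.trans hmb) τ ε := h2.symm
    _ ≤ _ := h3

theorem nu_two {n m d : ℕ} (hN : n ≤ N) (hmn : m ≤ n) {α κ : Fin N → ℕ} (hα : α ∈ PP N m) (hκ : κ ∈ PP N n) (ν μ : Fin N → ℕ)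
    (hν : Antitone ν) (hμ : Antitone μ) (he : κ = fun i => conjP (fun j => α j + ν j) i + μ i)
    (hd : d ≤ m) (hdn : d ≤ n) (τ : Representation ℂ (Perm (Fin d)) E) (ε : ℂ) :
    nu α hd τ ε ≤ nu κ hdn τ ε := by
  have hα' := mem_PP.1 hα
  have hκ' := mem_PP.1 hκ
  by_cases hall : ∀ j, α j + ν j ≤ N
  · exact two26 hN hα hκ ν μ hν hμ hall he hd hdn τ ε
  · push Not at hall
    obtain ⟨j₀, hj₀⟩ := hall
    have hN0 : 0 < N := lt_of_le_of_lt (Nat.zero_le _) j₀.2
    set z : Fin N := ⟨0, hN0⟩ with hz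
    have hzle : ∀ j : Fin N, z ≤ j := fun j => Fin.le_def.2 (Nat.zero_le _)
    have hz0 : N < α z + ν z := hj₀.trans_le (Nat.add_le_add (hα'.1 (hzle j₀)) (hν (hzle j₀)))
    set β : Fin N → ℕ := fun j => α j + ν j with hβ
    have hge : ∀ j, 1 ≤ conjP β j := by
      intro j
      refine Finset.card_pos.2 ⟨z, ?_⟩
      rw [Finset.mem_filter]
      exact ⟨Finset.mem_univ _, j.2.trans hz0⟩
    have hsum : n = ∑ i, conjP β i + ∑ i, μ i := by
      rw [← hκ'.2, he, Finset.sum_add_distrib]
    have hNle : N ≤ ∑ i, conjP β i := by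
      calc N = ∑ _i : Fin N, 1 := by simp
        _ ≤ _ := Finset.sum_le_sum fun i _ => hge i
    have hnN : n = N := by omega
    have hc1 : ∀ j, conjP β j = 1 := by
      intro j
      by_contra hne
      have h1 : ∑ _i : Fin N, 1 < ∑ i, conjP β i :=
        Finset.sum_lt_sum (fun i _ => hge i) ⟨j, Finset.mem_univ _, lt_of_le_of_ne (hge j) (Ne.symm hne)⟩
      have h2 : ∑ _i : Fin N, 1 = N := by simp
      omega
    have hμ0 : ∀ i, μ i = 0 := by
      intro i
      have h1 := Finset.single_le_sum (fun j _ => Nat.zero_le (μ j)) (Finset.mem_univ i)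
      omega
    have hα0 : ∀ i, i ≠ z → α i = 0 := by
      intro i hi
      by_contra hne
      have h1 : 2 ≤ conjP β z := by
        have h2 : ({z, i} : Finset (Fin N)) ⊆ Finset.univ.filter (fun i : Fin N => (z : ℕ) < β i) := by
          intro j hj
          rw [Finset.mem_insert, Finset.mem_singleton] at hj
          rw [Finset.mem_filter]
          refine ⟨Finset.mem_univ _, ?_⟩
          rcases hj with rfl | rfl
          · show 0 < α z + ν z
            omega
          · show 0 < α j + ν j
            omega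
        have h3 := Finset.card_le_card h2
        rwa [Finset.card_pair (Ne.symm hi)] at h3
      have := hc1 z
      omega
    have hαz : α z = m := by
      rw [← hα'.2]
      exact (Finset.sum_eq_single z (fun i _ hi => hα0 i hi) (fun h => absurd (Finset.mem_univ z) h)).symm
    refine two26 hN hα hκ (fun i => if i = z then N - m else 0) (fun _ => 0) ?_ (fun _ _ _ => le_rfl) ?_ ?_ hd hdn τ ε
    · intro i j hij
      simp only
      by_cases hj : j = z
      · have hi : i = z := le_antisymm (by rw [← hj]; exact hij) (hzle i)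
        rw [if_pos hj, if_pos hi]
      · rw [if_neg hj]
        exact Nat.zero_le _
    · intro j
      by_cases hj : j = z
      · rw [if_pos hj, hj, hαz]
        omega
      · rw [if_neg hj, hα0 j hj]
        exact Nat.zero_le _
    · funext i
      have h1 : conjP (fun j => α j + if j = z then N - m else 0) i = 1 := by
        unfold conjP
        rw [Finset.card_eq_one]
        refine ⟨z, ?_⟩
        ext j
        rw [Finset.mem_filter, Finset.mem_singleton]
        constructor
        · rintro ⟨-, hj⟩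
          by_contra hjz
          simp only at hj
          rw [if_neg hjz, hα0 j hjz] at hj
          omega
        · rintro rfl
          refine ⟨Finset.mem_univ _, ?_⟩
          simp only [if_true]
          rw [hαz]
          have := i.2
          omega
      rw [h1, he]
      simp only
      rw [hc1, hμ0]

end Pool.Agent.Helper51.TF
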