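import Pool.Agent.Helper51.TF.R1
import Pool.Agent.Helper51.TF.D3
import Pool.Agent.Helper51.TF.AL2

/-!
BLOCK TF-R2 (about 200 lines). New maps of medium depth for every `κ` whose word is rich enough; rows of medium length.

`WF N n κ` (word property): every partition with few rows and columns is obtained from `κ` by deleting rows and columns.

Proof in words.
* `nu_medium`: constants: `m = n/400` (`Nat` division), `C₀ = 240` (large enough: `10 (m+1) exp (5√m) ≤ 240 exp (240 √m)`), `γ = 1`, `δ', M'` from `NM_medium`, `δ = min (δ'/500) (1/1000)`; `n` large: `m ≥ M, M', 1`, `√n/2 ≥ √m`, `δ n ≤ δ' m`. `α` from `exists_alpha` (`m ≤ n ≤ N`). `hw m α` is irreducible (`hw_irr`). For `0 < α i`, `0 < α j`: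
  `α j ≤ 8 √m`, `i + 1 ≤ conjP α 0 ≤ 8 √m` (`0 < N`; `lt_conjP`: `i < conjP α 0`), `16 √m ≤ 16 √n/20 ≤ 6/5 √n`: so `WF` gives `ν`, `μ`. `nu_two`, `nu_lab` (for `hw m α`, `Lab` by the identity), `NM_medium`.
* `rows_medium`: `τ = rhoE W.ρ hd.1` (irreducible: `rhoE_irr`, `TN/L6`, `irr_of_simple`), `0 < nu κ`, `nu_lab` for `hw n κ`, so there is a nonzero `f ∈ NM hd.1 τ (bil (hw n κ)) (pe η)`, and `of_new` (`TN/B8`). (The dimension of `E = inv W.ρ (TT n d)` is positive: `depth_pos_finrank`, `TN/B8`.)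
-/

set_option autoImplicit false

open Module Equiv CategoryTheory Pool.Agent.Helper1.TS Pool.Agent.Helper70.TU Pool.Agent.Helper51.TN

namespace Pool.Agent.Helper51.TF

/-- Every partition with few rows and columns is obtained from `κ` by deleting rows and columns. -/
def WF (N n : ℕ) (κ : Fin N → ℕ) : Prop :=
  ∀ m : ℕ, ∀ α ∈ PP N m, (∀ i j : Fin N, 0 < α i → 0 < α j → (α j : ℝ) + ((i : ℕ) : ℝ) + 1 ≤ 6 / 5 * Real.sqrt n) →
    ∃ ν μ : Fin N → ℕ, Antitone ν ∧ Antitone μ ∧ κ = fun i => conjP (fun j => α j + ν j) i + μ i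

private theorem poly4r (n : ℕ) : 10 * ((n : ℝ) + 1) * Real.exp (5 * Real.sqrt n) ≤ 240 * Real.exp (240 * Real.sqrt n) := by
  have h0 : (0 : ℝ) ≤ n := Nat.cast_nonneg n
  have h1 := Real.pow_div_factorial_le_exp (Real.sqrt n) (Real.sqrt_nonneg _) 2
  rw [Real.sq_sqrt h0, show ((Nat.factorial 2 : ℕ) : ℝ) = 2 by norm_num [Nat.factorial]] at h1
  have h2 : 1 ≤ Real.exp (Real.sqrt n) := Real.one_le_exp (Real.sqrt_nonneg _)
  have h3 : Real.exp (Real.sqrt n) * Real.exp (5 * Real.sqrt n) ≤ Real.exp (240 * Real.sqrt n) := by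
    rw [← Real.exp_add]
    apply Real.exp_le_exp.2
    have := Real.sqrt_nonneg (n : ℝ)
    linarith
  have h4 : 10 * ((n : ℝ) + 1) ≤ 240 * Real.exp (Real.sqrt n) := by linarith
  calc 10 * ((n : ℝ) + 1) * Real.exp (5 * Real.sqrt n) ≤
        240 * Real.exp (Real.sqrt n) * Real.exp (5 * Real.sqrt n) :=
        mul_le_mul_of_nonneg_right h4 (Real.exp_pos _).le
    _ = 240 * (Real.exp (Real.sqrt n) * Real.exp (5 * Real.sqrt n)) := by ring
    _ ≤ 240 * Real.exp (240 * Real.sqrt n) := mul_le_mul_of_nonneg_left h3 (by norm_num)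

private theorem exp4r {s : ℕ} : 240 * Real.exp (6 * Real.sqrt s) ≤ 240 * Real.exp (240 * Real.sqrt s) := by
  refine mul_le_mul_of_nonneg_left (Real.exp_le_exp.2 ?_) (by norm_num)
  have := Real.sqrt_nonneg (s : ℝ)
  linarith

/-- the numbers `m = n / 400` and `n` -/
private theorem num4r {n M : ℕ} (hn : 400 * (M + 5) + 2000 ≤ n) : M ≤ n / 400 ∧ 1 ≤ n / 400 ∧
    (n : ℝ) / 500 ≤ ((n / 400 : ℕ) : ℝ) ∧ Real.sqrt ((n / 400 : ℕ) : ℝ) ≤ Real.sqrt n / 20 ∧ n / 400 ≤ n := by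
  have h1 : 400 * (n / 400) + n % 400 = n := Nat.div_add_mod n 400
  have h2 : n % 400 < 400 := Nat.mod_lt _ (by norm_num)
  have h1' : 400 * ((n / 400 : ℕ) : ℝ) + ((n % 400 : ℕ) : ℝ) = (n : ℝ) := by exact_mod_cast h1
  have h2' : ((n % 400 : ℕ) : ℝ) < 400 := by exact_mod_cast h2
  have h3' : (0 : ℝ) ≤ ((n % 400 : ℕ) : ℝ) := Nat.cast_nonneg _
  have h4' : (2000 : ℝ) ≤ n := by
    have : 2000 ≤ n := by omega
    exact_mod_cast this
  refine ⟨by omega, by omega, by linarith, ?_, Nat.div_le_self _ _⟩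
  rw [le_div_iff₀ (by norm_num : (0 : ℝ) < 20)]
  have h5 : Real.sqrt ((n / 400 : ℕ) : ℝ) * 20 = Real.sqrt (((n / 400 : ℕ) : ℝ) * 400) := by
    rw [Real.sqrt_mul (Nat.cast_nonneg _), show (400 : ℝ) = 20 ^ 2 by norm_num,
      Real.sqrt_sq (by norm_num)]
  rw [h5]
  apply Real.sqrt_le_sqrt
  linarith

/-- the last estimate -/
private theorem last4r {D c f F w n : ℝ} (hD : 0 ≤ D) (hc : 0 ≤ c) (hF : 0 < F) (hn : 0 ≤ n)
    (h : F ≤ 10 * (n + 1) * w * f) (hw : 0 < w) :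
    D * c / (160 * (n + 1) * w) ≤ D * (f / F) * c / 16 := by
  have h1 : 1 / (10 * (n + 1) * w) ≤ f / F := by
    rw [div_le_div_iff₀ (by positivity) hF]
    linarith
  have h2 : D * c / (160 * (n + 1) * w) = (D * c / 16) * (1 / (10 * (n + 1) * w)) := by
    field_simp
    ring
  rw [h2]
  calc D * c / 16 * (1 / (10 * (n + 1) * w)) ≤ D * c / 16 * (f / F) :=
        mul_le_mul_of_nonneg_left h1 (by positivity)
    _ = D * (f / F) * c / 16 := by ring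

theorem nu_medium : ∃ δ : ℝ, 0 < δ ∧ δ ≤ 1 / 1000 ∧ ∃ n₀ : ℕ, ∀ n ≥ n₀, ∀ N ≥ n, ∀ κ : Fin N → ℕ, κ ∈ PP N n → WF N n κ →
    ∀ (d : ℕ) (h : d ≤ n), Real.sqrt n / 2 ≤ d → (d : ℝ) ≤ δ * n →
    ∀ (E : Type) [AddCommGroup E] [Module ℂ E] [FiniteDimensional ℂ E]
      (τ : Representation ℂ (Perm (Fin d)) E) [τ.IsIrreducible] (η : ℝ), η ^ 2 = 1 →
      (finrank ℂ E : ℝ) * ((n / 400).choose d : ℝ) / (160 * (n + 1) * Real.exp (5 * Real.sqrt n)) ≤ nu κ h τ (η : ℂ) := by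
  obtain ⟨M, hM⟩ := exists_alpha
  obtain ⟨δ', M', hδ', hδ'1, hmed⟩ := NM_medium 240 1 (by norm_num) one_pos
  refine ⟨min (δ' / 500) (1 / 1000), lt_min (by positivity) (by norm_num), min_le_right _ _,
    400 * (max M M' + 5) + 2000, ?_⟩
  intro n hn N hN κ hκ hWF d h hd1 hd2 E _ _ _ τ _ η hη
  obtain ⟨hMm, hm1, hm500, hsq, hmn⟩ := num4r hn
  set m : ℕ := n / 400 with hm
  have hn0 : (0 : ℝ) < n := by
    have : 0 < n := by omega
    exact_mod_cast this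
  have hsn : 1 ≤ Real.sqrt n / 2 := by
    rw [le_div_iff₀ (by norm_num : (0 : ℝ) < 2)]
    apply Real.le_sqrt_of_sq_le
    have h4' : (2000 : ℝ) ≤ n := by
      have : 2000 ≤ n := by omega
      exact_mod_cast this
    linarith
  obtain ⟨α, hα, hα1, hα2, hα3, hα4⟩ := hM m ((le_max_left _ _).trans hMm) N (hmn.trans hN)
  have hirr : (hw m α).IsIrreducible := (hw_irr (hmn.trans hN)).1 α hα
  have hδm : (d : ℝ) ≤ δ' * m := by
    have h1 : min (δ' / 500) (1 / 1000) * (n : ℝ) ≤ δ' / 500 * n :=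
      mul_le_mul_of_nonneg_right (min_le_left _ _) hn0.le
    have h2 : δ' / 500 * (n : ℝ) = δ' * (n / 500) := by ring
    have h3 := mul_le_mul_of_nonneg_left hm500 hδ'.le
    linarith
  have hdm : d ≤ m := by
    have h4 : (d : ℝ) ≤ m := by
      have h5 : (0 : ℝ) ≤ m := Nat.cast_nonneg m
      nlinarith
    exact_mod_cast h4
  have hd0 : 1 ≤ d := by
    have : (1 : ℝ) ≤ d := hsn.trans hd1
    exact_mod_cast this
  have hfac : (m.factorial : ℝ) ≤ 240 * Real.exp (240 * Real.sqrt m) * (finrank ℂ (HW m α) : ℝ) ^ 2 :=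
    hα2.trans (mul_le_mul_of_nonneg_right (poly4r m) (by positivity))
  have key := hmed m ((le_max_right _ _).trans hMm) (HW m α) (hw m α)
    (fun s hs => (hα1 s hs).trans exp4r) hfac d hdm hd0
    (by
      have := Real.sqrt_nonneg (n : ℝ)
      linarith) hδm E τ η hη
  rw [nu_lab hdm (hw m α) α ⟨LinearEquiv.refl ℂ _, fun _ _ => rfl⟩ τ (η : ℂ)] at key
  -- the word property
  obtain ⟨ν, μ, hν, hμ, he⟩ := hWF m α hα (by
    intro i j hi hj
    have hN0 : 0 < N := lt_of_lt_of_le (by omega : 0 < n) hN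
    have h1 := (lt_conjP (mem_PP.1 hα).1 i ⟨0, hN0⟩).2 hi
    have h2 : ((i : ℕ) : ℝ) + 1 ≤ (conjP α ⟨0, hN0⟩ : ℝ) := by exact_mod_cast h1
    have h3 := hα4 ⟨0, hN0⟩
    have h4 := hα3 j
    have := Real.sqrt_nonneg (n : ℝ)
    linarith)
  have h5 := nu_two hN hmn hα hκ ν μ hν hμ he hdm h τ (η : ℂ)
  have h6 : (nu α hdm τ (η : ℂ) : ℝ) ≤ nu κ h τ (η : ℂ) := by exact_mod_cast h5
  refine le_trans ?_ (key.trans h6)
  have h7 : (m.factorial : ℝ) ≤ 10 * ((n : ℝ) + 1) * Real.exp (5 * Real.sqrt n) * (finrank ℂ (HW m α) : ℝ) ^ 2 := by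
    refine hα2.trans (mul_le_mul_of_nonneg_right ?_ (by positivity))
    have h8 : (m : ℝ) ≤ n := by exact_mod_cast hmn
    have h9 : Real.exp (5 * Real.sqrt m) ≤ Real.exp (5 * Real.sqrt n) :=
      Real.exp_le_exp.2 (mul_le_mul_of_nonneg_left (Real.sqrt_le_sqrt h8) (by norm_num))
    exact mul_le_mul (by linarith) h9 (Real.exp_pos _).le (by positivity)
  exact last4r (Nat.cast_nonneg _) (Nat.cast_nonneg _) (by exact_mod_cast m.factorial_pos) hn0.le h7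
    (Real.exp_pos _)

theorem rows_medium : ∃ δ : ℝ, 0 < δ ∧ δ < 1 ∧ ∃ n₀ : ℕ, ∀ n ≥ n₀, ∀ N ≥ n, ∀ κ : Fin N → ℕ, κ ∈ PP N n → conjP κ = κ →
    WF N n κ → ∀ W : FDRep ℂ (Perm (Fin n)), Simple W → ∀ d : ℕ, IsDepth W.ρ d → Real.sqrt n / 2 ≤ d → (d : ℝ) ≤ δ * n →
      ∀ η : ℝ, η ^ 2 = 1 →
        ∑ g : Perm (Fin n), ((hw n κ).character g ^ 2 + (η : ℂ) * (hw n κ).character (g ^ 2)) / 2 * W.character g⁻¹ ≠ 0 := by
  obtain ⟨δ, hδ, hδ1, n₀, hmed⟩ := nu_medium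
  refine ⟨δ, hδ, by linarith, max n₀ 2000, ?_⟩
  intro n hn N hN κ hκ hself hWF W hW d hd hd1 hd2 η hη
  have hirrW := irr_of_simple W hW
  have hirr : (rhoE W.ρ hd.1).IsIrreducible := rhoE_irr W.ρ hd
  have hη' : (η : ℂ) ^ 2 = 1 := by exact_mod_cast congrArg (fun r : ℝ => (r : ℂ)) hη
  have hn2 : 2000 ≤ n := (le_max_right _ _).trans hn
  have hpos := depth_pos_finrank W.ρ hd
  have h1 := hmed n ((le_max_left _ _).trans hn) N hN κ hκ hWF d hd.1 hd1 hd2 (inv W.ρ (TT n d))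
    (rhoE W.ρ hd.1) η hη
  have hdn : d ≤ n / 400 := by
    have h2 : (d : ℝ) ≤ (n : ℝ) / 1000 := by
      have h3 : (0 : ℝ) ≤ n := Nat.cast_nonneg n
      have h4 := mul_le_mul_of_nonneg_right hδ1 h3
      linarith
    have h5 : (d : ℝ) * 1000 ≤ n := by linarith
    have h6 : d * 1000 ≤ n := by exact_mod_cast h5
    omega
  have h2 : 0 < nu κ hd.1 (rhoE W.ρ hd.1) (η : ℂ) := by
    have h3 : (0 : ℝ) < (finrank ℂ (inv W.ρ (TT n d)) : ℝ) * ((n / 400).choose d : ℝ) /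
        (160 * (n + 1) * Real.exp (5 * Real.sqrt n)) := by
      have h4 : (0 : ℝ) < (finrank ℂ (inv W.ρ (TT n d)) : ℝ) := by exact_mod_cast hpos
      have h5 : (0 : ℝ) < ((n / 400).choose d : ℝ) := by exact_mod_cast Nat.choose_pos hdn
      positivity
    exact_mod_cast h3.trans_le h1
  rw [← nu_lab hd.1 (hw n κ) κ ⟨LinearEquiv.refl ℂ _, fun _ _ => rfl⟩] at h2
  have h4 : NM hd.1 (rhoE W.ρ hd.1) (bil (hw n κ)) (pe (η : ℂ)) ≠ ⊥ := by
    intro hbot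
    rw [hbot, finrank_bot] at h2
    exact lt_irrefl _ h2
  obtain ⟨f, hf, hf0⟩ := Submodule.exists_mem_ne_zero_of_ne_bot h4
  obtain ⟨hf1, hf2, hf3⟩ := mem_NM.1 hf
  exact of_new (hw n κ) W.ρ hd (η : ℂ) hη' f hf0 hf1 hf2 hf3

end Pool.Agent.Helper51.TF
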