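import Pool.Agent.Helper51.TF.H9
import Pool.Agent.Helper51.TF.E6
import Pool.Agent.Helper51.TN.L2
import Pool.Agent.Helper51.TN.B8

/-!
BLOCK TF-X1 (about 200 lines). The twisted flip of a self-conjugate representation.

`IsTw ρ θ`: `θ ρ(g) = sgn(g) ρ(g) θ`, `θ² = 1`. `tf θ b (v, w) = b (θ w, θ v)`, `pt θ ε = (1 + ε tf θ)/2`.

Proof in words.
* `exists_tw`: `Lab (tw ρ) (conjP κ) = Lab (tw ρ) κ` (`lab_tw`), so there is `e : V ≃ V` with `e (tw ρ g v) = ρ g (e v)`; `e² ` commutes with all `ρ g` (two signs), so it is a scalar `c` (Schur: `Representation.IsIrreducible.algebraMap_intertwiningMap_bijective_of_isAlgClosed`, see `TS.schur_sum`, `TN/L5`), `c ≠ 0`; `θ = c^{-1/2} e`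
  (a complex square root; if `V = 0` take anything - but `V ≠ 0`).
* `pt_idem`, `pt_bil`, `pt_qq`: direct (`pt_apply`; the signs cancel in `bil`; `tf (tf b) = b`; `pt_qq` as `pe_qq` in `TN/B8`).
* `trace_bil_pt`: `bil ρ g ∘ tf θ = pb (θ ∘ ρ g⁻¹) ∘ fl` (or with the factors in the other order), trace `tr ((θ ρ(g⁻¹))²)` (`trace_pb_fl`) `= sgn(g) tr ρ(g⁻²)` since `θ ρ(x) θ ρ(x) = sgn(x) θ θ ρ(x) ρ(x)`.
* `char_tw`: `tr ρ(g) = tr (θ ρ(g) θ⁻¹) = sgn(g) tr ρ(g)`.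
* `mult_tw`: `dim_hom` and `trace_bil_pt`, `char_perm_inv` (`TS/A0`: characters of `S_n` are invariant under inversion), and `χ(g)² = sgn(g) χ(g)²` (`char_tw`): `(χ(g)² + ε sgn(g) χ(g²))/2 * θ'(g⁻¹) = (χ(g)² + ε χ(g²))/2 * sgn(g) θ'(g⁻¹)`, `(tw θ').character g⁻¹ = sgn(g) θ'.character g⁻¹`.
-/

set_option autoImplicit false

open Module Equiv Pool.Agent.Helper1.TS Pool.Agent.Helper70.TU Pool.Agent.Helper51.TN

namespace Pool.Agent.Helper51.TF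

section

variable {n : ℕ} {V : Type*} [AddCommGroup V] [Module ℂ V]

/-- `θ` is an involution with `θ ρ(g) = sgn(g) ρ(g) θ`. -/
structure IsTw (ρ : Representation ℂ (Perm (Fin n)) V) (θ : V →ₗ[ℂ] V) : Prop where
  tw : ∀ (g : Perm (Fin n)) (v : V), θ (ρ g v) = ((Perm.sign g : ℤ) : ℂ) • ρ g (θ v)
  sq : ∀ v : V, θ (θ v) = v

/-- The twisted flip. -/
noncomputable def tf (θ : V →ₗ[ℂ] V) : Bil V →ₗ[ℂ] Bil V := fl ∘ₗ pb θ

theorem tf_apply (θ : V →ₗ[ℂ] V) (b : Bil V) (v w : V) : tf θ b v w = b (θ w) (θ v) := rfl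

/-- `(1 + ε tf)/2`. -/
noncomputable def pt (θ : V →ₗ[ℂ] V) (ε : ℂ) : Bil V →ₗ[ℂ] Bil V := (1 / 2 : ℂ) • (LinearMap.id + ε • tf θ)

theorem pt_apply (θ : V →ₗ[ℂ] V) (ε : ℂ) (b : Bil V) (v w : V) :
    pt θ ε b v w = (b v w + ε * b (θ w) (θ v)) / 2 := by
  unfold pt
  rw [LinearMap.smul_apply, LinearMap.add_apply, LinearMap.smul_apply, LinearMap.smul_apply,
    LinearMap.smul_apply, LinearMap.add_apply, LinearMap.add_apply, LinearMap.smul_apply,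
    LinearMap.smul_apply, tf_apply, LinearMap.id_apply, smul_eq_mul, smul_eq_mul]
  ring

private theorem sgn_sq63 {n : ℕ} (g : Perm (Fin n)) :
    ((Perm.sign g : ℤ) : ℂ) * ((Perm.sign g : ℤ) : ℂ) = 1 := by
  rw [← Int.cast_mul, Int.units_coe_mul_self, Int.cast_one]

theorem pt_idem {ρ : Representation ℂ (Perm (Fin n)) V} {θ : V →ₗ[ℂ] V} (h : IsTw ρ θ) (ε : ℂ) (hε : ε ^ 2 = 1) (b : Bil V) :
    pt θ ε (pt θ ε b) = pt θ ε b := by
  refine LinearMap.ext₂ fun v w => ?_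
  rw [pt_apply, pt_apply, pt_apply, h.sq, h.sq]
  linear_combination (b v w / 4) * hε

theorem pt_bil {ρ : Representation ℂ (Perm (Fin n)) V} {θ : V →ₗ[ℂ] V} (h : IsTw ρ θ) (ε : ℂ) (g : Perm (Fin n)) (b : Bil V) :
    pt θ ε (bil ρ g b) = bil ρ g (pt θ ε b) := by
  refine LinearMap.ext₂ fun v w => ?_
  rw [bil_apply, pt_apply, pt_apply, bil_apply, bil_apply, h.tw, h.tw]
  simp only [map_smul, LinearMap.smul_apply, smul_eq_mul]
  have hs := sgn_sq63 g⁻¹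
  have hr : ∀ v : V, ρ g⁻¹ (θ v) = ((Perm.sign g⁻¹ : ℤ) : ℂ) • θ (ρ g⁻¹ v) := by
    intro v
    rw [h.tw, smul_smul, hs, one_smul]
  linear_combination (-(ε * b (ρ g⁻¹ (θ w)) (ρ g⁻¹ (θ v)) / 2)) * hs

theorem pt_qq {ρ : Representation ℂ (Perm (Fin n)) V} {θ : V →ₗ[ℂ] V} (h : IsTw ρ θ) (ε : ℂ) (T : Finset (Fin n)) (a : Fin n)
    (b : Bil V) : pt θ ε (qq (bil ρ) T a b) = qq (bil ρ) T a (pt θ ε b) := by
  unfold qq
  rw [LinearMap.sum_apply, LinearMap.sum_apply, map_sum]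
  exact Finset.sum_congr rfl fun y _ => pt_bil h ε _ b

end

section

variable {n : ℕ} {V : Type*} [AddCommGroup V] [Module ℂ V] [FiniteDimensional ℂ V]

theorem exists_tw {N : ℕ} (hN : n ≤ N) (ρ : Representation ℂ (Perm (Fin n)) V) [ρ.IsIrreducible] {κ : Fin N → ℕ}
    (h : κ ∈ PP N n) (hc : conjP κ = κ) (hl : Lab ρ κ) : ∃ θ : V →ₗ[ℂ] V, IsTw ρ θ := by
  obtain ⟨e₁, he₁⟩ := hl
  have hl' : Lab (tw ρ) κ := by
    have := lab_tw hN ρ h ⟨e₁, he₁⟩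
    rwa [hc] at this
  obtain ⟨e₂, he₂⟩ := hl'
  have key : ∀ (g : Perm (Fin n)) (v : V), e₁.symm (e₂ (ρ g v)) =
      ((Perm.sign g : ℤ) : ℂ) • ρ g (e₁.symm (e₂ v)) := by
    intro g v
    have h1 := he₂ g v
    rw [tw_apply, map_smul] at h1
    have h2 : e₂ (ρ g v) = ((Perm.sign g : ℤ) : ℂ) • hw n κ g (e₂ v) := by
      rw [← h1, smul_smul, sgn_sq63, one_smul]
    rw [h2, map_smul]
    congr 1
    rw [LinearEquiv.symm_apply_eq, he₁, LinearEquiv.apply_symm_apply]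
  obtain ⟨e, he⟩ : ∃ e : V →ₗ[ℂ] V, ∀ v, e v = e₁.symm (e₂ v) :=
    ⟨e₁.symm.toLinearMap ∘ₗ e₂.toLinearMap, fun v => rfl⟩
  have hinj : ∀ v, e v = 0 → v = 0 := by
    intro v hv
    rw [he, LinearEquiv.map_eq_zero_iff, LinearEquiv.map_eq_zero_iff] at hv
    exact hv
  have hA : ∀ (x : Perm (Fin n)) (w : V), (e ∘ₗ e) (ρ x w) = ρ x ((e ∘ₗ e) w) := by
    intro x w
    have ek : ∀ (g : Perm (Fin n)) (v : V), e (ρ g v) = ((Perm.sign g : ℤ) : ℂ) • ρ g (e v) := by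
      intro g v
      rw [he, he, key]
    rw [LinearMap.comp_apply, LinearMap.comp_apply, ek, LinearMap.map_smul, ek, smul_smul, sgn_sq63, one_smul]
  obtain ⟨c, hc'⟩ := (Representation.IsIrreducible.algebraMap_intertwiningMap_bijective_of_isAlgClosed
    (ρ := ρ)).2 ((e ∘ₗ e).intertwiningMap_of_isIntertwiningMap ρ ρ hA)
  have hAcc : ∀ w, e (e w) = c • w := by
    intro w
    have h2 := congrArg (fun f : Representation.IntertwiningMap ρ ρ => f.toLinearMap) hc'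
    have h3 := congrArg (fun f : V →ₗ[ℂ] V => f w) h2
    have h4 : e (e w) = (((algebraMap ℂ (Representation.IntertwiningMap ρ ρ)) c).toLinearMap) w := h3.symm
    rw [h4]
    rfl
  by_cases hc0 : c = 0
  · have hz : ∀ v : V, v = 0 := by
      intro v
      apply hinj
      apply hinj
      rw [hAcc, hc0, zero_smul]
    refine ⟨0, ⟨fun g v => ?_, fun v => ?_⟩⟩
    · rw [LinearMap.zero_apply, LinearMap.zero_apply, map_zero, smul_zero]
    · rw [hz v, map_zero, map_zero]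
  · obtain ⟨z, hz⟩ := IsAlgClosed.exists_pow_nat_eq c (n := 2) (by norm_num)
    have hz0 : z ≠ 0 := by
      rintro rfl
      apply hc0
      rw [← hz]
      norm_num
    refine ⟨z⁻¹ • e, ⟨fun g v => ?_, fun v => ?_⟩⟩
    · rw [LinearMap.smul_apply, LinearMap.smul_apply, he, key, ← he, map_smul, smul_comm]
    · rw [LinearMap.smul_apply, LinearMap.smul_apply, map_smul, hAcc, smul_smul, smul_smul, ← hz]
      have h5 : z⁻¹ * z⁻¹ * z ^ 2 = 1 := by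
        field_simp
      have h6 : z⁻¹ * (z⁻¹ * z ^ 2) = 1 := by
        rw [← mul_assoc, h5]
      first
        | rw [h5, one_smul]
        | rw [h6, one_smul]

theorem trace_bil_pt {ρ : Representation ℂ (Perm (Fin n)) V} {θ : V →ₗ[ℂ] V} (h : IsTw ρ θ) (ε : ℂ) (g : Perm (Fin n)) :
    LinearMap.trace ℂ (Bil V) (bil ρ g ∘ₗ pt θ ε) =
      (ρ.character g⁻¹ ^ 2 + ε * (((Perm.sign g : ℤ) : ℂ) * ρ.character (g⁻¹ ^ 2))) / 2 := by
  have h1 : bil ρ g ∘ₗ tf θ = pb (θ ∘ₗ ρ g⁻¹) ∘ₗ fl := by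
    refine LinearMap.ext fun b => LinearMap.ext₂ fun v w => ?_
    rw [LinearMap.comp_apply, LinearMap.comp_apply, bil_apply, tf_apply, pb_apply, fl_apply,
      LinearMap.comp_apply, LinearMap.comp_apply]
  have h2 : bil ρ g ∘ₗ pt θ ε = (1 / 2 : ℂ) • (bil ρ g + ε • (bil ρ g ∘ₗ tf θ)) := by
    unfold pt
    rw [LinearMap.comp_smul, LinearMap.comp_add, LinearMap.comp_smul, LinearMap.comp_id]
  have h3 : LinearMap.trace ℂ (Bil V) (bil ρ g) = (ρ.character g⁻¹) ^ 2 := trace_pb (ρ g⁻¹)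
  have h4 : (θ ∘ₗ ρ g⁻¹) ∘ₗ (θ ∘ₗ ρ g⁻¹) = ((Perm.sign g : ℤ) : ℂ) • ρ (g⁻¹ ^ 2) := by
    refine LinearMap.ext fun v => ?_
    rw [LinearMap.comp_apply, LinearMap.comp_apply, LinearMap.comp_apply, h.tw, h.sq, LinearMap.smul_apply,
      sq, map_mul, Module.End.mul_apply, Perm.sign_inv]
  have h5 : LinearMap.trace ℂ V ((θ ∘ₗ ρ g⁻¹) ∘ₗ (θ ∘ₗ ρ g⁻¹)) =
      ((Perm.sign g : ℤ) : ℂ) * ρ.character (g⁻¹ ^ 2) := by
    rw [h4, map_smul, smul_eq_mul]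
    rfl
  rw [h2, map_smul, map_add, map_smul, h1, h3, trace_pb_fl, h5, smul_eq_mul, smul_eq_mul]
  ring

theorem char_tw {ρ : Representation ℂ (Perm (Fin n)) V} {θ : V →ₗ[ℂ] V} (h : IsTw ρ θ) (g : Perm (Fin n)) :
    ρ.character g = ((Perm.sign g : ℤ) : ℂ) * ρ.character g := by
  have h1 : ρ g = ((Perm.sign g : ℤ) : ℂ) • ((θ ∘ₗ ρ g) ∘ₗ θ) := by
    refine LinearMap.ext fun v => ?_
    rw [LinearMap.smul_apply, LinearMap.comp_apply, LinearMap.comp_apply, h.tw, h.sq, smul_smul, sgn_sq63,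
      one_smul]
  have h2 : LinearMap.trace ℂ V ((θ ∘ₗ ρ g) ∘ₗ θ) = LinearMap.trace ℂ V (ρ g) := by
    have h3 := LinearMap.trace_mul_comm ℂ (θ ∘ₗ ρ g) θ
    change LinearMap.trace ℂ V ((θ ∘ₗ ρ g) ∘ₗ θ) = LinearMap.trace ℂ V (θ ∘ₗ (θ ∘ₗ ρ g)) at h3
    rw [h3]
    congr 1
    refine LinearMap.ext fun v => ?_
    rw [LinearMap.comp_apply, LinearMap.comp_apply, h.sq]
  have h4 : LinearMap.trace ℂ V (ρ g) = ((Perm.sign g : ℤ) : ℂ) * LinearMap.trace ℂ V (ρ g) := by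
    conv_lhs => rw [h1]
    rw [map_smul, smul_eq_mul, h2]
  exact h4

theorem mult_tw {ρ : Representation ℂ (Perm (Fin n)) V} {θ₀ : V →ₗ[ℂ] V} (h : IsTw ρ θ₀) (ε : ℂ) (hε : ε ^ 2 = 1)
    {W : Type*} [AddCommGroup W] [Module ℂ W] [FiniteDimensional ℂ W] (θ : Representation ℂ (Perm (Fin n)) W) :
    (n.factorial : ℂ) * finrank ℂ (HomP θ (bil ρ) (pt θ₀ ε)) =
      ∑ g : Perm (Fin n), (ρ.character g ^ 2 + ε * ρ.character (g ^ 2)) / 2 * (tw θ).character g⁻¹ := by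
  have h1 := dim_hom θ (bil ρ) (pt θ₀ ε) (pt_idem h ε hε) (fun g x => pt_bil h ε g x)
  rw [Fintype.card_perm, Fintype.card_fin] at h1
  rw [h1]
  refine Finset.sum_congr rfl fun g _ => ?_
  have h2 : (tw θ).character g⁻¹ = ((Perm.sign g : ℤ) : ℂ) * θ.character g⁻¹ := by
    change LinearMap.trace ℂ W (((Perm.sign g⁻¹ : ℤ) : ℂ) • θ g⁻¹) = _
    rw [map_smul, smul_eq_mul, Perm.sign_inv]
    rfl
  rw [trace_bil_pt h, h2, inv_pow, char_perm_inv ρ g, char_perm_inv ρ (g ^ 2)]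
  have h3 := char_tw h g
  have hs := sgn_sq63 g
  linear_combination (ρ.character g * θ.character g⁻¹ / 2) * h3

theorem of_new_tw {ρ : Representation ℂ (Perm (Fin n)) V} {θ₀ : V →ₗ[ℂ] V} (h : IsTw ρ θ₀) (ε : ℂ) (hε : ε ^ 2 = 1)
    {W : Type*} [AddCommGroup W] [Module ℂ W] [FiniteDimensional ℂ W] (θ : Representation ℂ (Perm (Fin n)) W)
    [θ.IsIrreducible] {d : ℕ} (hd : IsDepth θ d)
    (hpos : 0 < finrank ℂ (NM hd.1 (rhoE θ hd.1) (bil ρ) (pt θ₀ ε))) :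
    ∑ g : Perm (Fin n), (ρ.character g ^ 2 + ε * ρ.character (g ^ 2)) / 2 * (tw θ).character g⁻¹ ≠ 0 := by
  rw [← mult_tw h ε hε θ]
  have h1 := NM_le_mult θ (bil ρ) (pt θ₀ ε) (pt_idem h ε hε) (fun g x => pt_bil h ε g x) hd
  have h2 : (n.factorial : ℂ) ≠ 0 := by exact_mod_cast n.factorial_ne_zero
  refine mul_ne_zero h2 ?_
  have h3 : finrank ℂ (HomP θ (bil ρ) (pt θ₀ ε)) ≠ 0 := by omega
  exact_mod_cast h3

end

end Pool.Agent.Helper51.TF
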