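import Pool.Agent.Helper51.TF.M6
import Pool.Agent.Helper51.TF.M7
import Pool.Agent.Helper51.TF.M8
import Pool.Agent.Helper51.TF.R2
import Pool.Agent.Helper51.TF.X1

/-!
BLOCK TF-CM1 (about 250 lines). Columns of medium length.

Proof in words. `δ` = the minimum of those of `nu_medium` (`TF/R2`) and `num_cols` (`TF/M8`). `ρ = hw n κ` (irreducible, `hw_irr`), `θ₀` from `exists_tw` (`TF/X1`; `Lab` by the identity). `τ = rhoE θ hd.1` (irreducible), `E = inv θ (TT n d)`, `D = finrank E > 0` (`depth_pos_finrank`, `TN/B8`).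
(1) `m₊, m₋` = `finrank (HomP θ (bil ρ) (pt θ₀ (±1)))`. `mult_tw` for `±1`: `n! (m₊ + m₋) = ∑_g χ(g)² (tw θ).character g⁻¹ = ∑_g χ(g)² θ.character g⁻¹` (`char_tw`: `χ(g)² sgn(g) = χ(g)²`) `= n! finrank (HomP θ (bil ρ) id)` (`dim_hom`; `trace (bil ρ g) = χ(g⁻¹)²`: `trace_pb`), and
    `n! (m₊ - m₋) = ∑_g χ(g²) sgn(g) θ.character g⁻¹ = n! cf f θ`, `f g = sgn(g) (χ(g²)).re` (all characters real and invariant under inversion).
(2) `finrank (HomP θ (bil ρ) id) ≥ finrank (NM hd.1 τ (bil ρ) id)` (`NM_le_mult`) `≥ finrank (NM hd.1 τ (bil ρ) (pe 1))` (a subspace) `= nu κ` (`nu_lab`) `≥ D binom(n/400, d)/(160 (n+1) exp (5√n))` (`nu_medium`, `η = 1`).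
(3) `|cf f θ| ≤ 2^d B D` by `cf_le` with `D₀ = d`, `B = sqrt (binom(n,d)) (n+1) exp (5√n)`: `sq_avH_tw`, `card_classes_le'` (`TN/A0`; as `card93`, `sqrt93` in `TN/C10.lean`), `binom(n, e) ≤ binom(n, d)` for `e ≤ d ≤ n/2`.
(4) `num_cols` times `D`: `|m₊ - m₋| < m₊ + m₋`, so `m₊, m₋ > 0`, and `mult_tw` gives the claim.
-/

set_option autoImplicit false

open Module Equiv CategoryTheory Pool.Agent.Helper1.TS Pool.Agent.Helper70.TU Pool.Agent.Helper51.TN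

namespace Pool.Agent.Helper51.TF

private theorem card32 {n m : ℕ} (hm : m ≤ n) :
    (Nat.card (ConjClasses (Perm (Fin m))) : ℝ) ≤ (n + 1) * Real.exp (5 * Real.sqrt n) := by
  have h1 : (m : ℝ) ≤ n := by exact_mod_cast hm
  refine (card_classes_le' m).trans ?_
  refine mul_le_mul (by linarith) (Real.exp_le_exp.2 ?_) (Real.exp_pos _).le (by positivity)
  have := Real.sqrt_le_sqrt h1
  linarith

private theorem sqrt32 {c c' k k' K : ℝ} (hc : c ≤ c') (hk0 : 0 ≤ k) (hk'0 : 0 ≤ k') (hk : k ≤ K)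
    (hk' : k' ≤ K) (hc' : 0 ≤ c') : Real.sqrt (c * k * k') ≤ Real.sqrt c' * K := by
  have hK : 0 ≤ K := hk0.trans hk
  have h1 : c * k * k' ≤ c' * K ^ 2 := by
    have h2 : c * k ≤ c' * K := (mul_le_mul_of_nonneg_right hc hk0).trans (mul_le_mul_of_nonneg_left hk hc')
    calc c * k * k' ≤ c' * K * k' := mul_le_mul_of_nonneg_right h2 hk'0
      _ ≤ c' * K * K := mul_le_mul_of_nonneg_left hk' (mul_nonneg hc' hK)
      _ = c' * K ^ 2 := by ring
  refine (Real.sqrt_le_sqrt h1).trans ?_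
  rw [Real.sqrt_mul hc', Real.sqrt_sq hK]

private theorem choose32 {n d : ℕ} (hd : d ≤ n / 2) : ∀ e ≤ d, n.choose e ≤ n.choose d := by
  induction d with
  | zero =>
    intro e he
    rw [Nat.le_zero.1 he]
  | succ d ih =>
    intro e he
    rcases Nat.lt_or_ge e (d + 1) with h | h
    · exact (ih (by omega) e (by omega)).trans (Nat.choose_le_succ_of_lt_half_left (by omega))
    · rw [le_antisymm he h]

private theorem tw_char32 {n : ℕ} {W : Type*} [AddCommGroup W] [Module ℂ W]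
    (θ : Representation ℂ (Perm (Fin n)) W) (g : Perm (Fin n)) :
    (tw θ).character g = ((Perm.sign g : ℤ) : ℂ) * θ.character g := by
  unfold Representation.character
  have h1 : tw θ g = ((Perm.sign g : ℤ) : ℂ) • θ g := rfl
  rw [h1, map_smul, smul_eq_mul]

private theorem sgn_inv32 {n : ℕ} (g : Perm (Fin n)) : Perm.sign g⁻¹ = Perm.sign g := Perm.sign_inv g

theorem cols_med : ∃ δ : ℝ, 0 < δ ∧ δ < 1 ∧ ∃ n₀ : ℕ, ∀ n ≥ n₀, ∀ N ≥ n, ∀ κ : Fin N → ℕ, κ ∈ PP N n → conjP κ = κ →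
    WF N n κ → ∀ (W : Type) [AddCommGroup W] [Module ℂ W] [FiniteDimensional ℂ W]
      (θ : Representation ℂ (Perm (Fin n)) W) [θ.IsIrreducible] (d : ℕ), IsDepth θ d → Real.sqrt n / 2 ≤ d → (d : ℝ) ≤ δ * n →
      ∀ η : ℝ, η ^ 2 = 1 →
        ∑ g : Perm (Fin n), ((hw n κ).character g ^ 2 + (η : ℂ) * (hw n κ).character (g ^ 2)) / 2 * (tw θ).character g⁻¹ ≠ 0 := by
  obtain ⟨δ₁, hδ₁, hδ₁', n₁, hnu⟩ := nu_medium
  obtain ⟨δ₂, hδ₂, hδ₂', n₂, hnum⟩ := num_cols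
  refine ⟨min δ₁ δ₂, lt_min hδ₁ hδ₂, (min_le_left _ _).trans_lt (by linarith), max n₁ n₂, ?_⟩
  intro n hn N hN κ hκ hconj hWF W _ _ _ θ _ d hd hd1 hd2 η hη
  have hn1 : n₁ ≤ n := (le_max_left _ _).trans hn
  have hn2 : n₂ ≤ n := (le_max_right _ _).trans hn
  have hn0 : (0 : ℝ) ≤ n := Nat.cast_nonneg n
  have hdδ₁ : (d : ℝ) ≤ δ₁ * n := hd2.trans (mul_le_mul_of_nonneg_right (min_le_left _ _) hn0)
  have hdδ₂ : (d : ℝ) ≤ δ₂ * n := hd2.trans (mul_le_mul_of_nonneg_right (min_le_right _ _) hn0)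
  have hdn : d ≤ n / 2 := by
    have h1 : (d : ℝ) ≤ 1 / 1000 * n := hdδ₁.trans (mul_le_mul_of_nonneg_right hδ₁' hn0)
    have h2 : ((2 * d : ℕ) : ℝ) ≤ n := by
      push_cast
      linarith
    have h3 : 2 * d ≤ n := by exact_mod_cast h2
    omega
  have hirr : (hw n κ).IsIrreducible := (hw_irr hN).1 κ hκ
  have hlab : Lab (hw n κ) κ := ⟨LinearEquiv.refl ℂ _, fun _ _ => rfl⟩
  obtain ⟨θ₀, hθ₀⟩ := exists_tw hN (hw n κ) hκ hconj hlab
  have hτ := rhoE_irr θ hd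
  have hD0 := depth_pos_finrank θ hd
  obtain ⟨D, hD⟩ : ∃ D : ℝ, D = finrank ℂ (inv θ (TT n d)) := ⟨_, rfl⟩
  have hDpos : 0 < D := by rw [hD]; exact_mod_cast hD0
  obtain ⟨χ, hχ⟩ : ∃ χ : Perm (Fin n) → ℂ, χ = (hw n κ).character := ⟨_, rfl⟩
  have hfac : (n.factorial : ℂ) ≠ 0 := by exact_mod_cast n.factorial_ne_zero
  have hfacR : (0 : ℝ) < n.factorial := by exact_mod_cast n.factorial_pos
  -- the identity for the sum
  have hid := dim_hom θ (bil (hw n κ)) LinearMap.id (fun x => rfl) (fun g x => rfl)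
  rw [Fintype.card_perm, Fintype.card_fin] at hid
  have hid' : (n.factorial : ℂ) * finrank ℂ (HomP θ (bil (hw n κ)) LinearMap.id) =
      ∑ g : Perm (Fin n), χ g ^ 2 * θ.character g := by
    rw [hid]
    refine Finset.sum_congr rfl fun g _ => ?_
    have h1 : LinearMap.trace ℂ (Bil (HW n κ)) (bil (hw n κ) g ∘ₗ LinearMap.id) = χ g ^ 2 := by
      rw [LinearMap.comp_id]
      have h2 : bil (hw n κ) g = pb (hw n κ g⁻¹) := rfl
      rw [h2, trace_pb, hχ, ← char_perm_inv (hw n κ) g]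
      rfl
    rw [h1, char_perm_inv]
  have hsq : ∀ g : Perm (Fin n), χ g ^ 2 * ((Perm.sign g : ℤ) : ℂ) = χ g ^ 2 := by
    intro g
    have h1 := char_tw hθ₀ g
    rw [← hχ] at h1
    calc χ g ^ 2 * ((Perm.sign g : ℤ) : ℂ) = χ g * (((Perm.sign g : ℤ) : ℂ) * χ g) := by ring
      _ = χ g ^ 2 := by rw [← h1]; ring
  -- the two multiplicities
  have hm : ∀ ε : ℂ, ε ^ 2 = 1 → (n.factorial : ℂ) * finrank ℂ (HomP θ (bil (hw n κ)) (pt θ₀ ε)) =
      ((∑ g : Perm (Fin n), χ g ^ 2 * θ.character g) +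
        ε * ∑ g : Perm (Fin n), ((Perm.sign g : ℤ) : ℂ) * χ (g ^ 2) * θ.character g) / 2 := by
    intro ε hε
    rw [mult_tw hθ₀ ε hε θ, ← hχ, Finset.mul_sum, ← Finset.sum_add_distrib, Finset.sum_div]
    refine Finset.sum_congr rfl fun g _ => ?_
    rw [tw_char32, sgn_inv32, char_perm_inv]
    linear_combination (1 / 2 : ℂ) * θ.character g * hsq g
  obtain ⟨f, hf⟩ : ∃ f : Perm (Fin n) → ℝ, f = fun g => ((Perm.sign g : ℤ) : ℝ) * ((hw n κ).character (g ^ 2)).re :=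
    ⟨_, rfl⟩
  have hT : ∑ g : Perm (Fin n), ((Perm.sign g : ℤ) : ℂ) * χ (g ^ 2) * θ.character g =
      (((n.factorial : ℝ) * cf f θ : ℝ) : ℂ) := by
    unfold cf
    rw [mul_div_cancel₀ _ hfacR.ne', Complex.ofReal_sum]
    refine Finset.sum_congr rfl fun g _ => ?_
    rw [hf, hχ, char_perm_real (hw n κ) (g ^ 2), char_perm_real θ g]
    push_cast
    simp only [Complex.ofReal_re]
  have hmr : ∀ ε : ℝ, ε ^ 2 = 1 → 2 * (finrank ℂ (HomP θ (bil (hw n κ)) (pt θ₀ (ε : ℂ))) : ℝ) =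
      (finrank ℂ (HomP θ (bil (hw n κ)) LinearMap.id) : ℝ) + ε * cf f θ := by
    intro ε hε
    have h1 := hm (ε : ℂ) (by exact_mod_cast hε)
    rw [← hid', hT] at h1
    have h2 : ((2 * (n.factorial : ℝ) * (finrank ℂ (HomP θ (bil (hw n κ)) (pt θ₀ (ε : ℂ))) : ℝ) : ℝ) : ℂ) =
        (((n.factorial : ℝ) * ((finrank ℂ (HomP θ (bil (hw n κ)) LinearMap.id) : ℝ) + ε * cf f θ) : ℝ) : ℂ) := by
      push_cast at h1 ⊢
      linear_combination 2 * h1
    have h3 := Complex.ofReal_injective h2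
    have h4 : (n.factorial : ℝ) * (2 * (finrank ℂ (HomP θ (bil (hw n κ)) (pt θ₀ (ε : ℂ))) : ℝ)) =
        (n.factorial : ℝ) * ((finrank ℂ (HomP θ (bil (hw n κ)) LinearMap.id) : ℝ) + ε * cf f θ) := by
      rw [← h3]
      ring
    exact mul_left_cancel₀ hfacR.ne' h4
  -- the lower bound
  have hlow : D * ((n / 400).choose d : ℝ) / (160 * (n + 1) * Real.exp (5 * Real.sqrt n)) ≤
      finrank ℂ (HomP θ (bil (hw n κ)) LinearMap.id) := by
    have h1 := hnu n hn1 N hN κ hκ hWF d hd.1 hd1 hdδ₁ _ (rhoE θ hd.1) 1 (by norm_num)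
    rw [← hD] at h1
    refine h1.trans ?_
    rw [← nu_lab hd.1 (hw n κ) κ hlab]
    have h2 := NM_le_mult θ (bil (hw n κ)) LinearMap.id (fun x => rfl) (fun g x => rfl) hd
    have h3 : finrank ℂ (NM hd.1 (rhoE θ hd.1) (bil (hw n κ)) (pe ((1 : ℝ) : ℂ))) ≤
        finrank ℂ (NM hd.1 (rhoE θ hd.1) (bil (hw n κ)) LinearMap.id) := by
      refine Submodule.finrank_mono ?_
      intro φ hφ
      rw [mem_NM] at hφ ⊢
      exact ⟨hφ.1, hφ.2.1, fun v => rfl⟩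
    exact_mod_cast h3.trans h2
  -- the upper bound
  obtain ⟨B, hB⟩ : ∃ B : ℝ, B = Real.sqrt (n.choose d) * (((n : ℝ) + 1) * Real.exp (5 * Real.sqrt n)) := ⟨_, rfl⟩
  have hB0 : 0 ≤ B := by
    rw [hB]
    positivity
  have hup : |cf f θ| ≤ 2 ^ d * B * D := by
    rw [hD]
    refine cf_le hN f ?_ B hB0 d ?_ d le_rfl W θ hd
    · intro x g
      rw [hf]
      have h1 : (x * g * x⁻¹) ^ 2 = x * g ^ 2 * x⁻¹ := conj_pow
      have h2 : Perm.sign (x * g * x⁻¹) = Perm.sign g := by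
        rw [Perm.sign_mul, Perm.sign_mul, Perm.sign_inv, mul_right_comm, Int.units_mul_self, one_mul]
      simp only
      rw [h1, h2, (hw n κ).char_conj]
    · intro e h he q hq
      rw [hf, hB]
      refine (sq_avH_tw h (hw n κ) q hq).trans ?_
      exact sqrt32 (by exact_mod_cast choose32 hdn e he) (Nat.cast_nonneg _) (Nat.cast_nonneg _)
        (card32 (Nat.sub_le _ _)) (card32 h) (Nat.cast_nonneg _)
  have hlt : |cf f θ| < finrank ℂ (HomP θ (bil (hw n κ)) LinearMap.id) := by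
    refine lt_of_lt_of_le ?_ hlow
    refine lt_of_le_of_lt hup ?_
    have h1 := hnum n hn2 d hd1 hdδ₂
    rw [← hB] at h1
    have h2 := mul_lt_mul_of_pos_left h1 hDpos
    calc 2 ^ d * B * D = D * (2 ^ d * B) := by ring
      _ < D * (((n / 400).choose d : ℝ) / (160 * (n + 1) * Real.exp (5 * Real.sqrt n))) := h2
      _ = _ := by ring
  have hpos : 0 < finrank ℂ (HomP θ (bil (hw n κ)) (pt θ₀ (η : ℂ))) := by
    have h1 := hmr η hη
    have h2 : |η| = 1 := by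
      have h3 : |η| ^ 2 = 1 := by rw [sq_abs, hη]
      nlinarith [abs_nonneg η]
    have h3 : |η * cf f θ| < finrank ℂ (HomP θ (bil (hw n κ)) LinearMap.id) := by
      rw [abs_mul, h2, one_mul]
      exact hlt
    have h4 := (abs_lt.1 h3).1
    have h5 : (0 : ℝ) < finrank ℂ (HomP θ (bil (hw n κ)) (pt θ₀ (η : ℂ))) := by linarith
    exact_mod_cast h5
  rw [← mult_tw hθ₀ (η : ℂ) (by exact_mod_cast hη) θ]
  exact mul_ne_zero hfac (by exact_mod_cast hpos.ne')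

end Pool.Agent.Helper51.TF
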