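import Pool.Agent.Helper51.TF.E4

/-!
BLOCK TF-E5 (about 220 lines). Bilinear forms on a representation isomorphic to `HW m κ`, and functions of pairs of words.

Proof in words. Put on functions of words the form `(f, g) = ∑_x f(x) g(x)`. `HW m κ` is closed under complex conjugation, so if `f ∈ HW m κ` and `(f, g) = 0` for all
`g ∈ HW m κ` then `∑ |f(x)|² = (f, conj f) = 0`, `f = 0`. So `HW m κ → (HW m κ)^*` is an isomorphism `D` (injective between spaces of the same finite dimension), equivariant up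
to the inverse (`(gf, gf') = (f, f')`).
For `b ∈ Bil V` (`V` with an equivariant isomorphism `e : V ≃ HW m κ`) define `z_b(x, y) = b (e⁻¹ (q x)) (e⁻¹ (q y))` where `q x ∈ HW m κ` is the element with
`(q x, f) = f(x)` for all `f ∈ HW m κ` (`q x = D⁻¹ (evaluation at x)`). Then
 - for fixed `y`: `u ↦ b (e⁻¹ u) (e⁻¹ (q y))` is a functional on `HW m κ`, so it is `(f, ·)` for some `f ∈ HW m κ`, and `z_b(x, y) = (f, q x) = f(x)`: so `sec1 z_b y = f ∈ HW m κ`; the same
   for `y`. So `z_b ∈ HH m κ`;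
 - `q (x ∘ g⁻¹) = wact g (q x)`... (check: `(g q_x, f) = (q_x, g⁻¹ f) = (g⁻¹ f)(x) = f(x ∘ g⁻¹)`), hence `z_{g b}(x, y) = b (e⁻¹ g⁻¹ q x) (...) = z_b(x ∘ g, y ∘ g)`: equivariant; the flip goes to the flip;
 - injective: the `q x` span `HW m κ` (if `(q x, f) = 0` for all `x` then `f = 0`);
 - surjective: given `z ∈ HH m κ` put `b(v, w) = ∑_{x, y} z(x, y) (e v)(x) (e w)(y)`: then `z_b(x, y) = ∑ z(x', y') (q x)(x') (q y)(y') = z(x, y)` (`sec1 z y' ∈ HW` and `(q x, f) = f(x)`, twice).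
So `Bil V ≃ HH m κ`, which maps `bil ρ`, `pe ε` to `hh2 m κ`, `hpe m κ ε`, and `NM` to `NM`.
-/

set_option autoImplicit false

open Module Equiv Pool.Agent.Helper1.TS Pool.Agent.Helper70.TU Pool.Agent.Helper51.TN

namespace Pool.Agent.Helper51.TF

section Private_h54

variable {m N : ℕ} {κ : Fin N → ℕ}

private theorem conj_mem_h54 {f : (Fin m → Fin N) → ℂ} (hf : f ∈ HW m κ) :
    (fun x => (starRingEnd ℂ) (f x)) ∈ HW m κ := by
  refine ⟨fun x hx => ?_, fun i j hij x => ?_⟩
  · show (starRingEnd ℂ) (f x) = 0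
    rw [hf.1 x hx, map_zero]
  · show ∑ p ∈ Finset.univ.filter (fun p => x p = i), (starRingEnd ℂ) (f (Function.update x p j)) = 0
    rw [← map_sum, hf.2 i j hij x, map_zero]

private theorem nd_h54 {f : (Fin m → Fin N) → ℂ} (hf : f ∈ HW m κ)
    (h : ∀ g ∈ HW m κ, ∑ x, f x * g x = 0) : f = 0 := by
  have h1 := h _ (conj_mem_h54 hf)
  have h2 : ∑ x, Complex.normSq (f x) = 0 := by
    have h3 : ((∑ x, Complex.normSq (f x) : ℝ) : ℂ) = 0 := by
      rw [Complex.ofReal_sum, ← h1]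
      exact Finset.sum_congr rfl fun x _ => (Complex.mul_conj (f x)).symm
    exact_mod_cast h3
  funext x
  have h4 := (Finset.sum_eq_zero_iff_of_nonneg fun x _ => Complex.normSq_nonneg (f x)).1 h2 x (Finset.mem_univ x)
  exact Complex.normSq_eq_zero.1 h4

/-- the form -/
private noncomputable def dd_h54 (m : ℕ) {N : ℕ} (κ : Fin N → ℕ) : HW m κ →ₗ[ℂ] (HW m κ →ₗ[ℂ] ℂ) :=
  LinearMap.mk₂ ℂ (fun f g => ∑ x, (f : (Fin m → Fin N) → ℂ) x * (g : (Fin m → Fin N) → ℂ) x)
    (by
      intro f f' g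
      rw [← Finset.sum_add_distrib]
      refine Finset.sum_congr rfl fun x _ => ?_
      rw [Submodule.coe_add, Pi.add_apply, add_mul])
    (by
      intro c f g
      rw [Finset.smul_sum]
      refine Finset.sum_congr rfl fun x _ => ?_
      rw [Submodule.coe_smul, Pi.smul_apply, smul_mul_assoc])
    (by
      intro f g g'
      rw [← Finset.sum_add_distrib]
      refine Finset.sum_congr rfl fun x _ => ?_
      rw [Submodule.coe_add, Pi.add_apply, mul_add])
    (by
      intro c f g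
      rw [Finset.smul_sum]
      refine Finset.sum_congr rfl fun x _ => ?_
      rw [Submodule.coe_smul, Pi.smul_apply, mul_smul_comm])

private theorem dd_apply_h54 (f g : HW m κ) :
    dd_h54 m κ f g = ∑ x, (f : (Fin m → Fin N) → ℂ) x * (g : (Fin m → Fin N) → ℂ) x := rfl

private theorem dd_surj_h54 : Function.Surjective (dd_h54 m κ) := by
  have hinj : Function.Injective (dd_h54 m κ) := by
    rw [injective_iff_map_eq_zero]
    intro f hf
    refine Subtype.ext (nd_h54 f.2 fun g hg => ?_)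
    have h1 := LinearMap.congr_fun hf ⟨g, hg⟩
    rw [dd_apply_h54] at h1
    exact h1
  have hdim : finrank ℂ (HW m κ) = finrank ℂ (HW m κ →ₗ[ℂ] ℂ) := (Subspace.dual_finrank_eq).symm
  exact (LinearMap.injective_iff_surjective_of_finrank_eq_finrank hdim).1 hinj

private theorem rep_h54 (L : HW m κ →ₗ[ℂ] ℂ) : ∃ f : HW m κ,
    ∀ g : HW m κ, ∑ x, (f : (Fin m → Fin N) → ℂ) x * (g : (Fin m → Fin N) → ℂ) x = L g := by
  obtain ⟨f, hf⟩ := dd_surj_h54 L
  exact ⟨f, fun g => by rw [← dd_apply_h54, hf]⟩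

private theorem qx_h54 : ∃ q : (Fin m → Fin N) → HW m κ, ∀ (y : Fin m → Fin N) (f : HW m κ),
    ∑ x, (f : (Fin m → Fin N) → ℂ) x * (q y : (Fin m → Fin N) → ℂ) x = (f : (Fin m → Fin N) → ℂ) y := by
  have h1 : ∀ y : Fin m → Fin N, ∃ q : HW m κ, ∀ f : HW m κ,
      ∑ x, (f : (Fin m → Fin N) → ℂ) x * (q : (Fin m → Fin N) → ℂ) x = (f : (Fin m → Fin N) → ℂ) y := by
    intro y
    obtain ⟨q, hq⟩ := rep_h54 ((LinearMap.proj y).comp (HW m κ).subtype)
    refine ⟨q, fun f => ?_⟩
    have h2 := hq f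
    rw [show ((LinearMap.proj y).comp (HW m κ).subtype) f = (f : (Fin m → Fin N) → ℂ) y from rfl] at h2
    rw [← h2]
    exact Finset.sum_congr rfl fun x _ => mul_comm _ _
  exact ⟨fun y => (h1 y).choose, fun y => (h1 y).choose_spec⟩

/-- a pair of words -/
private def pr_h54 (x y : Fin m → Fin N) : Fin m → Fin N × Fin N := fun p => (x p, y p)

/-- the form of a function of pairs of words, before the transport to `V` -/
private noncomputable def gg_h54 (m : ℕ) {N : ℕ} (κ : Fin N → ℕ) :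
    HH m κ →ₗ[ℂ] HW m κ →ₗ[ℂ] HW m κ →ₗ[ℂ] ℂ where
  toFun z := LinearMap.mk₂ ℂ (fun f g => ∑ x, ∑ y, (z : (Fin m → Fin N × Fin N) → ℂ) (pr_h54 x y) *
      ((f : (Fin m → Fin N) → ℂ) x * (g : (Fin m → Fin N) → ℂ) y))
    (by
      intro f f' g
      rw [← Finset.sum_add_distrib]
      refine Finset.sum_congr rfl fun x _ => ?_
      rw [← Finset.sum_add_distrib]
      refine Finset.sum_congr rfl fun y _ => ?_
      rw [Submodule.coe_add, Pi.add_apply]
      ring)
    (by
      intro c f g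
      rw [Finset.smul_sum]
      refine Finset.sum_congr rfl fun x _ => ?_
      rw [Finset.smul_sum]
      refine Finset.sum_congr rfl fun y _ => ?_
      rw [Submodule.coe_smul, Pi.smul_apply, smul_eq_mul, smul_eq_mul]
      ring)
    (by
      intro f g g'
      rw [← Finset.sum_add_distrib]
      refine Finset.sum_congr rfl fun x _ => ?_
      rw [← Finset.sum_add_distrib]
      refine Finset.sum_congr rfl fun y _ => ?_
      rw [Submodule.coe_add, Pi.add_apply]
      ring)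
    (by
      intro c f g
      rw [Finset.smul_sum]
      refine Finset.sum_congr rfl fun x _ => ?_
      rw [Finset.smul_sum]
      refine Finset.sum_congr rfl fun y _ => ?_
      rw [Submodule.coe_smul, Pi.smul_apply, smul_eq_mul, smul_eq_mul]
      ring)
  map_add' z w := by
    refine LinearMap.ext₂ fun f g => ?_
    rw [LinearMap.add_apply, LinearMap.add_apply, LinearMap.mk₂_apply, LinearMap.mk₂_apply, LinearMap.mk₂_apply,
      ← Finset.sum_add_distrib]
    refine Finset.sum_congr rfl fun x _ => ?_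
    rw [← Finset.sum_add_distrib]
    refine Finset.sum_congr rfl fun y _ => ?_
    rw [Submodule.coe_add, Pi.add_apply]
    ring
  map_smul' c z := by
    refine LinearMap.ext₂ fun f g => ?_
    rw [RingHom.id_apply, LinearMap.smul_apply, LinearMap.smul_apply, LinearMap.mk₂_apply, LinearMap.mk₂_apply,
      Finset.smul_sum]
    refine Finset.sum_congr rfl fun x _ => ?_
    rw [Finset.smul_sum]
    refine Finset.sum_congr rfl fun y _ => ?_
    rw [Submodule.coe_smul, Pi.smul_apply, smul_eq_mul, smul_eq_mul]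
    ring

private theorem gg_apply_h54 (z : HH m κ) (f g : HW m κ) :
    gg_h54 m κ z f g = ∑ x, ∑ y, (z : (Fin m → Fin N × Fin N) → ℂ) (pr_h54 x y) *
      ((f : (Fin m → Fin N) → ℂ) x * (g : (Fin m → Fin N) → ℂ) y) := rfl

private theorem gg_inj_h54 : Function.Injective (gg_h54 m κ) := by
  rw [injective_iff_map_eq_zero]
  intro z hz
  have h1 : ∀ f g : HW m κ, ∑ x, ∑ y, (z : (Fin m → Fin N × Fin N) → ℂ) (pr_h54 x y) *
      ((f : (Fin m → Fin N) → ℂ) x * (g : (Fin m → Fin N) → ℂ) y) = 0 := by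
    intro f g
    rw [← gg_apply_h54, hz]
    rfl
  have h2 : ∀ (g : HW m κ) (x : Fin m → Fin N),
      ∑ y, (z : (Fin m → Fin N × Fin N) → ℂ) (pr_h54 x y) * (g : (Fin m → Fin N) → ℂ) y = 0 := by
    intro g
    have h3 : (fun x => ∑ y, (z : (Fin m → Fin N × Fin N) → ℂ) (pr_h54 x y) * (g : (Fin m → Fin N) → ℂ) y) ∈ HW m κ := by
      have h4 : (fun x => ∑ y, (z : (Fin m → Fin N × Fin N) → ℂ) (pr_h54 x y) * (g : (Fin m → Fin N) → ℂ) y) =
          ∑ y, (g : (Fin m → Fin N) → ℂ) y • sec1 (z : (Fin m → Fin N × Fin N) → ℂ) y := by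
        funext x
        rw [Finset.sum_apply]
        exact Finset.sum_congr rfl fun y _ => mul_comm _ _
      rw [h4]
      exact Submodule.sum_mem _ fun y _ => Submodule.smul_mem _ _ (z.2.1 y)
    have h5 := nd_h54 h3 (by
      intro f hf
      have h6 := h1 ⟨f, hf⟩ g
      rw [← h6]
      refine Finset.sum_congr rfl fun x _ => ?_
      rw [Finset.sum_mul]
      refine Finset.sum_congr rfl fun y _ => ?_
      ring)
    exact fun x => congrFun h5 x
  refine Subtype.ext (funext fun w => ?_)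
  have h7 := nd_h54 (z.2.2 fun p => (w p).1) (by
    intro g hg
    exact h2 ⟨g, hg⟩ fun p => (w p).1)
  exact congrFun h7 fun p => (w p).2

private theorem gg_surj_h54 : Function.Surjective (gg_h54 m κ) := by
  intro b
  obtain ⟨q, hq⟩ := qx_h54 (m := m) (κ := κ)
  have hsum : ∀ f : HW m κ, ∑ x, (f : (Fin m → Fin N) → ℂ) x • q x = f := by
    intro f
    rw [← sub_eq_zero]
    refine Subtype.ext (nd_h54 (Subtype.mem _) fun g hg => ?_)
    have h1 : ∀ y : Fin m → Fin N, ((∑ x, (f : (Fin m → Fin N) → ℂ) x • q x - f : HW m κ) : (Fin m → Fin N) → ℂ) y =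
        ∑ x, (f : (Fin m → Fin N) → ℂ) x * (q x : (Fin m → Fin N) → ℂ) y - (f : (Fin m → Fin N) → ℂ) y := by
      intro y
      rw [Submodule.coe_sub, Pi.sub_apply, Submodule.coe_sum, Finset.sum_apply]
      rfl
    simp_rw [h1, sub_mul, Finset.sum_mul]
    rw [Finset.sum_sub_distrib, Finset.sum_comm, sub_eq_zero]
    refine Finset.sum_congr rfl fun x _ => ?_
    have h2 := hq x ⟨g, hg⟩
    simp only at h2
    rw [← h2, Finset.mul_sum]
    refine Finset.sum_congr rfl fun y _ => ?_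
    ring
  have hz : (fun w : Fin m → Fin N × Fin N => b (q fun p => (w p).1) (q fun p => (w p).2)) ∈ HH m κ := by
    constructor
    · intro y
      obtain ⟨f, hf⟩ := rep_h54 (b.flip (q y))
      have h1 : sec1 (fun w : Fin m → Fin N × Fin N => b (q fun p => (w p).1) (q fun p => (w p).2)) y =
          (f : (Fin m → Fin N) → ℂ) := by
        funext x
        rw [← hq x f, hf (q x)]
        rfl
      rw [h1]
      exact f.2
    · intro x
      obtain ⟨f, hf⟩ := rep_h54 (b (q x))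
      have h1 : sec2 (fun w : Fin m → Fin N × Fin N => b (q fun p => (w p).1) (q fun p => (w p).2)) x =
          (f : (Fin m → Fin N) → ℂ) := by
        funext y
        rw [← hq y f, hf (q y)]
        rfl
      rw [h1]
      exact f.2
  refine ⟨⟨_, hz⟩, LinearMap.ext₂ fun f g => ?_⟩
  rw [gg_apply_h54]
  have h3 : b f = ∑ x, (f : (Fin m → Fin N) → ℂ) x • b (q x) := by
    conv_lhs => rw [← hsum f]
    rw [map_sum]
    exact Finset.sum_congr rfl fun x _ => map_smul _ _ _
  rw [h3, LinearMap.sum_apply]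
  refine Finset.sum_congr rfl fun x _ => ?_
  conv_rhs => rw [← hsum g]
  rw [LinearMap.smul_apply, map_sum, Finset.smul_sum]
  refine Finset.sum_congr rfl fun y _ => ?_
  rw [map_smul, smul_eq_mul, smul_eq_mul]
  show b (q x) (q y) * _ = _
  ring

private theorem gg_act_h54 (g : Perm (Fin m)) (z : HH m κ) (u v : HW m κ) :
    gg_h54 m κ (hh2 m κ g z) u v = gg_h54 m κ z (hw m κ g⁻¹ u) (hw m κ g⁻¹ v) := by
  rw [gg_apply_h54, gg_apply_h54]
  refine Fintype.sum_equiv (Equiv.arrowCongr g (Equiv.refl _)).symm _ _ fun x => ?_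
  refine Fintype.sum_equiv (Equiv.arrowCongr g (Equiv.refl _)).symm _ _ fun y => ?_
  rw [hh2_coe, hw_coe, hw_coe]
  have h1 : ∀ x : Fin m → Fin N, ((Equiv.arrowCongr g (Equiv.refl _)).symm x) ∘ (g⁻¹ : Perm (Fin m)) = x := by
    intro x
    funext p
    simp [Equiv.arrowCongr]
  rw [h1, h1]
  rfl

private theorem gg_fl_h54 (z : HH m κ) (u v : HW m κ) :
    gg_h54 m κ (hfl m κ z) u v = gg_h54 m κ z v u := by
  rw [gg_apply_h54, gg_apply_h54, Finset.sum_comm]
  refine Finset.sum_congr rfl fun x _ => Finset.sum_congr rfl fun y _ => ?_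
  rw [mul_comm ((v : (Fin m → Fin N) → ℂ) x)]
  rfl

private theorem new_iff_h54 {n d : ℕ} {X X' : Type*} [AddCommGroup X] [Module ℂ X] [AddCommGroup X'] [Module ℂ X']
    {σ : Representation ℂ (Perm (Fin n)) X} {σ' : Representation ℂ (Perm (Fin n)) X'} (F : X ≃ₗ[ℂ] X')
    (hF : ∀ g x, F (σ g x) = σ' g (F x)) (z : X) : F z ∈ New σ' d ↔ z ∈ New σ d := by
  have hq : ∀ a, F (qq σ (TT n d) a z) = qq σ' (TT n d) a (F z) := by
    intro a
    unfold qq
    rw [LinearMap.sum_apply, LinearMap.sum_apply, map_sum]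
    exact Finset.sum_congr rfl fun y _ => hF _ _
  constructor
  · rintro ⟨h1, h2⟩
    refine ⟨fun x hx => F.injective ?_, fun a ha => F.injective ?_⟩
    · rw [hF]
      exact h1 x hx
    · rw [hq, h2 a ha, map_zero]
  · rintro ⟨h1, h2⟩
    refine ⟨fun x hx => ?_, fun a ha => ?_⟩
    · rw [← hF, h1 x hx]
    · rw [← hq, h2 a ha, map_zero]

private theorem NM_congr_h54 {n d : ℕ} (hd : d ≤ n) {E X X' : Type*} [AddCommGroup E] [Module ℂ E] [AddCommGroup X]
    [Module ℂ X] [AddCommGroup X'] [Module ℂ X'] (τ : Representation ℂ (Perm (Fin d)) E)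
    {σ : Representation ℂ (Perm (Fin n)) X} {σ' : Representation ℂ (Perm (Fin n)) X'} {P : X →ₗ[ℂ] X} {P' : X' →ₗ[ℂ] X'}
    (F : X ≃ₗ[ℂ] X') (hF : ∀ g x, F (σ g x) = σ' g (F x)) (hP : ∀ x, F (P x) = P' (F x)) :
    finrank ℂ (NM hd τ σ P) = finrank ℂ (NM hd τ σ' P') := by
  have h1 : (NM hd τ σ P).map (LinearEquiv.congrRight F : (E →ₗ[ℂ] X) ≃ₗ[ℂ] (E →ₗ[ℂ] X')).toLinearMap = NM hd τ σ' P' := by
    ext f
    rw [Submodule.mem_map]
    constructor
    · rintro ⟨f, ⟨ha, hb, hc⟩, rfl⟩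
      refine ⟨fun y v => ?_, fun v => ?_, fun v => ?_⟩
      · show F (f (τ y v)) = σ' (jD hd y) (F (f v))
        rw [ha, hF]
      · show F (f v) ∈ New σ' d
        exact (new_iff_h54 F hF _).2 (hb v)
      · show P' (F (f v)) = F (f v)
        rw [← hP, hc]
    · rintro ⟨ha, hb, hc⟩
      refine ⟨F.symm.toLinearMap ∘ₗ f, ⟨fun y v => ?_, fun v => ?_, fun v => ?_⟩, ?_⟩
      · show F.symm (f (τ y v)) = σ (jD hd y) (F.symm (f v))
        apply F.injective
        rw [hF, F.apply_symm_apply, F.apply_symm_apply, ha]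
      · show F.symm (f v) ∈ New σ d
        rw [← new_iff_h54 F hF, F.apply_symm_apply]
        exact hb v
      · show P (F.symm (f v)) = F.symm (f v)
        apply F.injective
        rw [hP, F.apply_symm_apply, hc]
      · refine LinearMap.ext fun v => ?_
        show F (F.symm (f v)) = f v
        exact F.apply_symm_apply _
  rw [← h1]
  exact (LinearEquiv.finrank_map_eq _ _).symm

end Private_h54

theorem bil_equiv {m N : ℕ} {V : Type*} [AddCommGroup V] [Module ℂ V] [FiniteDimensional ℂ V]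
    (ρ : Representation ℂ (Perm (Fin m)) V) (κ : Fin N → ℕ) (h : Lab ρ κ) :
    ∃ F : Bil V ≃ₗ[ℂ] HH m κ, (∀ (g : Perm (Fin m)) (b : Bil V), F (bil ρ g b) = hh2 m κ g (F b)) ∧
      ∀ b : Bil V, F (fl b) = hfl m κ (F b) := by
  obtain ⟨e, he⟩ := h
  let G₀ : HH m κ ≃ₗ[ℂ] (HW m κ →ₗ[ℂ] HW m κ →ₗ[ℂ] ℂ) := LinearEquiv.ofBijective (gg_h54 m κ) ⟨gg_inj_h54, gg_surj_h54⟩
  let T : Bil V ≃ₗ[ℂ] (HW m κ →ₗ[ℂ] HW m κ →ₗ[ℂ] ℂ) :=
    LinearEquiv.arrowCongr e (LinearEquiv.arrowCongr e (LinearEquiv.refl ℂ ℂ))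
  have hT : ∀ (b : Bil V) (u v : HW m κ), T b u v = b (e.symm u) (e.symm v) := fun b u v => rfl
  have hG : ∀ z u v, G₀ z u v = gg_h54 m κ z u v := fun z u v => rfl
  have he' : ∀ (g : Perm (Fin m)) (u : HW m κ), e.symm (hw m κ g u) = ρ g (e.symm u) := by
    intro g u
    apply e.injective
    rw [he, e.apply_symm_apply, e.apply_symm_apply]
  refine ⟨T.trans G₀.symm, fun g b => ?_, fun b => ?_⟩
  · rw [LinearEquiv.trans_apply, LinearEquiv.trans_apply]
    apply G₀.injective
    rw [G₀.apply_symm_apply]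
    refine LinearMap.ext₂ fun u v => ?_
    rw [hG, gg_act_h54, ← hG, G₀.apply_symm_apply, hT, hT, bil_apply, he', he']
  · rw [LinearEquiv.trans_apply, LinearEquiv.trans_apply]
    apply G₀.injective
    rw [G₀.apply_symm_apply]
    refine LinearMap.ext₂ fun u v => ?_
    rw [hG, gg_fl_h54, ← hG, G₀.apply_symm_apply, hT, hT, fl_apply]

theorem NM_bil {m N d : ℕ} (hd : d ≤ m) {V : Type*} [AddCommGroup V] [Module ℂ V] [FiniteDimensional ℂ V]
    (ρ : Representation ℂ (Perm (Fin m)) V) (κ : Fin N → ℕ) (h : Lab ρ κ) {E : Type*} [AddCommGroup E]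
    [Module ℂ E] [FiniteDimensional ℂ E] (τ : Representation ℂ (Perm (Fin d)) E) (ε : ℂ) :
    finrank ℂ (NM hd τ (bil ρ) (pe ε)) = finrank ℂ (NM hd τ (hh2 m κ) (hpe m κ ε)) := by
  obtain ⟨F, h1, h2⟩ := bil_equiv ρ κ h
  refine NM_congr_h54 hd τ F h1 fun b => ?_
  unfold pe hpe
  rw [LinearMap.smul_apply, LinearMap.smul_apply, map_smul, LinearMap.add_apply, LinearMap.add_apply, map_add,
    LinearMap.smul_apply, LinearMap.smul_apply, map_smul, h2]
  rfl

end Pool.Agent.Helper51.TF
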