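import Pool.Agent.Helper51.TF.H9
import Pool.Agent.Helper51.TF.E5

/-!
BLOCK TF-D1 (about 180 lines). The number `nu` of new maps for a label; it is invariant under transposition and does not decrease when rows or columns are added.

Proof in words.
* `nu_lab`: this is `NM_bil` (`TF/E5`).
* `nu_conj`: `NM_bil` for `ρ = hw m κ` (label `κ`) and for `tw (hw m κ)` (label `conjP κ`, `lab_tw`): `bil (tw ρ) = bil ρ` (the sign squared is `1`), so the two spaces `NM` are equal.
* `del β Q i = #{j < β i : j ∉ Q}` (the columns in `Q` are deleted). `nu_del1`: for a single column `q`, `β` antitone: `β = addCol (del β {q}) r` with `r = #{i : q < β i} ≤ N` (`q < β i ↔ i < r` since `β` is antitone; if `q ≥ β i` for all `i` then `r = 0` and `del β {q} = β`), so `n = m + r`, and `NM_addCol` (`TF/E4`).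
* `nu_del`: induction on `Q` for all `β`, `n` (`Finset.induction_on_max`): if `q` is larger than all elements of `Q'` then `del β (insert q Q') = del (del β {q}) Q'` (the columns `< q` keep their number), `del β {q}` is antitone.
-/

set_option autoImplicit false

open Module Equiv Pool.Agent.Helper1.TS Pool.Agent.Helper70.TU Pool.Agent.Helper51.TN

namespace Pool.Agent.Helper51.TF

variable {N : ℕ}

/-- The dimension of the space of new maps for the label `κ`. -/
noncomputable def nu {m : ℕ} (κ : Fin N → ℕ) {d : ℕ} (hd : d ≤ m) {E : Type*} [AddCommGroup E] [Module ℂ E]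
    (τ : Representation ℂ (Perm (Fin d)) E) (ε : ℂ) : ℕ :=
  finrank ℂ (NM hd τ (hh2 m κ) (hpe m κ ε))

/-- The columns in `Q` deleted. -/
def del (β : Fin N → ℕ) (Q : Finset ℕ) : Fin N → ℕ := fun i => ((Finset.range (β i)).filter (fun j => j ∉ Q)).card

variable {E : Type*} [AddCommGroup E] [Module ℂ E] [FiniteDimensional ℂ E]

theorem nu_lab {m d : ℕ} (hd : d ≤ m) {V : Type*} [AddCommGroup V] [Module ℂ V] [FiniteDimensional ℂ V]
    (ρ : Representation ℂ (Perm (Fin m)) V) (κ : Fin N → ℕ) (h : Lab ρ κ)
    (τ : Representation ℂ (Perm (Fin d)) E) (ε : ℂ) :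
    finrank ℂ (NM hd τ (bil ρ) (pe ε)) = nu κ hd τ ε :=
  NM_bil hd ρ κ h τ ε

private theorem bil_tw33 {m : ℕ} {V : Type*} [AddCommGroup V] [Module ℂ V]
    (ρ : Representation ℂ (Perm (Fin m)) V) : bil (tw ρ) = bil ρ := by
  refine MonoidHom.ext fun g => LinearMap.ext fun b => LinearMap.ext₂ fun v w => ?_
  rw [bil_apply, bil_apply, tw_apply, tw_apply, map_smul, map_smul, LinearMap.smul_apply, smul_smul,
    ← Int.cast_mul, Int.units_coe_mul_self, Int.cast_one, one_smul]

private theorem lab_refl33 {m : ℕ} (κ : Fin N → ℕ) : Lab (hw m κ) κ :=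
  ⟨LinearEquiv.refl ℂ _, fun _ _ => rfl⟩

theorem nu_conj {m d : ℕ} (hN : m ≤ N) (hd : d ≤ m) {κ : Fin N → ℕ} (h : κ ∈ PP N m)
    (τ : Representation ℂ (Perm (Fin d)) E) (ε : ℂ) : nu (conjP κ) hd τ ε = nu κ hd τ ε := by
  rw [← nu_lab hd (tw (hw m κ)) (conjP κ) (lab_tw hN (hw m κ) h (lab_refl33 κ)) τ ε,
    ← nu_lab hd (hw m κ) κ (lab_refl33 κ) τ ε, bil_tw33]

private theorem del_add33 (β : Fin N → ℕ) (Q : Finset ℕ) (i : Fin N) :
    del β Q i + (Q.filter (fun j => j < β i)).card = β i := by
  have h1 : (Q.filter (fun j => j < β i)) = (Finset.range (β i)).filter (fun j => ¬ j ∉ Q) := by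
    ext j
    simp only [Finset.mem_filter, Finset.mem_range, not_not]
    exact and_comm
  have h2 := Finset.card_filter_add_card_filter_not (s := Finset.range (β i)) (fun j => j ∉ Q)
  rw [Finset.card_range] at h2
  unfold del
  rw [h1]
  exact h2

private theorem nu_add33 {n m d r : ℕ} (hr : r ≤ N) (κ β : Fin N → ℕ) (hβ : β = addCol κ r) (hn : n = m + r)
    (hd : d ≤ m) (hdn : d ≤ n) (τ : Representation ℂ (Perm (Fin d)) E) (ε : ℂ) :
    nu κ hd τ ε ≤ nu β hdn τ ε := by
  subst hn
  subst hβ
  exact NM_addCol hr κ hd τ ε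

theorem nu_del1 {n m d : ℕ} (β : Fin N → ℕ) (hβ : Antitone β) (q : ℕ) (hs : ∑ i, β i = n) (hm : ∑ i, del β {q} i = m)
    (hd : d ≤ m) (hdn : d ≤ n) (τ : Representation ℂ (Perm (Fin d)) E) (ε : ℂ) :
    nu (del β {q}) hd τ ε ≤ nu β hdn τ ε := by
  obtain ⟨r, hr⟩ : ∃ r : ℕ, r = (Finset.univ.filter (fun i : Fin N => q < β i)).card := ⟨_, rfl⟩
  have hrN : r ≤ N := by
    rw [hr]
    exact (Finset.card_filter_le _ _).trans (by simp)
  have hiff : ∀ i : Fin N, (i : ℕ) < r ↔ q < β i := by
    intro i
    constructor
    · intro hi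
      by_contra hq
      have h1 : Finset.univ.filter (fun i : Fin N => q < β i) ⊆ Finset.univ.filter (fun j : Fin N => j < i) := by
        intro j hj
        rw [Finset.mem_filter] at hj ⊢
        refine ⟨Finset.mem_univ _, ?_⟩
        by_contra hji
        exact hq (hj.2.trans_le (hβ (not_lt.1 hji)))
      have h2 := Finset.card_le_card h1
      have h3 : (Finset.univ.filter (fun j : Fin N => j < i)).card = i := by
        have h4 : Finset.univ.filter (fun j : Fin N => j < i) = Finset.Iio i := by
          ext j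
          simp
        rw [h4, Fin.card_Iio]
      rw [h3, ← hr] at h2
      omega
    · intro hi
      have h1 : Finset.univ.filter (fun j : Fin N => j ≤ i) ⊆ Finset.univ.filter (fun i : Fin N => q < β i) := by
        intro j hj
        rw [Finset.mem_filter] at hj ⊢
        exact ⟨Finset.mem_univ _, hi.trans_le (hβ hj.2)⟩
      have h2 := Finset.card_le_card h1
      have h3 : (Finset.univ.filter (fun j : Fin N => j ≤ i)).card = i + 1 := by
        have h4 : Finset.univ.filter (fun j : Fin N => j ≤ i) = Finset.Iic i := by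
          ext j
          simp
        rw [h4, Fin.card_Iic]
      rw [h3, ← hr] at h2
      omega
  have hone : ∀ i : Fin N, β i = del β {q} i + if (i : ℕ) < r then 1 else 0 := by
    intro i
    have h1 := del_add33 β {q} i
    rw [Finset.filter_singleton] at h1
    by_cases hi : q < β i
    · rw [if_pos hi, Finset.card_singleton] at h1
      rw [if_pos ((hiff i).2 hi), h1]
    · rw [if_neg hi, Finset.card_empty] at h1
      rw [if_neg fun h => hi ((hiff i).1 h), h1]
  refine nu_add33 hrN (del β {q}) β (funext hone) ?_ hd hdn τ ε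
  rw [← hs, ← hm, Finset.sum_congr rfl fun i _ => hone i, Finset.sum_add_distrib]
  congr 1
  rw [← Finset.card_filter, hr]
  congr 1
  ext i
  simp only [Finset.mem_filter, Finset.mem_univ, true_and]
  rw [← hr]
  exact hiff i

theorem del_antitone (β : Fin N → ℕ) (hβ : Antitone β) (Q : Finset ℕ) : Antitone (del β Q) := by
  intro i j hij
  unfold del
  exact Finset.card_le_card (Finset.filter_subset_filter _ (Finset.range_mono (hβ hij)))

private theorem del_insert33 (β : Fin N → ℕ) (q : ℕ) (Q : Finset ℕ) (hq : ∀ x ∈ Q, x < q) :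
    del β (insert q Q) = del (del β {q}) Q := by
  funext i
  have hqQ : q ∉ Q := fun h => lt_irrefl q (hq q h)
  have h1 := del_add33 β (insert q Q) i
  have h2 := del_add33 β {q} i
  have h3 := del_add33 (del β {q}) Q i
  rw [Finset.filter_singleton] at h2
  by_cases hi : q < β i
  · rw [if_pos hi, Finset.card_singleton] at h2
    have e1 : (insert q Q).filter (fun j => j < β i) = insert q Q := by
      refine Finset.filter_true_of_mem fun x hx => ?_
      rcases Finset.mem_insert.1 hx with rfl | hx
      · exact hi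
      · exact (hq x hx).trans hi
    have e2 : Q.filter (fun j => j < del β {q} i) = Q := by
      refine Finset.filter_true_of_mem fun x hx => ?_
      have := hq x hx
      omega
    rw [e1, Finset.card_insert_of_notMem hqQ] at h1
    rw [e2] at h3
    omega
  · rw [if_neg hi, Finset.card_empty] at h2
    have e1 : (insert q Q).filter (fun j => j < β i) = Q.filter (fun j => j < β i) := by
      rw [Finset.filter_insert, if_neg hi]
    have e2 : del β {q} i = β i := by omega
    rw [e1] at h1
    rw [e2] at h3
    omega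

theorem nu_del {n m d : ℕ} (β : Fin N → ℕ) (hβ : Antitone β) (Q : Finset ℕ) (hs : ∑ i, β i = n) (hm : ∑ i, del β Q i = m)
    (hd : d ≤ m) (hdn : d ≤ n) (τ : Representation ℂ (Perm (Fin d)) E) (ε : ℂ) :
    nu (del β Q) hd τ ε ≤ nu β hdn τ ε := by
  induction Q using Finset.induction_on_max generalizing n β with
  | empty =>
    have h1 : del β ∅ = β := by
      funext i
      simp [del]
    have h2 : n = m := by rw [← hs, ← hm, h1]
    subst h2
    rw [h1]
  | insert q Q hq ih =>
    have hdel := del_insert33 β q Q hq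
    have hm' : ∑ i, del (del β {q}) Q i = m := by rw [← hdel, hm]
    have hle : m ≤ ∑ i, del β {q} i := by
      rw [← hm']
      refine Finset.sum_le_sum fun i _ => ?_
      have := del_add33 (del β {q}) Q i
      omega
    have h1 := ih (del β {q}) (del_antitone β hβ {q}) rfl hm' (hd.trans hle)
    have h2 := nu_del1 β hβ q hs rfl (hd.trans hle) hdn τ ε
    rw [hdel]
    exact h1.trans h2

end Pool.Agent.Helper51.TF
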