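import Pool.Agent.Helper51.TF.HW

/-!
BLOCK TF-E1 (about 180 lines). The tensor product of highest weight vectors is a highest weight vector; the determinant function is
a highest weight vector.

Proof in words.
* `cnt_append`: `cnt x i = cnt (x ∘ castAdd) i + cnt (x ∘ natAdd) i` (positions of `Fin (m + r)` are `castAdd` or `natAdd`;
  `Fin.sum_univ_add`, or `Finset.card` as a sum of indicators).
* `tens_mem`: if `cnt x ≠ κ + ν` then the first part has `cnt ≠ κ` or the second has `cnt ≠ ν`, so one factor is zero. Raising operator:
  the sum over `p : Fin (m + r)` with `x p = i` splits into `p = castAdd q` (the update changes only the first factor,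
  `∑_q f (update (x ∘ castAdd) q j) * g = 0`) and `p = natAdd q`.
* `om_mem`: `om N r x ≠ 0` implies that `x` is a bijection onto the letters `< r`: if `x p = x q`, `p ≠ q`, two rows of the matrix are
  equal (`Matrix.det_zero_of_row_eq`); if `x p ≥ r` the row `p` is zero (`Matrix.det_eq_zero_of_row_eq_zero`). So `cnt x i = 1` for
  `i < r` (an injective map from `Fin r` to the `r` letters is bijective) and `0` otherwise: this is `addCol 0 r`.
  Raising: for `x`, `i < j` let `S = {p : x p = i}`. If all the terms are zero nothing is to be shown. Otherwise some `p ∈ S` has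
  `om (update x p j) ≠ 0`, so `update x p j` is a bijection onto the letters `< r`, `j < r`, `i < r`, and (since `i` must occur in
  `update x p j`) there is exactly one `p' ≠ p` with `x p' = i`; for `q ∈ S`, `q ≠ p, p'`... there is none (`x q = x p' = i` and
  `update x p j` is injective), so `S = {p, p'}`, and the two terms cancel: `update x p' j = (update x p j) ∘ swap p p'`, and exchanging two rows changes the
  sign of the determinant (`Matrix.det_permute'` or `Matrix.det_permute`; `Equiv.Perm.sign_swap`).
-/

set_option autoImplicit false

open Module Equiv Pool.Agent.Helper1.TS Pool.Agent.Helper70.TU Pool.Agent.Helper51.TN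

namespace Pool.Agent.Helper51.TF

theorem cnt_append {ι : Type} [DecidableEq ι] {m r : ℕ} (x : Fin (m + r) → ι) (i : ι) :
    cnt x i = cnt (fun p => x (Fin.castAdd r p)) i + cnt (fun p => x (Fin.natAdd m p)) i := by
  simp only [cnt, Finset.card_filter]
  rw [Fin.sum_univ_add]

theorem tens_mem {N m r : ℕ} (κ ν : Fin N → ℕ) {f : (Fin m → Fin N) → ℂ} (hf : f ∈ HW m κ)
    {g : (Fin r → Fin N) → ℂ} (hg : g ∈ HW r ν) : tens f g ∈ HW (m + r) (fun i => κ i + ν i) := by
  refine ⟨fun x hx => ?_, fun i j hij x => ?_⟩
  · by_cases h1 : cnt (fun p => x (Fin.castAdd r p)) = κ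
    · by_cases h2 : cnt (fun p => x (Fin.natAdd m p)) = ν
      · exact absurd (funext fun i => by rw [cnt_append, h1, h2]) hx
      · simp only [tens]
        rw [hg.1 _ h2, mul_zero]
    · simp only [tens]
      rw [hf.1 _ h1, zero_mul]
  · have hF := hf.2 i j hij (fun p => x (Fin.castAdd r p))
    have hG := hg.2 i j hij (fun p => x (Fin.natAdd m p))
    rw [Finset.sum_filter] at hF hG ⊢
    rw [Fin.sum_univ_add]
    have e1 : (∑ q : Fin m, if x (Fin.castAdd r q) = i then
        tens f g (Function.update x (Fin.castAdd r q) j) else 0) =
        (∑ q : Fin m, if x (Fin.castAdd r q) = i then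
          f (Function.update (fun p => x (Fin.castAdd r p)) q j) else 0) *
          g (fun p => x (Fin.natAdd m p)) := by
      rw [Finset.sum_mul]
      refine Finset.sum_congr rfl fun q _ => ?_
      rw [ite_mul, zero_mul]
      refine if_congr Iff.rfl ?_ rfl
      simp only [tens]
      congr 2
      · funext p
        by_cases hp : p = q
        · subst hp; simp
        · rw [Function.update_of_ne, Function.update_of_ne hp]
          exact fun h => hp (Fin.castAdd_injective _ _ h)
      · funext p
        rw [Function.update_of_ne]
        intro h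
        have := congrArg Fin.val h
        simp only [Fin.val_natAdd, Fin.val_castAdd] at this
        have := q.2
        omega
    have e2 : (∑ q : Fin r, if x (Fin.natAdd m q) = i then
        tens f g (Function.update x (Fin.natAdd m q) j) else 0) =
        f (fun p => x (Fin.castAdd r p)) * (∑ q : Fin r, if x (Fin.natAdd m q) = i then
          g (Function.update (fun p => x (Fin.natAdd m p)) q j) else 0) := by
      rw [Finset.mul_sum]
      refine Finset.sum_congr rfl fun q _ => ?_
      rw [mul_ite, mul_zero]
      refine if_congr Iff.rfl ?_ rfl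
      simp only [tens]
      congr 2
      · funext p
        rw [Function.update_of_ne]
        intro h
        have := congrArg Fin.val h
        simp only [Fin.val_natAdd, Fin.val_castAdd] at this
        have := p.2
        omega
      · funext p
        by_cases hp : p = q
        · subst hp; simp
        · rw [Function.update_of_ne, Function.update_of_ne hp]
          exact fun h => hp (Fin.natAdd_injective _ _ h)
    rw [e1, e2, hF, hG, zero_mul, mul_zero, add_zero]

private theorem om_ne65 {N r : ℕ} {x : Fin r → Fin N} (hx : om N r x ≠ 0) :
    Function.Injective x ∧ ∀ p, ((x p : Fin N) : ℕ) < r := by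
  constructor
  · intro p q hpq
    by_contra hne
    refine hx (Matrix.det_zero_of_row_eq hne ?_)
    funext k
    simp only [Matrix.of_apply, hpq]
  · intro p
    by_contra hlt
    refine hx (Matrix.det_eq_zero_of_row_eq_zero p fun k => ?_)
    rw [Matrix.of_apply, if_neg]
    have := k.2
    omega

private theorem om_surj65 {N r : ℕ} {x : Fin r → Fin N} (hinj : Function.Injective x)
    (hlt : ∀ p, ((x p : Fin N) : ℕ) < r) (i : Fin N) (hi : (i : ℕ) < r) : ∃ p, x p = i := by
  have h1 : Function.Injective (fun p : Fin r => (⟨x p, hlt p⟩ : Fin r)) := by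
    intro p q hpq
    exact hinj (Fin.ext (by simpa [Fin.ext_iff] using hpq))
  obtain ⟨p, hp⟩ := (Finite.injective_iff_surjective.1 h1) ⟨i, hi⟩
  exact ⟨p, Fin.ext (by simpa [Fin.ext_iff] using hp)⟩

private theorem om_comp_swap65 {N r : ℕ} (y : Fin r → Fin N) {p q : Fin r} (hpq : p ≠ q) :
    om N r (y ∘ Equiv.swap p q) = - om N r y := by
  have h1 := Matrix.det_permute (Equiv.swap p q)
    (Matrix.of fun i j : Fin r => if ((y i : Fin N) : ℕ) = (j : ℕ) then (1 : ℂ) else 0)
  rw [Equiv.Perm.sign_swap hpq] at h1
  simp only [om]
  rw [← neg_one_mul]
  push_cast at h1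
  exact h1

theorem om_mem {N r : ℕ} (h : r ≤ N) : om N r ∈ HW r (fun i : Fin N => if (i : ℕ) < r then 1 else 0) := by
  refine ⟨fun x hx => ?_, fun i j hij x => ?_⟩
  · by_contra hne
    obtain ⟨hinj, hlt⟩ := om_ne65 hne
    refine hx (funext fun i => ?_)
    by_cases hi : (i : ℕ) < r
    · rw [if_pos hi]
      obtain ⟨p, hp⟩ := om_surj65 hinj hlt i hi
      rw [cnt, Finset.card_eq_one]
      refine ⟨p, ?_⟩
      ext q
      simp only [Finset.mem_filter, Finset.mem_univ, true_and, Finset.mem_singleton]
      constructor
      · intro hq; exact hinj (hq.trans hp.symm)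
      · rintro rfl; exact hp
    · rw [if_neg hi, cnt, Finset.card_eq_zero]
      ext q
      simp only [Finset.mem_filter, Finset.mem_univ, true_and, Finset.notMem_empty, iff_false]
      rintro rfl
      exact hi (hlt q)
  · by_cases hall : ∀ p ∈ Finset.univ.filter (fun p => x p = i), om N r (Function.update x p j) = 0
    · exact Finset.sum_eq_zero hall
    · push Not at hall
      obtain ⟨p, hp, hne⟩ := hall
      rw [Finset.mem_filter] at hp
      have hxp : x p = i := hp.2
      obtain ⟨hinj, hlt⟩ := om_ne65 hne
      have hj : (j : ℕ) < r := by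
        have := hlt p
        rwa [Function.update_self] at this
      have hi : (i : ℕ) < r := lt_trans hij hj
      obtain ⟨p', hp'⟩ := om_surj65 hinj hlt i hi
      have hne' : p' ≠ p := by
        rintro rfl
        rw [Function.update_self] at hp'
        exact (ne_of_gt hij) hp'
      have hxp' : x p' = i := by rwa [Function.update_of_ne hne'] at hp'
      have hS : Finset.univ.filter (fun p => x p = i) = {p, p'} := by
        ext q
        simp only [Finset.mem_filter, Finset.mem_univ, true_and, Finset.mem_insert,
          Finset.mem_singleton]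
        constructor
        · intro hq
          by_cases hqp : q = p
          · exact Or.inl hqp
          · right
            apply hinj
            rw [Function.update_of_ne hqp, hp', hq]
        · rintro (rfl | rfl)
          · exact hxp
          · exact hxp'
      rw [hS, Finset.sum_pair hne'.symm]
      have hsw : Function.update x p' j = Function.update x p j ∘ Equiv.swap p p' := by
        funext q
        rw [Function.comp_apply]
        by_cases hqp : q = p
        · subst hqp
          rw [Equiv.swap_apply_left, Function.update_of_ne hne'.symm, hp', hxp]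
        · by_cases hqp' : q = p'
          · subst hqp'
            rw [Equiv.swap_apply_right, Function.update_self, Function.update_self]
          · rw [Equiv.swap_apply_of_ne_of_ne hqp hqp', Function.update_of_ne hqp',
              Function.update_of_ne hqp]
      rw [hsw, om_comp_swap65 _ hne'.symm, add_neg_cancel]

theorem tens_om_mem {N m r : ℕ} (h : r ≤ N) (κ : Fin N → ℕ) {f : (Fin m → Fin N) → ℂ} (hf : f ∈ HW m κ) :
    tens f (om N r) ∈ HW (m + r) (addCol κ r) :=
  tens_mem κ _ hf (om_mem h)

theorem tens_om2_mem {N m r : ℕ} (h : r ≤ N) (κ : Fin N → ℕ) {z : (Fin m → Fin N × Fin N) → ℂ} (hz : z ∈ HH m κ) :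
    tens z (om2 N r) ∈ HH (m + r) (addCol κ r) := by
  constructor
  · intro y
    have h1 := tens_om_mem h κ (hz.1 (fun p => y (Fin.castAdd r p)))
    have h2 : sec1 (tens z (om2 N r)) y =
        om N r (fun p => y (Fin.natAdd m p)) • tens (sec1 z (fun p => y (Fin.castAdd r p))) (om N r) := by
      funext x
      simp only [sec1, tens, om2, Pi.smul_apply, smul_eq_mul]
      ring
    rw [h2]
    exact Submodule.smul_mem _ _ h1
  · intro x
    have h1 := tens_om_mem h κ (hz.2 (fun p => x (Fin.castAdd r p)))
    have h2 : sec2 (tens z (om2 N r)) x =
        om N r (fun p => x (Fin.natAdd m p)) • tens (sec2 z (fun p => x (Fin.castAdd r p))) (om N r) := by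
      funext y
      simp only [sec2, tens, om2, Pi.smul_apply, smul_eq_mul]
      ring
    rw [h2]
    exact Submodule.smul_mem _ _ h1

end Pool.Agent.Helper51.TF
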