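import Pool.Agent.Helper51.TF.HW

/-!
BLOCK TF-E2 (about 200 lines). The polynomial of a function of words, with the first `d` letters fixed.

`polU d u f = ∑_{x : x_p = u_p (p < d)} f(x) ∏_{p ≥ d} X_{x_p}` in `MvPolynomial ι ℂ` (`ι` finite: a domain).

Proof in words.
* `polU_wact`: for `g` with support in `TT m d` the substitution `x ↦ x ∘ g` is a bijection of the words with
  `x_p = u_p (p < d)` (`g` fixes the positions `p < d`) and permutes the factors of `∏_{p ≥ d}` (`g` maps `{p ≥ d}` onto itself: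
  `Equiv.prod_comp` or `Finset.prod_bij`), `(wact g f)(x) = f (x ∘ g)`.
* `polU_tens`: words of length `m + r` are pairs of words (`Fin.appendEquiv` or `Fin.append`, `Fin.castAdd`, `Fin.natAdd`), the condition concerns the first
  part (`d ≤ m`), the product over `p ≥ d` splits. `pol g` is the definition in `HW.lean`.
* `polU_inj`: `f` fixed by all `wact g`, `g.support ⊆ TT m d`, all `polU d u f = 0`. Let `x₀` be a word, `u = x₀` on `p < d`; the coefficient of
  the monomial `e₀ = ∑_{p ≥ d} single (x₀ p) 1` in `polU d u f` is `∑ f(x)` over the `x` with `x_p = u_p (p < d)` and the same multiset of letters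
  at the positions `p ≥ d`; every such `x` is `x₀ ∘ g` for some `g` with support in `TT m d` (two functions on a finite type with the same
  number of preimages of every letter differ by a permutation; e.g. via `Finset`/`Equiv` of fibres, or `Multiset`/`List.Perm`), so `f x = f x₀`: the coefficient
  is `(number of x) * f x₀` and the number is positive (`x₀` itself).
* `pol_om2`: `pol (om2 N r) = ∑_{x, y} om(x) om(y) ∏_p X_{(x_p, y_p)}`; the coefficient of the monomial `∏_{i<r} X_{(i, i)}` is `∑ om(x) om(y)` over the pairs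
  of words with `{(x_p, y_p)} = {(i, i)}`: `x = y` a bijection onto the letters `< r`, so it is `∑_x om(x)^2 = r! ≠ 0` (each `om(x) = ± 1`: only non-negative real terms, and
  the term of the identity word is `1`; it is enough to see that it is a sum of squares of `0, 1, -1` with one term `1`: `om x` is the
  image of an integer). `r ≤ N` is needed.
-/

set_option autoImplicit false

open Module Equiv Pool.Agent.Helper1.TS Pool.Agent.Helper70.TU Pool.Agent.Helper51.TN

namespace Pool.Agent.Helper51.TF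

variable {ι : Type} [Fintype ι] [DecidableEq ι]

/-- The polynomial in the letters at the positions `≥ d`, the letters at the positions `< d` being those of `u`. -/
noncomputable def polU {m : ℕ} (d : ℕ) (u : Fin m → ι) (f : (Fin m → ι) → ℂ) : MvPolynomial ι ℂ :=
  ∑ x ∈ Finset.univ.filter (fun x : Fin m → ι => ∀ p : Fin m, (p : ℕ) < d → x p = u p),
    MvPolynomial.C (f x) * ∏ p ∈ TT m d, MvPolynomial.X (x p)

private theorem fix46 {m d : ℕ} {g : Perm (Fin m)} (hg : g.support ⊆ TT m d) {p : Fin m} (hp : (p : ℕ) < d) : g p = p := by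
  by_contra h
  have := mem_TT.1 (hg (Perm.mem_support.2 h))
  omega

private theorem tt46 {m d : ℕ} {g : Perm (Fin m)} (hg : g.support ⊆ TT m d) (p : Fin m) : p ∈ TT m d ↔ g p ∈ TT m d := by
  by_cases h : g p = p
  · rw [h]
  · have h1 : p ∈ TT m d := hg (Perm.mem_support.2 h)
    have h2 : g p ∈ TT m d := hg (Perm.mem_support.2 fun h3 => h (g.injective h3))
    exact ⟨fun _ => h2, fun _ => h1⟩

theorem polU_wact {m d : ℕ} (u : Fin m → ι) (f : (Fin m → ι) → ℂ) (g : Perm (Fin m)) (hg : g.support ⊆ TT m d) :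
    polU d u (wact ι m g f) = polU d u f := by
  unfold polU
  refine Finset.sum_nbij' (fun x => x ∘ ⇑g) (fun x => x ∘ ⇑(g⁻¹)) ?_ ?_ ?_ ?_ ?_
  · intro x hx
    rw [Finset.mem_filter] at hx ⊢
    refine ⟨Finset.mem_univ _, fun p hp => ?_⟩
    rw [Function.comp_apply, fix46 hg hp, hx.2 p hp]
  · intro x hx
    rw [Finset.mem_filter] at hx ⊢
    refine ⟨Finset.mem_univ _, fun p hp => ?_⟩
    have h1 : g⁻¹ p = p := by
      rw [Perm.inv_eq_iff_eq, fix46 hg hp]
    rw [Function.comp_apply, h1, hx.2 p hp]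
  · intro x _
    funext p
    simp
  · intro x _
    funext p
    simp
  · intro x _
    rw [wact_apply]
    congr 1
    exact (Finset.prod_equiv g (tt46 hg) fun p _ => rfl).symm

theorem polU_tens {m r d : ℕ} (hd : d ≤ m) (u : Fin (m + r) → ι) (f : (Fin m → ι) → ℂ) (g : (Fin r → ι) → ℂ) :
    polU d u (tens f g) = polU d (fun p => u (Fin.castAdd r p)) f * pol g := by
  unfold polU pol
  rw [Finset.sum_mul_sum, ← Finset.sum_product']
  refine Finset.sum_nbij' (fun x => (fun p => x (Fin.castAdd r p), fun p => x (Fin.natAdd m p)))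
    (fun yz => Fin.append yz.1 yz.2) ?_ ?_ ?_ ?_ ?_
  · intro x hx
    rw [Finset.mem_filter] at hx
    rw [Finset.mem_product, Finset.mem_filter]
    exact ⟨⟨Finset.mem_univ _, fun p hp => hx.2 _ hp⟩, Finset.mem_univ _⟩
  · intro yz hyz
    rw [Finset.mem_product, Finset.mem_filter] at hyz
    rw [Finset.mem_filter]
    refine ⟨Finset.mem_univ _, fun p => ?_⟩
    refine Fin.addCases (fun q hq => ?_) (fun q hq => ?_) p
    · rw [Fin.append_left]
      exact hyz.1.2 q hq
    · rw [Fin.val_natAdd] at hq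
      omega
  · intro x _
    exact Fin.append_castAdd_natAdd
  · intro yz _
    refine Prod.ext ?_ ?_
    · funext p
      exact Fin.append_left _ _ _
    · funext p
      exact Fin.append_right _ _ _
  · intro x _
    have e1 : (∏ p ∈ TT (m + r) d, (MvPolynomial.X (x p) : MvPolynomial ι ℂ)) =
        (∏ p ∈ TT m d, MvPolynomial.X (x (Fin.castAdd r p))) * ∏ p, MvPolynomial.X (x (Fin.natAdd m p)) := by
      unfold TT
      rw [Finset.prod_filter, Fin.prod_univ_add, Finset.prod_filter]
      congr 1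
      refine Finset.prod_congr rfl fun p _ => ?_
      rw [if_pos]
      rw [Fin.val_natAdd]
      omega
    rw [e1]
    unfold tens
    rw [MvPolynomial.C_mul]
    ring

omit [Fintype ι] in
private theorem perm46 {α : Type} [Fintype α] [DecidableEq α] (x y : α → ι)
    (h : ∀ a, (Finset.univ.filter fun p => x p = a).card = (Finset.univ.filter fun p => y p = a).card) :
    ∃ g : Perm α, ∀ p, x p = y (g p) := by
  classical
  have e : ∀ a : ι, {p // x p = a} ≃ {p // y p = a} := fun a =>
    Fintype.equivOfCardEq (by rw [Fintype.card_subtype, Fintype.card_subtype]; exact h a)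
  refine ⟨(Equiv.sigmaFiberEquiv x).symm.trans ((Equiv.sigmaCongrRight e).trans (Equiv.sigmaFiberEquiv y)), fun p => ?_⟩
  exact ((e (x p)) ⟨p, rfl⟩).2.symm

omit [Fintype ι] in
private theorem coeff46 {m : ℕ} (s : Finset (Fin m)) (x : Fin m → ι) (e : ι →₀ ℕ) :
    MvPolynomial.coeff e (∏ p ∈ s, (MvPolynomial.X (x p) : MvPolynomial ι ℂ)) =
      if ∑ p ∈ s, Finsupp.single (x p) 1 = e then 1 else 0 := by
  have h : (∏ p ∈ s, (MvPolynomial.X (x p) : MvPolynomial ι ℂ)) =
      MvPolynomial.monomial (∑ p ∈ s, Finsupp.single (x p) 1) 1 := by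
    rw [MvPolynomial.monomial_sum_one]
    rfl
  rw [h, MvPolynomial.coeff_monomial]

omit [Fintype ι] in
private theorem exists46 {m d : ℕ} (x y : Fin m → ι) (h1 : ∀ p : Fin m, (p : ℕ) < d → x p = y p)
    (h2 : ∑ p ∈ TT m d, Finsupp.single (x p) 1 = ∑ p ∈ TT m d, (Finsupp.single (y p) 1 : ι →₀ ℕ)) :
    ∃ g : Perm (Fin m), g.support ⊆ TT m d ∧ x = y ∘ g := by
  classical
  have h3 : ∀ a, (Finset.univ.filter fun p : {p // p ∈ TT m d} => x p = a).card =
      (Finset.univ.filter fun p : {p // p ∈ TT m d} => y p = a).card := by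
    intro a
    have key : ∀ z : Fin m → ι, (∑ p ∈ TT m d, (Finsupp.single (z p) 1 : ι →₀ ℕ)) a =
        (Finset.univ.filter fun p : {p // p ∈ TT m d} => z p = a).card := by
      intro z
      rw [Finsupp.finsetSum_apply, Finset.card_filter, ← Finset.sum_coe_sort (TT m d)]
      refine Finset.sum_congr rfl fun p _ => ?_
      rw [Finsupp.single_apply]
    rw [← key, ← key, h2]
  obtain ⟨g, hg⟩ := perm46 (fun p : {p // p ∈ TT m d} => x p) (fun p => y p) h3
  refine ⟨Perm.ofSubtype g, fun p hp => ?_, ?_⟩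
  · by_contra hc
    exact (Perm.mem_support.1 hp) (Perm.ofSubtype_apply_of_not_mem g hc)
  · funext p
    by_cases hp : p ∈ TT m d
    · rw [Function.comp_apply, Perm.ofSubtype_apply_of_mem g hp]
      exact hg ⟨p, hp⟩
    · rw [Function.comp_apply, Perm.ofSubtype_apply_of_not_mem g hp]
      exact h1 p (by
        rw [mem_TT] at hp
        omega)

theorem polU_inj {m d : ℕ} (f : (Fin m → ι) → ℂ) (hf : ∀ g : Perm (Fin m), g.support ⊆ TT m d → wact ι m g f = f)
    (h0 : ∀ u, polU d u f = 0) : f = 0 := by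
  funext x₀
  rw [Pi.zero_apply]
  set e₀ : ι →₀ ℕ := ∑ p ∈ TT m d, Finsupp.single (x₀ p) 1 with he
  have h1 := congrArg (MvPolynomial.coeff e₀) (h0 x₀)
  rw [MvPolynomial.coeff_zero] at h1
  unfold polU at h1
  rw [MvPolynomial.coeff_sum] at h1
  simp only [MvPolynomial.coeff_C_mul, coeff46, mul_ite, mul_one, mul_zero] at h1
  rw [← Finset.sum_filter, Finset.filter_filter] at h1
  have h2 : ∀ x ∈ Finset.univ.filter (fun x : Fin m → ι => (∀ p : Fin m, (p : ℕ) < d → x p = x₀ p) ∧
      ∑ p ∈ TT m d, Finsupp.single (x p) 1 = e₀), f x = f x₀ := by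
    intro x hx
    rw [Finset.mem_filter] at hx
    obtain ⟨g, hg, hxg⟩ := exists46 x x₀ hx.2.1 hx.2.2
    have h3 := congrFun (hf g hg) x₀
    rw [wact_apply, ← hxg] at h3
    exact h3
  rw [Finset.sum_congr rfl h2, Finset.sum_const, nsmul_eq_mul] at h1
  rcases mul_eq_zero.1 h1 with h3 | h3
  · exfalso
    rw [Nat.cast_eq_zero, Finset.card_eq_zero] at h3
    have h4 : x₀ ∈ Finset.univ.filter (fun x : Fin m → ι => (∀ p : Fin m, (p : ℕ) < d → x p = x₀ p) ∧
      ∑ p ∈ TT m d, Finsupp.single (x p) 1 = e₀) := by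
      rw [Finset.mem_filter]
      exact ⟨Finset.mem_univ _, fun _ _ => rfl, rfl⟩
    rw [h3] at h4
    exact Finset.notMem_empty _ h4
  · exact h3

theorem polU_add {m d : ℕ} (u : Fin m → ι) (f g : (Fin m → ι) → ℂ) : polU d u (f + g) = polU d u f + polU d u g := by
  unfold polU
  rw [← Finset.sum_add_distrib]
  refine Finset.sum_congr rfl fun x _ => ?_
  rw [Pi.add_apply, MvPolynomial.C_add, add_mul]

theorem polU_smul {m d : ℕ} (u : Fin m → ι) (c : ℂ) (f : (Fin m → ι) → ℂ) :
    polU d u (c • f) = MvPolynomial.C c * polU d u f := by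
  unfold polU
  rw [Finset.mul_sum]
  refine Finset.sum_congr rfl fun x _ => ?_
  rw [Pi.smul_apply, smul_eq_mul, MvPolynomial.C_mul, mul_assoc]

theorem pol_om2 {N r : ℕ} (h : r ≤ N) : pol (om2 N r) ≠ 0 := by
  intro h0
  have h1 := congrArg (MvPolynomial.eval fun ij : Fin N × Fin N => if ij.1 = ij.2 then (1 : ℂ) else 0) h0
  rw [map_zero] at h1
  unfold pol at h1
  simp only [map_sum, map_mul, map_prod, MvPolynomial.eval_C, MvPolynomial.eval_X] at h1
  set D : (Fin r → Fin N) → ℤ := fun x =>
    (Matrix.of fun i j : Fin r => if ((x i : Fin N) : ℕ) = (j : ℕ) then (1 : ℤ) else 0).det with hD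
  have hom : ∀ x, om N r x = ((D x : ℤ) : ℂ) := by
    intro x
    have e := RingHom.map_det (Int.castRingHom ℂ)
      (Matrix.of fun i j : Fin r => if ((x i : Fin N) : ℕ) = (j : ℕ) then (1 : ℤ) else 0)
    have e2 : ((D x : ℤ) : ℂ) = (Int.castRingHom ℂ) (D x) := rfl
    rw [e2, hD, e, om]
    congr 1
    ext i j
    simp only [RingHom.mapMatrix_apply, Matrix.map_apply, Matrix.of_apply]
    split_ifs <;> simp
  have h2 : ((∑ w : Fin r → Fin N × Fin N, D (fun p => (w p).1) * D (fun p => (w p).2) *
      ∏ p, (if (w p).1 = (w p).2 then (1 : ℤ) else 0) : ℤ) : ℂ) = 0 := by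
    rw [← h1]
    push_cast
    refine Finset.sum_congr rfl fun w _ => ?_
    rw [om2, hom, hom]
  have h3 : (∑ w : Fin r → Fin N × Fin N, D (fun p => (w p).1) * D (fun p => (w p).2) *
      ∏ p, (if (w p).1 = (w p).2 then (1 : ℤ) else 0) : ℤ) = 0 := by exact_mod_cast h2
  have h4 : ∀ w : Fin r → Fin N × Fin N, 0 ≤ D (fun p => (w p).1) * D (fun p => (w p).2) *
      ∏ p, (if (w p).1 = (w p).2 then (1 : ℤ) else 0) := by
    intro w
    by_cases hw : ∀ p, (w p).1 = (w p).2
    · have e : (fun p => (w p).1) = fun p => (w p).2 := funext hw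
      rw [e]
      refine mul_nonneg (mul_self_nonneg _) (Finset.prod_nonneg fun p _ => ?_)
      split_ifs <;> norm_num
    · push Not at hw
      obtain ⟨p, hp⟩ := hw
      rw [Finset.prod_eq_zero (Finset.mem_univ p) (if_neg hp), mul_zero]
  have h5 : (1 : ℤ) ≤ 0 := by
    rw [← h3]
    refine le_trans (le_of_eq ?_) (Finset.single_le_sum (fun w _ => h4 w)
      (Finset.mem_univ fun p : Fin r => ((Fin.castLE h p, Fin.castLE h p) : Fin N × Fin N)))
    have e : D (fun p => Fin.castLE h p) = 1 := by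
      rw [hD]
      have e3 : (Matrix.of fun i j : Fin r => if ((Fin.castLE h i : Fin N) : ℕ) = (j : ℕ) then (1 : ℤ) else 0) = 1 := by
        ext i j
        rw [Matrix.of_apply, Matrix.one_apply, Fin.val_castLE]
        simp [Fin.ext_iff]
      simp only
      rw [e3, Matrix.det_one]
    simp [e]
  omega

end Pool.Agent.Helper51.TF
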