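import Pool.Agent.Helper51.TF.E1
import Pool.Agent.Helper51.TF.E2
import Pool.Agent.Helper51.TN.L5

/-!
BLOCK TF-E3 (about 250 lines). The deletion map.

`phi0 z = P_{T'}(z ⊗ ω ⊗ ω)`, `T' = TT (m + r) d`.

Proof in words.
* `phi0_mem`: `tens_om2_mem` and `HH` is stable under the `wact g` (`wact_mem_HH`), so under the average `avT`.
* `phi0_inv`: `avT_mem` (`TN/L4`).
* `phi0_jD`: `tens (wact (jD h y) z) w = wact (jD h' y) (tens z w)` (`jD h' y` acts on `Fin (m + r)`: on `castAdd p`, as `jD h y` on `p`, and fixes the `natAdd p`, because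
  `m ≥ d`), and `avT _ T'` commutes with `wact (jD h' y)` (conjugation by `jD h' y` preserves `{x : x.support ⊆ TT (m + r) d}`; or `jD_support_mem` in `TN/Defs`).
* `phi0_new`: `z ∈ New (wact ι m) d`. `avT_mem` gives the invariance. Let `a < d`, `a' = castAdd a`. `v = phi0 z ∈ inv T'`, `Q_{a'} v ∈ inv (insert a' T')` (`qq_mem`, `TN/L3`), so
  `Q_{a'} v = avT S (Q_{a'} v)`, `S = insert a' T'` (`avT_of_mem`), `= ∑_{y ∈ S} avT S (σ (swap a' y) v) = |S| • avT S v` (`avT_mul`, support of `swap a' y` in `S`), and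
  `avT S (avT T' w) = avT S w` (`avT_mul`, `T' ⊆ S`), so it is enough that `avT S (tens z ω²) = 0`. Now
  `0 = tens (qq (wact) (TT m d) a z) ω² = ∑_{y ∈ insert a (TT m d)} wact (swap (castAdd a) (castAdd y)) (tens z ω²)`; apply `avT S`: all the terms are `avT S (tens z ω²)` (`avT_mul`;
  `castAdd y ∈ S`), so `|insert a (TT m d)| • avT S (tens z ω²) = 0`, and the number is positive.
* `phi0_flip`: `om2` is symmetric; `wfl` commutes with `wact` and `tens`.
* `phi0_inj`: `z ∈ inv T_d`, `phi0 z = 0`. For all `u`: `0 = polU d u (avT T' (tens z ω²)) = polU d u (tens z ω²)` (`polU_wact`, `polU_add`, `polU_smul`; the average has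
  total weight `1`) `= polU d (u ∘ castAdd) z * pol (om2)` and `pol_om2`, so `polU d u' z = 0` for all `u'` (every `u'` is of the form `u ∘ castAdd`: `Fin.append u' w`; if `Fin N` is empty
  and `r > 0` then `r ≤ N` is violated), `polU_inj`.
-/

set_option autoImplicit false

open Module Equiv Pool.Agent.Helper1.TS Pool.Agent.Helper70.TU Pool.Agent.Helper51.TN

namespace Pool.Agent.Helper51.TF

/-- The deletion map on functions. -/
noncomputable def phi0 (N m r d : ℕ) :
    ((Fin m → Fin N × Fin N) → ℂ) →ₗ[ℂ] ((Fin (m + r) → Fin N × Fin N) → ℂ) where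
  toFun z := avT (wact (Fin N × Fin N) (m + r)) (TT (m + r) d) (tens z (om2 N r))
  map_add' z w := by
    rw [← map_add]
    congr 1
    funext x
    simp only [tens, Pi.add_apply, add_mul]
  map_smul' c z := by
    rw [RingHom.id_apply, ← map_smul]
    congr 1
    funext x
    simp only [tens, Pi.smul_apply, smul_eq_mul, mul_assoc]

private theorem phi0_apply26 {N m r d : ℕ} (z : (Fin m → Fin N × Fin N) → ℂ) :
    phi0 N m r d z = avT (wact (Fin N × Fin N) (m + r)) (TT (m + r) d) (tens z (om2 N r)) := rfl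

private theorem avT_apply26 {n : ℕ} {X : Type*} [AddCommGroup X] [Module ℂ X]
    (σ : Representation ℂ (Perm (Fin n)) X) (T : Finset (Fin n)) (z : X) :
    avT σ T z = ((Finset.univ.filter (fun x : Perm (Fin n) => x.support ⊆ T)).card : ℂ)⁻¹ •
      ∑ x ∈ Finset.univ.filter (fun x : Perm (Fin n) => x.support ⊆ T), σ x z := by
  unfold avT
  rw [LinearMap.smul_apply, LinearMap.sum_apply]

private theorem card_ne26 {n : ℕ} (T : Finset (Fin n)) :
    ((Finset.univ.filter (fun x : Perm (Fin n) => x.support ⊆ T)).card : ℂ) ≠ 0 := by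
  have : (1 : Perm (Fin n)) ∈ Finset.univ.filter (fun x : Perm (Fin n) => x.support ⊆ T) := by
    rw [Finset.mem_filter]
    exact ⟨Finset.mem_univ _, by rw [Perm.support_one]; exact Finset.empty_subset _⟩
  exact_mod_cast (Finset.card_pos.2 ⟨_, this⟩).ne'

/-- `g'` acts on the first part as `g` and fixes the second part. -/
private theorem tens_wact26 {ι : Type} {m r : ℕ} (g : Perm (Fin m)) (g' : Perm (Fin (m + r)))
    (h1 : ∀ p, g' (Fin.castAdd r p) = Fin.castAdd r (g p)) (h2 : ∀ p, g' (Fin.natAdd m p) = Fin.natAdd m p)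
    (z : (Fin m → ι) → ℂ) (w : (Fin r → ι) → ℂ) :
    tens (wact ι m g z) w = wact ι (m + r) g' (tens z w) := by
  funext x
  rw [wact_apply]
  unfold tens
  rw [wact_apply]
  congr 1
  · congr 1
    funext p
    simp only [Function.comp_apply]
    rw [h1]
  · congr 1
    funext p
    simp only [Function.comp_apply]
    rw [h2]

private theorem swap_supp26 {n : ℕ} {T : Finset (Fin n)} {a b : Fin n} (ha : a ∈ T) (hb : b ∈ T) :
    (Equiv.swap a b).support ⊆ T := by
  intro i hi
  by_contra hiT
  refine (Perm.mem_support.1 hi) (Equiv.swap_apply_of_ne_of_ne ?_ ?_)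
  · rintro rfl
    exact hiT ha
  · rintro rfl
    exact hiT hb

/-- Averaging in two steps. -/
private theorem avT_avT26 {n : ℕ} {X : Type*} [AddCommGroup X] [Module ℂ X]
    (σ : Representation ℂ (Perm (Fin n)) X) {T S : Finset (Fin n)} (h : T ⊆ S) (z : X) :
    avT σ S (avT σ T z) = avT σ S z := by
  rw [avT_apply26 σ T z, map_smul, map_sum]
  have h1 : ∀ x ∈ Finset.univ.filter (fun x : Perm (Fin n) => x.support ⊆ T), avT σ S (σ x z) = avT σ S z := by
    intro x hx
    exact avT_mul σ S x ((Finset.mem_filter.1 hx).2.trans h) z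
  rw [Finset.sum_congr rfl h1, Finset.sum_const, ← Nat.cast_smul_eq_nsmul ℂ, smul_smul,
    inv_mul_cancel₀ (card_ne26 T), one_smul]

/-- The average of a symmetrized vector. -/
private theorem avT_qq26 {n : ℕ} {X : Type*} [AddCommGroup X] [Module ℂ X]
    (σ : Representation ℂ (Perm (Fin n)) X) {T S : Finset (Fin n)} (a : Fin n) (h : insert a T ⊆ S) (z : X) :
    avT σ S (qq σ T a z) = ((insert a T).card : ℂ) • avT σ S z := by
  unfold qq
  rw [LinearMap.sum_apply, map_sum]
  have h1 : ∀ y ∈ insert a T, avT σ S (σ (Equiv.swap a y) z) = avT σ S z := by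
    intro y hy
    exact avT_mul σ S _ (swap_supp26 (h (Finset.mem_insert_self a T)) (h hy)) z
  rw [Finset.sum_congr rfl h1, Finset.sum_const, ← Nat.cast_smul_eq_nsmul ℂ]

theorem phi0_mem {N m r d : ℕ} (h : r ≤ N) (κ : Fin N → ℕ) {z : (Fin m → Fin N × Fin N) → ℂ} (hz : z ∈ HH m κ) :
    phi0 N m r d z ∈ HH (m + r) (addCol κ r) := by
  rw [phi0_apply26, avT_apply26]
  refine Submodule.smul_mem _ _ (Submodule.sum_mem _ fun g _ => ?_)
  exact wact_mem_HH g (tens_om2_mem h κ hz)

theorem phi0_inv {N m r d : ℕ} (z : (Fin m → Fin N × Fin N) → ℂ) :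
    phi0 N m r d z ∈ inv (wact (Fin N × Fin N) (m + r)) (TT (m + r) d) := by
  rw [phi0_apply26]
  exact avT_mem _ _ _

theorem phi0_jD {N m r d : ℕ} (hd : d ≤ m) (y : Perm (Fin d)) (z : (Fin m → Fin N × Fin N) → ℂ) :
    phi0 N m r d (wact (Fin N × Fin N) m (jD hd y) z) =
      wact (Fin N × Fin N) (m + r) (jD (hd.trans (Nat.le_add_right m r)) y) (phi0 N m r d z) := by
  rw [phi0_apply26, phi0_apply26]
  have h1 : tens (wact (Fin N × Fin N) m (jD hd y) z) (om2 N r) =
      wact (Fin N × Fin N) (m + r) (jD (hd.trans (Nat.le_add_right m r)) y) (tens z (om2 N r)) := by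
    refine tens_wact26 _ _ (fun p => ?_) (fun p => ?_) z _
    · rcases lt_or_ge (p : ℕ) d with hp | hp
      · rw [jD_apply hd y p hp, jD_apply _ y (Fin.castAdd r p) hp]
        rfl
      · rw [jD_apply_of_le hd y p hp, jD_apply_of_le _ y (Fin.castAdd r p) hp]
    · refine jD_apply_of_le _ y _ ?_
      rw [Fin.val_natAdd]
      exact hd.trans (Nat.le_add_right m p)
  rw [h1, avT_apply26, avT_apply26, map_smul, map_sum]
  congr 1
  refine Finset.sum_congr rfl fun x hx => ?_
  have h2 := jD_support_mem (hd.trans (Nat.le_add_right m r)) y x (Finset.mem_filter.1 hx).2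
  rw [← Module.End.mul_apply, ← map_mul, h2.eq, map_mul, Module.End.mul_apply]

theorem phi0_new {N m r d : ℕ} (hd : d ≤ m) (z : (Fin m → Fin N × Fin N) → ℂ)
    (hz : z ∈ New (wact (Fin N × Fin N) m) d) : phi0 N m r d z ∈ New (wact (Fin N × Fin N) (m + r)) d := by
  classical
  refine ⟨phi0_inv z, fun a ha => ?_⟩
  have ham : (a : ℕ) < m := ha.trans_le hd
  set a0 : Fin m := ⟨a, ham⟩ with ha0
  have haa : Fin.castAdd r a0 = a := Fin.ext rfl
  have haT : a ∉ TT (m + r) d := by
    rw [mem_TT]
    omega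
  have h1 := qq_mem (wact (Fin N × Fin N) (m + r)) (TT (m + r) d) a haT _ (phi0_inv (N := N) (r := r) (d := d) z)
  rw [← avT_of_mem _ _ _ h1, avT_qq26 _ a subset_rfl, phi0_apply26, avT_avT26 _ (Finset.subset_insert _ _)]
  have h2 : avT (wact (Fin N × Fin N) (m + r)) (insert a (TT (m + r) d)) (tens z (om2 N r)) = 0 := by
    have h3 := hz.2 a0 ha
    have hsub : ∀ y ∈ insert a0 (TT m d), Fin.castAdd r y ∈ insert a (TT (m + r) d) := by
      intro y hy
      rw [Finset.mem_insert] at hy ⊢
      rcases hy with rfl | hy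
      · exact Or.inl haa
      · right
        rw [mem_TT] at hy ⊢
        exact hy
    have h4 : ∑ y ∈ insert a0 (TT m d), wact (Fin N × Fin N) (m + r)
        (Equiv.swap (Fin.castAdd r a0) (Fin.castAdd r y)) (tens z (om2 N r)) = 0 := by
      have h5 : ∀ y ∈ insert a0 (TT m d), wact (Fin N × Fin N) (m + r)
          (Equiv.swap (Fin.castAdd r a0) (Fin.castAdd r y)) (tens z (om2 N r)) =
          tens (wact (Fin N × Fin N) m (Equiv.swap a0 y) z) (om2 N r) := by
        intro y _
        refine (tens_wact26 _ _ (fun p => ?_) (fun p => ?_) z _).symm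
        · have hinj : Function.Injective (Fin.castAdd r : Fin m → Fin (m + r)) := Fin.castAdd_injective m r
          exact (hinj.map_swap a0 y p).symm
        · refine Equiv.swap_apply_of_ne_of_ne ?_ ?_
          · intro h
            have := congrArg Fin.val h
            rw [Fin.val_natAdd, Fin.val_castAdd] at this
            have := a0.2
            omega
          · intro h
            have := congrArg Fin.val h
            rw [Fin.val_natAdd, Fin.val_castAdd] at this
            have := y.2
            omega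
      rw [Finset.sum_congr rfl h5]
      have h6 : ∑ y ∈ insert a0 (TT m d), tens (wact (Fin N × Fin N) m (Equiv.swap a0 y) z) (om2 N r) =
          tens (qq (wact (Fin N × Fin N) m) (TT m d) a0 z) (om2 N r) := by
        funext x
        unfold qq
        rw [LinearMap.sum_apply, Finset.sum_apply]
        unfold tens
        rw [Finset.sum_apply, Finset.sum_mul]
      rw [h6, h3]
      funext x
      unfold tens
      rw [Pi.zero_apply, zero_mul, Pi.zero_apply]
    have h7 := congrArg (avT (wact (Fin N × Fin N) (m + r)) (insert a (TT (m + r) d))) h4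
    rw [map_sum, map_zero] at h7
    have h8 : ∀ y ∈ insert a0 (TT m d), avT (wact (Fin N × Fin N) (m + r)) (insert a (TT (m + r) d))
        (wact (Fin N × Fin N) (m + r) (Equiv.swap (Fin.castAdd r a0) (Fin.castAdd r y)) (tens z (om2 N r))) =
        avT (wact (Fin N × Fin N) (m + r)) (insert a (TT (m + r) d)) (tens z (om2 N r)) := by
      intro y hy
      exact avT_mul _ _ _ (swap_supp26 (hsub a0 (Finset.mem_insert_self _ _)) (hsub y hy)) _
    rw [Finset.sum_congr rfl h8, Finset.sum_const, ← Nat.cast_smul_eq_nsmul ℂ] at h7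
    rcases smul_eq_zero.1 h7 with h9 | h9
    · exfalso
      have : (insert a0 (TT m d)).card = 0 := by exact_mod_cast h9
      rw [Finset.card_eq_zero] at this
      exact Finset.insert_ne_empty _ _ this
    · exact h9
  rw [h2, smul_zero]

theorem phi0_flip {N m r d : ℕ} (z : (Fin m → Fin N × Fin N) → ℂ) :
    phi0 N m r d (wfl m z) = wfl (m + r) (phi0 N m r d z) := by
  rw [phi0_apply26, phi0_apply26]
  have h1 : tens (wfl m z) (om2 N r) = wfl (m + r) (tens z (om2 N r)) := by
    funext x
    change z (fun p => (x (Fin.castAdd r p)).swap) * om2 N r (fun p => x (Fin.natAdd m p)) =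
      z (fun p => (x (Fin.castAdd r p)).swap) * om2 N r (fun p => (x (Fin.natAdd m p)).swap)
    congr 1
    exact mul_comm _ _
  rw [h1, avT_apply26, avT_apply26, map_smul, map_sum]
  rfl

private theorem polU_zero26 {ι : Type} [Fintype ι] [DecidableEq ι] {m d : ℕ} (u : Fin m → ι) :
    polU d u (0 : (Fin m → ι) → ℂ) = 0 := by
  have h := polU_smul (d := d) u 0 (0 : (Fin m → ι) → ℂ)
  rw [zero_smul, MvPolynomial.C_0, zero_mul] at h
  exact h

private theorem polU_sum26 {ι : Type} [Fintype ι] [DecidableEq ι] {m d : ℕ} (u : Fin m → ι) {κ : Type*}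
    (s : Finset κ) (f : κ → (Fin m → ι) → ℂ) : polU d u (∑ i ∈ s, f i) = ∑ i ∈ s, polU d u (f i) := by
  classical
  induction s using Finset.induction_on with
  | empty => rw [Finset.sum_empty, Finset.sum_empty, polU_zero26]
  | insert a s ha ih => rw [Finset.sum_insert ha, Finset.sum_insert ha, polU_add, ih]

private theorem polU_avT26 {ι : Type} [Fintype ι] [DecidableEq ι] {m d : ℕ} (u : Fin m → ι)
    (f : (Fin m → ι) → ℂ) : polU d u (avT (wact ι m) (TT m d) f) = polU d u f := by
  rw [avT_apply26, polU_smul, polU_sum26]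
  have h1 : ∀ x ∈ Finset.univ.filter (fun x : Perm (Fin m) => x.support ⊆ TT m d),
      polU d u (wact ι m x f) = polU d u f := fun x hx => polU_wact u f x (Finset.mem_filter.1 hx).2
  rw [Finset.sum_congr rfl h1, Finset.sum_const, nsmul_eq_mul, ← mul_assoc]
  have h2 : (((Finset.univ.filter (fun x : Perm (Fin m) => x.support ⊆ TT m d)).card : ℕ) : MvPolynomial ι ℂ) =
      MvPolynomial.C (((Finset.univ.filter (fun x : Perm (Fin m) => x.support ⊆ TT m d)).card : ℕ) : ℂ) := by
    rw [map_natCast]
  rw [h2, ← MvPolynomial.C_mul, inv_mul_cancel₀ (card_ne26 _), MvPolynomial.C_1, one_mul]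

theorem phi0_inj {N m r d : ℕ} (h : r ≤ N) (hd : d ≤ m) (z : (Fin m → Fin N × Fin N) → ℂ)
    (hz : z ∈ inv (wact (Fin N × Fin N) m) (TT m d)) (h0 : phi0 N m r d z = 0) : z = 0 := by
  rw [phi0_apply26] at h0
  refine polU_inj z hz fun u' => ?_
  have h1 : ∀ u : Fin (m + r) → Fin N × Fin N, polU d u (tens z (om2 N r)) = 0 := by
    intro u
    rw [← polU_avT26 u, h0]
    exact polU_zero26 u
  have h2 := h1 (Fin.append u' fun p => (Fin.castLE h p, Fin.castLE h p))
  rw [polU_tens hd] at h2
  have h3 := (mul_eq_zero.1 h2).resolve_right (pol_om2 h)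
  have h4 : (fun p => Fin.append u' (fun p => (Fin.castLE h p, Fin.castLE h p)) (Fin.castAdd r p)) = u' := by
    funext p
    exact Fin.append_left _ _ p
  rw [h4] at h3
  exact h3

end Pool.Agent.Helper51.TF
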