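import Pool.Agent.Helper51.TF.E3

/-!
BLOCK TF-E4 (about 120 lines). The spaces of new maps, and their monotonicity under the addition of a column.

`NM h τ σ P` = the equivariant maps `f : E → New σ d` with `P ∘ f = f`.

Proof in words. `f ↦ Φ ∘ f`, where `Φ : HH m κ → HH (m + r) (addCol κ r)` is the restriction of `phi0` (`LinearMap.restrict`, `phi0_mem`), is a linear map
`NM (hh2 m κ) → NM (hh2 (m+r) (addCol κ r))`: equivariant by `phi0_jD`, into `New` by `phi0_new` (`New (hh2 m κ) d` is the set of the `z : HH m κ` whose value is in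
`New (wact _ m) d`: `inv`, `qq` are computed in the big space, `hh2_coe`), and `hpe ∘ Φ = Φ ∘ hpe` by `phi0_flip`. Injective: `phi0_inj` (`f v ∈ New ⊆ inv`).
`LinearMap.finrank_le_finrank_of_injective`. `NM` is a submodule of the finite dimensional `E →ₗ X`.
-/

set_option autoImplicit false

open Module Equiv Pool.Agent.Helper1.TS Pool.Agent.Helper70.TU Pool.Agent.Helper51.TN

namespace Pool.Agent.Helper51.TF

variable {n : ℕ} {E X : Type*} [AddCommGroup E] [Module ℂ E] [AddCommGroup X] [Module ℂ X]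

/-- The new maps. -/
def NM {d : ℕ} (h : d ≤ n) (τ : Representation ℂ (Perm (Fin d)) E) (σ : Representation ℂ (Perm (Fin n)) X)
    (P : X →ₗ[ℂ] X) : Submodule ℂ (E →ₗ[ℂ] X) where
  carrier := {f | (∀ (y : Perm (Fin d)) (v : E), f (τ y v) = σ (jD h y) (f v)) ∧
    (∀ v, f v ∈ New σ d) ∧ ∀ v, P (f v) = f v}
  add_mem' := by
    rintro f g ⟨h1, h2, h3⟩ ⟨k1, k2, k3⟩
    refine ⟨fun y v => ?_, fun v => Submodule.add_mem _ (h2 v) (k2 v), fun v => ?_⟩
    · rw [LinearMap.add_apply, LinearMap.add_apply, h1, k1, map_add]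
    · rw [LinearMap.add_apply, map_add, h3, k3]
  zero_mem' := ⟨fun _ _ => by simp, fun _ => Submodule.zero_mem _, fun _ => by simp⟩
  smul_mem' := by
    rintro c f ⟨h1, h2, h3⟩
    refine ⟨fun y v => ?_, fun v => Submodule.smul_mem _ c (h2 v), fun v => ?_⟩
    · rw [LinearMap.smul_apply, LinearMap.smul_apply, h1, map_smul]
    · rw [LinearMap.smul_apply, map_smul, h3]

theorem mem_NM {d : ℕ} {h : d ≤ n} {τ : Representation ℂ (Perm (Fin d)) E} {σ : Representation ℂ (Perm (Fin n)) X}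
    {P : X →ₗ[ℂ] X} {f : E →ₗ[ℂ] X} : f ∈ NM h τ σ P ↔
      (∀ (y : Perm (Fin d)) (v : E), f (τ y v) = σ (jD h y) (f v)) ∧ (∀ v, f v ∈ New σ d) ∧ ∀ v, P (f v) = f v := Iff.rfl

private theorem coe63 {N m : ℕ} {κ : Fin N → ℕ} (g : Perm (Fin m)) (z : HH m κ) :
    ((hh2 m κ g z : HH m κ) : (Fin m → Fin N × Fin N) → ℂ) = wact (Fin N × Fin N) m g z := rfl

private theorem inv63 {N m : ℕ} {κ : Fin N → ℕ} (K : Finset (Fin m)) (z : HH m κ) :
    z ∈ inv (hh2 m κ) K ↔ (z : (Fin m → Fin N × Fin N) → ℂ) ∈ inv (wact (Fin N × Fin N) m) K := by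
  rw [mem_inv, mem_inv]
  refine forall_congr' fun x => imp_congr_right fun _ => ?_
  rw [← coe63]
  exact Subtype.ext_iff

private theorem qq63 {N m : ℕ} {κ : Fin N → ℕ} (T : Finset (Fin m)) (a : Fin m) (z : HH m κ) :
    ((qq (hh2 m κ) T a z : HH m κ) : (Fin m → Fin N × Fin N) → ℂ) =
      qq (wact (Fin N × Fin N) m) T a (z : (Fin m → Fin N × Fin N) → ℂ) := by
  unfold qq
  rw [LinearMap.sum_apply, LinearMap.sum_apply, AddSubmonoidClass.coe_finsetSum]
  rfl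

private theorem new63 {N m d : ℕ} {κ : Fin N → ℕ} (z : HH m κ) :
    z ∈ New (hh2 m κ) d ↔ (z : (Fin m → Fin N × Fin N) → ℂ) ∈ New (wact (Fin N × Fin N) m) d := by
  rw [mem_New, mem_New]
  refine and_congr (inv63 _ z) (forall_congr' fun a => imp_congr_right fun _ => ?_)
  rw [← qq63]
  exact Subtype.ext_iff

/-- `phi0` on `HH` -/
private noncomputable def Phi63 {N m r : ℕ} (d : ℕ) (hr : r ≤ N) (κ : Fin N → ℕ) :
    HH m κ →ₗ[ℂ] HH (m + r) (addCol κ r) :=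
  (phi0 N m r d).restrict fun _ hz => phi0_mem hr κ hz

private theorem Phi63_coe {N m r : ℕ} (d : ℕ) (hr : r ≤ N) (κ : Fin N → ℕ) (z : HH m κ) :
    ((Phi63 d hr κ z : HH (m + r) (addCol κ r)) : (Fin (m + r) → Fin N × Fin N) → ℂ) = phi0 N m r d z := rfl

private theorem Phi63_hfl {N m r : ℕ} (d : ℕ) (hr : r ≤ N) (κ : Fin N → ℕ) (z : HH m κ) :
    hfl (m + r) (addCol κ r) (Phi63 d hr κ z) = Phi63 d hr κ (hfl m κ z) := by
  refine Subtype.ext ?_
  exact (phi0_flip (z : (Fin m → Fin N × Fin N) → ℂ)).symm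

private theorem Phi63_hpe {N m r : ℕ} (d : ℕ) (hr : r ≤ N) (κ : Fin N → ℕ) (ε : ℂ) (z : HH m κ) :
    hpe (m + r) (addCol κ r) ε (Phi63 d hr κ z) = Phi63 d hr κ (hpe m κ ε z) := by
  unfold hpe
  rw [LinearMap.smul_apply, LinearMap.add_apply, LinearMap.smul_apply, LinearMap.id_apply, Phi63_hfl,
    LinearMap.smul_apply, LinearMap.add_apply, LinearMap.smul_apply, LinearMap.id_apply, map_smul, map_add, map_smul]

private theorem NM63 {N m r d : ℕ} (hr : r ≤ N) (κ : Fin N → ℕ) (hd : d ≤ m) {E : Type*} [AddCommGroup E]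
    [Module ℂ E] (τ : Representation ℂ (Perm (Fin d)) E) (ε : ℂ) {f : E →ₗ[ℂ] HH m κ}
    (hf : f ∈ NM hd τ (hh2 m κ) (hpe m κ ε)) :
    (Phi63 (r := r) d hr κ ∘ₗ f) ∈
      NM (hd.trans (Nat.le_add_right m r)) τ (hh2 (m + r) (addCol κ r)) (hpe (m + r) (addCol κ r) ε) := by
  obtain ⟨h1, h2, h3⟩ := mem_NM.1 hf
  refine mem_NM.2 ⟨fun y v => ?_, fun v => ?_, fun v => ?_⟩
  · rw [LinearMap.comp_apply, LinearMap.comp_apply, h1]
    refine Subtype.ext ?_
    rw [coe63, Phi63_coe, Phi63_coe, coe63]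
    exact phi0_jD hd y _
  · rw [LinearMap.comp_apply]
    refine (new63 _).2 ?_
    rw [Phi63_coe]
    exact phi0_new hd _ ((new63 _).1 (h2 v))
  · rw [LinearMap.comp_apply, Phi63_hpe, h3]

theorem NM_addCol {N m r d : ℕ} (hr : r ≤ N) (κ : Fin N → ℕ) (hd : d ≤ m) {E : Type*} [AddCommGroup E]
    [Module ℂ E] [FiniteDimensional ℂ E] (τ : Representation ℂ (Perm (Fin d)) E) (ε : ℂ) :
    finrank ℂ (NM hd τ (hh2 m κ) (hpe m κ ε)) ≤
      finrank ℂ (NM (hd.trans (Nat.le_add_right m r)) τ (hh2 (m + r) (addCol κ r)) (hpe (m + r) (addCol κ r) ε)) := by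
  let F : NM hd τ (hh2 m κ) (hpe m κ ε) →ₗ[ℂ]
      NM (hd.trans (Nat.le_add_right m r)) τ (hh2 (m + r) (addCol κ r)) (hpe (m + r) (addCol κ r) ε) :=
    { toFun := fun f => ⟨Phi63 d hr κ ∘ₗ f.1, NM63 hr κ hd τ ε f.2⟩
      map_add' := fun f g => Subtype.ext (LinearMap.comp_add _ _ _)
      map_smul' := fun c f => Subtype.ext (LinearMap.comp_smul _ _ _) }
  refine LinearMap.finrank_le_finrank_of_injective (f := F) ?_
  intro f g hfg
  refine Subtype.ext (LinearMap.ext fun v => ?_)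
  have h1 : Phi63 d hr κ (f.1 v) = Phi63 d hr κ (g.1 v) := by
    have h2 : (Phi63 d hr κ ∘ₗ f.1) = Phi63 d hr κ ∘ₗ g.1 := congrArg Subtype.val hfg
    exact LinearMap.congr_fun h2 v
  have h2 : phi0 N m r d ((f.1 v - g.1 v : HH m κ) : (Fin m → Fin N × Fin N) → ℂ) = 0 := by
    rw [← Phi63_coe d hr κ, map_sub, h1, sub_self]
    rfl
  have h3 : f.1 v - g.1 v ∈ New (hh2 m κ) d :=
    Submodule.sub_mem _ ((mem_NM.1 f.2).2.1 v) ((mem_NM.1 g.2).2.1 v)
  have h4 := (new63 _).1 h3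
  have h5 := phi0_inj hr hd _ (mem_New.1 h4).1 h2
  exact sub_eq_zero.1 (Subtype.ext h5)

end Pool.Agent.Helper51.TF
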