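import Pool.Agent.Helper51.TF.HW

/-!
BLOCK TF-H1 (about 180 lines). The class sum of the transpositions on highest weight vectors.

Proof in words.
* `sum_swap`: `x q = j`, `i < j`. Apply the raising condition of `f ∈ HW m κ` for `i < j` to the word `x' = update x q i`: `0 = ∑_{p : x' p = i} f (update x' p j)`. The term `p = q`
  is `f (update x' q j) = f x`. For `p ≠ q` with `x p = i` (that is `x' p = i`) `update x' p j = x ∘ swap p q` (value at `p`: `j = x q`; at `q`: `i = x p`).
  So `0 = f x + ∑_{p : x p = i} f (x ∘ swap p q)` (`q` is not among the `p` with `x p = i` because `x q = j ≠ i`).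
* `casimir`: the sum of all `jm (hw m κ) i` is `∑_{p < q} (p q)`. For a word `x` with `cnt x = κ` (for the others both sides are zero, use `cnt_comp`): split the pairs `p < q` by the letters.
  `x p = x q`: the term is `f x`; there are `∑_i κ_i (κ_i - 1) / 2` such pairs. The other unordered pairs `{p, q}` have one member, say `q`, with the larger letter `j = x q` and one, `p`, with the smaller letter `i = x p < j`:
  for fixed `q` and `i < x q` the sum over `p` is `- f x` (`sum_swap`), in total `- ∑_q (x q : ℕ) f x = - ∑_j j κ_j f x` (`i` runs over the `x q` letters `< x q`, `Fin.card_Iio`).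
  `∑_{b < k} (b - i) = k (k - 1) / 2 - i k` (`Finset.sum_range_id_mul_two`, `Gauss`).
  It may be easier to write `2 ∑_{p<q} = ∑_{p ≠ q}`.
-/

set_option autoImplicit false

open Module Equiv Pool.Agent.Helper1.TS Pool.Agent.Helper70.TU Pool.Agent.Helper51.TN

namespace Pool.Agent.Helper51.TF

variable {N : ℕ}

/-- The sum of the contents of the boxes of `κ` (row `i` has the boxes of contents `-i, …, κ i - 1 - i`). -/
def ct (κ : Fin N → ℕ) : ℤ := ∑ i : Fin N, ∑ b ∈ Finset.range (κ i), ((b : ℤ) - ((i : ℕ) : ℤ))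

theorem sum_swap {m : ℕ} {κ : Fin N → ℕ} {f : (Fin m → Fin N) → ℂ} (hf : f ∈ HW m κ) (x : Fin m → Fin N) (q : Fin m)
    (i : Fin N) (hi : i < x q) :
    ∑ p ∈ Finset.univ.filter (fun p => x p = i), f (x ∘ Equiv.swap p q) = - f x := by
  classical
  have h1 := hf.2 i (x q) hi (Function.update x q i)
  have hq : q ∉ Finset.univ.filter (fun p => x p = i) := by
    rw [Finset.mem_filter]
    rintro ⟨-, h⟩
    exact hi.ne' h
  have h2 : Finset.univ.filter (fun p => Function.update x q i p = i) =
      insert q (Finset.univ.filter (fun p => x p = i)) := by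
    ext p
    rw [Finset.mem_filter, Finset.mem_insert, Finset.mem_filter]
    by_cases hp : p = q
    · subst hp
      simp
    · rw [Function.update_of_ne hp]
      simp [hp]
  rw [h2, Finset.sum_insert hq] at h1
  have h3 : Function.update (Function.update x q i) q (x q) = x := by
    rw [Function.update_idem, Function.update_eq_self]
  rw [h3] at h1
  have h4 : ∑ p ∈ Finset.univ.filter (fun p => x p = i), f (Function.update (Function.update x q i) p (x q)) =
      ∑ p ∈ Finset.univ.filter (fun p => x p = i), f (x ∘ Equiv.swap p q) := by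
    refine Finset.sum_congr rfl fun p hp => ?_
    rw [Finset.mem_filter] at hp
    congr 1
    funext t
    have hpq : p ≠ q := by
      rintro rfl
      exact hi.ne' hp.2
    by_cases h5 : t = p
    · subst h5
      rw [Function.update_self, Function.comp_apply, Equiv.swap_apply_left]
    · rw [Function.update_of_ne h5]
      by_cases h6 : t = q
      · subst h6
        rw [Function.update_self, Function.comp_apply, Equiv.swap_apply_right, hp.2]
      · rw [Function.update_of_ne h6, Function.comp_apply, Equiv.swap_apply_of_ne_of_ne h5 h6]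
  rw [h4] at h1
  exact eq_neg_of_add_eq_zero_right h1

private theorem fib81 {m : ℕ} (x : Fin m → Fin N) (g : Fin N → ℂ) : ∑ q, g (x q) = ∑ i, (cnt x i : ℂ) * g i := by
  rw [← Finset.sum_fiberwise Finset.univ x]
  refine Finset.sum_congr rfl fun i _ => ?_
  rw [Finset.sum_congr rfl (g := fun _ => g i) (fun q hq => by rw [(Finset.mem_filter.1 hq).2]), Finset.sum_const,
    nsmul_eq_mul]
  rfl

private theorem rowsum81 (k : ℕ) (i : ℤ) : 2 * ∑ b ∈ Finset.range k, ((b : ℤ) - i) = (k : ℤ) * k - k - 2 * (i * k) := by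
  induction k with
  | zero => simp
  | succ k ih =>
    rw [Finset.sum_range_succ, mul_add, ih]
    push_cast
    ring

private theorem ct81 (κ : Fin N → ℕ) : 2 * ((ct κ : ℤ) : ℂ) =
    ∑ i : Fin N, ((κ i : ℂ) * κ i - κ i - 2 * (((i : ℕ) : ℂ) * κ i)) := by
  have h1 : 2 * ct κ = ∑ i : Fin N, ((κ i : ℤ) * κ i - κ i - 2 * (((i : ℕ) : ℤ) * κ i)) := by
    unfold ct
    rw [Finset.mul_sum]
    exact Finset.sum_congr rfl fun i _ => rowsum81 _ _
  have h2 := congrArg (fun z : ℤ => (z : ℂ)) h1
  push_cast at h2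
  exact h2

/-- the two ways of splitting the sum over all pairs -/
private theorem split81 {m : ℕ} (G : Fin m → Fin m → ℂ) (hG : ∀ p q, G p q = G q p) (x : Fin m → Fin N) :
    2 * ∑ p, ∑ q, (if p < q then G p q else 0) + ∑ p, G p p =
      ∑ q, ∑ p, (if x p = x q then G p q else 0) + 2 * ∑ q, ∑ p, (if x p < x q then G p q else 0) := by
  have h1 : ∑ p, ∑ q, G p q = ∑ p, ∑ q, (if p < q then G p q else 0) + ∑ p, ∑ q, (if q < p then G p q else 0) +
      ∑ p, G p p := by
    rw [← Finset.sum_add_distrib, ← Finset.sum_add_distrib]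
    refine Finset.sum_congr rfl fun p _ => ?_
    have e : G p p = ∑ q, if q = p then G p q else 0 := by
      rw [Finset.sum_ite_eq' Finset.univ p, if_pos (Finset.mem_univ _)]
    rw [e, ← Finset.sum_add_distrib, ← Finset.sum_add_distrib]
    refine Finset.sum_congr rfl fun q _ => ?_
    rcases lt_trichotomy p q with h | h | h
    · rw [if_pos h, if_neg h.not_gt, if_neg h.ne', add_zero, add_zero]
    · subst h
      simp
    · rw [if_neg h.not_gt, if_pos h, if_neg h.ne, add_zero, zero_add]
  have h2 : ∑ p, ∑ q, (if q < p then G p q else 0) = ∑ p, ∑ q, (if p < q then G p q else 0) := by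
    rw [Finset.sum_comm]
    refine Finset.sum_congr rfl fun p _ => Finset.sum_congr rfl fun q _ => ?_
    rw [hG q p]
  have h3 : ∑ p, ∑ q, G p q = ∑ q, ∑ p, (if x p = x q then G p q else 0) +
      ∑ q, ∑ p, (if x p < x q then G p q else 0) + ∑ q, ∑ p, (if x q < x p then G p q else 0) := by
    rw [Finset.sum_comm, ← Finset.sum_add_distrib, ← Finset.sum_add_distrib]
    refine Finset.sum_congr rfl fun q _ => ?_
    rw [← Finset.sum_add_distrib, ← Finset.sum_add_distrib]
    refine Finset.sum_congr rfl fun p _ => ?_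
    rcases lt_trichotomy (x p) (x q) with h | h | h
    · rw [if_neg h.ne, if_pos h, if_neg h.not_gt, add_zero, zero_add]
    · rw [if_pos h, if_neg h.not_lt, if_neg h.not_gt, add_zero, add_zero]
    · rw [if_neg h.ne', if_neg h.not_gt, if_pos h, zero_add, zero_add]
  have h4 : ∑ q, ∑ p, (if x q < x p then G p q else 0) = ∑ q, ∑ p, (if x p < x q then G p q else 0) := by
    rw [Finset.sum_comm]
    refine Finset.sum_congr rfl fun p _ => Finset.sum_congr rfl fun q _ => ?_
    rw [hG p q]
  rw [h2] at h1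
  rw [h4] at h3
  rw [h1] at h3
  linear_combination h3

theorem casimir {m : ℕ} (κ : Fin N → ℕ) (f : HW m κ) :
    ∑ i : Fin m, jm (hw m κ) i f = ((ct κ : ℤ) : ℂ) • f := by
  classical
  refine Subtype.ext (funext fun x => ?_)
  have e1 : ((∑ i : Fin m, jm (hw m κ) i f : HW m κ) : (Fin m → Fin N) → ℂ) x =
      ∑ p : Fin m, ∑ q : Fin m, if p < q then (f : (Fin m → Fin N) → ℂ) (x ∘ Equiv.swap p q) else 0 := by
    rw [Submodule.coe_sum, Finset.sum_apply]
    refine Finset.sum_congr rfl fun p _ => ?_
    rw [← Finset.sum_filter]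
    unfold jm
    rw [LinearMap.sum_apply, Submodule.coe_sum, Finset.sum_apply]
    exact Finset.sum_congr rfl fun q _ => hw_coe m κ _ f x
  rw [e1]
  change _ = ((ct κ : ℤ) : ℂ) * (f : (Fin m → Fin N) → ℂ) x
  by_cases hx : cnt x = κ
  swap
  · rw [f.2.1 x hx, mul_zero]
    refine Finset.sum_eq_zero fun p _ => Finset.sum_eq_zero fun q _ => ?_
    split_ifs
    · exact f.2.1 _ (by rwa [cnt_comp])
    · rfl
  set G : Fin m → Fin m → ℂ := fun p q => (f : (Fin m → Fin N) → ℂ) (x ∘ Equiv.swap p q) with hGd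
  have hG : ∀ p q, G p q = G q p := fun p q => by
    rw [hGd]
    simp only
    rw [Equiv.swap_comm]
  have h1 := split81 G hG x
  have h2 : ∑ p, G p p = ∑ i : Fin N, (κ i : ℂ) * (f : (Fin m → Fin N) → ℂ) x := by
    have h3 : ∀ p, G p p = (f : (Fin m → Fin N) → ℂ) x := fun p => by
      rw [hGd]
      simp only
      rw [Equiv.swap_self]
      rfl
    rw [Finset.sum_congr rfl fun p _ => h3 p, fib81 x (fun _ => (f : (Fin m → Fin N) → ℂ) x), hx]
  have h3 : ∑ q, ∑ p, (if x p = x q then G p q else 0) = ∑ i : Fin N, (κ i : ℂ) * ((κ i : ℂ) * (f : (Fin m → Fin N) → ℂ) x) := by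
    have h4 : ∀ q, ∑ p, (if x p = x q then G p q else 0) = (cnt x (x q) : ℂ) * (f : (Fin m → Fin N) → ℂ) x := by
      intro q
      rw [← Finset.sum_filter]
      rw [Finset.sum_congr rfl (g := fun _ => (f : (Fin m → Fin N) → ℂ) x) (fun p hp => ?_), Finset.sum_const, nsmul_eq_mul]
      · rfl
      · have hp2 := (Finset.mem_filter.1 hp).2
        rw [hGd]
        simp only
        refine congrArg (f : (Fin m → Fin N) → ℂ) (funext fun t => ?_)
        rw [Function.comp_apply]
        by_cases h5 : t = p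
        · subst h5
          rw [Equiv.swap_apply_left, hp2]
        · by_cases h6 : t = q
          · subst h6
            rw [Equiv.swap_apply_right, hp2]
          · rw [Equiv.swap_apply_of_ne_of_ne h5 h6]
    rw [Finset.sum_congr rfl fun q _ => h4 q, fib81 x (fun i => (cnt x i : ℂ) * (f : (Fin m → Fin N) → ℂ) x), hx]
  have h4 : ∑ q, ∑ p, (if x p < x q then G p q else 0) =
      ∑ i : Fin N, (κ i : ℂ) * (-(((i : ℕ) : ℂ) * (f : (Fin m → Fin N) → ℂ) x)) := by
    have h5 : ∀ q, ∑ p, (if x p < x q then G p q else 0) = -((((x q : Fin N) : ℕ) : ℂ) * (f : (Fin m → Fin N) → ℂ) x) := by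
      intro q
      have h6 : ∑ p, (if x p < x q then G p q else 0) =
          ∑ i ∈ Finset.Iio (x q), ∑ p ∈ Finset.univ.filter (fun p => x p = i), G p q := by
        rw [← Finset.sum_filter]
        rw [← Finset.sum_fiberwise_of_maps_to (s := Finset.univ.filter (fun p => x p < x q)) (t := Finset.Iio (x q)) (g := x)
          (fun p hp => Finset.mem_Iio.2 (Finset.mem_filter.1 hp).2)]
        refine Finset.sum_congr rfl fun i hi => Finset.sum_congr ?_ fun _ _ => rfl
        ext p
        rw [Finset.mem_filter, Finset.mem_filter, Finset.mem_filter]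
        constructor
        · rintro ⟨⟨-, -⟩, h⟩
          exact ⟨Finset.mem_univ _, h⟩
        · rintro ⟨-, h⟩
          exact ⟨⟨Finset.mem_univ _, by rw [h]; exact Finset.mem_Iio.1 hi⟩, h⟩
      rw [h6, Finset.sum_congr rfl fun i hi => sum_swap f.2 x q i (Finset.mem_Iio.1 hi), Finset.sum_const, Fin.card_Iio,
        nsmul_eq_mul]
      ring
    rw [Finset.sum_congr rfl fun q _ => h5 q, fib81 x (fun i => -(((i : ℕ) : ℂ) * (f : (Fin m → Fin N) → ℂ) x)), hx]
  rw [h2, h3, h4] at h1
  have h5 := ct81 κ
  have h6 : 2 * (((ct κ : ℤ) : ℂ) * (f : (Fin m → Fin N) → ℂ) x) =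
      ∑ i : Fin N, (κ i : ℂ) * ((κ i : ℂ) * (f : (Fin m → Fin N) → ℂ) x) +
        2 * ∑ i : Fin N, (κ i : ℂ) * (-(((i : ℕ) : ℂ) * (f : (Fin m → Fin N) → ℂ) x)) -
        ∑ i : Fin N, (κ i : ℂ) * (f : (Fin m → Fin N) → ℂ) x := by
    rw [← mul_assoc, h5, Finset.sum_mul, Finset.mul_sum, ← Finset.sum_add_distrib, ← Finset.sum_sub_distrib]
    refine Finset.sum_congr rfl fun i _ => ?_
    ring
  have h7 : (2 : ℂ) ≠ 0 := two_ne_zero
  refine mul_left_cancel₀ h7 ?_
  rw [h6]
  linear_combination h1

end Pool.Agent.Helper51.TF
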