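import Pool.Agent.Helper51.TF.H8
import Pool.Agent.Helper51.TF.G1

/-!
BLOCK TF-H10 (about 120 lines). Branching for characters and dimensions.

Proof in words. `char_expand` for `σ = (hw (m+1) κ).comp (res1 m)`: the coefficients are given by `branch_eq`: `1` if `ν = subE κ a` for a removable `a`, `0` otherwise. The map `a ↦ subE κ a` from the removable `a` to `PP N m` is injective (`subE κ a` differs from `κ` exactly at `a`), so the sum over `ν` is the sum over the removable `a`
(`Finset.sum_image`). Dimension: `g = 1`.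
-/

set_option autoImplicit false

open Module Equiv Pool.Agent.Helper1.TS Pool.Agent.Helper70.TU Pool.Agent.Helper51.TN

namespace Pool.Agent.Helper51.TF

variable {N : ℕ}

private theorem subE_inj94 {κ : Fin N → ℕ} {a b : Fin N} (ha : 0 < κ a) (h : subE κ a = subE κ b) : a = b := by
  by_contra hab
  have h1 := congrFun h a
  unfold subE at h1
  rw [if_pos rfl, if_neg hab] at h1
  omega

open Classical in
private theorem sum94 {m : ℕ} {κ : Fin N → ℕ} (h : κ ∈ PP N (m + 1)) (f : (Fin N → ℕ) → ℂ) :
    ∑ ν ∈ PP N m, (((if ∃ a : Fin N, IsRem κ a ∧ ν = subE κ a then 1 else 0 : ℕ) : ℂ) * f ν) =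
      ∑ a ∈ Finset.univ.filter (fun a : Fin N => IsRem κ a), f (subE κ a) := by
  have hinj : Set.InjOn (fun a : Fin N => subE κ a) (Finset.univ.filter (fun a : Fin N => IsRem κ a) : Finset (Fin N)) := by
    intro a ha b _ hab
    have ha' := (Finset.mem_filter.1 (Finset.mem_coe.1 ha)).2
    exact subE_inj94 ha'.1 hab
  have h1 : (PP N m).filter (fun ν => ∃ a : Fin N, IsRem κ a ∧ ν = subE κ a) =
      (Finset.univ.filter (fun a : Fin N => IsRem κ a)).image (fun a => subE κ a) := by
    ext ν
    rw [Finset.mem_filter, Finset.mem_image]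
    constructor
    · rintro ⟨-, a, ha, rfl⟩
      exact ⟨a, Finset.mem_filter.2 ⟨Finset.mem_univ _, ha⟩, rfl⟩
    · rintro ⟨a, ha, rfl⟩
      have ha' := (Finset.mem_filter.1 ha).2
      exact ⟨subE_mem h a ha', a, ha', rfl⟩
  rw [← Finset.sum_image (f := f) (g := fun a => subE κ a) hinj, ← h1, Finset.sum_filter]
  refine Finset.sum_congr rfl fun ν _ => ?_
  by_cases hν : ∃ a : Fin N, IsRem κ a ∧ ν = subE κ a
  · rw [if_pos hν, if_pos hν, Nat.cast_one, one_mul]
  · rw [if_neg hν, if_neg hν, Nat.cast_zero, zero_mul]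

open Classical in
theorem char_branch {m : ℕ} (hN : m + 1 ≤ N) {κ : Fin N → ℕ} (h : κ ∈ PP N (m + 1)) (g : Perm (Fin m)) :
    (hw (m + 1) κ).character (res1 m g) =
      ∑ a ∈ Finset.univ.filter (fun a : Fin N => IsRem κ a), (hw m (subE κ a)).character g := by
  have h1 := char_expand (N := N) (m := m) (by omega) ((hw (m + 1) κ).comp (res1 m)) g
  have h2 : (Representation.character ((hw (m + 1) κ).comp (res1 m)) g) = (hw (m + 1) κ).character (res1 m g) := rfl
  rw [← h2, h1, ← sum94 h fun ν => (hw m ν).character g]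
  refine Finset.sum_congr rfl fun ν hν => ?_
  rw [branch_eq hN h hν]

open Classical in
theorem finrank_branch {m : ℕ} (hN : m + 1 ≤ N) {κ : Fin N → ℕ} (h : κ ∈ PP N (m + 1)) :
    finrank ℂ (HW (m + 1) κ) = ∑ a ∈ Finset.univ.filter (fun a : Fin N => IsRem κ a), finrank ℂ (HW m (subE κ a)) := by
  have h1 := char_branch hN h 1
  rw [map_one, Representation.char_one] at h1
  have h2 : ∀ ν : Fin N → ℕ, (hw m ν).character 1 = (finrank ℂ (HW m ν) : ℂ) := fun ν => Representation.char_one _
  rw [Finset.sum_congr rfl fun a _ => h2 (subE κ a)] at h1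
  exact_mod_cast h1

end Pool.Agent.Helper51.TF
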