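import Pool.Agent.Helper51.TF.H1

/-!
BLOCK TF-H2 (about 180 lines). `HW m κ = 0` unless `κ` is antitone and of sum `m`.

Proof in words.
* `HW_sum`: `∑_i cnt x i = m` for every word (`Finset.card_eq_sum_card_fiberwise`), so if `∑ κ ≠ m` every `f ∈ HW m κ` vanishes.
* `HW_antitone`: let `f ∈ HW m κ`, `i < j`, `κ i < κ j`; claim `f = 0`. Put `(F f)(y) = ∑_{q : y q = j} f (update y q i)` (lowering operator). Then for all words `x`
  `∑_{p : x p = i} (F f)(update x p j) = ∑_{p : x p = i} (f x + ∑_{q : x q = j} f (x ∘ swap p q)) = (κ i - κ j) f x`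
  (for `x p = i`: the word `update x p j` has the letter `j` at `p` and at the `q` with `x q = j`; `q = p` gives `f x`, the other ones give `f (x ∘ swap p q)`; then `sum_swap` for every `q` with `x q = j`, and
  `cnt x = κ` if `f x ≠ 0` (if `cnt x ≠ κ` then also `cnt (x ∘ _) ≠ κ` and everything is zero)). Multiply by `conj (f x)` and sum over `x`:
  `(κ i - κ j) ∑_x |f x|² = ∑_x ∑_{p : x p = i} (F f)(update x p j) conj (f x) = ∑_y ∑_{q : y q = j} (F f)(y) conj (f (update y q i)) = ∑_y |(F f)(y)|² ≥ 0`
  (bijection `(x, p) ↔ (y, q)`, `y = update x p j`, `q = p`, `x = update y q i`). Since `κ i - κ j < 0`, `f = 0`.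
-/

set_option autoImplicit false

open Module Equiv Pool.Agent.Helper1.TS Pool.Agent.Helper70.TU Pool.Agent.Helper51.TN

namespace Pool.Agent.Helper51.TF

variable {N : ℕ}

theorem HW_sum {m : ℕ} {κ : Fin N → ℕ} (h : ∑ i, κ i ≠ m) : HW m κ = ⊥ := by
  rw [Submodule.eq_bot_iff]
  intro f hf
  funext x
  refine hf.1 x fun hx => h ?_
  rw [← hx]
  have h1 := Finset.card_eq_sum_card_fiberwise (f := x) (s := (Finset.univ : Finset (Fin m)))
    (t := (Finset.univ : Finset (Fin N))) (fun _ _ => Finset.mem_coe.2 (Finset.mem_univ _))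
  rw [Finset.card_univ, Fintype.card_fin] at h1
  exact h1.symm

private theorem h2_upd_swap {m : ℕ} {x : Fin m → Fin N} {i j : Fin N} (hij : i ≠ j) {p q : Fin m} (hp : x p = i)
    (hq : x q = j) : Function.update (Function.update x p j) q i = x ∘ Equiv.swap p q := by
  have hpq : p ≠ q := by
    rintro rfl
    exact hij (hp.symm.trans hq)
  funext r
  rw [Function.comp_apply]
  by_cases h1 : r = q
  · subst h1
    rw [Function.update_self, Equiv.swap_apply_right, hp]
  · rw [Function.update_of_ne h1]
    by_cases h2 : r = p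
    · subst h2
      rw [Function.update_self, Equiv.swap_apply_left, hq]
    · rw [Function.update_of_ne h2, Equiv.swap_apply_of_ne_of_ne h2 h1]

private theorem h2_lower {m : ℕ} {κ : Fin N → ℕ} {f : (Fin m → Fin N) → ℂ} (hf : f ∈ HW m κ) {i j : Fin N}
    (hij : i < j) (x : Fin m → Fin N) :
    ∑ p ∈ Finset.univ.filter (fun p => x p = i),
      ∑ q ∈ Finset.univ.filter (fun q => Function.update x p j q = j), f (Function.update (Function.update x p j) q i) =
      ((κ i : ℂ) - κ j) * f x := by
  have h1 : ∀ p ∈ Finset.univ.filter (fun p => x p = i),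
      ∑ q ∈ Finset.univ.filter (fun q => Function.update x p j q = j), f (Function.update (Function.update x p j) q i) =
      f x + ∑ q ∈ Finset.univ.filter (fun q => x q = j), f (x ∘ Equiv.swap p q) := by
    intro p hp
    have hp' : x p = i := (Finset.mem_filter.1 hp).2
    have h2 : Finset.univ.filter (fun q => Function.update x p j q = j) =
        insert p (Finset.univ.filter (fun q => x q = j)) := by
      ext q
      rw [Finset.mem_insert, Finset.mem_filter, Finset.mem_filter]
      by_cases hqp : q = p
      · subst hqp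
        simp
      · rw [Function.update_of_ne hqp]
        simp [hqp]
    rw [h2, Finset.sum_insert]
    · congr 1
      · congr 1
        rw [Function.update_idem, ← hp', Function.update_eq_self]
      · refine Finset.sum_congr rfl fun q hq => ?_
        rw [h2_upd_swap hij.ne hp' (Finset.mem_filter.1 hq).2]
    · intro hmem
      exact hij.ne (hp'.symm.trans (Finset.mem_filter.1 hmem).2)
  rw [Finset.sum_congr rfl h1, Finset.sum_add_distrib, Finset.sum_const, Finset.sum_comm]
  have h3 : ∀ q ∈ Finset.univ.filter (fun q => x q = j),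
      ∑ p ∈ Finset.univ.filter (fun p => x p = i), f (x ∘ Equiv.swap p q) = - f x := by
    intro q hq
    exact sum_swap hf x q i (by rw [(Finset.mem_filter.1 hq).2]; exact hij)
  rw [Finset.sum_congr rfl h3, Finset.sum_const]
  by_cases hx : cnt x = κ
  · rw [← hx]
    unfold cnt
    simp only [nsmul_eq_mul]
    ring
  · rw [hf.1 x hx]
    simp

theorem HW_antitone {m : ℕ} {κ : Fin N → ℕ} (h : ¬ Antitone κ) : HW m κ = ⊥ := by
  rw [Submodule.eq_bot_iff]
  intro f hf
  unfold Antitone at h
  push Not at h
  obtain ⟨i, j, hij', hκ⟩ := h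
  have hij : i < j := by
    rcases lt_or_eq_of_le hij' with h | h
    · exact h
    · rw [h] at hκ
      exact absurd hκ (lt_irrefl _)
  set F : (Fin m → Fin N) → ℂ := fun y => ∑ q ∈ Finset.univ.filter (fun q => y q = j), f (Function.update y q i) with hF
  have hA : ∀ x, ∑ p ∈ Finset.univ.filter (fun p => x p = i), F (Function.update x p j) = ((κ i : ℂ) - κ j) * f x :=
    fun x => h2_lower hf hij x
  have hB : ∑ x, (∑ p ∈ Finset.univ.filter (fun p => x p = i), F (Function.update x p j)) * starRingEnd ℂ (f x) =
      ∑ y, F y * starRingEnd ℂ (F y) := by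
    have e1 : ∀ x : Fin m → Fin N, (∑ p ∈ Finset.univ.filter (fun p => x p = i), F (Function.update x p j)) *
        starRingEnd ℂ (f x) = ∑ p, if x p = i then F (Function.update x p j) * starRingEnd ℂ (f x) else 0 := by
      intro x
      rw [Finset.sum_mul, Finset.sum_filter]
    have e2 : ∀ y : Fin m → Fin N, F y * starRingEnd ℂ (F y) =
        ∑ p, if y p = j then F y * starRingEnd ℂ (f (Function.update y p i)) else 0 := by
      intro y
      conv_lhs => rw [hF]
      simp only [map_sum]
      rw [← Finset.sum_filter, ← Finset.mul_sum]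
    rw [Finset.sum_congr rfl fun x _ => e1 x, Finset.sum_congr rfl fun y _ => e2 y, Finset.sum_comm,
      Finset.sum_comm (s := (Finset.univ : Finset (Fin m → Fin N)))]
    refine Finset.sum_congr rfl fun p _ => ?_
    rw [← Finset.sum_filter, ← Finset.sum_filter]
    refine Finset.sum_bij' (fun x _ => Function.update x p j) (fun y _ => Function.update y p i) ?_ ?_ ?_ ?_ ?_
    · intro x _
      rw [Finset.mem_filter]
      exact ⟨Finset.mem_univ _, Function.update_self _ _ _⟩
    · intro y _
      rw [Finset.mem_filter]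
      exact ⟨Finset.mem_univ _, Function.update_self _ _ _⟩
    · intro x hx
      rw [Function.update_idem, ← (Finset.mem_filter.1 hx).2, Function.update_eq_self]
    · intro y hy
      rw [Function.update_idem, ← (Finset.mem_filter.1 hy).2, Function.update_eq_self]
    · intro x hx
      congr 3
      rw [Function.update_idem, ← (Finset.mem_filter.1 hx).2, Function.update_eq_self]
  simp only [hA] at hB
  have hC : ((κ i : ℝ) - κ j) * ∑ x, Complex.normSq (f x) = ∑ y, Complex.normSq (F y) := by
    have h1 : ((((κ i : ℝ) - κ j) * ∑ x, Complex.normSq (f x) : ℝ) : ℂ) = ((∑ y, Complex.normSq (F y) : ℝ) : ℂ) := by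
      have e1 : ∀ z : ℂ, (Complex.normSq z : ℂ) = z * starRingEnd ℂ z := fun z => (Complex.mul_conj z).symm
      rw [Complex.ofReal_mul, Complex.ofReal_sum, Complex.ofReal_sum]
      simp only [e1]
      rw [← hB, Finset.mul_sum]
      refine Finset.sum_congr rfl fun x _ => ?_
      push_cast
      ring
    exact_mod_cast h1
  have hneg : (κ i : ℝ) - κ j < 0 := by
    have : (κ i : ℝ) < κ j := by exact_mod_cast hκ
    linarith
  have hpos : 0 ≤ ∑ y, Complex.normSq (F y) := Finset.sum_nonneg fun _ _ => Complex.normSq_nonneg _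
  have hS : 0 ≤ ∑ x, Complex.normSq (f x) := Finset.sum_nonneg fun _ _ => Complex.normSq_nonneg _
  have h0 : ∑ x, Complex.normSq (f x) = 0 := by nlinarith
  funext x
  have := (Finset.sum_eq_zero_iff_of_nonneg fun x _ => Complex.normSq_nonneg (f x)).1 h0 x (Finset.mem_univ x)
  simpa using Complex.normSq_eq_zero.1 this

end Pool.Agent.Helper51.TF
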