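import Pool.Agent.Helper51.TF.E1

/-!
BLOCK TF-H3 (about 120 lines). `HW m κ ≠ 0` if `κ` is antitone with sum `m`.

Proof in words. Strong induction on `m`. If `m = 0` then `κ = 0` and the constant function `1` on the only word is in `HW 0 κ` (the empty sums vanish, `cnt x = 0 = κ`). If `m > 0` let `r` be the number of `i` with `κ i > 0`: because `κ` is antitone
`κ i > 0 ↔ i < r`, `0 < r ≤ N`, `r ≤ m`. `ν i = κ i - 1` (for `i < r`, `0` otherwise) is antitone with sum `m - r`, `addCol ν r = κ`. Take `f ≠ 0` in `HW (m - r) ν`; `tens f (om N r) ∈ HW (m - r + r) (addCol ν r)` (`tens_om_mem`) is not zero: choose `x` with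
`f x ≠ 0`, and for the second part the word `p ↦ p` (`Fin.castLE`), for which `om = det 1 = 1`; `Fin.append`. Cast along `m - r + r = m` (`obtain ⟨m', rfl⟩ : ∃ m', m = m' + r`).
-/

set_option autoImplicit false

open Module Equiv Pool.Agent.Helper1.TS Pool.Agent.Helper70.TU Pool.Agent.Helper51.TN

namespace Pool.Agent.Helper51.TF

theorem HW_ne_bot {N : ℕ} (m : ℕ) (κ : Fin N → ℕ) (h : Antitone κ) (hs : ∑ i, κ i = m) : HW m κ ≠ ⊥ := by
  induction m using Nat.strong_induction_on generalizing κ with
  | _ m ih =>
  rw [Submodule.ne_bot_iff]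
  rcases Nat.eq_zero_or_pos m with rfl | hm
  · have hκ : κ = 0 := by
      funext i
      exact (Finset.sum_eq_zero_iff.1 hs) i (Finset.mem_univ i)
    refine ⟨fun _ => 1, ⟨fun x hx => ?_, fun i j _ x => ?_⟩, ?_⟩
    · exfalso
      apply hx
      rw [hκ]
      funext i
      unfold cnt
      rw [Finset.univ_eq_empty, Finset.filter_empty, Finset.card_empty]
      rfl
    · rw [Finset.univ_eq_empty, Finset.filter_empty, Finset.sum_empty]
    · intro hcon
      have h1 := congrFun hcon (fun p => Fin.elim0 p)
      exact one_ne_zero h1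
  · obtain ⟨r, hr⟩ : ∃ r, r = (Finset.univ.filter (fun i => 0 < κ i)).card := ⟨_, rfl⟩
    have hiff : ∀ i, 0 < κ i ↔ (i : ℕ) < r := by
      intro i
      constructor
      · intro hi
        have h1 : Finset.Iic i ⊆ Finset.univ.filter (fun i => 0 < κ i) := by
          intro j hj
          rw [Finset.mem_filter]
          exact ⟨Finset.mem_univ _, hi.trans_le (h (Finset.mem_Iic.1 hj))⟩
        have h2 := Finset.card_le_card h1
        rw [Fin.card_Iic, ← hr] at h2
        omega
      · intro hi
        by_contra hc
        have h1 : Finset.univ.filter (fun i => 0 < κ i) ⊆ Finset.Iio i := by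
          intro j hj
          rw [Finset.mem_filter] at hj
          rw [Finset.mem_Iio]
          by_contra hji
          have h3 := h (not_lt.1 hji)
          omega
        have h2 := Finset.card_le_card h1
        rw [Fin.card_Iio, ← hr] at h2
        omega
    have hrN : r ≤ N := by
      rw [hr]
      exact (Finset.card_le_univ _).trans_eq (Fintype.card_fin N)
    have hsum1 : ∑ i : Fin N, (if (i : ℕ) < r then 1 else 0) = r := by
      rw [← Finset.card_filter]
      conv_rhs => rw [hr]
      congr 1
      refine Finset.filter_congr fun i _ => ?_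
      exact (hiff i).symm
    have hadd : addCol (fun i => κ i - 1) r = κ := by
      funext i
      unfold addCol
      have h1 := hiff i
      by_cases h2 : (i : ℕ) < r
      · rw [if_pos h2]
        have := h1.2 h2
        show κ i - 1 + 1 = κ i
        omega
      · rw [if_neg h2]
        have h3 : ¬ 0 < κ i := fun h4 => h2 (h1.1 h4)
        show κ i - 1 + 0 = κ i
        omega
    have hsum2 : ∑ i, (κ i - 1) + r = m := by
      rw [← hs]
      conv_rhs => rw [← hadd]
      unfold addCol
      rw [Finset.sum_add_distrib, hsum1]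
    have hr0 : 0 < r := by
      by_contra hc
      have h1 : ∀ i, κ i = 0 := fun i => by
        have h2 := hiff i
        by_contra h3
        have := h2.1 (Nat.pos_of_ne_zero h3)
        omega
      simp only [h1, Finset.sum_const_zero] at hs
      omega
    obtain ⟨m', rfl⟩ : ∃ m', m = m' + r := ⟨_, hsum2.symm⟩
    have hanti : Antitone fun i => κ i - 1 := fun i j hij => Nat.sub_le_sub_right (h hij) 1
    obtain ⟨f, hf, hf0⟩ := (Submodule.ne_bot_iff _).1 (ih m' (by omega) (fun i => κ i - 1) hanti (by omega))
    have h1 := tens_om_mem hrN (fun i => κ i - 1) hf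
    rw [hadd] at h1
    refine ⟨_, h1, ?_⟩
    obtain ⟨x, hx⟩ := Function.ne_iff.1 hf0
    intro hcon
    have h2 := congrFun hcon (Fin.append x (Fin.castLE hrN))
    have h3 : om N r (Fin.castLE hrN) = 1 := by
      unfold om
      have h4 : (Matrix.of fun i j : Fin r => if ((Fin.castLE hrN i : Fin N) : ℕ) = (j : ℕ) then (1 : ℂ) else 0) = 1 := by
        ext i j
        rw [Matrix.of_apply, Matrix.one_apply]
        simp only [Fin.val_castLE, Fin.ext_iff]
      rw [h4, Matrix.det_one]
    unfold tens at h2
    simp only [Fin.append_left, Fin.append_right] at h2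
    rw [show (fun p => Fin.castLE hrN p) = Fin.castLE hrN from rfl, h3, mul_one] at h2
    exact hx h2

end Pool.Agent.Helper51.TF
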