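import Pool.Agent.Helper51.TF.H1
import Pool.Agent.Helper51.TF.H2
import Pool.Agent.Helper51.TF.H3
import Pool.Agent.Helper51.TF.H4
import Pool.Agent.Helper51.TF.H5

/-!
BLOCK TF-H6 (about 250 lines). Different partitions have no common constituent.

Proof in words.
* `exists_irr_sub`: a nonzero finite dimensional representation has an irreducible subrepresentation (minimal dimension), given as an irreducible `υ` on a type with an injective intertwining map.
* `subE_cases`: `κ ∈ PP N (m+1)`, `0 < κ a`: `HW m (subE κ a) = ⊥` or `subE κ a ∈ PP N m` (`HW_antitone`, the sum is `m`).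
* `ct_subE`: `ct κ = ct (subE κ a) + (κ a - 1 - a)` if `0 < κ a` (`Finset.sum_range_succ`).
* `disjoint'`: let `υ` be irreducible with injective (every nonzero intertwining map from an irreducible one is injective) intertwining maps to `hw (m+1) κ` and `hw (m+1) κ'`. By `casimir` the sum of the `jm υ i` is `ct κ` and `ct κ'` on `υ`, so `ct κ = ct κ'` (the space is not `0`).
  Restrict `υ` to `S_m` (`res1`), take an irreducible `U₀` in it (`exists_irr_sub`): `0 < mult U₀ (hw (m+1) κ)|S_m`, so by `branch_le` there is `a` with `0 < κ a` and `HomP U₀ (hw m (subE κ a)) ≠ ⊥`; then `subE κ a ∈ PP N m`, `hw m (subE κ a)` is irreducible (`ih1`), so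
  `U₀` is isomorphic to it (a nonzero map between irreducible representations is bijective). In the same way `U₀` is isomorphic to `hw m (subE κ' b)`, so `subE κ a = subE κ' b =: ν` (`ih2`). `ct κ = ct ν + (ν a - a)`, `ct κ' = ct ν + (ν b - b)` (as `κ a = ν a + 1`), so `ν a - a = ν b - b`; `i ↦ ν i - i` is strictly
  decreasing, so `a = b`, and `κ = κ'`.
-/

set_option autoImplicit false

open Module Equiv Pool.Agent.Helper1.TS Pool.Agent.Helper70.TU Pool.Agent.Helper51.TN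

namespace Pool.Agent.Helper51.TF

variable {N : ℕ}

theorem exists_irr_sub {G : Type} [Group G] {V : Type} [AddCommGroup V] [Module ℂ V] [FiniteDimensional ℂ V]
    (ρ : Representation ℂ G V) (h : ∃ v : V, v ≠ 0) :
    ∃ U : Submodule ℂ V, U ≠ ⊥ ∧ ∃ υ : Representation ℂ G U, (∀ (g : G) (u : U), (υ g u : V) = ρ g u) ∧ υ.IsIrreducible := by
  classical
  obtain ⟨v₀, hv₀⟩ := h
  have hex : ∃ d : ℕ, ∃ K : Subrepresentation ρ, K.toSubmodule ≠ ⊥ ∧ finrank ℂ K.toSubmodule = d := by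
    refine ⟨_, ⊤, ?_, rfl⟩
    intro hcon
    have h1 : v₀ ∈ (⊤ : Subrepresentation ρ).toSubmodule := by
      show v₀ ∈ (⊤ : Submodule ℂ V)
      trivial
    rw [hcon, Submodule.mem_bot] at h1
    exact hv₀ h1
  obtain ⟨K, hK, hKd⟩ := Nat.find_spec hex
  have hmin : ∀ K' : Subrepresentation ρ, K'.toSubmodule ≠ ⊥ → finrank ℂ K.toSubmodule ≤ finrank ℂ K'.toSubmodule := by
    intro K' hK'
    rw [hKd]
    exact Nat.find_min' hex ⟨K', hK', rfl⟩
  refine ⟨K.toSubmodule, hK, K.toRepresentation, fun g u => rfl, ?_⟩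
  have hne : ∃ u : K.toSubmodule, u ≠ 0 := by
    obtain ⟨u, hu, hu0⟩ := (Submodule.ne_bot_iff _).1 hK
    exact ⟨⟨u, hu⟩, fun hc => hu0 (congrArg Subtype.val hc)⟩
  refine { exists_pair_ne := ?_, eq_bot_or_eq_top := ?_ }
  · refine ⟨⊥, ⊤, fun hcon => ?_⟩
    obtain ⟨u, hu⟩ := hne
    have h1 : (⊥ : Submodule ℂ K.toSubmodule) = ⊤ := congrArg Subrepresentation.toSubmodule hcon
    have h2 : u ∈ (⊤ : Submodule ℂ K.toSubmodule) := trivial
    rw [← h1, Submodule.mem_bot] at h2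
    exact hu h2
  · intro L
    by_cases hL : L.toSubmodule = ⊥
    · left
      exact Subrepresentation.toSubmodule_injective hL
    · right
      let L' : Subrepresentation ρ := ⟨L.toSubmodule.map K.toSubmodule.subtype, by
        rintro g _ ⟨w, hw, rfl⟩
        exact ⟨K.toRepresentation g w, L.apply_mem_toSubmodule g hw, rfl⟩⟩
      have hL' : L'.toSubmodule ≠ ⊥ := by
        intro hcon
        apply hL
        have h1 : L.toSubmodule.map K.toSubmodule.subtype = ⊥ := hcon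
        rw [eq_bot_iff]
        intro w hw
        have h2 : (w : V) ∈ L.toSubmodule.map K.toSubmodule.subtype := ⟨w, hw, rfl⟩
        rw [h1, Submodule.mem_bot] at h2
        rw [Submodule.mem_bot]
        exact Subtype.ext h2
      have h1 := hmin L' hL'
      have h2 : finrank ℂ L'.toSubmodule = finrank ℂ L.toSubmodule :=
        Submodule.finrank_map_subtype_eq _ _
      apply Subrepresentation.toSubmodule_injective
      show L.toSubmodule = ⊤
      refine Submodule.eq_top_of_finrank_eq ?_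
      have h3 := Submodule.finrank_le L.toSubmodule
      omega

/-- Schur's lemma. -/
theorem iso_of_ne {G : Type} [Group G] {V W : Type} [AddCommGroup V] [Module ℂ V] [FiniteDimensional ℂ V]
    [AddCommGroup W] [Module ℂ W] [FiniteDimensional ℂ W] (ρ : Representation ℂ G V) [ρ.IsIrreducible]
    (σ : Representation ℂ G W) [σ.IsIrreducible] (f : V →ₗ[ℂ] W) (hf : ∀ g v, f (ρ g v) = σ g (f v)) (h0 : f ≠ 0) :
    Function.Bijective f := by
  constructor
  · let K : Subrepresentation ρ := ⟨LinearMap.ker f, fun g v hv => by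
      rw [LinearMap.mem_ker] at hv ⊢
      rw [hf, hv, map_zero]⟩
    rcases IsSimpleOrder.eq_bot_or_eq_top K with h1 | h1
    · have h2 : LinearMap.ker f = ⊥ := congrArg Subrepresentation.toSubmodule h1
      exact LinearMap.ker_eq_bot.1 h2
    · have h2 : LinearMap.ker f = ⊤ := congrArg Subrepresentation.toSubmodule h1
      exact absurd (LinearMap.ker_eq_top.1 h2) h0
  · let K : Subrepresentation σ := ⟨LinearMap.range f, by
      rintro g _ ⟨v, rfl⟩
      exact ⟨ρ g v, hf g v⟩⟩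
    rcases IsSimpleOrder.eq_bot_or_eq_top K with h1 | h1
    · have h2 : LinearMap.range f = ⊥ := congrArg Subrepresentation.toSubmodule h1
      exact absurd (LinearMap.range_eq_bot.1 h2) h0
    · have h2 : LinearMap.range f = ⊤ := congrArg Subrepresentation.toSubmodule h1
      exact LinearMap.range_eq_top.1 h2

theorem inj_of_ne {G : Type} [Group G] {V W : Type} [AddCommGroup V] [Module ℂ V] [FiniteDimensional ℂ V]
    [AddCommGroup W] [Module ℂ W] (ρ : Representation ℂ G V) [ρ.IsIrreducible]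
    (σ : Representation ℂ G W) (f : V →ₗ[ℂ] W) (hf : ∀ g v, f (ρ g v) = σ g (f v)) (h0 : f ≠ 0) :
    Function.Injective f := by
  let K : Subrepresentation ρ := ⟨LinearMap.ker f, fun g v hv => by
    rw [LinearMap.mem_ker] at hv ⊢
    rw [hf, hv, map_zero]⟩
  rcases IsSimpleOrder.eq_bot_or_eq_top K with h1 | h1
  · have h2 : LinearMap.ker f = ⊥ := congrArg Subrepresentation.toSubmodule h1
    exact LinearMap.ker_eq_bot.1 h2
  · have h2 : LinearMap.ker f = ⊤ := congrArg Subrepresentation.toSubmodule h1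
    exact absurd (LinearMap.ker_eq_top.1 h2) h0

theorem subE_cases {m : ℕ} {κ : Fin N → ℕ} (h : κ ∈ PP N (m + 1)) (a : Fin N) (ha : 0 < κ a) :
    HW m (subE κ a) = ⊥ ∨ subE κ a ∈ PP N m := by
  obtain ⟨_, h2⟩ := mem_PP.1 h
  by_cases hA : Antitone (subE κ a)
  · right
    rw [mem_PP]
    refine ⟨hA, ?_⟩
    have h3 : ∀ i, κ i = subE κ a i + if i = a then 1 else 0 := by
      intro i
      unfold subE
      split_ifs with hi
      · subst hi
        omega
      · rfl
    rw [Finset.sum_congr rfl (fun i _ => h3 i), Finset.sum_add_distrib, Finset.sum_ite_eq' Finset.univ a,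
      if_pos (Finset.mem_univ a)] at h2
    omega
  · left
    exact HW_antitone hA

theorem ct_subE (κ : Fin N → ℕ) (a : Fin N) (ha : 0 < κ a) :
    ct κ = ct (subE κ a) + ((κ a : ℤ) - 1 - ((a : ℕ) : ℤ)) := by
  have h1 : ct κ - ct (subE κ a) = (κ a : ℤ) - 1 - ((a : ℕ) : ℤ) := by
    unfold ct
    rw [← Finset.sum_sub_distrib, Finset.sum_eq_single a]
    · have h2 : subE κ a a = κ a - 1 := by
        unfold subE
        rw [if_pos rfl]
      obtain ⟨k, hk⟩ : ∃ k, κ a = k + 1 := ⟨κ a - 1, by omega⟩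
      rw [h2, hk, Nat.add_sub_cancel, Finset.sum_range_succ, add_sub_cancel_left]
      push_cast
      ring
    · intro i _ hi
      have h2 : subE κ a i = κ i := by
        unfold subE
        rw [if_neg hi]
        rfl
      rw [h2, sub_self]
    · intro hc
      exact absurd (Finset.mem_univ a) hc
  linarith

theorem subE_inj {m : ℕ} {κ κ' : Fin N → ℕ} (h : κ ∈ PP N (m + 1)) (h' : κ' ∈ PP N (m + 1)) (a b : Fin N) (ha : 0 < κ a)
    (hb : 0 < κ' b) (he : subE κ a = subE κ' b) (hs : subE κ a ∈ PP N m) (hc : ct κ = ct κ') : κ = κ' := by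
  obtain ⟨hA, _⟩ := mem_PP.1 hs
  have h1 := ct_subE κ a ha
  have h2 := ct_subE κ' b hb
  have h3 : subE κ a a = κ a - 1 := by
    unfold subE
    rw [if_pos rfl]
  have h4 : subE κ' b b = κ' b - 1 := by
    unfold subE
    rw [if_pos rfl]
  rw [← he] at h2 h4
  have hab : a = b := by
    rcases lt_trichotomy a b with hlt | heq | hlt
    · have h5 := hA hlt.le
      have h6 : (a : ℕ) < (b : ℕ) := hlt
      omega
    · exact heq
    · have h5 := hA hlt.le
      have h6 : (b : ℕ) < (a : ℕ) := hlt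
      omega
  subst hab
  funext i
  by_cases hi : i = a
  · subst hi
    omega
  · have h5 := congrFun he i
    unfold subE at h5
    rw [if_neg hi] at h5
    exact h5

private theorem h6_intertw {m : ℕ} {κ : Fin N → ℕ} {U : Type} [AddCommGroup U] [Module ℂ U]
    (υ : Representation ℂ (Perm (Fin (m + 1))) U) (f : U →ₗ[ℂ] HW (m + 1) κ)
    (hf : ∀ g v, f (υ g v) = hw (m + 1) κ g (f v)) (i : Fin (m + 1)) (v : U) :
    f (jm υ i v) = jm (hw (m + 1) κ) i (f v) := by
  unfold jm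
  rw [LinearMap.sum_apply, LinearMap.sum_apply, map_sum]
  exact Finset.sum_congr rfl fun j _ => hf _ _

private theorem h6_ct {m : ℕ} {κ : Fin N → ℕ} {U : Type} [AddCommGroup U] [Module ℂ U]
    (υ : Representation ℂ (Perm (Fin (m + 1))) U) (f : U →ₗ[ℂ] HW (m + 1) κ)
    (hf : ∀ g v, f (υ g v) = hw (m + 1) κ g (f v)) (hinj : Function.Injective f) (v : U) :
    ∑ i : Fin (m + 1), jm υ i v = ((ct κ : ℤ) : ℂ) • v := by
  apply hinj
  rw [map_sum, map_smul, ← casimir κ (f v)]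
  exact Finset.sum_congr rfl fun i _ => h6_intertw υ f hf i v

private theorem h6_pos {W : Type} [AddCommGroup W] [Module ℂ W] [FiniteDimensional ℂ W] (S : Submodule ℂ W) :
    0 < finrank ℂ S ↔ ∃ x ∈ S, x ≠ 0 := by
  rw [Nat.pos_iff_ne_zero, Ne, Submodule.finrank_eq_zero, ← Ne, Submodule.ne_bot_iff]

private theorem h6_br {m : ℕ} (ih1 : ∀ ν ∈ PP N m, (hw m ν).IsIrreducible) {κ : Fin N → ℕ}
    (h : κ ∈ PP N (m + 1)) {U : Type} [AddCommGroup U] [Module ℂ U] [FiniteDimensional ℂ U]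
    (υ : Representation ℂ (Perm (Fin (m + 1))) U)
    (f : U →ₗ[ℂ] HW (m + 1) κ) (hf : ∀ g v, f (υ g v) = hw (m + 1) κ g (f v)) (hinj : Function.Injective f)
    (U₀ : Submodule ℂ U) (hU₀ : U₀ ≠ ⊥) (υ₀ : Representation ℂ (Perm (Fin m)) U₀)
    (hυ₀ : ∀ (g : Perm (Fin m)) (u : U₀), (υ₀ g u : U) = υ (res1 m g) u) [υ₀.IsIrreducible] :
    ∃ a, 0 < κ a ∧ subE κ a ∈ PP N m ∧ Iso υ₀ (hw m (subE κ a)) := by
  classical
  let φ : U₀ →ₗ[ℂ] HW (m + 1) κ := f.comp U₀.subtype
  have hφ : φ ∈ HomP υ₀ ((hw (m + 1) κ).comp (res1 m)) LinearMap.id := by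
    rw [mem_HomP]
    refine ⟨fun g v => ?_, fun v => rfl⟩
    show f ((υ₀ g v : U₀) : U) = hw (m + 1) κ (res1 m g) (f v)
    rw [hυ₀, hf]
  have hφ0 : φ ≠ 0 := by
    intro hcon
    obtain ⟨u, hu, hu0⟩ := (Submodule.ne_bot_iff _).1 hU₀
    apply hu0
    apply hinj
    rw [map_zero]
    exact LinearMap.congr_fun hcon ⟨u, hu⟩
  have hpos : 0 < finrank ℂ (HomP υ₀ ((hw (m + 1) κ).comp (res1 m)) LinearMap.id) := by
    have h9 := (h6_pos (W := U₀ →ₗ[ℂ] HW (m + 1) κ) (HomP υ₀ ((hw (m + 1) κ).comp (res1 m)) LinearMap.id)).2 ⟨φ, hφ, hφ0⟩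
    exact h9
  have hsum := hpos.trans_le (branch_le κ υ₀)
  obtain ⟨a, ha, ha'⟩ := Finset.exists_ne_zero_of_sum_ne_zero hsum.ne'
  rw [Finset.mem_filter] at ha
  have hpos' : 0 < finrank ℂ (HomP υ₀ (hw m (subE κ a)) LinearMap.id) := Nat.pos_of_ne_zero ha'
  obtain ⟨ψ, hψ, hψ0'⟩ := (h6_pos (W := U₀ →ₗ[ℂ] HW m (subE κ a)) (HomP υ₀ (hw m (subE κ a)) LinearMap.id)).1 hpos'
  refine ⟨a, ha.2, ?_⟩
  have hmem : subE κ a ∈ PP N m := by
    rcases subE_cases h a ha.2 with h1 | h1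
    · exfalso
      apply hψ0'
      refine LinearMap.ext fun v => Subtype.ext ?_
      have h3 : ∀ x ∈ HW m (subE κ a), x = 0 := fun x hx => by
        rw [h1, Submodule.mem_bot] at hx
        exact hx
      exact h3 _ (ψ v).2
    · exact h1
  refine ⟨hmem, ?_⟩
  haveI := ih1 _ hmem
  have hb := iso_of_ne υ₀ (hw m (subE κ a)) ψ (mem_HomP.1 hψ).1 hψ0'
  exact ⟨LinearEquiv.ofBijective ψ hb, (mem_HomP.1 hψ).1⟩

theorem disjoint' {m : ℕ} (ih1 : ∀ ν ∈ PP N m, (hw m ν).IsIrreducible)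
    (ih2 : ∀ ν ∈ PP N m, ∀ ν' ∈ PP N m, Iso (hw m ν) (hw m ν') → ν = ν') {κ κ' : Fin N → ℕ}
    (h : κ ∈ PP N (m + 1)) (h' : κ' ∈ PP N (m + 1)) {U : Type} [AddCommGroup U] [Module ℂ U] [FiniteDimensional ℂ U]
    (υ : Representation ℂ (Perm (Fin (m + 1))) U) [υ.IsIrreducible]
    (f : U →ₗ[ℂ] HW (m + 1) κ) (hf : ∀ g v, f (υ g v) = hw (m + 1) κ g (f v)) (hf0 : f ≠ 0)
    (f' : U →ₗ[ℂ] HW (m + 1) κ') (hf' : ∀ g v, f' (υ g v) = hw (m + 1) κ' g (f' v)) (hf'0 : f' ≠ 0) : κ = κ' := by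
  classical
  have hi := inj_of_ne υ (hw (m + 1) κ) f hf hf0
  have hi' := inj_of_ne υ (hw (m + 1) κ') f' hf' hf'0
  obtain ⟨v, hv⟩ : ∃ v : U, v ≠ 0 := by
    by_contra hcon
    push Not at hcon
    apply hf0
    refine LinearMap.ext fun v => ?_
    rw [hcon v, map_zero, map_zero]
  have hc : ct κ = ct κ' := by
    have h1 := h6_ct υ f hf hi v
    have h2 := h6_ct υ f' hf' hi' v
    rw [h1] at h2
    have h3 := smul_left_injective ℂ hv h2
    exact_mod_cast h3
  obtain ⟨U₀, hU₀, υ₀, hυ₀, hirr⟩ := exists_irr_sub (υ.comp (res1 m)) ⟨v, hv⟩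
  haveI := hirr
  obtain ⟨a, ha, has, e1, he1⟩ := h6_br ih1 h υ f hf hi U₀ hU₀ υ₀ hυ₀
  obtain ⟨b, hb, hbs, e2, he2⟩ := h6_br ih1 h' υ f' hf' hi' U₀ hU₀ υ₀ hυ₀
  have he : subE κ a = subE κ' b := by
    refine ih2 _ has _ hbs ⟨e1.symm.trans e2, fun g w => ?_⟩
    rw [LinearEquiv.trans_apply, LinearEquiv.trans_apply, ← he2]
    congr 1
    rw [LinearEquiv.symm_apply_eq, he1, LinearEquiv.apply_symm_apply]
  exact subE_inj h h' a b ha hb he has hc

end Pool.Agent.Helper51.TF
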