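import Pool.Agent.Helper51.TF.H6

/-!
BLOCK TF-H7 (about 250 lines). The classification, by induction on `m`.

Proof in words.
* `base`: `m = 0`: `PP N 0 = {0}`, `HW 0 0` is the one dimensional space of all functions on the only word (the sums over the empty set of positions vanish, `cnt x = 0`), so it is irreducible.
* `step`: choose for every `κ ∈ PP N (m+1)` an irreducible `U_κ ⊆ HW (m+1) κ` (`HW_ne_bot`, `exists_irr_sub`). They are pairwise non isomorphic (`disjoint'`). An irreducible `υ` of `S_{m+1}` is isomorphic to some `U_κ`: otherwise the family `U_κ`, `υ` (index `Option (PP N (m+1))`) has more members than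
  `card_irr_le`, `card_classes_le` allow (`m + 1 ≤ N`). Now fix `κ`. Every irreducible `U' ⊆ HW (m+1) κ` is isomorphic to some `U_{κ'}`, and `κ' = κ` by `disjoint'`. If `U_κ ≠ HW (m+1) κ` take an invariant complement `C ≠ 0` of `U_κ` (Maschke: e.g. `MonoidAlgebra`/`Representation` complement, or the orthogonal complement
  for an invariant inner product; look for an existing lemma in `Helper1/TS`, `Helper70/TU`), an irreducible `U' ⊆ C`, `U' ≅ U_κ`. Let `U₀` be an irreducible constituent of `U_κ|S_m` (`exists_irr_sub`): the maps `U₀ → U_κ → HW`, `U₀ → U_κ ≅ U' → HW` are linearly independent elements of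
  `HomP U₀ ((hw (m+1) κ).comp (res1 m)) id` (their images are in the independent subspaces `U_κ` and `C`), so its finrank is `≥ 2`. But by `branch_le` it is at most `∑_a mult(U₀, hw m (subE κ a)) ≤ 1`: the term `a` is `0` or `subE κ a ∈ PP N m`, `hw m (subE κ a)` irreducible, and the term is `1` if it is isomorphic to
  `U₀` and `0` otherwise (Schur), and the `subE κ a` are different for different `a` with `0 < κ a`, so by `ih2` at most one is isomorphic to `U₀`. So `U_κ = HW (m+1) κ` is irreducible, and different `κ` are not isomorphic by `disjoint'`.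
-/

set_option autoImplicit false

open Module Equiv Pool.Agent.Helper1.TS Pool.Agent.Helper70.TU Pool.Agent.Helper51.TN

namespace Pool.Agent.Helper51.TF

variable {N : ℕ}

private theorem irr_mk6 {G : Type} [Group G] {V : Type} [AddCommGroup V] [Module ℂ V]
    (ρ : Representation ℂ G V) (v : V) (hv : v ≠ 0)
    (h : ∀ A : Submodule ℂ V, (∀ (g : G) (x : V), x ∈ A → ρ g x ∈ A) → A = ⊥ ∨ A = ⊤) : ρ.IsIrreducible := by
  have hnt : Nontrivial (Subrepresentation ρ) := by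
    refine ⟨⟨⊥, ⊤, fun h0 => hv ?_⟩⟩
    have h1 : v ∈ (⊤ : Subrepresentation ρ).toSubmodule := Submodule.mem_top
    rw [← h0] at h1
    exact (Submodule.mem_bot ℂ).1 h1
  refine @IsSimpleOrder.mk _ _ _ hnt (fun A => ?_)
  rcases h A.toSubmodule A.apply_mem_toSubmodule with h0 | h0
  · left
    exact Subrepresentation.toSubmodule_injective h0
  · right
    exact Subrepresentation.toSubmodule_injective h0

private theorem sub_irr6 {G : Type} [Group G] {V : Type} [AddCommGroup V] [Module ℂ V]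
    (ρ : Representation ℂ G V) (hirr : ρ.IsIrreducible) (A : Submodule ℂ V)
    (hA : ∀ (g : G) (x : V), x ∈ A → ρ g x ∈ A) : A = ⊥ ∨ A = ⊤ := by
  rcases hirr.eq_bot_or_eq_top (⟨A, hA⟩ : Subrepresentation ρ) with h | h
  · left
    exact congrArg Subrepresentation.toSubmodule h
  · right
    exact congrArg Subrepresentation.toSubmodule h

private theorem irr_ne6 {G : Type} [Group G] {V : Type} [AddCommGroup V] [Module ℂ V]
    (ρ : Representation ℂ G V) (hirr : ρ.IsIrreducible) : ∃ v : V, v ≠ 0 := by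
  by_contra hcon
  push Not at hcon
  have h2 : (⊥ : Subrepresentation ρ) = ⊤ := by
    apply Subrepresentation.toSubmodule_injective
    change (⊥ : Submodule ℂ V) = ⊤
    refine le_antisymm bot_le fun x _ => ?_
    rw [Submodule.mem_bot]
    exact hcon x
  have h3 := hirr.toNontrivial
  exact bot_ne_top h2

private theorem irr_of_top6 {G : Type} [Group G] {V : Type} [AddCommGroup V] [Module ℂ V]
    (ρ : Representation ℂ G V) (U : Submodule ℂ V) (υ : Representation ℂ G U)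
    (hυ : ∀ (g : G) (u : U), (υ g u : V) = ρ g u) (hirr : υ.IsIrreducible) (hU : U = ⊤) : ρ.IsIrreducible := by
  obtain ⟨u, hu⟩ := irr_ne6 υ hirr
  refine irr_mk6 ρ (u : V) (fun h => hu (Subtype.ext h)) (fun A hA => ?_)
  rcases sub_irr6 υ hirr (A.comap U.subtype) (fun g x hx => by
    rw [Submodule.mem_comap] at hx ⊢
    rw [Submodule.coe_subtype] at hx ⊢
    rw [hυ]
    exact hA g _ hx) with h | h
  · left
    refine le_antisymm (fun x hx => ?_) bot_le
    have hxU : x ∈ U := by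
      rw [hU]
      exact Submodule.mem_top
    have h1 : (⟨x, hxU⟩ : U) ∈ A.comap U.subtype := hx
    rw [h, Submodule.mem_bot] at h1
    rw [Submodule.mem_bot]
    exact congrArg Subtype.val h1
  · right
    refine le_antisymm le_top (fun x _ => ?_)
    have hxU : x ∈ U := by
      rw [hU]
      exact Submodule.mem_top
    have h1 : (⟨x, hxU⟩ : U) ∈ A.comap U.subtype := by
      rw [h]
      exact Submodule.mem_top
    exact h1

private theorem iso_symm6 {G V W : Type*} [Group G] [AddCommGroup V] [Module ℂ V] [AddCommGroup W] [Module ℂ W]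
    {ρ : Representation ℂ G V} {σ : Representation ℂ G W} (h : Iso ρ σ) : Iso σ ρ := by
  obtain ⟨e, he⟩ := h
  refine ⟨e.symm, fun g v => ?_⟩
  have h1 := he g (e.symm v)
  rw [e.apply_symm_apply] at h1
  rw [← h1, e.symm_apply_apply]

private def VO6 {K : Type} (V : K → Type) (W : Type) : Option K → Type
  | none => W
  | some k => V k

private instance VO6a {K : Type} (V : K → Type) (W : Type) [∀ k, AddCommGroup (V k)] [AddCommGroup W] :
    ∀ o, AddCommGroup (VO6 V W o)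
  | none => (inferInstance : AddCommGroup W)
  | some k => (inferInstance : AddCommGroup (V k))

private instance VO6b {K : Type} (V : K → Type) (W : Type) [∀ k, AddCommGroup (V k)] [AddCommGroup W]
    [∀ k, Module ℂ (V k)] [Module ℂ W] : ∀ o, Module ℂ (VO6 V W o)
  | none => (inferInstance : Module ℂ W)
  | some k => (inferInstance : Module ℂ (V k))

private instance VO6c {K : Type} (V : K → Type) (W : Type) [∀ k, AddCommGroup (V k)] [AddCommGroup W]
    [∀ k, Module ℂ (V k)] [Module ℂ W] [∀ k, FiniteDimensional ℂ (V k)] [FiniteDimensional ℂ W] :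
    ∀ o, FiniteDimensional ℂ (VO6 V W o)
  | none => (inferInstance : FiniteDimensional ℂ W)
  | some k => (inferInstance : FiniteDimensional ℂ (V k))

private theorem exists_iso6 {m : ℕ} {K : Type} [Fintype K] (V : K → Type) [∀ k, AddCommGroup (V k)]
    [∀ k, Module ℂ (V k)] [∀ k, FiniteDimensional ℂ (V k)] (ρ : ∀ k, Representation ℂ (Perm (Fin m)) (V k))
    (hirr : ∀ k, (ρ k).IsIrreducible) (hne : ∀ k l, k ≠ l → ¬ Iso (ρ k) (ρ l))
    (hcard : Nat.card (ConjClasses (Perm (Fin m))) ≤ Fintype.card K)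
    {W : Type} [AddCommGroup W] [Module ℂ W] [FiniteDimensional ℂ W]
    (σ : Representation ℂ (Perm (Fin m)) W) (hσ : σ.IsIrreducible) : ∃ k, Iso σ (ρ k) := by
  by_contra hcon
  push Not at hcon
  let ρ' : ∀ o, Representation ℂ (Perm (Fin m)) (VO6 V W o) := fun o => match o with
    | none => σ
    | some k => ρ k
  have h := card_irr_le (VO6 V W) ρ' (fun o => match o with
    | none => hσ
    | some k => hirr k) (fun o o' hoo => match o, o', hoo with
    | none, none, h => absurd rfl h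
    | none, some k, _ => fun hi => hcon k hi
    | some k, none, _ => fun hi => hcon k (iso_symm6 (ρ := ρ k) (σ := σ) hi)
    | some k, some l, h => hne k l (fun hkl => h (congrArg some hkl)))
  rw [Fintype.card_option] at h
  omega

private theorem schur_le6 {G : Type} [Group G] {V W : Type} [AddCommGroup V] [Module ℂ V] [FiniteDimensional ℂ V]
    [AddCommGroup W] [Module ℂ W] [FiniteDimensional ℂ W] (ρ : Representation ℂ G V) (hρ : ρ.IsIrreducible)
    (σ : Representation ℂ G W) (hσ : σ.IsIrreducible) : finrank ℂ (HomP ρ σ LinearMap.id) ≤ 1 := by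
  have := hρ
  have := hσ
  by_cases h0 : ∀ g : HomP ρ σ LinearMap.id, g = 0
  · have : Subsingleton (HomP ρ σ LinearMap.id) := ⟨fun a b => (h0 a).trans (h0 b).symm⟩
    rw [finrank_zero_of_subsingleton]
    exact zero_le_one
  · push Not at h0
    obtain ⟨g, hg⟩ := h0
    have hg1 : (g : V →ₗ[ℂ] W) ≠ 0 := fun h => hg (Subtype.ext h)
    have hgb := iso_of_ne ρ σ (g : V →ₗ[ℂ] W) (mem_HomP.1 g.2).1 hg1
    refine finrank_le_one g (fun f => ?_)
    let e : V ≃ₗ[ℂ] W := LinearEquiv.ofBijective (g : V →ₗ[ℂ] W) hgb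
    have he : ∀ v, e v = (g : V →ₗ[ℂ] W) v := fun v => rfl
    obtain ⟨v0, hv0⟩ := irr_ne6 ρ hρ
    have : Nontrivial V := ⟨⟨v0, 0, hv0⟩⟩
    obtain ⟨c, hc⟩ := Module.End.exists_eigenvalue ((e.symm : W →ₗ[ℂ] V) ∘ₗ (f : V →ₗ[ℂ] W) : Module.End ℂ V)
    obtain ⟨v, hv⟩ := hc.exists_hasEigenvector
    have hv1 : e.symm ((f : V →ₗ[ℂ] W) v) = c • v := hv.apply_eq_smul
    have hv2 : (f : V →ₗ[ℂ] W) v = c • (g : V →ₗ[ℂ] W) v := by
      rw [← he, ← map_smul, ← hv1, e.apply_symm_apply]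
    refine ⟨c, ?_⟩
    by_contra hne
    have hd : (f : V →ₗ[ℂ] W) - c • (g : V →ₗ[ℂ] W) ≠ 0 := by
      intro h
      apply hne
      apply Subtype.ext
      exact (sub_eq_zero.1 h).symm
    have hb := iso_of_ne ρ σ ((f : V →ₗ[ℂ] W) - c • (g : V →ₗ[ℂ] W)) (fun x y => by
      rw [LinearMap.sub_apply, LinearMap.sub_apply, LinearMap.smul_apply, LinearMap.smul_apply,
        (mem_HomP.1 g.2).1, (mem_HomP.1 f.2).1, map_sub, map_smul]) hd
    apply hv.2
    apply hb.1
    rw [map_zero, LinearMap.sub_apply, LinearMap.smul_apply, hv2, sub_self]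

private theorem two_le6 {G : Type} [Group G] {V W : Type} [AddCommGroup V] [Module ℂ V] [FiniteDimensional ℂ V]
    [AddCommGroup W] [Module ℂ W] [FiniteDimensional ℂ W] (ρ : Representation ℂ G V)
    (σ : Representation ℂ G W) (f g : V →ₗ[ℂ] W) (hf : ∀ x v, f (ρ x v) = σ x (f v)) (hg : ∀ x v, g (ρ x v) = σ x (g v))
    (A B : Submodule ℂ W) (hAB : A ⊓ B = ⊥) (hfA : ∀ v, f v ∈ A) (hgB : ∀ v, g v ∈ B) (hf0 : f ≠ 0) (hg0 : g ≠ 0) :
    2 ≤ finrank ℂ (HomP ρ σ LinearMap.id) := by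
  let f' : HomP ρ σ LinearMap.id := ⟨f, hf, fun _ => rfl⟩
  let g' : HomP ρ σ LinearMap.id := ⟨g, hg, fun _ => rfl⟩
  have hli : LinearIndependent ℂ ![f', g'] := by
    rw [LinearIndependent.pair_iff]
    intro s t hst
    have hst' : s • f + t • g = 0 := congrArg Subtype.val hst
    have h1 : ∀ v, s • f v = 0 ∧ t • g v = 0 := by
      intro v
      have h2 : s • f v + t • g v = 0 := by
        have := LinearMap.congr_fun hst' v
        simpa using this
      have h3 : s • f v = -(t • g v) := eq_neg_of_add_eq_zero_left h2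
      have h4 : s • f v ∈ A ⊓ B := by
        refine ⟨A.smul_mem _ (hfA v), ?_⟩
        change s • f v ∈ B
        rw [h3]
        exact B.neg_mem (B.smul_mem _ (hgB v))
      rw [hAB, Submodule.mem_bot] at h4
      refine ⟨h4, ?_⟩
      rw [h4, zero_add] at h2
      exact h2
    constructor
    · by_contra hs
      apply hf0
      refine LinearMap.ext fun v => ?_
      rcases smul_eq_zero.1 (h1 v).1 with h | h
      · exact absurd h hs
      · exact h
    · by_contra ht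
      apply hg0
      refine LinearMap.ext fun v => ?_
      rcases smul_eq_zero.1 (h1 v).2 with h | h
      · exact absurd h ht
      · exact h
  have := hli.fintype_card_le_finrank
  simpa using this

private theorem two6 {G H : Type} [Group G] [Group H] {V W : Type} [AddCommGroup V] [Module ℂ V]
    [FiniteDimensional ℂ V] [AddCommGroup W] [Module ℂ W] [FiniteDimensional ℂ W] (r : H →* G)
    (ρ : Representation ℂ G W) (υ : Representation ℂ G V) (hV : ∃ v : V, v ≠ 0) (f g : V →ₗ[ℂ] W)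
    (hf : ∀ x v, f (υ x v) = ρ x (f v)) (hg : ∀ x v, g (υ x v) = ρ x (g v))
    (A B : Submodule ℂ W) (hAB : A ⊓ B = ⊥) (hfA : ∀ v, f v ∈ A) (hgB : ∀ v, g v ∈ B)
    (hfi : Function.Injective f) (hgi : Function.Injective g) :
    ∃ (U : Type) (_ : AddCommGroup U) (_ : Module ℂ U) (_ : FiniteDimensional ℂ U) (υ₀ : Representation ℂ H U),
      υ₀.IsIrreducible ∧ 2 ≤ finrank ℂ (HomP υ₀ (ρ.comp r) LinearMap.id) := by
  obtain ⟨U₀, hU₀ne, υ₀, hυ₀, hirr₀⟩ := exists_irr_sub (υ.comp r) hV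
  obtain ⟨u, hu, hu0⟩ := Submodule.exists_mem_ne_zero_of_ne_bot hU₀ne
  refine ⟨U₀, inferInstance, inferInstance, inferInstance, υ₀, hirr₀, ?_⟩
  refine two_le6 υ₀ (ρ.comp r) (f ∘ₗ U₀.subtype) (g ∘ₗ U₀.subtype) (fun x v => ?_) (fun x v => ?_) A B hAB
    (fun v => hfA _) (fun v => hgB _) (fun h => ?_) (fun h => ?_)
  · change f ((υ₀ x v : U₀) : V) = ρ (r x) (f (v : V))
    rw [hυ₀, ← hf]
    rfl
  · change g ((υ₀ x v : U₀) : V) = ρ (r x) (g (v : V))
    rw [hυ₀, ← hg]
    rfl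
  · apply hu0
    have h1 : f u = 0 := LinearMap.congr_fun h ⟨u, hu⟩
    exact hfi (h1.trans (map_zero f).symm)
  · apply hu0
    have h1 : g u = 0 := LinearMap.congr_fun h ⟨u, hu⟩
    exact hgi (h1.trans (map_zero g).symm)

private theorem iso_trans6 {G V W X : Type*} [Group G] [AddCommGroup V] [Module ℂ V] [AddCommGroup W] [Module ℂ W]
    [AddCommGroup X] [Module ℂ X]
    {ρ : Representation ℂ G V} {σ : Representation ℂ G W} {τ : Representation ℂ G X} (h : Iso ρ σ) (h' : Iso σ τ) :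
    Iso ρ τ := by
  obtain ⟨e, he⟩ := h
  obtain ⟨e', he'⟩ := h'
  refine ⟨e.trans e', fun g v => ?_⟩
  rw [LinearEquiv.trans_apply, LinearEquiv.trans_apply, he, he']

private theorem compl6 {G : Type} [Group G] [Finite G] {V : Type} [AddCommGroup V] [Module ℂ V]
    [FiniteDimensional ℂ V] (ρ : Representation ℂ G V) (U : Submodule ℂ V)
    (hU : ∀ (g : G) (v : V), v ∈ U → ρ g v ∈ U) (hne : U ≠ ⊤) :
    ∃ C : Submodule ℂ V, U ⊓ C = ⊥ ∧ ∃ (W : Type) (_ : AddCommGroup W) (_ : Module ℂ W) (_ : FiniteDimensional ℂ W)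
      (τ : Representation ℂ G W) (f : W →ₗ[ℂ] V), τ.IsIrreducible ∧ (∀ g w, f (τ g w) = ρ g (f w)) ∧
        (∀ w, f w ∈ C) ∧ Function.Injective f := by
  obtain ⟨C, hC⟩ := exists_isCompl (⟨U, hU⟩ : Subrepresentation ρ)
  have hinf : U ⊓ C.toSubmodule = ⊥ := congrArg Subrepresentation.toSubmodule hC.inf_eq_bot
  have hsup : U ⊔ C.toSubmodule = ⊤ := congrArg Subrepresentation.toSubmodule hC.sup_eq_top
  have hCne : C.toSubmodule ≠ ⊥ := by
    intro h
    apply hne
    rw [h, sup_bot_eq] at hsup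
    exact hsup
  obtain ⟨c, hcC, hc0⟩ := Submodule.exists_mem_ne_zero_of_ne_bot hCne
  obtain ⟨U', hU'ne, υ', hυ', hirr'⟩ := exists_irr_sub C.toRepresentation
    ⟨⟨c, hcC⟩, fun h => hc0 (congrArg Subtype.val h)⟩
  refine ⟨C.toSubmodule, hinf, U', inferInstance, inferInstance, inferInstance, υ',
    C.toSubmodule.subtype ∘ₗ U'.subtype, hirr', fun g w => ?_, fun w => (w : C.toSubmodule).2, ?_⟩
  · change (((υ' g w : U') : C.toSubmodule) : V) = ρ g ((w : C.toSubmodule) : V)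
    rw [hυ']
    rfl
  · intro w w' h
    exact Subtype.ext (Subtype.ext h)

private theorem disj6 {m : ℕ} (ih1 : ∀ ν ∈ PP N m, (hw m ν).IsIrreducible)
    (ih2 : ∀ ν ∈ PP N m, ∀ ν' ∈ PP N m, Iso (hw m ν) (hw m ν') → ν = ν') {κ κ' : Fin N → ℕ}
    (h : κ ∈ PP N (m + 1)) (h' : κ' ∈ PP N (m + 1)) {U W : Type} [AddCommGroup U] [Module ℂ U] [FiniteDimensional ℂ U]
    [AddCommGroup W] [Module ℂ W]
    (υ : Representation ℂ (Perm (Fin (m + 1))) U) (hirr : υ.IsIrreducible) (τ : Representation ℂ (Perm (Fin (m + 1))) W)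
    (f : U →ₗ[ℂ] HW (m + 1) κ) (hf : ∀ g v, f (υ g v) = hw (m + 1) κ g (f v)) (hf0 : f ≠ 0)
    (f' : W →ₗ[ℂ] HW (m + 1) κ') (hf' : ∀ g v, f' (τ g v) = hw (m + 1) κ' g (f' v)) (hf'0 : f' ≠ 0)
    (hiso : Iso υ τ) : κ = κ' := by
  obtain ⟨e, he⟩ := hiso
  have := hirr
  refine disjoint' ih1 ih2 h h' υ f hf hf0 (f' ∘ₗ e.toLinearMap) (fun g v => ?_) (fun h0 => hf'0 ?_)
  · change f' (e (υ g v)) = hw (m + 1) κ' g (f' (e v))
    rw [he, hf']
  · refine LinearMap.ext fun w => ?_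
    have h1 := LinearMap.congr_fun h0 (e.symm w)
    change f' (e (e.symm w)) = 0 at h1
    rw [e.apply_symm_apply] at h1
    exact h1

private theorem branch_one6 {m : ℕ} (ih1 : ∀ ν ∈ PP N m, (hw m ν).IsIrreducible)
    (ih2 : ∀ ν ∈ PP N m, ∀ ν' ∈ PP N m, Iso (hw m ν) (hw m ν') → ν = ν') {κ : Fin N → ℕ} (hκ : κ ∈ PP N (m + 1))
    {U : Type} [AddCommGroup U] [Module ℂ U] [FiniteDimensional ℂ U]
    (υ : Representation ℂ (Perm (Fin m)) U) (hυ : υ.IsIrreducible) :
    finrank ℂ (HomP υ ((hw (m + 1) κ).comp (res1 m)) LinearMap.id) ≤ 1 := by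
  refine (branch_le κ υ).trans ?_
  have hzero : ∀ a : Fin N, 0 < κ a → finrank ℂ (HomP υ (hw m (subE κ a)) LinearMap.id) ≠ 0 →
      subE κ a ∈ PP N m ∧ Iso υ (hw m (subE κ a)) := by
    intro a ha hne
    have hnt : ∃ f : HomP υ (hw m (subE κ a)) LinearMap.id, f ≠ 0 := by
      by_contra hcon
      push Not at hcon
      have : Subsingleton (HomP υ (hw m (subE κ a)) LinearMap.id) := ⟨fun a b => (hcon a).trans (hcon b).symm⟩
      exact hne finrank_zero_of_subsingleton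
    obtain ⟨f, hf⟩ := hnt
    have hf1 : (f : U →ₗ[ℂ] HW m (subE κ a)) ≠ 0 := fun h => hf (Subtype.ext h)
    rcases subE_cases hκ a ha with h | h
    · exfalso
      apply hf1
      refine LinearMap.ext fun v => Subtype.ext ?_
      have h1 : (((f : U →ₗ[ℂ] HW m (subE κ a)) v : HW m (subE κ a)) : (Fin m → Fin N) → ℂ) ∈ HW m (subE κ a) :=
        ((f : U →ₗ[ℂ] HW m (subE κ a)) v).2
      exact (Submodule.mem_bot ℂ).1 (h.le h1)
    · refine ⟨h, ?_⟩
      have := ih1 _ h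
      have := hυ
      have hb := iso_of_ne υ (hw m (subE κ a)) (f : U →ₗ[ℂ] HW m (subE κ a)) (mem_HomP.1 f.2).1 hf1
      exact ⟨LinearEquiv.ofBijective (f : U →ₗ[ℂ] HW m (subE κ a)) hb, fun g v => (mem_HomP.1 f.2).1 g v⟩
  by_cases hall : ∀ a ∈ Finset.univ.filter (fun a : Fin N => 0 < κ a),
      finrank ℂ (HomP υ (hw m (subE κ a)) LinearMap.id) = 0
  · rw [Finset.sum_eq_zero hall]
    exact zero_le_one
  · push Not at hall
    obtain ⟨a, ha, hane⟩ := hall
    have ha1 := (Finset.mem_filter.1 ha).2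
    have h1 := hzero a ha1 hane
    rw [Finset.sum_eq_single_of_mem a ha (fun b hb hba => ?_)]
    · exact schur_le6 υ hυ _ (ih1 _ h1.1)
    · by_contra hbne
      have hb1 := (Finset.mem_filter.1 hb).2
      have h2 := hzero b hb1 hbne
      have h3 := ih2 _ h1.1 _ h2.1 (iso_trans6 (iso_symm6 h1.2) h2.2)
      have h4 := congrFun h3 a
      unfold subE at h4
      rw [if_pos rfl, if_neg (fun h => hba h.symm)] at h4
      omega

theorem base : (∀ ν ∈ PP N 0, (hw 0 ν).IsIrreducible) ∧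
    (∀ ν ∈ PP N 0, ∀ ν' ∈ PP N 0, Iso (hw 0 ν) (hw 0 ν') → ν = ν') := by
  have hz : ∀ ν ∈ PP N 0, ν = 0 := by
    intro ν hν
    have h := (mem_PP.1 hν).2
    funext i
    have h1 := Finset.single_le_sum (f := ν) (fun _ _ => Nat.zero_le _) (Finset.mem_univ i)
    rw [h] at h1
    exact Nat.le_zero.1 h1
  refine ⟨fun ν hν => ?_, fun ν hν ν' hν' _ => (hz ν hν).trans (hz ν' hν').symm⟩
  obtain rfl := hz ν hν
  have hone : (fun _ => 1 : (Fin 0 → Fin N) → ℂ) ∈ HW 0 (0 : Fin N → ℕ) := by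
    rw [mem_HW]
    refine ⟨fun x hx => absurd ?_ hx, fun i j hij x => ?_⟩
    · funext i
      rfl
    · rfl
  have hval : ∀ (f : HW 0 (0 : Fin N → ℕ)) (x : Fin 0 → Fin N),
      (f : (Fin 0 → Fin N) → ℂ) x = (f : (Fin 0 → Fin N) → ℂ) Fin.elim0 := by
    intro f x
    exact congrArg (f : (Fin 0 → Fin N) → ℂ) (Subsingleton.elim x Fin.elim0)
  refine irr_mk6 (hw 0 0) ⟨_, hone⟩ (fun h => ?_) (fun A _ => ?_)
  · have h1 := congrArg (fun f : HW 0 (0 : Fin N → ℕ) => (f : (Fin 0 → Fin N) → ℂ) Fin.elim0) h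
    exact one_ne_zero h1
  · by_cases hA : A = ⊥
    · exact Or.inl hA
    · right
      obtain ⟨v, hvA, hv⟩ := Submodule.exists_mem_ne_zero_of_ne_bot hA
      have hv0 : (v : (Fin 0 → Fin N) → ℂ) Fin.elim0 ≠ 0 := by
        intro h
        apply hv
        apply Subtype.ext
        funext x
        rw [hval, h]
        rfl
      refine le_antisymm le_top (fun w _ => ?_)
      have hw1 : w = ((w : (Fin 0 → Fin N) → ℂ) Fin.elim0 / (v : (Fin 0 → Fin N) → ℂ) Fin.elim0) • v := by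
        apply Subtype.ext
        funext x
        rw [Submodule.coe_smul, Pi.smul_apply, smul_eq_mul, hval w x, hval v x, div_mul_cancel₀ _ hv0]
      rw [hw1]
      exact A.smul_mem _ hvA

theorem step {m : ℕ} (hN : m + 1 ≤ N) (ih1 : ∀ ν ∈ PP N m, (hw m ν).IsIrreducible)
    (ih2 : ∀ ν ∈ PP N m, ∀ ν' ∈ PP N m, Iso (hw m ν) (hw m ν') → ν = ν') :
    (∀ κ ∈ PP N (m + 1), (hw (m + 1) κ).IsIrreducible) ∧
      (∀ κ ∈ PP N (m + 1), ∀ κ' ∈ PP N (m + 1), Iso (hw (m + 1) κ) (hw (m + 1) κ') → κ = κ') := by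
  classical
  have hnz : ∀ κ : {κ : Fin N → ℕ // κ ∈ PP N (m + 1)}, ∃ v : HW (m + 1) κ.1, v ≠ 0 := by
    intro κ
    have h1 := HW_ne_bot (m + 1) κ.1 (mem_PP.1 κ.2).1 (mem_PP.1 κ.2).2
    obtain ⟨v, hv, hv0⟩ := Submodule.exists_mem_ne_zero_of_ne_bot h1
    exact ⟨⟨v, hv⟩, fun h => hv0 (congrArg Subtype.val h)⟩
  have hU := fun κ : {κ : Fin N → ℕ // κ ∈ PP N (m + 1)} => exists_irr_sub (hw (m + 1) κ.1) (hnz κ)
  choose U hUne υ hυ hirr using hU
  have hsub : ∀ κ, (U κ).subtype ≠ 0 := by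
    intro κ h
    obtain ⟨v, hv, hv0⟩ := Submodule.exists_mem_ne_zero_of_ne_bot (hUne κ)
    exact hv0 (LinearMap.congr_fun h ⟨v, hv⟩)
  have hdis : ∀ κ κ', κ ≠ κ' → ¬ Iso (υ κ) (υ κ') := by
    intro κ κ' hne hiso
    apply hne
    apply Subtype.ext
    exact disj6 (U := U κ) (W := U κ') ih1 ih2 κ.2 κ'.2 (υ κ) (hirr κ) (υ κ') (U κ).subtype (hυ κ) (hsub κ)
      (U κ').subtype (hυ κ') (hsub κ') hiso
  have hcard := (card_classes_le hN).trans_eq (Fintype.card_coe (PP N (m + 1))).symm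
  have htop : ∀ κ, U κ = ⊤ := by
    intro κ
    by_contra hne
    obtain ⟨C, hinf, W, _, _, _, τ, f, hτ, hf, hfC, hfi⟩ := compl6 (hw (m + 1) κ.1) (U κ) (fun g v hv => by
      have := (υ κ g ⟨v, hv⟩).2
      rw [hυ] at this
      exact this) hne
    obtain ⟨w, hw0⟩ := irr_ne6 τ hτ
    have hf0 : f ≠ 0 := fun h => hw0 (hfi ((LinearMap.congr_fun h w).trans (map_zero f).symm))
    obtain ⟨κ', hiso⟩ := exists_iso6 (fun κ => U κ) υ hirr hdis hcard τ hτ
    have hκ : κ = κ' := by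
      apply Subtype.ext
      exact disj6 (U := W) (W := U κ') ih1 ih2 κ.2 κ'.2 τ hτ (υ κ') f hf hf0 (U κ').subtype (hυ κ') (hsub κ') hiso
    subst hκ
    obtain ⟨e, he⟩ := iso_symm6 hiso
    obtain ⟨w', hw'0⟩ := irr_ne6 (V := U κ) (υ κ) (hirr κ)
    have hυκ : ∀ (x : Perm (Fin (m + 1))) (v : U κ),
        (U κ).subtype (υ κ x v) = hw (m + 1) κ.1 x ((U κ).subtype v) := hυ κ
    have hfe : ∀ (x : Perm (Fin (m + 1))) (v : U κ),
        (f ∘ₗ e.toLinearMap) (υ κ x v) = hw (m + 1) κ.1 x ((f ∘ₗ e.toLinearMap) v) := by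
      intro x v
      change f (e (υ κ x v)) = hw (m + 1) κ.1 x (f (e v))
      rw [he, hf]
    obtain ⟨U₀, _, _, _, υ₀, hirr₀, h2⟩ := two6 (V := U κ) (W := HW (m + 1) κ.1) (res1 m) (hw (m + 1) κ.1) (υ κ)
      ⟨w', hw'0⟩ (U κ).subtype (f ∘ₗ e.toLinearMap) hυκ hfe (U κ) C hinf (fun v => v.2) (fun v => hfC _)
      (fun v v' h => Subtype.ext h) (fun v v' h => e.injective (hfi h))
    have h1 := branch_one6 ih1 ih2 κ.2 υ₀ hirr₀
    omega
  have hall : ∀ κ ∈ PP N (m + 1), (hw (m + 1) κ).IsIrreducible := fun κ hκ =>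
    irr_of_top6 (hw (m + 1) κ) (U ⟨κ, hκ⟩) (υ ⟨κ, hκ⟩) (hυ ⟨κ, hκ⟩) (hirr ⟨κ, hκ⟩) (htop ⟨κ, hκ⟩)
  refine ⟨hall, fun κ hκ κ' hκ' hiso => ?_⟩
  obtain ⟨e, he⟩ := hiso
  have := hall κ hκ
  obtain ⟨w, hw0⟩ := irr_ne6 (hw (m + 1) κ) (hall κ hκ)
  refine disjoint' ih1 ih2 hκ hκ' (hw (m + 1) κ) LinearMap.id (fun _ _ => rfl) (fun h => ?_)
    (e : HW (m + 1) κ →ₗ[ℂ] HW (m + 1) κ') he (fun h => ?_)
  · exact hw0 (LinearMap.congr_fun h w)
  · apply hw0
    have h1 : e w = 0 := LinearMap.congr_fun h w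
    have h2 := congrArg e.symm h1
    rw [e.symm_apply_apply, map_zero] at h2
    exact h2

theorem hw_irr {m : ℕ} (hN : m ≤ N) : (∀ ν ∈ PP N m, (hw m ν).IsIrreducible) ∧
    (∀ ν ∈ PP N m, ∀ ν' ∈ PP N m, Iso (hw m ν) (hw m ν') → ν = ν') := by
  induction m with
  | zero => exact base
  | succ m ih =>
    have h := ih (by omega)
    exact step hN h.1 h.2

theorem exists_lab {m : ℕ} (hN : m ≤ N) {V : Type} [AddCommGroup V] [Module ℂ V] [FiniteDimensional ℂ V]
    (ρ : Representation ℂ (Perm (Fin m)) V) [ρ.IsIrreducible] : ∃ κ ∈ PP N m, Lab ρ κ := by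
  classical
  have h := hw_irr hN
  obtain ⟨κ, hκ⟩ := exists_iso6 (K := {κ : Fin N → ℕ // κ ∈ PP N m}) (fun κ => HW m κ.1) (fun κ => hw m κ.1)
    (fun κ => h.1 κ.1 κ.2) (fun κ κ' hne hi => hne (Subtype.ext (h.2 κ.1 κ.2 κ'.1 κ'.2 hi))) (by
      exact (card_classes_le hN).trans_eq (Fintype.card_coe _).symm) ρ inferInstance
  exact ⟨κ.1, κ.2, hκ⟩

theorem lab_unique {m : ℕ} (hN : m ≤ N) {V : Type*} [AddCommGroup V] [Module ℂ V]
    (ρ : Representation ℂ (Perm (Fin m)) V) {κ κ' : Fin N → ℕ} (h : κ ∈ PP N m) (h' : κ' ∈ PP N m)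
    (hl : Lab ρ κ) (hl' : Lab ρ κ') : κ = κ' := by
  obtain ⟨e, he⟩ := hl
  obtain ⟨e', he'⟩ := hl'
  refine (hw_irr hN).2 κ h κ' h' ⟨e.symm.trans e', fun g v => ?_⟩
  have h1 : e.symm (hw m κ g v) = ρ g (e.symm v) := by
    apply e.injective
    rw [he, e.apply_symm_apply, e.apply_symm_apply]
  rw [LinearEquiv.trans_apply, LinearEquiv.trans_apply, h1, he']

end Pool.Agent.Helper51.TF
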