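import Pool.Agent.Helper51.TN.Defs

/-!
Project TF (MP_22c541_al), section 7. Highest weight vectors in the space of functions on words.

`Fin m → ι` are the words of length `m`; `S_m` acts on functions of words by `(g f)(x) = f (x ∘ g)`.
`HW m κ` (letters `Fin N`, `κ : Fin N → ℕ`): the functions supported on the words with `κ i` letters `i`, and killed by the raising
operators `f ↦ (x ↦ ∑_{p, x p = i} f (x with x p := j))`, `i < j`.
`HH m κ`: the functions of pairs of words `(x, y)` (words in the letters `Fin N × Fin N`) which are in `HW m κ` in both variables.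
-/

set_option autoImplicit false

open Module Equiv Pool.Agent.Helper1.TS Pool.Agent.Helper70.TU Pool.Agent.Helper51.TN

namespace Pool.Agent.Helper51.TF

/-- Two representations are isomorphic. -/
def Iso {G V W : Type*} [Group G] [AddCommGroup V] [Module ℂ V] [AddCommGroup W] [Module ℂ W]
    (ρ : Representation ℂ G V) (σ : Representation ℂ G W) : Prop :=
  ∃ e : V ≃ₗ[ℂ] W, ∀ (g : G) (v : V), e (ρ g v) = σ g (e v)

/-- The action of `S_m` on functions of words. -/
noncomputable def wact (ι : Type) (m : ℕ) : Representation ℂ (Perm (Fin m)) ((Fin m → ι) → ℂ) where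
  toFun g := { toFun := fun f x => f (x ∘ g), map_add' := fun _ _ => rfl, map_smul' := fun _ _ => rfl }
  map_one' := rfl
  map_mul' _ _ := rfl

theorem wact_apply (ι : Type) (m : ℕ) (g : Perm (Fin m)) (f : (Fin m → ι) → ℂ) (x : Fin m → ι) :
    wact ι m g f x = f (x ∘ g) := rfl

/-- The number of letters `i` of a word. -/
def cnt {m : ℕ} {ι : Type} [DecidableEq ι] (x : Fin m → ι) (i : ι) : ℕ :=
  (Finset.univ.filter (fun p => x p = i)).card

section

variable {N : ℕ}

/-- Highest weight vectors of weight `κ`. -/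
def HW (m : ℕ) (κ : Fin N → ℕ) : Submodule ℂ ((Fin m → Fin N) → ℂ) where
  carrier := {f | (∀ x, cnt x ≠ κ → f x = 0) ∧ ∀ i j : Fin N, i < j → ∀ x : Fin m → Fin N,
    ∑ p ∈ Finset.univ.filter (fun p => x p = i), f (Function.update x p j) = 0}
  add_mem' := by
    rintro f g ⟨hf, hf'⟩ ⟨hg, hg'⟩
    refine ⟨fun x hx => ?_, fun i j hij x => ?_⟩
    · rw [Pi.add_apply, hf x hx, hg x hx, add_zero]
    · simp only [Pi.add_apply]
      rw [Finset.sum_add_distrib, hf' i j hij x, hg' i j hij x, add_zero]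
  zero_mem' := ⟨fun _ _ => rfl, fun _ _ _ _ => Finset.sum_eq_zero fun _ _ => rfl⟩
  smul_mem' := by
    rintro c f ⟨hf, hf'⟩
    refine ⟨fun x hx => ?_, fun i j hij x => ?_⟩
    · rw [Pi.smul_apply, hf x hx, smul_zero]
    · simp only [Pi.smul_apply]
      rw [← Finset.smul_sum, hf' i j hij x, smul_zero]

theorem mem_HW {m : ℕ} {κ : Fin N → ℕ} {f : (Fin m → Fin N) → ℂ} :
    f ∈ HW m κ ↔ (∀ x, cnt x ≠ κ → f x = 0) ∧ ∀ i j : Fin N, i < j → ∀ x : Fin m → Fin N,
      ∑ p ∈ Finset.univ.filter (fun p => x p = i), f (Function.update x p j) = 0 := Iff.rfl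

theorem cnt_comp {m : ℕ} {ι : Type} [DecidableEq ι] (x : Fin m → ι) (g : Perm (Fin m)) :
    cnt (x ∘ g) = cnt x := by
  funext i
  unfold cnt
  refine Finset.card_bij (fun p _ => g p) ?_ ?_ ?_
  · intro p hp
    rw [Finset.mem_filter] at hp ⊢
    exact ⟨Finset.mem_univ _, hp.2⟩
  · intro p _ q _ h
    exact g.injective h
  · intro q hq
    rw [Finset.mem_filter] at hq
    refine ⟨g⁻¹ q, ?_, by simp⟩
    rw [Finset.mem_filter]
    exact ⟨Finset.mem_univ _, by simpa using hq.2⟩

theorem wact_mem_HW {m : ℕ} {κ : Fin N → ℕ} (g : Perm (Fin m)) {f : (Fin m → Fin N) → ℂ} (hf : f ∈ HW m κ) :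
    wact (Fin N) m g f ∈ HW m κ := by
  refine ⟨fun x hx => ?_, fun i j hij x => ?_⟩
  · rw [wact_apply]
    exact hf.1 _ (by rwa [cnt_comp])
  · simp only [wact_apply]
    rw [← hf.2 i j hij (x ∘ g)]
    refine Finset.sum_bij' (fun p _ => g⁻¹ p) (fun p _ => g p) ?_ ?_ ?_ ?_ ?_
    · intro p hp
      rw [Finset.mem_filter] at hp ⊢
      exact ⟨Finset.mem_univ _, by simpa using hp.2⟩
    · intro p hp
      rw [Finset.mem_filter] at hp ⊢
      exact ⟨Finset.mem_univ _, hp.2⟩
    · intro p _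
      simp
    · intro p _
      simp
    · intro p _
      congr 1
      funext q
      simp only [Function.comp_apply, Function.update_apply]
      have h1 : (g q = p) ↔ (q = g⁻¹ p) := by
        constructor
        · rintro rfl
          simp
        · rintro rfl
          simp
      by_cases h : g q = p
      · rw [if_pos h, if_pos (h1.1 h)]
      · rw [if_neg h, if_neg (fun h2 => h (h1.2 h2))]

/-- The representation of `S_m` on `HW m κ`. -/
noncomputable def hw (m : ℕ) (κ : Fin N → ℕ) : Representation ℂ (Perm (Fin m)) (HW m κ) where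
  toFun g := (wact (Fin N) m g).restrict fun _ hf => wact_mem_HW g hf
  map_one' := rfl
  map_mul' _ _ := rfl

theorem hw_coe (m : ℕ) (κ : Fin N → ℕ) (g : Perm (Fin m)) (f : HW m κ) (x : Fin m → Fin N) :
    (hw m κ g f : (Fin m → Fin N) → ℂ) x = (f : (Fin m → Fin N) → ℂ) (x ∘ g) := rfl

/-- `ρ` is isomorphic to `HW m κ`. -/
def Lab {m : ℕ} {V : Type*} [AddCommGroup V] [Module ℂ V] (ρ : Representation ℂ (Perm (Fin m)) V) (κ : Fin N → ℕ) : Prop :=
  Iso ρ (hw m κ)

/-- The function of `x` with `y` fixed. -/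
def sec1 {m : ℕ} (z : (Fin m → Fin N × Fin N) → ℂ) (y : Fin m → Fin N) : (Fin m → Fin N) → ℂ :=
  fun x => z (fun p => (x p, y p))

/-- The function of `y` with `x` fixed. -/
def sec2 {m : ℕ} (z : (Fin m → Fin N × Fin N) → ℂ) (x : Fin m → Fin N) : (Fin m → Fin N) → ℂ :=
  fun y => z (fun p => (x p, y p))

/-- Functions of pairs of words, highest weight vectors in both variables. -/
def HH (m : ℕ) (κ : Fin N → ℕ) : Submodule ℂ ((Fin m → Fin N × Fin N) → ℂ) where
  carrier := {z | (∀ y, sec1 z y ∈ HW m κ) ∧ ∀ x, sec2 z x ∈ HW m κ}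
  add_mem' := by
    rintro z w ⟨hz, hz'⟩ ⟨hw, hw'⟩
    exact ⟨fun y => Submodule.add_mem _ (hz y) (hw y), fun x => Submodule.add_mem _ (hz' x) (hw' x)⟩
  zero_mem' := ⟨fun _ => Submodule.zero_mem _, fun _ => Submodule.zero_mem _⟩
  smul_mem' := by
    rintro c z ⟨hz, hz'⟩
    exact ⟨fun y => Submodule.smul_mem _ c (hz y), fun x => Submodule.smul_mem _ c (hz' x)⟩

theorem mem_HH {m : ℕ} {κ : Fin N → ℕ} {z : (Fin m → Fin N × Fin N) → ℂ} :
    z ∈ HH m κ ↔ (∀ y, sec1 z y ∈ HW m κ) ∧ ∀ x, sec2 z x ∈ HW m κ := Iff.rfl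

theorem wact_mem_HH {m : ℕ} {κ : Fin N → ℕ} (g : Perm (Fin m)) {z : (Fin m → Fin N × Fin N) → ℂ} (hz : z ∈ HH m κ) :
    wact (Fin N × Fin N) m g z ∈ HH m κ := by
  constructor
  · intro y
    have h1 := wact_mem_HW g (hz.1 (y ∘ g))
    exact h1
  · intro x
    have h1 := wact_mem_HW g (hz.2 (x ∘ g))
    exact h1

/-- The representation of `S_m` on `HH m κ`. -/
noncomputable def hh2 (m : ℕ) (κ : Fin N → ℕ) : Representation ℂ (Perm (Fin m)) (HH m κ) where
  toFun g := (wact (Fin N × Fin N) m g).restrict fun _ hf => wact_mem_HH g hf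
  map_one' := rfl
  map_mul' _ _ := rfl

theorem hh2_coe (m : ℕ) (κ : Fin N → ℕ) (g : Perm (Fin m)) (z : HH m κ) (w : Fin m → Fin N × Fin N) :
    (hh2 m κ g z : (Fin m → Fin N × Fin N) → ℂ) w = (z : (Fin m → Fin N × Fin N) → ℂ) (w ∘ g) := rfl

/-- The flip on functions of pairs of words. -/
noncomputable def wfl (m : ℕ) : ((Fin m → Fin N × Fin N) → ℂ) →ₗ[ℂ] ((Fin m → Fin N × Fin N) → ℂ) where
  toFun z w := z (fun p => (w p).swap)
  map_add' _ _ := rfl
  map_smul' _ _ := rfl

theorem wfl_mem_HH {m : ℕ} {κ : Fin N → ℕ} {z : (Fin m → Fin N × Fin N) → ℂ} (hz : z ∈ HH m κ) :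
    wfl m z ∈ HH m κ := ⟨fun y => hz.2 y, fun x => hz.1 x⟩

/-- The flip on `HH m κ`. -/
noncomputable def hfl (m : ℕ) (κ : Fin N → ℕ) : HH m κ →ₗ[ℂ] HH m κ :=
  (wfl m).restrict fun _ hz => wfl_mem_HH hz

/-- The projection on the symmetric (`ε = 1`) or alternating (`ε = -1`) part. -/
noncomputable def hpe (m : ℕ) (κ : Fin N → ℕ) (ε : ℂ) : HH m κ →ₗ[ℂ] HH m κ :=
  (1 / 2 : ℂ) • (LinearMap.id + ε • hfl m κ)

/-- The determinant function on words of length `r`: the sign if the word is a bijection onto `{0, …, r-1}`. -/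
noncomputable def om (N r : ℕ) : (Fin r → Fin N) → ℂ :=
  fun x => (Matrix.of fun i j : Fin r => if ((x i : Fin N) : ℕ) = (j : ℕ) then (1 : ℂ) else 0).det

/-- The tensor product of functions of words. -/
def tens {ι : Type} {m r : ℕ} (f : (Fin m → ι) → ℂ) (g : (Fin r → ι) → ℂ) : (Fin (m + r) → ι) → ℂ :=
  fun x => f (fun p => x (Fin.castAdd r p)) * g (fun p => x (Fin.natAdd m p))

/-- `κ` with a column of length `r` added. -/
def addCol (κ : Fin N → ℕ) (r : ℕ) : Fin N → ℕ := fun i => κ i + if (i : ℕ) < r then 1 else 0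

/-- the function on pairs of words -/
noncomputable def om2 (N r : ℕ) : (Fin r → Fin N × Fin N) → ℂ :=
  fun w => om N r (fun p => (w p).1) * om N r (fun p => (w p).2)

/-- The polynomial of a function of words. -/
noncomputable def pol {ι : Type} [Fintype ι] [DecidableEq ι] {m : ℕ} (f : (Fin m → ι) → ℂ) : MvPolynomial ι ℂ :=
  ∑ x : Fin m → ι, MvPolynomial.C (f x) * ∏ p, MvPolynomial.X (x p)

end

end Pool.Agent.Helper51.TF
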