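import Pool.Agent.Helper51.TF.G1
import Pool.Agent.Helper1.TS.A0

/-!
BLOCK TF-M1 (about 120 lines). Expansion of a class function, restricted to `S_{n-e} × S_e`.

Proof in words. `class_expand` (`TF/G1`) for `F g = (f g : ℂ)`: `f g = ∑_κ c_κ χ_κ(g)`, `c_κ = (∑_x f(x) χ_κ(x⁻¹))/n!` is real and equal to `cf f (hw n κ)` (`char_perm_inv`, `char_perm_real` in `TS/A0`), so `f g = ∑_κ cf f (hw n κ) * (χ_κ g).re`. `avH` is linear in `f`, and
`avH h (fun g => (χ_κ g).re) (fun y => (τ.character y).re) = finrank (HomE h τ (hw n κ) id)` by `dim_hom` (`TN/L1`) for `H = Perm (Fin (n-e)) × Perm (Fin e)` (`Fintype.card H = (n-e)! e!`; `Fintype.sum_prod_type`; `(τ ∘ snd).character (x, y)⁻¹ = τ.character y⁻¹`; compare `finrank_pe` in `TN/C8.lean`).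
-/

set_option autoImplicit false

open Module Equiv Pool.Agent.Helper1.TS Pool.Agent.Helper70.TU Pool.Agent.Helper51.TN

namespace Pool.Agent.Helper51.TF

/-- The coefficient of the character of `θ` in `f`. -/
noncomputable def cf {n : ℕ} {W : Type*} [AddCommGroup W] [Module ℂ W] (f : Perm (Fin n) → ℝ)
    (θ : Representation ℂ (Perm (Fin n)) W) : ℝ :=
  (∑ g : Perm (Fin n), f g * (θ.character g).re) / n.factorial

private theorem fr_avH92 {n e : ℕ} (h : e ≤ n) {W E : Type*} [AddCommGroup W] [Module ℂ W] [FiniteDimensional ℂ W]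
    [AddCommGroup E] [Module ℂ E] [FiniteDimensional ℂ E] (σ : Representation ℂ (Perm (Fin n)) W)
    (τ : Representation ℂ (Perm (Fin e)) E) :
    (finrank ℂ (HomE h τ σ LinearMap.id) : ℝ) =
      avH h (fun g => (σ.character g).re) (fun y => (τ.character y).re) := by
  classical
  have h1 := dim_hom (τ.comp (MonoidHom.snd (Perm (Fin (n - e))) (Perm (Fin e)))) (σ.comp (jH h)) LinearMap.id
    (fun _ => rfl) (fun _ _ => rfl)
  have hterm : ∀ p : Perm (Fin (n - e)) × Perm (Fin e),
      LinearMap.trace ℂ W ((σ.comp (jH h)) p ∘ₗ LinearMap.id) *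
        Representation.character (τ.comp (MonoidHom.snd (Perm (Fin (n - e))) (Perm (Fin e)))) p⁻¹ =
      (((σ.character (jT h p.1 * jD h p.2)).re * (τ.character p.2).re : ℝ) : ℂ) := by
    intro p
    have h4 : Representation.character (τ.comp (MonoidHom.snd (Perm (Fin (n - e))) (Perm (Fin e)))) p⁻¹ =
        ((τ.character p.2).re : ℂ) := by
      have h5 : Representation.character (τ.comp (MonoidHom.snd (Perm (Fin (n - e))) (Perm (Fin e)))) p⁻¹ = τ.character (p.2)⁻¹ := rfl
      rw [h5, char_perm_inv, char_perm_real τ p.2]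
      simp
    have h6 : LinearMap.trace ℂ W ((σ.comp (jH h)) p ∘ₗ LinearMap.id) = σ.character (jH h p) := rfl
    rw [h6, h4, char_perm_real σ (jH h p), ← jH_apply]
    push_cast
    simp
  rw [Finset.sum_congr rfl fun p _ => hterm p] at h1
  have hcard : (Fintype.card (Perm (Fin (n - e)) × Perm (Fin e)) : ℝ) = ((n - e).factorial * e.factorial : ℝ) := by
    rw [Fintype.card_prod, Fintype.card_perm, Fintype.card_perm, Fintype.card_fin, Fintype.card_fin]
    push_cast
    ring
  have h7 : (Fintype.card (Perm (Fin (n - e)) × Perm (Fin e)) : ℝ) *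
      (finrank ℂ (HomE h τ σ LinearMap.id) : ℝ) =
      ∑ p : Perm (Fin (n - e)) × Perm (Fin e), (σ.character (jT h p.1 * jD h p.2)).re * (τ.character p.2).re := by
    exact_mod_cast h1
  rw [hcard, Fintype.sum_prod_type] at h7
  unfold avH
  rw [eq_div_iff (by positivity), mul_comm]
  exact h7

private theorem expand92 {N n : ℕ} (hN : n ≤ N) (f : Perm (Fin n) → ℝ) (hf : ∀ x g, f (x * g * x⁻¹) = f g) (g : Perm (Fin n)) :
    f g = ∑ κ ∈ PP N n, cf f (hw n κ) * ((hw n κ).character g).re := by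
  have h1 := class_expand hN (fun g => (f g : ℂ)) (fun x g => by rw [hf]) g
  have h2 : ∀ κ : Fin N → ℕ, ((∑ x : Perm (Fin n), (f x : ℂ) * (hw n κ).character x⁻¹) / (n.factorial : ℂ)) * (hw n κ).character g =
      ((cf f (hw n κ) * ((hw n κ).character g).re : ℝ) : ℂ) := by
    intro κ
    have h3 : ∀ x : Perm (Fin n), (f x : ℂ) * (hw n κ).character x⁻¹ = ((f x * ((hw n κ).character x).re : ℝ) : ℂ) := by
      intro x
      rw [char_perm_inv, char_perm_real (hw n κ) x]
      push_cast
      simp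
    rw [Finset.sum_congr rfl fun x _ => h3 x, char_perm_real (hw n κ) g]
    unfold cf
    push_cast
    simp
  rw [Finset.sum_congr rfl fun κ _ => h2 κ] at h1
  exact_mod_cast h1

theorem avH_expand {N n e : ℕ} (hN : n ≤ N) (h : e ≤ n) (f : Perm (Fin n) → ℝ) (hf : ∀ x g, f (x * g * x⁻¹) = f g)
    {E : Type*} [AddCommGroup E] [Module ℂ E] [FiniteDimensional ℂ E] (τ : Representation ℂ (Perm (Fin e)) E) :
    avH h f (fun y => (τ.character y).re) =
      ∑ κ ∈ PP N n, cf f (hw n κ) * finrank ℂ (HomE h τ (hw n κ) LinearMap.id) := by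
  have h1 : ∀ x : Perm (Fin (n - e)), ∀ y : Perm (Fin e), f (jT h x * jD h y) * (τ.character y).re =
      ∑ κ ∈ PP N n, cf f (hw n κ) * (((hw n κ).character (jT h x * jD h y)).re * (τ.character y).re) := by
    intro x y
    rw [expand92 hN f hf (jT h x * jD h y), Finset.sum_mul]
    refine Finset.sum_congr rfl fun κ _ => ?_
    rw [mul_assoc]
  have h2 : ∀ κ : Fin N → ℕ, cf f (hw n κ) * (finrank ℂ (HomE h τ (hw n κ) LinearMap.id) : ℝ) =
      (∑ x : Perm (Fin (n - e)), ∑ y : Perm (Fin e), cf f (hw n κ) *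
        (((hw n κ).character (jT h x * jD h y)).re * (τ.character y).re)) / ((n - e).factorial * e.factorial) := by
    intro κ
    rw [fr_avH92 h (hw n κ) τ]
    unfold avH
    rw [← mul_div_assoc, Finset.mul_sum]
    simp only [Finset.mul_sum]
  rw [Finset.sum_congr rfl fun κ _ => h2 κ, ← Finset.sum_div]
  unfold avH
  congr 1
  symm
  rw [Finset.sum_comm]
  refine Finset.sum_congr rfl fun x _ => ?_
  rw [Finset.sum_comm]
  exact Finset.sum_congr rfl fun y _ => (h1 x y).symm

end Pool.Agent.Helper51.TF
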