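import Pool.Agent.Helper51.TN.L4

/-!
BLOCK TF-M2 (about 200 lines). The vectors fixed by `Sym(T_d)` are spanned by the `S_d`-translates of those fixed by `Sym(T_e)`, `e` the depth.

Proof in words. `T = TT n d`, `E = inv θ (TT n e)`, `S` = the span on the right side. The span of all `θ g v`, `g : Perm (Fin n)`, `v ∈ E` is a nonzero stable subspace (`he.2.1`), so it is everything (`θ` irreducible; see the end of `TN/L6.lean` for how to use irreducibility). So if `w ∈ inv θ T` then `w = avT θ T w` (`avT_of_mem`) is a combination of the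
`avT θ T (θ g v)`, and it is enough to show `avT θ T (θ g v) ∈ S` for all `g` and `v ∈ E`. Induction on `k = #{i : i < e, d ≤ g i}`.
* `k = 0`: `g` maps the points `< e` to points `< d`; there is `y : Perm (Fin d)` with `jD hdn y i = g i` for all `i < e` (extend an injection: `Equiv.Perm` extension, e.g. `Equiv.extendSubtype` or `Function.Embedding`), `x = (jD hdn y)⁻¹ * g` fixes the points `< e`, so `θ x v = v` and `θ g v = θ (jD hdn y) v`, which is fixed by `Sym(T)` (`v ∈ inv θ (TT n e) ≤ inv θ T` because
  `e ≤ d`, `jD` commutes with `Sym(T)`: `rhoE_mem`), so `avT` fixes it.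
* `k > 0`: let `a < e` with `d ≤ g a`. `qq θ (TT n e) a v = 0` (`inv_le_New`, `TN/L3`): `∑_{y ∈ insert a (TT n e)} θ (swap a y) v = 0`. Apply `avT θ T ∘ θ g`; `g * swap a y = swap (g a) (g y) * g`. If `d ≤ g y` then `swap (g a) (g y)` has support in `T` and `avT θ T (θ (swap (g a) (g y)) (θ g v)) = avT θ T (θ g v)` (`avT_mul` in `TN/L4`; `y = a` is such a term). If `g y < d`, `y ∈ TT n e`,
  then for `g' = swap (g a) (g y) * g` the number `k` is smaller by one (`g' a = g y`, `g' i = g i` for the other `i < e`), so the term is in `S` by induction. So (number of `y` of the first kind, `≥ 1`) `• avT θ T (θ g v) ∈ S`.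
-/

set_option autoImplicit false

open Module Equiv Pool.Agent.Helper1.TS Pool.Agent.Helper70.TU Pool.Agent.Helper51.TN

namespace Pool.Agent.Helper51.TF

private theorem exists_jD61 {n e d : ℕ} (hed : e ≤ d) (hdn : d ≤ n) (g : Perm (Fin n))
    (hg : ∀ i : Fin n, (i : ℕ) < e → ((g i : Fin n) : ℕ) < d) :
    ∃ y : Perm (Fin d), ∀ i : Fin n, (i : ℕ) < e → jD hdn y i = g i := by
  classical
  let p : Fin d → Prop := fun i => (i : ℕ) < e
  let q : Fin d → Prop := fun j => ∃ i : Fin d, (i : ℕ) < e ∧ ((g (Fin.castLE hdn i) : Fin n) : ℕ) = (j : ℕ)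
  let f : {i : Fin d // p i} → {j : Fin d // q j} := fun i =>
    ⟨⟨(g (Fin.castLE hdn i.1) : Fin n), hg _ i.2⟩, ⟨i.1, i.2, rfl⟩⟩
  have hf : Function.Bijective f := by
    constructor
    · intro i i' h
      have h1 : ((g (Fin.castLE hdn i.1) : Fin n) : ℕ) = ((g (Fin.castLE hdn i'.1) : Fin n) : ℕ) :=
        congrArg (fun z : {j : Fin d // q j} => ((z.1 : Fin d) : ℕ)) h
      have h2 := g.injective (Fin.ext h1)
      refine Subtype.ext (Fin.ext ?_)
      exact congrArg (fun z : Fin n => (z : ℕ)) h2
    · rintro ⟨j, i, hi, hij⟩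
      exact ⟨⟨i, hi⟩, Subtype.ext (Fin.ext hij)⟩
  refine ⟨(Equiv.ofBijective f hf).extendSubtype, fun i hi => ?_⟩
  have hid : (i : ℕ) < d := lt_of_lt_of_le hi hed
  rw [jD_apply hdn _ i hid]
  apply Fin.ext
  have h1 : (Equiv.ofBijective f hf).extendSubtype ⟨i, hid⟩ = ((Equiv.ofBijective f hf) ⟨⟨i, hid⟩, hi⟩ : {j : Fin d // q j}).1 :=
    Equiv.extendSubtype_apply_of_mem (Equiv.ofBijective f hf) ⟨i, hid⟩ hi
  rw [h1]
  rfl

private theorem swap_supp61 {n : ℕ} {T : Finset (Fin n)} {a b : Fin n} (ha : a ∈ T) (hb : b ∈ T) :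
    (Equiv.swap a b).support ⊆ T := by
  intro i hi
  by_contra hiT
  refine (Perm.mem_support.1 hi) (Equiv.swap_apply_of_ne_of_ne ?_ ?_)
  · rintro rfl
    exact hiT ha
  · rintro rfl
    exact hiT hb

private theorem inv_mono61 {n : ℕ} {W : Type*} [AddCommGroup W] [Module ℂ W]
    (θ : Representation ℂ (Perm (Fin n)) W) {e d : ℕ} (hed : e ≤ d) (v : W) (hv : v ∈ inv θ (TT n e)) :
    v ∈ inv θ (TT n d) := by
  intro x hx
  refine hv x (hx.trans ?_)
  intro i hi
  rw [mem_TT] at hi ⊢
  omega

private theorem av_mem61 {n e d : ℕ} {W : Type*} [AddCommGroup W] [Module ℂ W]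
    (θ : Representation ℂ (Perm (Fin n)) W) (he : IsDepth θ e) (hed : e ≤ d) (hdn : d ≤ n) (F : Submodule ℂ W)
    (hF : ∀ (y : Perm (Fin d)) (v : W), v ∈ inv θ (TT n e) → θ (jD hdn y) v ∈ F)
    (v : W) (hv : v ∈ inv θ (TT n e)) (g : Perm (Fin n)) : avT θ (TT n d) (θ g v) ∈ F := by
  classical
  have main : ∀ (m : ℕ) (g : Perm (Fin n)),
      (Finset.univ.filter (fun i : Fin n => (i : ℕ) < e ∧ d ≤ ((g i : Fin n) : ℕ))).card = m →
      avT θ (TT n d) (θ g v) ∈ F := by
    intro m
    induction m using Nat.strong_induction_on with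
    | _ m ih =>
      intro g hm
      by_cases hb : ∀ i : Fin n, (i : ℕ) < e → ((g i : Fin n) : ℕ) < d
      · obtain ⟨y, hy⟩ := exists_jD61 hed hdn g hb
        have hτ : ((jD hdn y)⁻¹ * g).support ⊆ TT n e := by
          intro i hi
          rw [mem_TT]
          by_contra hlt
          push Not at hlt
          refine (Perm.mem_support.1 hi) ?_
          rw [Perm.mul_apply, ← hy i hlt, ← Perm.mul_apply, inv_mul_cancel, Perm.one_apply]
        have e1 : θ g v = θ (jD hdn y) v := by
          have h1 := hv _ hτ
          have h2 : g = jD hdn y * ((jD hdn y)⁻¹ * g) := by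
            rw [mul_inv_cancel_left]
          rw [h2, map_mul, Module.End.mul_apply, h1]
        rw [e1, avT_of_mem θ _ _ (rhoE_mem θ hdn y v (inv_mono61 θ hed v hv))]
        exact hF y v hv
      · push Not at hb
        obtain ⟨a, ha, hga⟩ := hb
        have hnew := (inv_le_New θ he hv).2 a ha
        have haT : a ∉ TT n e := by
          rw [mem_TT]
          omega
        set w := avT θ (TT n d) (θ g v) with hw
        have h0 : ∑ y ∈ insert a (TT n e), avT θ (TT n d) (θ (g * Equiv.swap a y) v) = 0 := by
          have h1 : avT θ (TT n d) (θ g (qq θ (TT n e) a v)) = 0 := by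
            rw [hnew, map_zero, map_zero]
          rw [← h1]
          unfold qq
          rw [LinearMap.sum_apply, map_sum, map_sum]
          refine Finset.sum_congr rfl fun y _ => ?_
          rw [map_mul, Module.End.mul_apply]
        rw [Finset.sum_insert haT, Equiv.swap_self] at h0
        have hone : g * Equiv.refl (Fin n) = g := rfl
        rw [hone, ← hw, ← Finset.sum_filter_add_sum_filter_not (TT n e) (fun y => d ≤ ((g y : Fin n) : ℕ))] at h0
        have h1 : ∀ y ∈ (TT n e).filter (fun y => d ≤ ((g y : Fin n) : ℕ)),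
            avT θ (TT n d) (θ (g * Equiv.swap a y) v) = w := by
          intro y hy
          rw [Finset.mem_filter] at hy
          rw [Equiv.mul_swap_eq_swap_mul, map_mul, Module.End.mul_apply, avT_mul]
          exact swap_supp61 (mem_TT.2 hga) (mem_TT.2 hy.2)
        have h2 : ∀ y ∈ (TT n e).filter (fun y => ¬ d ≤ ((g y : Fin n) : ℕ)),
            avT θ (TT n d) (θ (g * Equiv.swap a y) v) ∈ F := by
          intro y hy
          rw [Finset.mem_filter, mem_TT] at hy
          refine ih _ ?_ (g * Equiv.swap a y) rfl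
          rw [← hm]
          apply Finset.card_lt_card
          rw [Finset.ssubset_iff_of_subset]
          · refine ⟨a, ?_, ?_⟩
            · rw [Finset.mem_filter]
              exact ⟨Finset.mem_univ _, ha, hga⟩
            · rw [Finset.mem_filter]
              rintro ⟨_, _, h3⟩
              rw [Perm.mul_apply, Equiv.swap_apply_left] at h3
              exact hy.2 h3
          · intro i hi
            rw [Finset.mem_filter] at hi ⊢
            obtain ⟨_, hi1, hi2⟩ := hi
            refine ⟨Finset.mem_univ _, hi1, ?_⟩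
            have hia : i ≠ a := by
              rintro rfl
              rw [Perm.mul_apply, Equiv.swap_apply_left] at hi2
              exact hy.2 hi2
            have hiy : i ≠ y := by
              rintro rfl
              omega
            rw [Perm.mul_apply, Equiv.swap_apply_of_ne_of_ne hia hiy] at hi2
            exact hi2
        rw [Finset.sum_congr rfl h1, Finset.sum_const, ← Nat.cast_smul_eq_nsmul ℂ] at h0
        set N := ((TT n e).filter (fun y => d ≤ ((g y : Fin n) : ℕ))).card with hN
        have hs := Submodule.sum_mem F h2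
        set s := ∑ y ∈ (TT n e).filter (fun y => ¬ d ≤ ((g y : Fin n) : ℕ)),
            avT θ (TT n d) (θ (g * Equiv.swap a y) v) with hsdef
        have h3 : (1 + (N : ℂ)) • w = - s := by
          rw [add_smul, one_smul]
          have : w + (N : ℂ) • w + s = 0 := by
            rw [add_assoc]
            exact h0
          exact eq_neg_of_add_eq_zero_left this
        have hne : (1 + (N : ℂ)) ≠ 0 := by
          have : ((1 + N : ℕ) : ℂ) ≠ 0 := Nat.cast_ne_zero.2 (by omega)
          push_cast at this
          exact this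
        have h4 : w = (1 + (N : ℂ))⁻¹ • (- s) := by
          rw [← h3, smul_smul, inv_mul_cancel₀ hne, one_smul]
        rw [h4]
        exact F.smul_mem _ (F.neg_mem hs)
  exact main _ g rfl

theorem inv_span {n e d : ℕ} {W : Type*} [AddCommGroup W] [Module ℂ W] [FiniteDimensional ℂ W]
    (θ : Representation ℂ (Perm (Fin n)) W) [θ.IsIrreducible] (he : IsDepth θ e) (hed : e ≤ d) (hdn : d ≤ n) :
    inv θ (TT n d) ≤ Submodule.span ℂ {w : W | ∃ (y : Perm (Fin d)) (v : W), v ∈ inv θ (TT n e) ∧ w = θ (jD hdn y) v} := by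
  classical
  set S := Submodule.span ℂ {w : W | ∃ (y : Perm (Fin d)) (v : W), v ∈ inv θ (TT n e) ∧ w = θ (jD hdn y) v} with hS
  have hF : ∀ (y : Perm (Fin d)) (v : W), v ∈ inv θ (TT n e) → θ (jD hdn y) v ∈ S :=
    fun y v hv => Submodule.subset_span ⟨y, v, hv, rfl⟩
  obtain ⟨v, hv, hv0⟩ := (Submodule.ne_bot_iff _).1 he.2.1
  let M : Subrepresentation θ :=
    { toSubmodule :=
        { carrier := {w | ∀ g : Perm (Fin n), avT θ (TT n d) (θ g w) ∈ S}
          add_mem' := by
            intro a b ha hb g
            rw [map_add, map_add]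
            exact Submodule.add_mem _ (ha g) (hb g)
          zero_mem' := by
            intro g
            rw [map_zero, map_zero]
            exact Submodule.zero_mem _
          smul_mem' := by
            intro c a ha g
            rw [map_smul, map_smul]
            exact Submodule.smul_mem _ c (ha g) }
      apply_mem_toSubmodule := by
        intro h w hw g
        have h1 : θ g (θ h w) = θ (g * h) w := by
          rw [map_mul, Module.End.mul_apply]
        rw [h1]
        exact hw (g * h) }
  have hMmem : ∀ w : W, w ∈ M.toSubmodule ↔ ∀ g : Perm (Fin n), avT θ (TT n d) (θ g w) ∈ S :=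
    fun w => Iff.rfl
  have hvM : v ∈ M.toSubmodule := (hMmem _).2 fun g => av_mem61 θ he hed hdn S hF v hv g
  have hM : M = ⊤ := by
    rcases IsSimpleOrder.eq_bot_or_eq_top M with h | h
    · exfalso
      have h1 : M.toSubmodule = ⊥ := congrArg Subrepresentation.toSubmodule h
      rw [h1, Submodule.mem_bot] at hvM
      exact hv0 hvM
    · exact h
  have hMt : M.toSubmodule = ⊤ := congrArg Subrepresentation.toSubmodule hM
  intro w hw
  have h1 : w ∈ M.toSubmodule := by
    rw [hMt]
    exact Submodule.mem_top
  have h2 := (hMmem _).1 h1 1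
  rw [map_one, Module.End.one_apply, avT_of_mem θ _ _ hw] at h2
  exact h2

end Pool.Agent.Helper51.TF
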