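import Pool.Agent.Helper51.TF.M2
import Pool.Agent.Helper1.TS.UNI

/-!
BLOCK TF-M3 (about 100 lines). An equivariant map to the vectors fixed by `Sym(T_d)` is determined by its average over `Sym(T_e)`.

Proof in words. Inner product of `exists_unitary` (`TS/UNI`), `⟨v, w⟩ = inner ℂ (ε v) (ε w)`, invariant. `avT θ (TT n e)` is self-adjoint (`⟨θ x v, w⟩ = ⟨v, θ x⁻¹ w⟩`; the set of the `x` with support in `T` is closed under inverses). Let `φ ∈ HomE hdn τ θ id` with `avT θ (TT n e) (φ v) = 0` for all `v : E`. For `v : E`, `u ∈ inv θ (TT n e)`, `y : Perm (Fin d)`: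
`⟨φ v, θ (jD hdn y) u⟩ = ⟨θ (jD hdn y)⁻¹ (φ v), u⟩ = ⟨φ (τ y⁻¹ v), avT u⟩ = ⟨avT (φ (τ y⁻¹ v)), u⟩ = 0`. So `φ v` is orthogonal to the span of these vectors, which contains `inv θ (TT n d)` (`inv_span`), and `φ v ∈ inv θ (TT n d)` (`mem_inv_iff`, `TN/L3`, and the definition of `HomE`: element `(x, 1)`). So `⟨φ v, φ v⟩ = 0`, `φ v = 0`.
-/

set_option autoImplicit false

open Module Equiv Pool.Agent.Helper1.TS Pool.Agent.Helper70.TU Pool.Agent.Helper51.TN

namespace Pool.Agent.Helper51.TF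

private theorem avT_apply53 {n : ℕ} {W : Type*} [AddCommGroup W] [Module ℂ W] (θ : Representation ℂ (Perm (Fin n)) W)
    (T : Finset (Fin n)) (z : W) :
    avT θ T z = ((Finset.univ.filter (fun x : Perm (Fin n) => x.support ⊆ T)).card : ℂ)⁻¹ •
      ∑ x ∈ Finset.univ.filter (fun x : Perm (Fin n) => x.support ⊆ T), θ x z := by
  unfold avT
  rw [LinearMap.smul_apply, LinearMap.sum_apply]

theorem av_inj {n e d : ℕ} {W : Type*} [AddCommGroup W] [Module ℂ W] [FiniteDimensional ℂ W]
    (θ : Representation ℂ (Perm (Fin n)) W) [θ.IsIrreducible] (he : IsDepth θ e) (hed : e ≤ d) (hdn : d ≤ n)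
    {E : Type*} [AddCommGroup E] [Module ℂ E] (τ : Representation ℂ (Perm (Fin d)) E) (φ : E →ₗ[ℂ] W)
    (hφ : φ ∈ HomE hdn τ θ LinearMap.id) (h0 : ∀ v, avT θ (TT n e) (φ v) = 0) : φ = 0 := by
  classical
  obtain ⟨ε, hε⟩ := exists_unitary θ
  have hadj : ∀ (x : Perm (Fin n)) (v w : W), inner ℂ (ε (θ x v)) (ε w) = inner ℂ (ε v) (ε (θ x⁻¹ w)) := by
    intro x v w
    rw [← hε x⁻¹ (θ x v) w, ← Module.End.mul_apply, ← map_mul, inv_mul_cancel, map_one, Module.End.one_apply]
  have hav : ∀ v w : W, inner ℂ (ε (avT θ (TT n e) v)) (ε w) = inner ℂ (ε v) (ε (avT θ (TT n e) w)) := by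
    intro v w
    rw [avT_apply53, avT_apply53, map_smul, map_smul, inner_smul_left, inner_smul_right, map_sum, map_sum, sum_inner,
      inner_sum, map_inv₀, Complex.conj_natCast]
    congr 1
    refine Finset.sum_bij' (fun x _ => x⁻¹) (fun x _ => x⁻¹) ?_ ?_ ?_ ?_ ?_
    · intro x hx
      rw [Finset.mem_filter] at hx ⊢
      exact ⟨Finset.mem_univ _, by rw [Perm.support_inv]; exact hx.2⟩
    · intro x hx
      rw [Finset.mem_filter] at hx ⊢
      exact ⟨Finset.mem_univ _, by rw [Perm.support_inv]; exact hx.2⟩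
    · intro x _
      exact inv_inv x
    · intro x _
      exact inv_inv x
    · intro x _
      exact hadj x v w
  have heq := (mem_HomP.1 hφ).1
  have hD : ∀ (y : Perm (Fin d)) (v : E), φ (τ y v) = θ (jD hdn y) (φ v) := by
    intro y v
    have := heq (1, y) v
    rw [MonoidHom.comp_apply, MonoidHom.comp_apply, jH_apply, map_one, one_mul] at this
    exact this
  have hT : ∀ (x : Perm (Fin (n - d))) (v : E), θ (jT hdn x) (φ v) = φ v := by
    intro x v
    have := heq (x, 1) v
    rw [MonoidHom.comp_apply, MonoidHom.comp_apply, jH_apply, map_one, mul_one] at this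
    rw [← this]
    change φ (τ 1 v) = φ v
    rw [map_one, Module.End.one_apply]
  refine LinearMap.ext fun v => ?_
  rw [LinearMap.zero_apply]
  have hmem : φ v ∈ inv θ (TT n d) := (mem_inv_iff θ hdn (φ v)).2 fun x => hT x v
  have hspan := inv_span θ he hed hdn hmem
  have horth : ∀ w ∈ Submodule.span ℂ {w : W | ∃ (y : Perm (Fin d)) (v : W), v ∈ inv θ (TT n e) ∧ w = θ (jD hdn y) v},
      inner ℂ (ε (φ v)) (ε w) = 0 := by
    intro w hw
    induction hw using Submodule.span_induction with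
    | mem w hw =>
      obtain ⟨y, u, hu, rfl⟩ := hw
      have h1 := hadj (jD hdn y)⁻¹ (φ v) u
      rw [inv_inv] at h1
      rw [← h1, ← map_inv, ← hD, ← avT_of_mem θ (TT n e) u hu, ← hav, h0, map_zero, inner_zero_left]
    | zero => rw [map_zero, inner_zero_right]
    | add x y _ _ hx hy => rw [map_add, inner_add_right, hx, hy, add_zero]
    | smul c x _ hx => rw [map_smul, inner_smul_right, hx, mul_zero]
  have h1 := horth _ hspan
  rw [inner_self_eq_zero] at h1
  exact (LinearEquiv.map_eq_zero_iff ε).1 h1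

end Pool.Agent.Helper51.TF
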