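import Pool.Agent.Helper51.TN.Defs
import Pool.Agent.Helper1.TS.SQ
import Pool.Agent.Helper1.TS.A0

/-!
BLOCK TF-M6 (about 120 lines). The contribution of the squares, with signs.

Proof in words. Copy the proof of `sq_avH` (`TN/C7.lean`, with its private lemmas): only `|f(g) q(y)| ≤ |χ(g²)|` is used, and the sign does not change the absolute value.
-/

set_option autoImplicit false

open Module Equiv Pool.Agent.Helper1.TS Pool.Agent.Helper70.TU Pool.Agent.Helper51.TN

namespace Pool.Agent.Helper51.TF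

private theorem cs75 {α β : Type*} [Fintype α] [Fintype β] [DecidableEq β] (s : α → β) (F : β → ℝ) :
    (∑ p, F (s p)) ^ 2 ≤
      ((Finset.univ.filter (fun p : α × α => s p.1 = s p.2)).card : ℝ) * ∑ r, F r ^ 2 := by
  classical
  have h1 : ∑ p, F (s p) = ∑ r, ((Finset.univ.filter (fun p => s p = r)).card : ℝ) * F r := by
    rw [← Finset.sum_fiberwise Finset.univ s (fun p => F (s p))]
    refine Finset.sum_congr rfl fun r _ => ?_
    have h : ∀ p ∈ Finset.univ.filter (fun p => s p = r), F (s p) = F r := fun p hp => by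
      rw [(Finset.mem_filter.mp hp).2]
    rw [Finset.sum_congr rfl h, Finset.sum_const, nsmul_eq_mul]
  have h2 : ((Finset.univ.filter (fun p : α × α => s p.1 = s p.2)).card : ℝ) =
      ∑ r, ((Finset.univ.filter (fun p => s p = r)).card : ℝ) ^ 2 := by
    have h3 : (Finset.univ.filter (fun p : α × α => s p.1 = s p.2)).card =
        ∑ r, (Finset.univ.filter (fun p => s p = r)).card ^ 2 := by
      rw [Finset.card_eq_sum_card_fiberwise (f := fun p : α × α => s p.1) (t := Finset.univ)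
        (fun _ _ => Finset.mem_coe.mpr (Finset.mem_univ _))]
      refine Finset.sum_congr rfl fun r _ => ?_
      rw [sq, ← Finset.card_product]
      congr 1
      ext p
      simp only [Finset.mem_filter, Finset.mem_univ, true_and, Finset.mem_product]
      constructor
      · rintro ⟨h, h'⟩
        exact ⟨h', h ▸ h'⟩
      · rintro ⟨h, h'⟩
        exact ⟨h.trans h'.symm, h⟩
    rw [h3]
    push_cast
    rfl
  rw [h1, h2]
  exact Finset.sum_mul_sq_le_sq_mul_sq _ _ _

private theorem char_sq75 {n : ℕ} {V : Type*} [AddCommGroup V] [Module ℂ V] [FiniteDimensional ℂ V]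
    (ρ : Representation ℂ (Perm (Fin n)) V) [ρ.IsIrreducible] :
    ∑ g, ((ρ.character g).re) ^ 2 = (n.factorial : ℝ) := by
  classical
  have hN : Nat.card (Perm (Fin n)) = n.factorial := by
    rw [Nat.card_eq_fintype_card, Fintype.card_perm, Fintype.card_fin]
  have hc : (Nat.card (Perm (Fin n)) : ℂ) ≠ 0 := by exact_mod_cast Nat.card_pos.ne'
  have : Invertible (Nat.card (Perm (Fin n)) : ℂ) := invertibleOfNonzero hc
  have h := Representation.char_orthonormal ρ ρ
  rw [if_pos ⟨Representation.Equiv.refl ρ⟩] at h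
  have h2 : ∑ g : Perm (Fin n), ρ.character g * ρ.character g⁻¹ = Nat.card (Perm (Fin n)) := by
    have h3 := congrArg (fun z => (Nat.card (Perm (Fin n)) : ℂ) * z) h
    simp only [mul_one] at h3
    rw [← mul_assoc, mul_inv_cancel₀ hc, one_mul] at h3
    exact h3
  have h4 : ((∑ g, ((ρ.character g).re) ^ 2 : ℝ) : ℂ) = (n.factorial : ℂ) := by
    rw [Complex.ofReal_sum, ← hN, ← h2]
    refine Finset.sum_congr rfl fun g _ => ?_
    rw [char_perm_inv, Complex.ofReal_pow, ← char_perm_real, sq]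
  exact_mod_cast h4

private theorem jH_inj75 {n e : ℕ} (h : e ≤ n) : Function.Injective (jH h) := by
  rintro ⟨x, y⟩ ⟨x', y'⟩ hxy
  rw [jH_apply, jH_apply] at hxy
  simp only at hxy
  have hy : y = y' := by
    refine Equiv.ext fun i => ?_
    have h1 := congrArg (fun g : Perm (Fin n) => g ⟨(i : ℕ), i.2.trans_le h⟩) hxy
    simp only [Perm.mul_apply] at h1
    rw [jT_apply_of_lt h x _ (jD_apply_lt h y _ i.2), jT_apply_of_lt h x' _ (jD_apply_lt h y' _ i.2),
      jD_apply h y _ i.2, jD_apply h y' _ i.2] at h1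
    exact Fin.ext (Fin.mk.inj_iff.1 h1)
  subst hy
  have h2 : jT h x = jT h x' := mul_right_cancel hxy
  have hx : x = x' := Equiv.Perm.extendDomainHom_injective (eT h) h2
  rw [hx]

private theorem sq_jH75 {n e : ℕ} (h : e ≤ n) (x : Perm (Fin (n - e))) (y : Perm (Fin e)) :
    (jT h x * jD h y) ^ 2 = jH h (x ^ 2, y ^ 2) := by
  rw [jH_apply, (jT_jD_commute h x y).mul_pow, map_pow, map_pow]

private theorem card_pairs75 (A B : Type*) [Group A] [Fintype A] [DecidableEq A] [Group B] [Fintype B]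
    [DecidableEq B] :
    (Finset.univ.filter (fun p : (A × B) × (A × B) =>
      ((p.1.1 ^ 2, p.1.2 ^ 2) : A × B) = (p.2.1 ^ 2, p.2.2 ^ 2))).card ≤
      (Nat.card (ConjClasses A) * Fintype.card A) * (Nat.card (ConjClasses B) * Fintype.card B) := by
  refine le_trans ?_ (Nat.mul_le_mul (card_sq_pairs A) (card_sq_pairs B))
  rw [← Finset.card_product]
  refine Finset.card_le_card_of_injOn (fun p => ((p.1.1, p.2.1), (p.1.2, p.2.2))) ?_ ?_
  · intro p hp
    have h1 := (Finset.mem_filter.mp (Finset.mem_coe.mp hp)).2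
    rw [Prod.mk.injEq] at h1
    refine Finset.mem_coe.mpr (Finset.mem_product.mpr ⟨?_, ?_⟩)
    · exact Finset.mem_filter.mpr ⟨Finset.mem_univ _, h1.1⟩
    · exact Finset.mem_filter.mpr ⟨Finset.mem_univ _, h1.2⟩
  · rintro ⟨⟨a, b⟩, ⟨a', b'⟩⟩ _ ⟨⟨c, d⟩, ⟨c', d'⟩⟩ _ hpq
    simp only [Prod.mk.injEq] at hpq ⊢
    tauto

private theorem abs_sign75 {n : ℕ} (g : Perm (Fin n)) : |((Perm.sign g : ℤ) : ℝ)| = 1 := by
  rcases Int.units_eq_one_or (Perm.sign g) with h | h <;> rw [h] <;> simp

theorem sq_avH_tw {n e : ℕ} (h : e ≤ n) {V : Type*} [AddCommGroup V] [Module ℂ V] [FiniteDimensional ℂ V]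
    (ρ : Representation ℂ (Perm (Fin n)) V) [ρ.IsIrreducible] (q : Perm (Fin e) → ℝ) (hq : ∀ y, |q y| ≤ 1) :
    |avH h (fun g => ((Perm.sign g : ℤ) : ℝ) * (ρ.character (g ^ 2)).re) q| ≤
      Real.sqrt ((n.choose e : ℝ) * Nat.card (ConjClasses (Perm (Fin (n - e)))) *
        Nat.card (ConjClasses (Perm (Fin e)))) := by
  classical
  set F : Perm (Fin (n - e)) × Perm (Fin e) → ℝ := fun r => |(ρ.character (jH h r)).re| with hF
  set s : Perm (Fin (n - e)) × Perm (Fin e) → Perm (Fin (n - e)) × Perm (Fin e) :=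
    fun p => (p.1 ^ 2, p.2 ^ 2) with hs
  have hFsum : ∑ r, F r ^ 2 ≤ (n.factorial : ℝ) := by
    rw [← char_sq75 ρ]
    have h1 : ∑ r, F r ^ 2 = ∑ g ∈ Finset.univ.image (jH h), ((ρ.character g).re) ^ 2 := by
      rw [Finset.sum_image (fun a _ b _ hab => jH_inj75 h hab)]
      refine Finset.sum_congr rfl fun r _ => ?_
      rw [hF, sq_abs]
    rw [h1]
    exact Finset.sum_le_sum_of_subset_of_nonneg (Finset.subset_univ _) (fun _ _ _ => sq_nonneg _)
  set K1 : ℝ := (Nat.card (ConjClasses (Perm (Fin (n - e)))) : ℝ) with hK1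
  set K2 : ℝ := (Nat.card (ConjClasses (Perm (Fin e))) : ℝ) with hK2
  have hcard : ((Finset.univ.filter (fun p : (Perm (Fin (n - e)) × Perm (Fin e)) ×
      (Perm (Fin (n - e)) × Perm (Fin e)) => s p.1 = s p.2)).card : ℝ) ≤
      (K1 * (n - e).factorial) * (K2 * e.factorial) := by
    have h1 := card_pairs75 (Perm (Fin (n - e))) (Perm (Fin e))
    rw [Fintype.card_perm, Fintype.card_perm, Fintype.card_fin, Fintype.card_fin] at h1
    have h2 : ((Finset.univ.filter (fun p : (Perm (Fin (n - e)) × Perm (Fin e)) ×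
      (Perm (Fin (n - e)) × Perm (Fin e)) => s p.1 = s p.2)).card : ℝ) ≤
      (((Nat.card (ConjClasses (Perm (Fin (n - e)))) * (n - e).factorial) *
        (Nat.card (ConjClasses (Perm (Fin e))) * e.factorial) : ℕ) : ℝ) := by
      exact_mod_cast h1
    refine h2.trans (le_of_eq ?_)
    push_cast
    rfl
  have hK1n : 0 ≤ K1 := Nat.cast_nonneg _
  have hK2n : 0 ≤ K2 := Nat.cast_nonneg _
  have hsum : |∑ x : Perm (Fin (n - e)), ∑ y : Perm (Fin e),
      ((Perm.sign (jT h x * jD h y) : ℤ) : ℝ) * (ρ.character ((jT h x * jD h y) ^ 2)).re * q y| ≤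
        ∑ p, F (s p) := by
    rw [← Fintype.sum_prod_type' (fun x y =>
      ((Perm.sign (jT h x * jD h y) : ℤ) : ℝ) * (ρ.character ((jT h x * jD h y) ^ 2)).re * q y)]
    refine (Finset.abs_sum_le_sum_abs _ _).trans (Finset.sum_le_sum fun p _ => ?_)
    rw [abs_mul, abs_mul, abs_sign75, one_mul, sq_jH75]
    have h1 : F (s p) = |(ρ.character (jH h (p.1 ^ 2, p.2 ^ 2))).re| := rfl
    rw [h1]
    exact mul_le_of_le_one_right (abs_nonneg _) (hq _)
  have hCS : (∑ p, F (s p)) ^ 2 ≤ (K1 * (n - e).factorial) * (K2 * e.factorial) * n.factorial := by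
    refine (cs75 s F).trans ?_
    exact mul_le_mul hcard hFsum (Finset.sum_nonneg fun _ _ => sq_nonneg _) (by positivity)
  have hf1 : (0 : ℝ) < (n - e).factorial := by exact_mod_cast Nat.factorial_pos _
  have hf2 : (0 : ℝ) < e.factorial := by exact_mod_cast Nat.factorial_pos _
  have hch : (n.choose e : ℝ) * (e.factorial * (n - e).factorial) = n.factorial := by
    rw [← mul_assoc]
    exact_mod_cast Nat.choose_mul_factorial_mul_factorial h
  unfold avH
  rw [abs_div, abs_of_pos (mul_pos hf1 hf2), div_le_iff₀ (mul_pos hf1 hf2)]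
  refine hsum.trans ?_
  rw [← Real.sqrt_sq (mul_pos hf1 hf2).le, ← Real.sqrt_mul (by positivity)]
  refine Real.le_sqrt_of_sq_le (hCS.trans (le_of_eq ?_))
  rw [← hch]
  ring

end Pool.Agent.Helper51.TF
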