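import Mathlib

/-!
BLOCK TF-NG1 (about 120 lines). Every permutation is conjugate to its inverse by a permutation preserving `{a, b}`. Only Mathlib.

Proof in words. On a cycle of `g` through `x` the map `g^i x ↦ g^(-i) y`, `y` in the same cycle, is well defined, a bijection of the cycle, and conjugates `g` to `g⁻¹` there. If `a`, `b` are in the same cycle, `b = g^j a`, take `x = a`, `y = b`: it maps `b = g^j a` to `g^(-j) b = a`. If they are in different cycles take `y = x` for `x = a` and `x = b`. On the other cycles
choose any `x` and `y = x`. (Formal definition: choose a base point `c p` for every cycle (`Quotient.out` for the setoid `Equiv.Perm.SameCycle.setoid g`, or a function `c` with `SameCycle g p (c p)`, `c p = c q` if `SameCycle g p q`), and a point `y p` in the same cycle, constant on cycles; for `p = g^i (c p)` put `h p = g^(-i) (y p)`: independent of `i` because `g^i (c p) = g^j (c p)` implies `g^(i-j) (c p) = c p`,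
`g^(i-j)` commutes with `g` and fixes the whole cycle. `h (g p) = g⁻¹ (h p)`; `h` is injective: `g^(-i) y = g^(-j) y` implies `g^(i-j)` fixes `y`, hence the cycle.)
-/

set_option autoImplicit false

open Equiv

namespace Pool.Agent.Helper51.TF

private theorem conj_aux36 {n : ℕ} (g : Perm (Fin n)) (c : Fin n → Fin n)
    (hc : ∀ p, g.SameCycle (c p) p) (hcc : ∀ p q, g.SameCycle p q → c p = c q) :
    ∃ h : Perm (Fin n), h * g * h⁻¹ = g⁻¹ ∧
      ∀ p (k : ℤ), h ((g ^ k) (c p)) = (g ^ (-k)) (c p) := by
  choose i hi using hc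
  have key : ∀ (x : Fin n) (k l : ℤ), (g ^ k) x = (g ^ l) x → (g ^ (-k)) x = (g ^ (-l)) x := by
    intro x k l e
    have h1 := congrArg (g ^ (-k - l)) e
    rw [← Perm.mul_apply, ← Perm.mul_apply, ← zpow_add, ← zpow_add] at h1
    have e1 : -k - l + k = -l := by ring
    have e2 : -k - l + l = -k := by ring
    rw [e1, e2] at h1
    exact h1.symm
  have hk : ∀ p (k : ℤ),
      (g ^ (-(i ((g ^ k) (c p))))) (c ((g ^ k) (c p))) = (g ^ (-k)) (c p) := by
    intro p k
    have h1 : c ((g ^ k) (c p)) = c p := by
      apply hcc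
      have h3 : g.SameCycle (c p) ((g ^ k) (c p)) := ⟨k, rfl⟩
      exact h3.symm.trans ⟨i p, hi p⟩
    have h2 := hi ((g ^ k) (c p))
    rw [h1] at h2
    rw [h1]
    exact key _ _ _ h2
  have hinv : Function.Involutive (fun p : Fin n => (g ^ (-(i p))) (c p)) := by
    intro p
    have h1 := hk p (-(i p))
    rw [neg_neg] at h1
    exact h1.trans (hi p)
  have hh : ∀ (p : Fin n) (k : ℤ),
      (Function.Involutive.toPerm _ hinv) ((g ^ k) (c p)) = (g ^ (-k)) (c p) := fun p k => hk p k
  refine ⟨Function.Involutive.toPerm _ hinv, ?_, hh⟩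
  have hsymm : (Function.Involutive.toPerm _ hinv)⁻¹ = Function.Involutive.toPerm _ hinv := by
    ext p
    rfl
  rw [hsymm]
  ext p
  congr 1
  have e1 : p = (g ^ (i p)) (c p) := (hi p).symm
  have e2 : (Function.Involutive.toPerm _ hinv) p = (g ^ (-(i p))) (c p) := rfl
  rw [Perm.mul_apply, Perm.mul_apply, e2]
  have e3 : g ((g ^ (-(i p))) (c p)) = (g ^ (1 + -(i p))) (c p) := by
    rw [zpow_add, zpow_one, Perm.mul_apply]
  rw [e3, hh]
  have e4 : g⁻¹ p = (g ^ (-(1 + -(i p)))) (c p) := by
    conv_lhs => rw [e1]
    have : (-(1 + -(i p))) = -1 + i p := by ring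
    rw [this, zpow_add, zpow_neg_one, Perm.mul_apply]
  rw [e4]

theorem exists_conj_inv {n : ℕ} (g : Perm (Fin n)) (a b : Fin n) :
    ∃ h : Perm (Fin n), h * g * h⁻¹ = g⁻¹ ∧ ((h a = a ∧ h b = b) ∨ (h a = b ∧ h b = a)) := by
  classical
  let c : Fin n → Fin n := fun p =>
    if g.SameCycle a p then a else if g.SameCycle b p then b
      else (Quotient.mk (Perm.SameCycle.setoid g) p).out
  have hc : ∀ p, g.SameCycle (c p) p := by
    intro p
    by_cases h1 : g.SameCycle a p
    · have : c p = a := if_pos h1
      rw [this]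
      exact h1
    · by_cases h2 : g.SameCycle b p
      · have : c p = b := by
          show (if g.SameCycle a p then a else if g.SameCycle b p then b
            else (Quotient.mk (Perm.SameCycle.setoid g) p).out) = b
          rw [if_neg h1, if_pos h2]
        rw [this]
        exact h2
      · have : c p = (Quotient.mk (Perm.SameCycle.setoid g) p).out := by
          show (if g.SameCycle a p then a else if g.SameCycle b p then b
            else (Quotient.mk (Perm.SameCycle.setoid g) p).out) = _
          rw [if_neg h1, if_neg h2]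
        rw [this]
        exact Quotient.mk_out (s := Perm.SameCycle.setoid g) p
  have hcc : ∀ p q, g.SameCycle p q → c p = c q := by
    intro p q hpq
    have h1 : g.SameCycle a p ↔ g.SameCycle a q := ⟨fun h => h.trans hpq, fun h => h.trans hpq.symm⟩
    have h2 : g.SameCycle b p ↔ g.SameCycle b q := ⟨fun h => h.trans hpq, fun h => h.trans hpq.symm⟩
    have h3 : (Quotient.mk (Perm.SameCycle.setoid g) p) = Quotient.mk (Perm.SameCycle.setoid g) q :=
      Quotient.sound hpq
    show (if g.SameCycle a p then a else if g.SameCycle b p then b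
            else (Quotient.mk (Perm.SameCycle.setoid g) p).out) =
         (if g.SameCycle a q then a else if g.SameCycle b q then b
            else (Quotient.mk (Perm.SameCycle.setoid g) q).out)
    rw [h3]
    simp only [h1, h2]
  obtain ⟨h, hconj, hh⟩ := conj_aux36 g c hc hcc
  have hca : c a = a := if_pos (Perm.SameCycle.refl g a)
  have ha : ∀ k : ℤ, h ((g ^ k) a) = (g ^ (-k)) a := by
    intro k
    have := hh a k
    rwa [hca] at this
  have ha0 : h a = a := by
    have := ha 0
    simpa using this
  by_cases hab : g.SameCycle a b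
  · obtain ⟨j, hj⟩ := hab
    refine ⟨g ^ j * h, ?_, Or.inr ⟨?_, ?_⟩⟩
    · have : g ^ j * h * g * (g ^ j * h)⁻¹ = g ^ j * (h * g * h⁻¹) * (g ^ j)⁻¹ := by
        group
      rw [this, hconj]
      have h5 : g ^ j * g⁻¹ = g⁻¹ * g ^ j := by
        rw [← zpow_neg_one, ← zpow_add, ← zpow_add, add_comm]
      rw [h5, mul_assoc, mul_inv_cancel, mul_one]
    · rw [Perm.mul_apply, ha0, hj]
    · rw [Perm.mul_apply, ← hj, ha j, ← Perm.mul_apply, ← zpow_add, add_neg_cancel, zpow_zero]
      rfl
  · refine ⟨h, hconj, Or.inl ⟨ha0, ?_⟩⟩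
    have hcb : c b = b := by
      show (if g.SameCycle a b then a else if g.SameCycle b b then b
            else (Quotient.mk (Perm.SameCycle.setoid g) b).out) = b
      rw [if_neg hab, if_pos (Perm.SameCycle.refl g b)]
    have := hh b 0
    rw [hcb] at this
    simpa using this

end Pool.Agent.Helper51.TF
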