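import Pool.Agent.Helper51.TF.NG1
import Pool.Agent.Helper51.TN.B8
import Pool.Agent.Helper51.TN.B3

/-!
BLOCK TF-NG2 (about 200 lines). The exterior square of an irreducible representation contains no `W` with a vector fixed by `S_2 × S_{n-2}`.

Proof in words. `H` = the permutations preserving `{0, 1}`. By `dim_hom` (`TN/L1`), `trace_bil_pe` (`TN/L2`) it is enough that `HomP θ (bil ρ) (pe (-1)) = ⊥`. Let `f` be in it. `b = f w` is an alternating form (`pe (-1) b = b`: `b v v' = - b v' v`) fixed by `bil ρ g`, `g ∈ H`.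
Claim: every form `b` fixed by `H` is symmetric. There is a nondegenerate symmetric invariant form `s` on `V` (`form_symm` in `TN/B3` says that invariant forms are symmetric; a nonzero one exists because the character is real: `finrank (HomP (trivial) (bil ρ) id) = (1/n!) ∑ χ(g)² = 1`, see `fs`, `norm_one` in `TN/B3`; its kernel is stable, so it is nondegenerate). So `b v v' = s (A v) v'` for a unique `A : V → V`, which commutes
with `H`. `A` is a combination of the `ρ g` (`V` irreducible over `ℂ`: the `ρ g` span `End V`; e.g. from `TS.schur_sum`-type identities: `∑_g tr(A ρ(g⁻¹)) ρ(g) = (n!/dim V) A`): `A = c ∑_g φ(g) ρ(g)`, `φ(g) = tr (A ρ(g⁻¹))`. `φ(h g h⁻¹) = φ(g)` for `h ∈ H` since `A` commutes with `ρ h`. By `exists_conj_inv` `φ(g⁻¹) = φ(g)`. The adjoint of `ρ(g)` for `s` is `ρ(g⁻¹)`,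
so `A` is self-adjoint: `s (A v) v' = s v (A v') = s (A v') v`, that is `b v v' = b v' v`.
So `b` is symmetric and alternating, `f w = 0`; the kernel of `f` is stable and contains `w ≠ 0`, `θ` is irreducible: `f = 0`.
-/

set_option autoImplicit false

open Module Equiv Pool.Agent.Helper1.TS Pool.Agent.Helper70.TU Pool.Agent.Helper51.TN

namespace Pool.Agent.Helper51.TF

private lemma irr77 {G V : Type*} [Group G] [AddCommGroup V] [Module ℂ V]
    (ρ : Representation ℂ G V) [hρ : ρ.IsIrreducible] (W : Submodule ℂ V)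
    (hW : ∀ g, ∀ v ∈ W, ρ g v ∈ W) : W = ⊥ ∨ W = ⊤ := by
  have h := hρ.eq_bot_or_eq_top (⟨W, fun g v hv => hW g v hv⟩ : Subrepresentation ρ)
  rcases h with h | h
  · left
    exact congrArg Subrepresentation.toSubmodule h
  · right
    exact congrArg Subrepresentation.toSubmodule h

private lemma inj77 {G V : Type*} [Group G] [AddCommGroup V] [Module ℂ V]
    (ρ : Representation ℂ G V) [ρ.IsIrreducible] (b : Bil V)
    (hb : ∀ (g : G) (v w : V), b (ρ g v) (ρ g w) = b v w) (hne : b ≠ 0) :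
    LinearMap.ker b = ⊥ := by
  rcases irr77 ρ (LinearMap.ker b) (by
    intro g v hv
    rw [LinearMap.mem_ker] at hv ⊢
    refine LinearMap.ext fun w => ?_
    have h1 : w = ρ g (ρ g⁻¹ w) := by
      rw [← Module.End.mul_apply, ← map_mul, mul_inv_cancel, map_one, Module.End.one_apply]
    rw [h1, hb, hv, LinearMap.zero_apply, LinearMap.zero_apply]) with h | h
  · exact h
  · exact absurd (LinearMap.ker_eq_top.1 h) hne

/-- Schur's lemma for the average of an operator. -/
private lemma avg77 {G V : Type*} [Group G] [Fintype G] [AddCommGroup V] [Module ℂ V]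
    [FiniteDimensional ℂ V] (ρ : Representation ℂ G V) [ρ.IsIrreducible] (T : V →ₗ[ℂ] V) (x : V) :
    (finrank ℂ V : ℂ) • ∑ g : G, ρ g (T (ρ g⁻¹ x)) =
      ((Fintype.card G : ℂ) * LinearMap.trace ℂ V T) • x := by
  obtain ⟨B, hB⟩ : ∃ B : V →ₗ[ℂ] V, B = ∑ y : G, ρ y * T * ρ y⁻¹ := ⟨_, rfl⟩
  have hcomm : ∀ x : G, ∀ v : V, B (ρ x v) = ρ x (B v) := by
    intro x v
    have h : B * ρ x = ρ x * B := by
      rw [hB, Finset.sum_mul, Finset.mul_sum,
        ← _root_.Equiv.sum_comp (Equiv.mulLeft x) (fun y => ρ y * T * ρ y⁻¹ * ρ x)]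
      refine Finset.sum_congr rfl (fun y _ => ?_)
      simp only [Equiv.coe_mulLeft]
      rw [mul_inv_rev, map_mul, map_mul]
      have h1 : ρ x⁻¹ * ρ x = 1 := by rw [← map_mul, inv_mul_cancel, map_one]
      simp only [mul_assoc]
      rw [h1, mul_one]
    exact congrArg (fun f : V →ₗ[ℂ] V => f v) h
  obtain ⟨c, hc⟩ := (Representation.IsIrreducible.algebraMap_intertwiningMap_bijective_of_isAlgClosed
    (ρ := ρ)).2 (B.intertwiningMap_of_isIntertwiningMap ρ ρ hcomm)
  have h2 := congrArg (fun f : Representation.IntertwiningMap ρ ρ => f.toLinearMap) hc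
  have hBc : B = c • (1 : V →ₗ[ℂ] V) := by
    apply LinearMap.ext
    intro v
    have h3 := congrArg (fun f : V →ₗ[ℂ] V => f v) h2
    have h4 : B v = (((algebraMap ℂ (Representation.IntertwiningMap ρ ρ)) c).toLinearMap) v := h3.symm
    rw [h4]
    rfl
  have htr : c * finrank ℂ V = (Fintype.card G : ℂ) * LinearMap.trace ℂ V T := by
    have h1 := congrArg (LinearMap.trace ℂ V) hBc
    rw [hB, map_sum, map_smul, LinearMap.trace_one, smul_eq_mul] at h1
    rw [← h1]
    have h3 : ∀ y : G, LinearMap.trace ℂ V (ρ y * T * ρ y⁻¹) = LinearMap.trace ℂ V T := by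
      intro y
      rw [LinearMap.trace_mul_comm, ← mul_assoc, ← map_mul, inv_mul_cancel, map_one, one_mul]
    simp only [h3]
    rw [Finset.sum_const, Finset.card_univ, nsmul_eq_mul]
  have h5 : ∑ g : G, ρ g (T (ρ g⁻¹ x)) = B x := by
    rw [hB, LinearMap.sum_apply]
    rfl
  rw [h5, hBc, LinearMap.smul_apply, Module.End.one_apply, smul_smul, ← htr, mul_comm]

/-- The operators `ρ g` span. -/
private lemma zero77 {G V : Type*} [Group G] [Fintype G] [AddCommGroup V] [Module ℂ V]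
    [FiniteDimensional ℂ V] (ρ : Representation ℂ G V) [ρ.IsIrreducible] (D : V →ₗ[ℂ] V)
    (h : ∀ g, LinearMap.trace ℂ V (D ∘ₗ ρ g) = 0) : D = 0 := by
  classical
  obtain b := Module.finBasis ℂ V
  refine LinearMap.ext fun v => ?_
  rw [LinearMap.zero_apply]
  have key : ∀ i, (finrank ℂ V : ℂ) • ∑ g : G, (b.coord i (D (ρ g⁻¹ (b i)))) • ρ g v =
      ((Fintype.card G : ℂ) * b.coord i (D v)) • b i := by
    intro i
    obtain ⟨T, hT⟩ : ∃ T : V →ₗ[ℂ] V, T = (b.coord i ∘ₗ D).smulRight v := ⟨_, rfl⟩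
    have h1 := avg77 ρ T (b i)
    have h2 : LinearMap.trace ℂ V T = b.coord i (D v) := by
      rw [hT, LinearMap.trace_smulRight, LinearMap.comp_apply]
    rw [h2] at h1
    rw [← h1]
    congr 1
    refine Finset.sum_congr rfl fun g _ => ?_
    rw [hT, LinearMap.smulRight_apply, map_smul, LinearMap.comp_apply]
  have h1 : ∑ i, (finrank ℂ V : ℂ) • ∑ g : G, (b.coord i (D (ρ g⁻¹ (b i)))) • ρ g v =
      ∑ i, ((Fintype.card G : ℂ) * b.coord i (D v)) • b i := Finset.sum_congr rfl fun i _ => key i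
  have h2 : ∑ i, (finrank ℂ V : ℂ) • ∑ g : G, (b.coord i (D (ρ g⁻¹ (b i)))) • ρ g v = 0 := by
    rw [← Finset.smul_sum, Finset.sum_comm]
    have h3 : ∀ g : G, ∑ i, (b.coord i (D (ρ g⁻¹ (b i)))) • ρ g v = 0 := by
      intro g
      rw [← Finset.sum_smul]
      have h4 := h g⁻¹
      rw [trace_lin b] at h4
      have h5 : ∑ i, b.coord i (D (ρ g⁻¹ (b i))) = 0 := h4
      rw [h5, zero_smul]
    rw [Finset.sum_eq_zero fun g _ => h3 g, smul_zero]
  rw [h2] at h1
  have h3 : ∑ i, ((Fintype.card G : ℂ) * b.coord i (D v)) • b i = (Fintype.card G : ℂ) • D v := by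
    conv_rhs => rw [← b.sum_repr (D v), Finset.smul_sum]
    refine Finset.sum_congr rfl fun i _ => ?_
    rw [smul_smul]
    rfl
  rw [h3] at h1
  have hc : (Fintype.card G : ℂ) ≠ 0 := by exact_mod_cast Fintype.card_ne_zero
  rcases smul_eq_zero.1 h1.symm with h4 | h4
  · exact absurd h4 hc
  · exact h4

/-- The invariant form. -/
private lemma form77 {n : ℕ} {V : Type} [AddCommGroup V] [Module ℂ V] [FiniteDimensional ℂ V]
    (ρ : Representation ℂ (Perm (Fin n)) V) [ρ.IsIrreducible] :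
    ∃ s : Bil V, (∀ (g : Perm (Fin n)) (v w : V), s (ρ g v) (ρ g w) = s v w) ∧ (∀ v w, s v w = s w v) ∧
      LinearMap.ker s = ⊥ := by
  classical
  have hP : ∀ b : Bil V, pe 1 (pe 1 b) = pe 1 b := pe_idem 1 (by norm_num)
  have hc : ∀ (h : Perm (Fin n)) (b : Bil V), pe 1 (bil ρ h b) = bil ρ h (pe 1 b) :=
    fun h b => pe_pb 1 (ρ h⁻¹) b
  have hdim := dim_hom (Representation.trivial ℂ (Perm (Fin n)) ℂ) (bil ρ) (pe 1) hP hc
  have htr : ∀ g : Perm (Fin n), (Representation.trivial ℂ (Perm (Fin n)) ℂ).character g = 1 := by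
    intro g
    unfold Representation.character
    have h1 : (Representation.trivial ℂ (Perm (Fin n)) ℂ) g = LinearMap.id := rfl
    rw [h1, LinearMap.trace_id, finrank_self, Nat.cast_one]
  have h4 : ∑ h : Perm (Fin n), LinearMap.trace ℂ (Bil V) (bil ρ h ∘ₗ pe 1) *
      (Representation.trivial ℂ (Perm (Fin n)) ℂ).character h⁻¹ = (n.factorial : ℂ) := by
    have h5 : ∑ h : Perm (Fin n), LinearMap.trace ℂ (Bil V) (bil ρ h ∘ₗ pe 1) *
        (Representation.trivial ℂ (Perm (Fin n)) ℂ).character h⁻¹ =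
        ∑ h : Perm (Fin n), (ρ.character h⁻¹ ^ 2 + 1 * ρ.character (h⁻¹ ^ 2)) / 2 := by
      refine Finset.sum_congr rfl fun h _ => ?_
      rw [trace_bil_pe, htr, mul_one]
    have h6 : ∑ h : Perm (Fin n), (ρ.character h⁻¹ ^ 2 + 1 * ρ.character (h⁻¹ ^ 2)) / 2 =
        ∑ h : Perm (Fin n), (ρ.character h ^ 2 + 1 * ρ.character (h ^ 2)) / 2 :=
      Equiv.sum_comp (Equiv.inv (Perm (Fin n)))
        (fun h : Perm (Fin n) => (ρ.character h ^ 2 + 1 * ρ.character (h ^ 2)) / 2)
    rw [h5, h6, ← Finset.sum_div, Finset.sum_add_distrib, TN.norm_one, ← Finset.mul_sum, fs]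
    ring
  rw [h4] at hdim
  have hne : HomP (Representation.trivial ℂ (Perm (Fin n)) ℂ) (bil ρ) (pe 1) ≠ ⊥ := by
    intro hbot
    rw [hbot, finrank_bot, Nat.cast_zero, mul_zero] at hdim
    exact Nat.factorial_ne_zero n (by exact_mod_cast hdim.symm)
  obtain ⟨f, hf, hf0⟩ := Submodule.exists_mem_ne_zero_of_ne_bot hne
  obtain ⟨hf1, hf2⟩ := mem_HomP.1 hf
  obtain ⟨z, hz⟩ : ∃ z, f z ≠ 0 := by
    by_contra hcon
    push Not at hcon
    exact hf0 (LinearMap.ext hcon)
  have hinv : ∀ (g : Perm (Fin n)) (v w : V), f z (ρ g v) (ρ g w) = f z v w := by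
    intro g v w
    have h1 : f z = bil ρ g⁻¹ (f z) := hf1 g⁻¹ z
    have h2 := congrArg (fun b : Bil V => b v w) h1
    simp only [bil_apply, inv_inv] at h2
    exact h2.symm
  exact ⟨f z, hinv, form_symm n V ρ (f z) hinv, inj77 ρ (f z) hinv hz⟩

/-- The forms fixed by `S_2 × S_{n-2}` are symmetric. -/
private lemma symm77 {n : ℕ} (hn : 2 ≤ n) {V : Type} [AddCommGroup V] [Module ℂ V] [FiniteDimensional ℂ V]
    (ρ : Representation ℂ (Perm (Fin n)) V) [ρ.IsIrreducible] (b : Bil V)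
    (hb : ∀ g : Perm (Fin n), (∀ i : Fin n, (i : ℕ) < 2 ↔ ((g i : Fin n) : ℕ) < 2) →
      ∀ v w, b (ρ g v) (ρ g w) = b v w) (v w : V) : b v w = b w v := by
  classical
  obtain ⟨s, hs, hsym, hker⟩ := form77 ρ
  have hinj : Function.Injective s := LinearMap.ker_eq_bot.1 hker
  have hdim : finrank ℂ V = finrank ℂ (V →ₗ[ℂ] ℂ) := by
    exact (Subspace.dual_finrank_eq).symm
  let e : V ≃ₗ[ℂ] (V →ₗ[ℂ] ℂ) := LinearEquiv.ofInjectiveOfFinrankEq s hinj hdim
  have he : ∀ v, e v = s v := fun v => rfl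
  let A : V →ₗ[ℂ] V := e.symm.toLinearMap ∘ₗ b
  let A' : V →ₗ[ℂ] V := e.symm.toLinearMap ∘ₗ b.flip
  have hA : ∀ v, s (A v) = b v := by
    intro v
    rw [← he]
    exact e.apply_symm_apply (b v)
  have hA' : ∀ v, s (A' v) = b.flip v := by
    intro v
    rw [← he]
    exact e.apply_symm_apply (b.flip v)
  have hgg : ∀ (g : Perm (Fin n)) (w : V), w = ρ g (ρ g⁻¹ w) := by
    intro g w
    rw [← Module.End.mul_apply, ← map_mul, mul_inv_cancel, map_one, Module.End.one_apply]
  have hcomm : ∀ g : Perm (Fin n), (∀ i : Fin n, (i : ℕ) < 2 ↔ ((g i : Fin n) : ℕ) < 2) → A * ρ g = ρ g * A := by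
    intro g hg
    refine LinearMap.ext fun v => hinj (LinearMap.ext fun w => ?_)
    rw [Module.End.mul_apply, Module.End.mul_apply, hA, hgg g w, hb g hg, hs, hA]
  -- traces
  have h1 : ∀ g : Perm (Fin n), LinearMap.trace ℂ V (A * ρ g⁻¹) = LinearMap.trace ℂ V (A * ρ g) := by
    intro g
    obtain ⟨h, h2, h3⟩ := exists_conj_inv g (⟨0, by omega⟩ : Fin n) ⟨1, by omega⟩
    have hh : ∀ i : Fin n, (i : ℕ) < 2 ↔ ((h i : Fin n) : ℕ) < 2 := by
      have h4 : ∀ i : Fin n, (i : ℕ) < 2 → ((h i : Fin n) : ℕ) < 2 := by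
        intro i hi
        have h5 : i = ⟨0, by omega⟩ ∨ i = ⟨1, by omega⟩ := by
          rcases Nat.lt_succ_iff_lt_or_eq.1 hi with h6 | h6
          · left
            exact Fin.ext (by simpa using h6)
          · right
            exact Fin.ext h6
        rcases h5 with h5 | h5 <;> rcases h3 with ⟨h6, h7⟩ | ⟨h6, h7⟩ <;> rw [h5]
        · rw [h6]
          simp
        · rw [h6]
          simp
        · rw [h7]
          simp
        · rw [h7]
          simp
      intro i
      refine ⟨h4 i, fun h5 => ?_⟩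
      -- `h` maps the two points onto themselves
      by_contra h6
      have h7 : i ≠ ⟨0, by omega⟩ := fun h8 => h6 (by rw [h8]; simp)
      have h8 : i ≠ ⟨1, by omega⟩ := fun h9 => h6 (by rw [h9]; simp)
      have h9 : h i = ⟨0, by omega⟩ ∨ h i = ⟨1, by omega⟩ := by
        rcases Nat.lt_succ_iff_lt_or_eq.1 h5 with h10 | h10
        · left
          exact Fin.ext (by simpa using h10)
        · right
          exact Fin.ext h10
      rcases h3 with ⟨h10, h11⟩ | ⟨h10, h11⟩
      · rcases h9 with h9 | h9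
        · exact h7 (h.injective (h9.trans h10.symm))
        · exact h8 (h.injective (h9.trans h11.symm))
      · rcases h9 with h9 | h9
        · exact h8 (h.injective (h9.trans h11.symm))
        · exact h7 (h.injective (h9.trans h10.symm))
    have e1 : ρ g⁻¹ = ρ h * ρ g * ρ h⁻¹ := by
      rw [← h2, map_mul ρ, map_mul ρ]
    have e2 : ρ h⁻¹ * ρ h = 1 := by
      rw [← map_mul ρ, inv_mul_cancel, map_one]
    calc LinearMap.trace ℂ V (A * ρ g⁻¹) = LinearMap.trace ℂ V (ρ h * (A * ρ g) * ρ h⁻¹) := by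
          rw [e1, ← mul_assoc A, ← mul_assoc A, hcomm h hh]
          simp only [mul_assoc]
      _ = LinearMap.trace ℂ V (ρ h⁻¹ * (ρ h * (A * ρ g))) := LinearMap.trace_mul_comm ℂ _ _
      _ = LinearMap.trace ℂ V (A * ρ g) := by rw [← mul_assoc, e2, one_mul]
  have hadj : ∀ X Y : V →ₗ[ℂ] V, (∀ v w, s (X v) w = s v (Y w)) → LinearMap.trace ℂ V X = LinearMap.trace ℂ V Y := by
    intro X Y hXY
    have h2 : Module.Dual.transpose (R := ℂ) Y = e.conj X := by
      refine LinearMap.ext fun φ => ?_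
      obtain ⟨v, rfl⟩ := e.surjective φ
      rw [LinearEquiv.conj_apply_apply, LinearEquiv.symm_apply_apply]
      refine LinearMap.ext fun w => ?_
      rw [he, he, hXY]
      rfl
    have h3 := LinearMap.trace_transpose' (R := ℂ) (M := V) Y
    rw [← h3, h2, LinearMap.trace_conj']
  have h2 : ∀ g : Perm (Fin n), LinearMap.trace ℂ V (A' * ρ g) = LinearMap.trace ℂ V (A * ρ g⁻¹) := by
    intro g
    rw [LinearMap.trace_mul_comm ℂ A]
    refine (hadj _ _ fun v w => ?_).symm
    rw [Module.End.mul_apply, Module.End.mul_apply, hsym v, hA', LinearMap.flip_apply, ← hs g, ← hgg g, hA]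
  have h3 : A - A' = 0 := by
    refine zero77 ρ _ fun g => ?_
    have h4 : (A - A') ∘ₗ ρ g = A * ρ g - A' * ρ g := by
      rw [LinearMap.sub_comp]
      rfl
    rw [h4, map_sub, h2, h1, sub_self]
  have h4 : A = A' := sub_eq_zero.1 h3
  have h5 := hA v
  rw [h4, hA'] at h5
  rw [← h5, LinearMap.flip_apply]

theorem alt_zero {n : ℕ} (hn : 2 ≤ n) {V W : Type} [AddCommGroup V] [Module ℂ V] [FiniteDimensional ℂ V]
    [AddCommGroup W] [Module ℂ W] [FiniteDimensional ℂ W]
    (ρ : Representation ℂ (Perm (Fin n)) V) [ρ.IsIrreducible] (θ : Representation ℂ (Perm (Fin n)) W) [θ.IsIrreducible]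
    (w : W) (hw0 : w ≠ 0)
    (hw : ∀ g : Perm (Fin n), (∀ i : Fin n, (i : ℕ) < 2 ↔ ((g i : Fin n) : ℕ) < 2) → θ g w = w) :
    ∑ g : Perm (Fin n), (ρ.character g ^ 2 - ρ.character (g ^ 2)) / 2 * θ.character g⁻¹ = 0 := by
  classical
  have hP : ∀ b : Bil V, pe (-1) (pe (-1) b) = pe (-1) b := pe_idem (-1) (by norm_num)
  have hc : ∀ (h : Perm (Fin n)) (b : Bil V), pe (-1) (bil ρ h b) = bil ρ h (pe (-1) b) :=
    fun h b => pe_pb (-1) (ρ h⁻¹) b
  have hdim := dim_hom θ (bil ρ) (pe (-1)) hP hc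
  have hbot : HomP θ (bil ρ) (pe (-1)) = ⊥ := by
    rw [Submodule.eq_bot_iff]
    intro f hf
    obtain ⟨hf1, hf2⟩ := mem_HomP.1 hf
    have hfw : f w = 0 := by
      have hsymm := symm77 hn ρ (f w) (by
        intro g hg v v'
        have hg' : ∀ i : Fin n, (i : ℕ) < 2 ↔ ((g⁻¹ i : Fin n) : ℕ) < 2 := by
          intro i
          have := hg (g⁻¹ i)
          have h0 : g (g⁻¹ i) = i := by simp
          rw [h0] at this
          exact this.symm
        have h1 : f w = bil ρ g⁻¹ (f w) := by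
          rw [← hf1, hw _ hg']
        have h2 := congrArg (fun b : Bil V => b v v') h1
        simp only [bil_apply, inv_inv] at h2
        exact h2.symm)
      refine LinearMap.ext₂ fun v v' => ?_
      have h3 := congrArg (fun b : Bil V => b v v') (hf2 w)
      simp only [pe_apply] at h3
      rw [← h3, hsymm v' v]
      simp
    have hst : ∀ g, ∀ x ∈ LinearMap.ker f, θ g x ∈ LinearMap.ker f := by
      intro g x hx
      rw [LinearMap.mem_ker] at hx ⊢
      rw [hf1, hx, map_zero]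
    rcases irr77 θ (LinearMap.ker f) hst with h | h
    · exfalso
      have h1 : w ∈ LinearMap.ker f := hfw
      rw [h] at h1
      exact hw0 ((Submodule.mem_bot ℂ).1 h1)
    · exact LinearMap.ker_eq_top.1 h
  rw [hbot, finrank_bot, Nat.cast_zero, mul_zero] at hdim
  rw [hdim]
  refine Finset.sum_congr rfl fun g _ => ?_
  rw [trace_bil_pe, inv_pow, char_perm_inv ρ g, char_perm_inv ρ (g ^ 2)]
  ring

end Pool.Agent.Helper51.TF
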