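import Pool.Agent.Helper51.TF.E6
import Pool.Agent.Helper51.TN.B8
import Pool.Agent.Helper51.TN.C10

/-!
BLOCK TF-R1 (about 250 lines). Many new maps of medium depth: quantitative version of `medium` (`TN/C10.lean`).

Proof in words. Copy the proof of `medium` in `TN/C10.lean` (its private lemmas have to be copied too) with `16` in the place of `8` in `num93` (so `24 * C₀` becomes `48 * C₀` or similar): with `x = (finrank V)²/m!`, `D = finrank E`:
`finrank HomE(d) - finrank HomE(d-1) = D ((a_d - a_{d-1})/2 + (ε/2)(b_d - b_{d-1})) ≥ D (x binom(m,d)/8 - sqrt(binom(m,d)) K) ≥ D x binom(m,d)/16` as soon as `sqrt(binom(m,d)) K ≤ x binom(m,d)/16`.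
Then `HomE_le_NM` (`TF/E6`) with `P = P' = pe ε` (hypothesis `hQ`: `pe_qq`, `TN/B8`).
-/

set_option autoImplicit false

open Module Equiv Pool.Agent.Helper1.TS Pool.Agent.Helper70.TU Pool.Agent.Helper51.TN

namespace Pool.Agent.Helper51.TF

private theorem avH_smul321 {n e : ℕ} (h : e ≤ n) (f : Perm (Fin n) → ℝ) (q : Perm (Fin e) → ℝ) (c : ℝ) :
    avH h f (fun y => c * q y) = c * avH h f q := by
  unfold avH
  rw [← mul_div_assoc, Finset.mul_sum]
  congr 1
  refine Finset.sum_congr rfl fun x _ => ?_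
  rw [Finset.mul_sum]
  refine Finset.sum_congr rfl fun y _ => ?_
  ring

private theorem avH_half321 {n e : ℕ} (h : e ≤ n) (a b : Perm (Fin n) → ℝ) (ε : ℝ) (q : Perm (Fin e) → ℝ) :
    avH h (fun g => (a g + ε * b g) / 2) q = (avH h a q + ε * avH h b q) / 2 := by
  unfold avH
  have h1 : ∑ x : Perm (Fin (n - e)), ∑ y : Perm (Fin e), (a (jT h x * jD h y) + ε * b (jT h x * jD h y)) / 2 * q y =
      ((∑ x : Perm (Fin (n - e)), ∑ y : Perm (Fin e), a (jT h x * jD h y) * q y) +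
        ε * ∑ x : Perm (Fin (n - e)), ∑ y : Perm (Fin e), b (jT h x * jD h y) * q y) / 2 := by
    rw [Finset.mul_sum, ← Finset.sum_add_distrib, Finset.sum_div]
    refine Finset.sum_congr rfl fun x _ => ?_
    rw [Finset.mul_sum, ← Finset.sum_add_distrib, Finset.sum_div]
    refine Finset.sum_congr rfl fun y _ => ?_
    ring
  rw [h1]
  ring

private theorem jD_refl321 {d : ℕ} (y : Perm (Fin d)) : jD (le_refl d) y = y := by
  refine Equiv.ext fun i => ?_
  rw [jD_apply _ _ i i.2]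

private theorem rr_one321 {n : ℕ} {V : Type*} [AddCommGroup V] [Module ℂ V] [FiniteDimensional ℂ V]
    (ρ : Representation ℂ (Perm (Fin n)) V) [ρ.IsIrreducible] : rr ρ 1 = 1 := by
  rw [rr_eq_RM, Equiv.Perm.cycleType_one, RM_zero]

private theorem finrank_pos321 {n : ℕ} {V : Type*} [AddCommGroup V] [Module ℂ V] [FiniteDimensional ℂ V]
    (ρ : Representation ℂ (Perm (Fin n)) V) [ρ.IsIrreducible] : (0 : ℝ) < finrank ℂ V := by
  have h1 := rr_one321 ρ
  rcases (Nat.cast_nonneg (α := ℝ) (finrank ℂ V)).lt_or_eq with h | h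
  · exact h
  · unfold rr at h1
    rw [← h, div_zero] at h1
    exact absurd h1 zero_ne_one

private theorem re_eq321 {n : ℕ} {V : Type*} [AddCommGroup V] [Module ℂ V] [FiniteDimensional ℂ V]
    (ρ : Representation ℂ (Perm (Fin n)) V) [ρ.IsIrreducible] (g : Perm (Fin n)) :
    (ρ.character g).re = finrank ℂ V * rr ρ g := by
  unfold rr
  rw [mul_div_cancel₀ _ (finrank_pos321 ρ).ne']

private theorem card321 {n m : ℕ} (hm : m ≤ n) :
    (Nat.card (ConjClasses (Perm (Fin m))) : ℝ) ≤ (n + 1) * Real.exp (5 * Real.sqrt n) := by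
  have h1 : (m : ℝ) ≤ n := by exact_mod_cast hm
  refine (card_classes_le' m).trans ?_
  refine mul_le_mul (by linarith) (Real.exp_le_exp.2 ?_) (Real.exp_pos _).le (by positivity)
  have := Real.sqrt_le_sqrt h1
  linarith

private theorem sqrt321 {c c' k k' K : ℝ} (hc : c ≤ c') (hk0 : 0 ≤ k) (hk'0 : 0 ≤ k') (hk : k ≤ K)
    (hk' : k' ≤ K) (hc' : 0 ≤ c') : Real.sqrt (c * k * k') ≤ Real.sqrt c' * K := by
  have hK : 0 ≤ K := hk0.trans hk
  have h1 : c * k * k' ≤ c' * K ^ 2 := by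
    have h2 : c * k ≤ c' * K := (mul_le_mul_of_nonneg_right hc hk0).trans (mul_le_mul_of_nonneg_left hk hc')
    calc c * k * k' ≤ c' * K * k' := mul_le_mul_of_nonneg_right h2 hk'0
      _ ≤ c' * K * K := mul_le_mul_of_nonneg_left hk' (mul_nonneg hc' hK)
      _ = c' * K ^ 2 := by ring
  refine (Real.sqrt_le_sqrt h1).trans ?_
  rw [Real.sqrt_mul hc', Real.sqrt_sq hK]

private theorem num321 {C₀ c x K q w : ℝ} (hC : 1 ≤ C₀) (hx : 1 ≤ C₀ * Real.exp (C₀ * w) * x)
    (hq : 16 * C₀ * q < Real.exp (2 * w)) (hq0 : 0 < q) (hK : K = q * Real.exp (5 * w))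
    (hc : Real.exp ((14 + 2 * C₀) * w) ≤ c) : Real.sqrt c * K < x * c / 16 := by
  have hc0 : 0 < c := (Real.exp_pos _).trans_le hc
  have hs : Real.exp ((7 + C₀) * w) ≤ Real.sqrt c := by
    refine Real.le_sqrt_of_sq_le ?_
    rw [← Real.exp_nat_mul]
    refine le_of_eq_of_le ?_ hc
    congr 1
    push_cast
    ring
  have hs0 : 0 < Real.sqrt c := Real.sqrt_pos.2 hc0
  have hK0 : 0 < K := by rw [hK]; positivity
  have h1 : Real.exp ((7 + C₀) * w) = Real.exp (C₀ * w) * Real.exp (5 * w) * Real.exp (2 * w) := by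
    rw [← Real.exp_add, ← Real.exp_add]
    congr 1
    ring
  have h2 : C₀ * Real.exp (C₀ * w) * (16 * K) < Real.sqrt c := by
    refine lt_of_lt_of_le ?_ hs
    rw [h1, hK]
    have h3 : C₀ * Real.exp (C₀ * w) * (16 * (q * Real.exp (5 * w))) =
        Real.exp (C₀ * w) * Real.exp (5 * w) * (16 * C₀ * q) := by ring
    rw [h3]
    exact mul_lt_mul_of_pos_left hq (by positivity)
  have hx0 : 0 < x := by
    by_contra hneg
    push Not at hneg
    have : C₀ * Real.exp (C₀ * w) * x ≤ 0 := mul_nonpos_of_nonneg_of_nonpos (by positivity) hneg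
    linarith
  have h4 : 16 * K < x * Real.sqrt c := by
    have h5 : x * (C₀ * Real.exp (C₀ * w) * (16 * K)) < x * Real.sqrt c := mul_lt_mul_of_pos_left h2 hx0
    have h6 : 1 * (16 * K) ≤ C₀ * Real.exp (C₀ * w) * x * (16 * K) := mul_le_mul_of_nonneg_right hx (by positivity)
    have h7 : x * (C₀ * Real.exp (C₀ * w) * (16 * K)) = C₀ * Real.exp (C₀ * w) * x * (16 * K) := by ring
    linarith
  have h8 : x * c / 16 = Real.sqrt c * (x * Real.sqrt c) / 16 := by
    have := Real.mul_self_sqrt hc0.le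
    rw [show Real.sqrt c * (x * Real.sqrt c) = x * (Real.sqrt c * Real.sqrt c) by ring, this]
  rw [h8]
  have h9 : Real.sqrt c * (16 * K) < Real.sqrt c * (x * Real.sqrt c) := mul_lt_mul_of_pos_left h4 hs0
  linarith

private theorem exp321 {C₀ : ℝ} (hC : 1 ≤ C₀) {n : ℕ} (hn : ⌈48 * C₀⌉₊ + 1 ≤ n) :
    16 * C₀ * ((n : ℝ) + 1) < Real.exp (2 * Real.sqrt n) := by
  have h1 : 48 * C₀ + 1 ≤ n := by
    have h2 : ((⌈48 * C₀⌉₊ + 1 : ℕ) : ℝ) ≤ n := by exact_mod_cast hn
    push_cast at h2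
    have := Nat.le_ceil (48 * C₀)
    linarith
  have h3 := Real.pow_div_factorial_le_exp (2 * Real.sqrt n) (by positivity) 4
  have h4 : (2 * Real.sqrt n) ^ 4 = 16 * (n : ℝ) ^ 2 := by
    have := Real.sq_sqrt (Nat.cast_nonneg (α := ℝ) n)
    calc (2 * Real.sqrt n) ^ 4 = 16 * (Real.sqrt n ^ 2) ^ 2 := by ring
      _ = 16 * (n : ℝ) ^ 2 := by rw [this]
  rw [h4, show ((Nat.factorial 4 : ℕ) : ℝ) = 24 by norm_num [Nat.factorial]] at h3
  refine lt_of_lt_of_le ?_ h3
  nlinarith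

theorem NM_medium (C₀ γ : ℝ) (hC : 1 ≤ C₀) (hγ : 0 < γ) : ∃ (δ : ℝ) (M : ℕ), 0 < δ ∧ δ ≤ 1 / 100 ∧
    ∀ m ≥ M, ∀ (V : Type) [AddCommGroup V] [Module ℂ V] [FiniteDimensional ℂ V]
      (ρ : Representation ℂ (Perm (Fin m)) V) [ρ.IsIrreducible],
      (∀ s : ℕ, 1 ≤ s →
        ∑ g ∈ Finset.univ.filter (fun g : Perm (Fin m) => g.support.card = s), (rr ρ g) ^ 2 ≤
          C₀ * Real.exp (C₀ * Real.sqrt s)) →
      (m.factorial : ℝ) ≤ C₀ * Real.exp (C₀ * Real.sqrt m) * (finrank ℂ V : ℝ) ^ 2 →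
      ∀ (d : ℕ) (h : d ≤ m), 1 ≤ d → γ * Real.sqrt m ≤ (d : ℝ) → (d : ℝ) ≤ δ * m →
      ∀ (E : Type) [AddCommGroup E] [Module ℂ E] [FiniteDimensional ℂ E]
        (τ : Representation ℂ (Perm (Fin d)) E) [τ.IsIrreducible] (ε : ℝ), ε ^ 2 = 1 →
        (finrank ℂ E : ℝ) * ((finrank ℂ V : ℝ) ^ 2 / m.factorial) * (m.choose d : ℝ) / 16 ≤
          finrank ℂ (NM h τ (bil ρ) (pe (ε : ℂ))) := by
  obtain ⟨δ, N₁, hδ0, hδ1, hmain⟩ := main_sum C₀ γ hC hγ
  obtain ⟨N₂, hch⟩ := choose_large (14 + 2 * C₀) γ (by linarith) hγ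
  refine ⟨δ, max (max N₁ N₂) (⌈48 * C₀⌉₊ + 1), hδ0, hδ1, ?_⟩
  intro n hn V _ _ _ ρ _ hsq hdim d h hd0 hd1 hd2 E _ _ _ τ _ ε hε
  obtain ⟨e, rfl⟩ : ∃ e, d = e + 1 := ⟨d - 1, by omega⟩
  have hn1 : N₁ ≤ n := (le_max_left _ _).trans ((le_max_left _ _).trans hn)
  have hn2 : N₂ ≤ n := (le_max_right _ _).trans ((le_max_left _ _).trans hn)
  have hn3 : ⌈48 * C₀⌉₊ + 1 ≤ n := (le_max_right _ _).trans hn
  have hd3 : (((e + 1 : ℕ) : ℕ) : ℝ) ≤ n / 100 := by
    have : δ * n ≤ 1 / 100 * n := mul_le_mul_of_nonneg_right hδ1 (Nat.cast_nonneg n)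
    linarith
  have hM := finrank_pos321 ρ
  have hD := finrank_pos321 τ
  have hf : ∀ x g : Perm (Fin n), ((ρ.character (x * g * x⁻¹)).re) ^ 2 = ((ρ.character g).re) ^ 2 := fun x g => by
    rw [ρ.char_conj g x]
  -- the two dimensions
  have hA : (finrank ℂ (HomE h τ (bil ρ) (pe (ε : ℂ))) : ℝ) = finrank ℂ E *
      ((avH h (fun g => ((ρ.character g).re) ^ 2) (fun y => rr τ (jD (le_refl (e + 1)) y)) +
        ε * avH h (fun g => (ρ.character (g ^ 2)).re) (fun y => rr τ y)) / 2) := by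
    rw [finrank_pe h ρ τ ε hε, avH_half321]
    have h1 : (fun y => (τ.character y).re) = fun y => (finrank ℂ E : ℝ) * rr τ y := by
      funext y
      exact re_eq321 τ y
    have h2 : (fun y => rr τ (jD (le_refl (e + 1)) y)) = fun y => rr τ y := by
      funext y
      rw [jD_refl321]
    rw [h1, h2, avH_smul321, avH_smul321]
    ring
  have hB : (finrank ℂ (HomE ((Nat.le_succ e).trans h) (τ.comp (jD (Nat.le_succ e))) (bil ρ) (pe (ε : ℂ))) : ℝ) =
      finrank ℂ E *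
      ((avH ((Nat.le_succ e).trans h) (fun g => ((ρ.character g).re) ^ 2) (fun y => rr τ (jD (Nat.le_succ e) y)) +
        ε * avH ((Nat.le_succ e).trans h) (fun g => (ρ.character (g ^ 2)).re)
          (fun y => rr τ (jD (Nat.le_succ e) y))) / 2) := by
    rw [finrank_pe ((Nat.le_succ e).trans h) ρ (τ.comp (jD (Nat.le_succ e))) ε hε, avH_half321]
    have h1 : (fun y => (Representation.character (τ.comp (jD (Nat.le_succ e))) y).re) =
        fun y => (finrank ℂ E : ℝ) * rr τ (jD (Nat.le_succ e) y) := by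
      funext y
      exact re_eq321 τ _
    rw [h1, avH_smul321, avH_smul321]
    ring
  -- the main terms
  have ha1 := avH_rr h (le_refl (e + 1)) τ (fun g => ((ρ.character g).re) ^ 2) hf
  have ha2 := avH_rr ((Nat.le_succ e).trans h) (Nat.le_succ e) τ (fun g => ((ρ.character g).re) ^ 2) hf
  have hm := hmain n hn1 (e + 1) hd1 hd2 (rr ρ) (rr_one321 ρ) hsq (RM τ) (abs_RM_le_one τ) (RM_zero τ)
    (fun j hj => RM_two τ j hj)
  rw [Nat.add_sub_cancel] at hm
  have hfac : (0 : ℝ) < n.factorial := by exact_mod_cast n.factorial_pos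
  have hsum : (∑ g : Perm (Fin n), ((ρ.character g).re) ^ 2 * Psi (RM τ) (e + 1) g) / n.factorial -
      (∑ g : Perm (Fin n), ((ρ.character g).re) ^ 2 * Psi (RM τ) e g) / n.factorial =
      (finrank ℂ V : ℝ) ^ 2 / n.factorial * ∑ g, (rr ρ g) ^ 2 * (Psi (RM τ) (e + 1) g - Psi (RM τ) e g) := by
    rw [← sub_div, ← Finset.sum_sub_distrib, div_mul_eq_mul_div, Finset.mul_sum]
    congr 1
    refine Finset.sum_congr rfl fun g _ => ?_
    rw [re_eq321 ρ g]
    ring
  -- the contribution of the squares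
  have hce : n.choose e ≤ n.choose (e + 1) := by
    refine Nat.choose_le_succ_of_lt_half_left ?_
    have h1 : ((100 * (e + 1) : ℕ) : ℝ) ≤ n := by
      push_cast at hd3 ⊢
      linarith
    have h2 : 100 * (e + 1) ≤ n := by exact_mod_cast h1
    omega
  have hce' : (n.choose e : ℝ) ≤ n.choose (e + 1) := by exact_mod_cast hce
  have hb1 : |avH h (fun g => (ρ.character (g ^ 2)).re) (fun y => rr τ y)| ≤
      Real.sqrt (n.choose (e + 1)) * (((n : ℝ) + 1) * Real.exp (5 * Real.sqrt n)) :=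
    (sq_avH h ρ _ fun y => abs_rr_le_one τ y).trans
      (sqrt321 le_rfl (Nat.cast_nonneg _) (Nat.cast_nonneg _) (card321 (Nat.sub_le _ _)) (card321 h) (Nat.cast_nonneg _))
  have hb2 : |avH ((Nat.le_succ e).trans h) (fun g => (ρ.character (g ^ 2)).re)
      (fun y => rr τ (jD (Nat.le_succ e) y))| ≤
      Real.sqrt (n.choose (e + 1)) * (((n : ℝ) + 1) * Real.exp (5 * Real.sqrt n)) :=
    (sq_avH ((Nat.le_succ e).trans h) ρ _ fun y => abs_rr_le_one τ _).trans
      (sqrt321 hce' (Nat.cast_nonneg _) (Nat.cast_nonneg _) (card321 (Nat.sub_le _ _))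
        (card321 ((Nat.le_succ e).trans h)) (Nat.cast_nonneg _))
  have hx : 1 ≤ C₀ * Real.exp (C₀ * Real.sqrt n) * ((finrank ℂ V : ℝ) ^ 2 / n.factorial) := by
    rw [← mul_div_assoc, le_div_iff₀ hfac, one_mul]
    exact hdim
  have hfin := num321 (c := (n.choose (e + 1) : ℝ)) (w := Real.sqrt n) (q := (n : ℝ) + 1) hC hx
    (by have := exp321 hC hn3; linarith) (by positivity) rfl (hch n hn2 (e + 1) hd1 hd3)
  have hx0 : 0 ≤ (finrank ℂ V : ℝ) ^ 2 / n.factorial := by positivity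
  have hm2 := mul_le_mul_of_nonneg_left hm hx0
  have hNM := HomE_le_NM h τ (bil ρ) (pe (ε : ℂ)) (pe (ε : ℂ)) (fun z _ hz => by
    rw [pe_qq, hz])
  have hNM' : (finrank ℂ (HomE h τ (bil ρ) (pe (ε : ℂ))) : ℝ) ≤
      finrank ℂ (HomE ((Nat.le_succ e).trans h) (τ.comp (jD (Nat.le_succ e))) (bil ρ) (pe (ε : ℂ))) +
        finrank ℂ (NM h τ (bil ρ) (pe (ε : ℂ))) := by exact_mod_cast hNM
  have key : (finrank ℂ E : ℝ) * ((finrank ℂ V : ℝ) ^ 2 / n.factorial) * (n.choose (e + 1) : ℝ) / 16 ≤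
      (finrank ℂ (HomE h τ (bil ρ) (pe (ε : ℂ))) : ℝ) -
        finrank ℂ (HomE ((Nat.le_succ e).trans h) (τ.comp (jD (Nat.le_succ e))) (bil ρ) (pe (ε : ℂ))) := by
    rw [hA, hB, ha1, ha2, ← mul_sub]
    have e1 : (finrank ℂ E : ℝ) * ((finrank ℂ V : ℝ) ^ 2 / n.factorial) * (n.choose (e + 1) : ℝ) / 16 =
        finrank ℂ E * (((finrank ℂ V : ℝ) ^ 2 / n.factorial) * (n.choose (e + 1) : ℝ) / 16) := by ring
    rw [e1]
    refine mul_le_mul_of_nonneg_left ?_ hD.le
    rw [abs_le] at hb1 hb2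
    have hε' : (ε - 1) * (ε + 1) = 0 := by linear_combination hε
    rcases mul_eq_zero.1 hε' with h0 | h0
    · have h1 : ε = 1 := by linarith
      subst h1
      linarith [hb1.1, hb1.2, hb2.1, hb2.2]
    · have h1 : ε = -1 := by linarith
      subst h1
      linarith [hb1.1, hb1.2, hb2.1, hb2.2]
  linarith

end Pool.Agent.Helper51.TF
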