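import Pool.Agent.Helper51.TF.X1
import Pool.Agent.Helper51.TN.S3
import Pool.Agent.Helper51.TN.B4

/-!
BLOCK TF-X3 (about 250 lines). The twist and the blocks.

Proof in words.
* `θ (jm ρ i v) = - jm ρ i (θ v)` (transpositions have sign `-1`). So `θ` maps `EE ρ h α` to `EE ρ h (-α)` and joint eigenvectors to joint eigenvectors with opposite eigenvalues: `CC_neg` (`mem_CC`, definition of `corners`).
* `tw_pJ`: both sides are linear in `v`, so check it on `v ∈ EE ρ h α` (`EE_span` / `ext_EE`, `TN/S3`): `pJ_spec`; `image (-α) = J.image Neg.neg ↔ image α = J`.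
* `PiE_pt`: `tf θ (PiE ρ h b) (v, w) = ∑_J b (pJ J (θ w)) (pJ J (θ v)) = ∑_J b (θ (pJ (-J) w)) (θ (pJ (-J) v))` (`tw_pJ` for `-J`), reindex the sum over `J ∈ powersetCard e (CC ρ)` by `J ↦ -J` (`CC_neg`).
* `trace_pJ_irr`: strengthened form of `trace_pJ` (`TN/B4.lean`): there the function `χ` is the character of `repEE ρ h α` (`TN/B2`; irreducible by `repEE_irr` because `EE ρ h α ≠ ⊥`); copy the proof (the private lemmas too, or change nothing in `B4.lean` but copy) and return the representation `repEE ρ h α` itself. If `EE ρ h α = ⊥`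
  cannot happen: `EE_ne_bot` (`TN/K3`).
-/

set_option autoImplicit false

open Module Equiv Pool.Agent.Helper1.TS Pool.Agent.Helper70.TU Pool.Agent.Helper51.TN

namespace Pool.Agent.Helper51.TF

section X3aux

variable {n : ℕ} {V : Type*} [AddCommGroup V] [Module ℂ V] [FiniteDimensional ℂ V]

private theorem jD_swap_h89 {n e : ℕ} (h : e ≤ n) (i j : Fin e) :
    jD h (Equiv.swap i j) = Equiv.swap (Fin.castLE h i) (Fin.castLE h j) := by
  refine Equiv.ext fun x => ?_
  rcases lt_or_ge (x : ℕ) e with hx | hx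
  · rw [jD_apply h _ x hx]
    have hx' : x = Fin.castLE h ⟨x, hx⟩ := rfl
    by_cases h1 : (⟨x, hx⟩ : Fin e) = i
    · subst h1
      rw [Equiv.swap_apply_left, ← hx', Equiv.swap_apply_left]
      rfl
    · by_cases h2 : (⟨x, hx⟩ : Fin e) = j
      · subst h2
        rw [Equiv.swap_apply_right, ← hx', Equiv.swap_apply_right]
        rfl
      · rw [Equiv.swap_apply_of_ne_of_ne h1 h2, Equiv.swap_apply_of_ne_of_ne]
        · intro h3
          apply h1
          refine Fin.ext ?_
          have := congrArg Fin.val h3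
          simpa using this
        · intro h3
          apply h2
          refine Fin.ext ?_
          have := congrArg Fin.val h3
          simpa using this
  · rw [jD_apply_of_le h _ x hx, Equiv.swap_apply_of_ne_of_ne]
    · intro h3
      have := congrArg Fin.val h3
      have h4 : ((Fin.castLE h i : Fin n) : ℕ) = i := rfl
      have := i.2
      omega
    · intro h3
      have := congrArg Fin.val h3
      have h4 : ((Fin.castLE h j : Fin n) : ℕ) = j := rfl
      have := j.2
      omega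

/-- `f ↦ ∑ ρ (jD u) (f u)` -/
private noncomputable def Phi_h89 (ρ : Representation ℂ (Perm (Fin n)) V) {e : ℕ} (h : e ≤ n)
    (α : Fin e → ℝ) : (Perm (Fin e) → EE ρ h α) →ₗ[ℂ] V :=
  ∑ u : Perm (Fin e), ρ (jD h u) ∘ₗ (EE ρ h α).subtype ∘ₗ LinearMap.proj u

private theorem Phi_apply_h89 (ρ : Representation ℂ (Perm (Fin n)) V) {e : ℕ} (h : e ≤ n)
    (α : Fin e → ℝ) (f : Perm (Fin e) → EE ρ h α) :
    Phi_h89 ρ h α f = ∑ u, ρ (jD h u) (f u : V) := by
  unfold Phi_h89
  rw [LinearMap.sum_apply]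
  rfl

/-- the action on the domain of `Phi` -/
private noncomputable def Psi_h89 (ρ : Representation ℂ (Perm (Fin n)) V) {e : ℕ} (h : e ≤ n)
    (α : Fin e → ℝ) (x : Perm (Fin (n - e))) (y : Perm (Fin e)) :
    (Perm (Fin e) → EE ρ h α) →ₗ[ℂ] (Perm (Fin e) → EE ρ h α) :=
  LinearMap.pi fun u => repEE ρ h α x ∘ₗ LinearMap.proj (y⁻¹ * u)

private theorem Psi_apply_h89 (ρ : Representation ℂ (Perm (Fin n)) V) {e : ℕ} (h : e ≤ n)
    (α : Fin e → ℝ) (x : Perm (Fin (n - e))) (y : Perm (Fin e)) (f : Perm (Fin e) → EE ρ h α)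
    (u : Perm (Fin e)) : Psi_h89 ρ h α x y f u = repEE ρ h α x (f (y⁻¹ * u)) := rfl

private theorem Phi_Psi_h89 (ρ : Representation ℂ (Perm (Fin n)) V) {e : ℕ} (h : e ≤ n)
    (α : Fin e → ℝ) (x : Perm (Fin (n - e))) (y : Perm (Fin e)) (f : Perm (Fin e) → EE ρ h α) :
    ρ (jH h (x, y)) (Phi_h89 ρ h α f) = Phi_h89 ρ h α (Psi_h89 ρ h α x y f) := by
  rw [Phi_apply_h89, Phi_apply_h89, map_sum, ← Equiv.sum_comp (Equiv.mulLeft y)
    (fun u => ρ (jD h u) ((Psi_h89 ρ h α x y f u : EE ρ h α) : V))]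
  refine Finset.sum_congr rfl fun u _ => ?_
  rw [Psi_apply_h89, Equiv.coe_mulLeft, inv_mul_cancel_left]
  change ρ (jH h (x, y)) (ρ (jD h u) (f u : V)) = ρ (jD h (y * u)) (ρ (jT h x) (f u : V))
  have h1 : jH h (x, y) * jD h u = jD h (y * u) * jT h x := by
    change jT h x * jD h y * jD h u = jD h (y * u) * jT h x
    rw [mul_assoc, ← map_mul, (jT_jD_commute h x (y * u)).eq]
  rw [← Module.End.mul_apply, ← Module.End.mul_apply, ← map_mul, ← map_mul, h1]

private theorem trace_Psi_h89 (ρ : Representation ℂ (Perm (Fin n)) V) {e : ℕ} (h : e ≤ n)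
    (α : Fin e → ℝ) (x : Perm (Fin (n - e))) (y : Perm (Fin e)) :
    LinearMap.trace ℂ _ (Psi_h89 ρ h α x y) =
      if y = 1 then (e.factorial : ℂ) * LinearMap.trace ℂ _ (repEE ρ h α x) else 0 := by
  classical
  have h1 : Psi_h89 ρ h α x y = ∑ u : Perm (Fin e), (Psi_h89 ρ h α x y ∘ₗ
      LinearMap.single ℂ (fun _ : Perm (Fin e) => EE ρ h α) u) ∘ₗ LinearMap.proj u := by
    refine LinearMap.ext fun f => ?_
    rw [LinearMap.sum_apply]
    simp only [LinearMap.comp_apply, LinearMap.proj_apply, LinearMap.single_apply]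
    rw [← map_sum, LinearMap.sum_single_apply]
  have h2 : ∀ u : Perm (Fin e), LinearMap.trace ℂ _ ((Psi_h89 ρ h α x y ∘ₗ
      LinearMap.single ℂ (fun _ : Perm (Fin e) => EE ρ h α) u) ∘ₗ LinearMap.proj u) =
      if y = 1 then LinearMap.trace ℂ _ (repEE ρ h α x) else 0 := by
    intro u
    rw [LinearMap.trace_comp_comm']
    by_cases hy : y = 1
    · subst hy
      rw [if_pos rfl]
      congr 1
      refine LinearMap.ext fun w => ?_
      rw [LinearMap.comp_apply, LinearMap.comp_apply, LinearMap.proj_apply, Psi_apply_h89,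
        LinearMap.single_apply, inv_one, one_mul, Pi.single_eq_same]
    · rw [if_neg hy]
      have h3 : (LinearMap.proj u : (Perm (Fin e) → EE ρ h α) →ₗ[ℂ] EE ρ h α) ∘ₗ
          (Psi_h89 ρ h α x y ∘ₗ
          LinearMap.single ℂ (fun _ : Perm (Fin e) => EE ρ h α) u) = 0 := by
        refine LinearMap.ext fun w => ?_
        rw [LinearMap.comp_apply, LinearMap.comp_apply, LinearMap.proj_apply, Psi_apply_h89,
          LinearMap.single_apply, Pi.single_eq_of_ne, map_zero, LinearMap.zero_apply]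
        intro h4
        apply hy
        have h5 : y⁻¹ = 1 := by
          have := mul_right_cancel (h4.trans (one_mul u).symm)
          exact this
        exact inv_eq_one.1 h5
      rw [h3, map_zero]
  rw [h1, map_sum, Finset.sum_congr rfl fun u _ => h2 u, Finset.sum_const, Finset.card_univ,
    Fintype.card_perm, Fintype.card_fin, nsmul_eq_mul]
  split_ifs
  · rfl
  · rw [mul_zero]

private theorem step_h89 (ρ : Representation ℂ (Perm (Fin n)) V) {e : ℕ} (h : e ≤ n)
    (α : Fin e → ℝ) (i j : Fin e) (hij : (j : ℕ) = i + 1) (h1 : α i ≠ α j)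
    (h2 : α i ≠ α j + 1) (h3 : α j ≠ α i + 1) :
    ∃ k : ℂ, k ^ 2 ≠ 1 ∧ ∀ w ∈ EE ρ h (α ∘ Equiv.swap i j),
      ρ (jD h (Equiv.swap i j)) w + k • w ∈ EE ρ h α := by
  refine ⟨(((α i - α j)⁻¹ : ℝ) : ℂ), ?_, fun w hw => ?_⟩
  · have h4 : α i - α j ≠ 0 := sub_ne_zero.2 h1
    intro h5
    have h6 : ((α i - α j)⁻¹) ^ 2 = (1 : ℝ) := by exact_mod_cast h5
    rw [inv_pow, inv_eq_one] at h6
    have h7 : (α i - α j - 1) * (α i - α j + 1) = 0 := by
      linear_combination h6
    rcases mul_eq_zero.1 h7 with h8 | h8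
    · exact h2 (by linarith)
    · exact h3 (by linarith)
  · have h4 := intertw ρ h (α ∘ Equiv.swap i j) i j hij (by
      rw [Function.comp_apply, Function.comp_apply, Equiv.swap_apply_left,
        Equiv.swap_apply_right]
      exact h1.symm) w hw
    have h5 : (α ∘ Equiv.swap i j) ∘ Equiv.swap i j = α := by
      funext t
      rw [Function.comp_apply, Function.comp_apply, Equiv.swap_apply_self]
    rw [h5, Function.comp_apply, Function.comp_apply, Equiv.swap_apply_left,
      Equiv.swap_apply_right, ← jD_swap_h89 h, ← neg_sub (α i) (α j), inv_neg,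
      Complex.ofReal_neg, neg_smul, sub_neg_eq_add] at h4
    exact h4

private theorem finrank_le_h89 (ρ : Representation ℂ (Perm (Fin n)) V) {e : ℕ} (h : e ≤ n)
    (α : Fin e → ℝ) (i j : Fin e) (hij : (j : ℕ) = i + 1) (h1 : α i ≠ α j)
    (h2 : α i ≠ α j + 1) (h3 : α j ≠ α i + 1) :
    finrank ℂ (EE ρ h (α ∘ Equiv.swap i j)) ≤ finrank ℂ (EE ρ h α) := by
  obtain ⟨k, hk, hmem⟩ := step_h89 ρ h α i j hij h1 h2 h3
  have hmem' : ∀ w ∈ EE ρ h (α ∘ Equiv.swap i j),
      (ρ (jD h (Equiv.swap i j)) + k • LinearMap.id : V →ₗ[ℂ] V) w ∈ EE ρ h α := hmem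
  refine LinearMap.finrank_le_finrank_of_injective
    (f := (ρ (jD h (Equiv.swap i j)) + k • LinearMap.id : V →ₗ[ℂ] V).restrict hmem') ?_
  rw [injective_iff_map_eq_zero]
  intro w hw
  have h4 : ρ (jD h (Equiv.swap i j)) (w : V) + k • (w : V) = 0 := congrArg Subtype.val hw
  have h5 : ρ (jD h (Equiv.swap i j)) (ρ (jD h (Equiv.swap i j)) (w : V)) = w := by
    rw [← Module.End.mul_apply, ← map_mul, ← map_mul, Equiv.swap_mul_self, map_one, map_one]
    rfl
  have h6 := congrArg (ρ (jD h (Equiv.swap i j))) h4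
  rw [map_add, h5, map_smul, map_zero] at h6
  have h7 : (1 - k ^ 2) • (w : V) = 0 := by
    have h8 : (1 - k ^ 2) • (w : V) = ((w : V) + k • ρ (jD h (Equiv.swap i j)) (w : V)) -
        k • (ρ (jD h (Equiv.swap i j)) (w : V) + k • (w : V)) := by
      module
    rw [h8, h6, h4, smul_zero, sub_zero]
  rcases smul_eq_zero.1 h7 with h8 | h8
  · exact absurd (sub_eq_zero.1 h8).symm hk
  · exact Subtype.ext h8

private theorem all_h89 (ρ : Representation ℂ (Perm (Fin n)) V) [ρ.IsIrreducible] {e : ℕ}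
    (h : e ≤ n) (α : Fin e → ℝ) (hinj : Function.Injective α) (hα : ∀ i, α i ∈ corners ρ)
    (u : Perm (Fin e)) :
    EE ρ h (α ∘ u) ≤ LinearMap.range (Phi_h89 ρ h α) ∧
      finrank ℂ (EE ρ h (α ∘ u)) = finrank ℂ (EE ρ h α) := by
  classical
  have base : EE ρ h (α ∘ (1 : Perm (Fin e))) ≤ LinearMap.range (Phi_h89 ρ h α) ∧
      finrank ℂ (EE ρ h (α ∘ (1 : Perm (Fin e)))) = finrank ℂ (EE ρ h α) := by
    have h0 : α ∘ (1 : Perm (Fin e)) = α := rfl
    rw [h0]
    refine ⟨fun v hv => ⟨Pi.single 1 ⟨v, hv⟩, ?_⟩, rfl⟩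
    rw [Phi_apply_h89, Finset.sum_eq_single 1]
    · rw [Pi.single_eq_same, map_one, map_one]
      rfl
    · intro b _ hb
      rw [Pi.single_eq_of_ne hb, Submodule.coe_zero, map_zero]
    · intro h1
      exact absurd (Finset.mem_univ _) h1
  rcases e with _ | m
  · have h0 : u = 1 := Subsingleton.elim _ _
    rw [h0]
    exact base
  · refine Submonoid.induction_of_closure_eq_top_right
      (Equiv.Perm.mclosure_swap_castSucc_succ m) u base ?_
    rintro x _ ⟨t, rfl⟩ ⟨hr, hd⟩
    have hij : ((t.succ : Fin (m + 1)) : ℕ) = (t.castSucc : Fin (m + 1)) + 1 := rfl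
    have hne : ((t.castSucc : Fin (m + 1))) ≠ t.succ := by
      intro h1
      have := congrArg Fin.val h1
      simp at this
    have h1 : (α ∘ x) t.castSucc ≠ (α ∘ x) t.succ := fun h2 => hne (x.injective (hinj h2))
    have h2 : (α ∘ x) t.castSucc ≠ (α ∘ x) t.succ + 1 := corners_gap ρ (hα _) (hα _)
    have h3 : (α ∘ x) t.succ ≠ (α ∘ x) t.castSucc + 1 := corners_gap ρ (hα _) (hα _)
    have hcomp : α ∘ (x * Equiv.swap t.castSucc t.succ : Perm (Fin (m + 1))) =
        (α ∘ x) ∘ Equiv.swap t.castSucc t.succ := rfl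
    rw [hcomp]
    constructor
    · intro w hw
      obtain ⟨k, hk, hmem⟩ := step_h89 ρ h (α ∘ x) t.castSucc t.succ hij h1 h2 h3
      have hv := hr (hmem w hw)
      have hst : ∀ v ∈ LinearMap.range (Phi_h89 ρ h α), ∀ y : Perm (Fin (m + 1)),
          ρ (jD h y) v ∈ LinearMap.range (Phi_h89 ρ h α) := by
        rintro _ ⟨f, rfl⟩ y
        refine ⟨Psi_h89 ρ h α 1 y f, ?_⟩
        rw [← Phi_Psi_h89, jH_apply, map_one, one_mul]
      have hv2 := Submodule.sub_mem _ (hst _ hv (Equiv.swap t.castSucc t.succ))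
        (Submodule.smul_mem _ k hv)
      have h5 : ρ (jD h (Equiv.swap t.castSucc t.succ))
          (ρ (jD h (Equiv.swap t.castSucc t.succ)) w) = w := by
        rw [← Module.End.mul_apply, ← map_mul, ← map_mul, Equiv.swap_mul_self, map_one, map_one]
        rfl
      have h6 : ρ (jD h (Equiv.swap t.castSucc t.succ))
          (ρ (jD h (Equiv.swap t.castSucc t.succ)) w + k • w) -
          k • (ρ (jD h (Equiv.swap t.castSucc t.succ)) w + k • w) = (1 - k ^ 2) • w := by
        rw [map_add, h5, map_smul]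
        module
      rw [h6] at hv2
      have h7 : (1 - k ^ 2) ≠ 0 := fun h8 => hk (sub_eq_zero.1 h8).symm
      have h8 := Submodule.smul_mem _ (1 - k ^ 2)⁻¹ hv2
      rwa [smul_smul, inv_mul_cancel₀ h7, one_smul] at h8
    · refine le_antisymm ?_ ?_
      · rw [← hd]
        exact finrank_le_h89 ρ h (α ∘ x) t.castSucc t.succ hij h1 h2 h3
      · rw [← hd]
        have h5 : ((α ∘ x) ∘ Equiv.swap t.castSucc t.succ) ∘ Equiv.swap t.castSucc t.succ =
            α ∘ x := by
          funext t'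
          rw [Function.comp_apply, Function.comp_apply, Equiv.swap_apply_self]
        have h6 := finrank_le_h89 ρ h ((α ∘ x) ∘ Equiv.swap t.castSucc t.succ) t.castSucc t.succ
          hij
        rw [h5] at h6
        refine h6 ?_ ?_ ?_
        · rw [Function.comp_apply, Function.comp_apply (f := α ∘ x), Equiv.swap_apply_left,
            Equiv.swap_apply_right]
          exact h1.symm
        · rw [Function.comp_apply, Function.comp_apply (f := α ∘ x), Equiv.swap_apply_left,
            Equiv.swap_apply_right]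
          exact h3
        · rw [Function.comp_apply, Function.comp_apply (f := α ∘ x), Equiv.swap_apply_left,
            Equiv.swap_apply_right]
          exact h2

private theorem Phi_inj_h89 (ρ : Representation ℂ (Perm (Fin n)) V) [ρ.IsIrreducible] {e : ℕ}
    (h : e ≤ n) (α : Fin e → ℝ) (hinj : Function.Injective α) (hα : ∀ i, α i ∈ corners ρ) :
    Function.Injective (Phi_h89 ρ h α) := by
  have hall := all_h89 ρ h α hinj hα
  let θ : ∀ u : Perm (Fin e), EE ρ h α ≃ₗ[ℂ] EE ρ h (α ∘ u) := fun u =>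
    LinearEquiv.ofFinrankEq _ _ (hall u).2.symm
  set Θ : (Perm (Fin e) → EE ρ h α) →ₗ[ℂ] V :=
    ∑ u : Perm (Fin e), (EE ρ h (α ∘ u)).subtype ∘ₗ (θ u).toLinearMap ∘ₗ LinearMap.proj u
    with hΘ
  have hΘa : ∀ f, Θ f = ∑ u : Perm (Fin e), (θ u (f u) : V) := by
    intro f
    rw [hΘ, LinearMap.sum_apply]
    rfl
  have hΘi : Function.Injective Θ := by
    rw [injective_iff_map_eq_zero]
    intro f hf
    rw [hΘa] at hf
    have hind : iSupIndep (fun u : Perm (Fin e) => EE ρ h (α ∘ u)) := by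
      refine (EE_indep ρ h).comp (f := fun u : Perm (Fin e) => α ∘ u) ?_
      intro u u' huu
      refine Equiv.ext fun t => hinj ?_
      exact congrFun huu t
    have h1 := (iSupIndep_iff_finsetSum_eq_zero_imp_eq_zero _).1 hind Finset.univ
      (fun u => (θ u (f u) : V)) (fun u _ => (θ u (f u)).2) hf
    funext u
    have h2 : θ u (f u) = 0 := Subtype.ext (h1 u (Finset.mem_univ u))
    exact (LinearEquiv.map_eq_zero_iff _).1 h2
  have hle : LinearMap.range Θ ≤ LinearMap.range (Phi_h89 ρ h α) := by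
    rintro _ ⟨f, rfl⟩
    rw [hΘa]
    exact Submodule.sum_mem _ fun u _ => (hall u).1 (θ u (f u)).2
  have h3 := Submodule.finrank_mono hle
  rw [LinearMap.finrank_range_of_inj hΘi] at h3
  have h4 := LinearMap.finrank_range_add_finrank_ker (Phi_h89 ρ h α)
  have h5 : finrank ℂ (LinearMap.ker (Phi_h89 ρ h α)) = 0 := by omega
  exact LinearMap.ker_eq_bot.1 (Submodule.finrank_eq_zero.1 h5)

private theorem exists_perm_h89 {e : ℕ} {α β : Fin e → ℝ} (hα : Function.Injective α)
    (hβ : Function.Injective β) (hr : Set.range β = Set.range α) :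
    ∃ u : Perm (Fin e), β = α ∘ u := by
  refine ⟨((Equiv.ofInjective β hβ).trans (Equiv.setCongr hr)).trans
    (Equiv.ofInjective α hα).symm, ?_⟩
  funext t
  have h1 := Equiv.apply_ofInjective_symm hα
    ((Equiv.setCongr hr) ((Equiv.ofInjective β hβ) t))
  exact h1.symm

end X3aux

variable {n : ℕ} {V : Type} [AddCommGroup V] [Module ℂ V] [FiniteDimensional ℂ V]

open Classical in
/-- The set of the opposite numbers. -/
noncomputable def ngs (J : Finset ℝ) : Finset ℝ := J.image (fun x => -x)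

theorem tw_jm {ρ : Representation ℂ (Perm (Fin n)) V} {θ : V →ₗ[ℂ] V} (h : IsTw ρ θ) (i : Fin n) (v : V) :
    θ (jm ρ i v) = - jm ρ i (θ v) := by
  unfold jm
  rw [LinearMap.sum_apply, LinearMap.sum_apply, map_sum, ← Finset.sum_neg_distrib]
  refine Finset.sum_congr rfl fun j hj => ?_
  have hij : i ≠ j := (Finset.mem_filter.1 hj).2.ne
  rw [h.tw, Perm.sign_swap hij]
  simp

theorem CC_neg {ρ : Representation ℂ (Perm (Fin n)) V} {θ : V →ₗ[ℂ] V} (h : IsTw ρ θ) (a : ℝ) (ha : a ∈ CC ρ) : -a ∈ CC ρ := by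
  rw [mem_CC] at ha ⊢
  obtain ⟨c, v, hn, ⟨hv0, hv⟩, hc⟩ := ha
  refine ⟨fun i => -c i, θ v, hn, ⟨fun h0 => hv0 ?_, fun i => ?_⟩, by rw [← hc]⟩
  · rw [← h.sq v, h0, map_zero]
  · have h1 := tw_jm h i v
    rw [hv i, map_smul] at h1
    rw [Complex.ofReal_neg, neg_smul, h1, neg_neg]

private theorem tw_EE_h89 {ρ : Representation ℂ (Perm (Fin n)) V} {θ : V →ₗ[ℂ] V} (h : IsTw ρ θ) {e : ℕ} (he : e ≤ n)
    (α : Fin e → ℝ) (v : V) (hv : v ∈ EE ρ he α) : θ v ∈ EE ρ he (fun i => -α i) := by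
  rw [mem_EE] at hv ⊢
  intro i
  have h1 := tw_jm h (Fin.castLE he i) v
  rw [hv i, map_smul] at h1
  rw [Complex.ofReal_neg, neg_smul, h1, neg_neg]

private theorem ngs_ngs_h89 (J : Finset ℝ) : ngs (ngs J) = J := by
  unfold ngs
  rw [Finset.image_image]
  have h1 : (fun x : ℝ => -x) ∘ (fun x => -x) = id := by
    funext x
    simp
  rw [h1, Finset.image_id]

private theorem card_ngs_h89 (J : Finset ℝ) : (ngs J).card = J.card := by
  unfold ngs
  exact Finset.card_image_of_injective _ neg_injective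

private theorem ngs_mem_h89 {ρ : Representation ℂ (Perm (Fin n)) V} {θ : V →ₗ[ℂ] V} (h : IsTw ρ θ) {e : ℕ}
    {J : Finset ℝ} (hJ : J ∈ (CC ρ).powersetCard e) : ngs J ∈ (CC ρ).powersetCard e := by
  rw [Finset.mem_powersetCard] at hJ ⊢
  refine ⟨fun x hx => ?_, by rw [card_ngs_h89, hJ.2]⟩
  unfold ngs at hx
  rw [Finset.mem_image] at hx
  obtain ⟨y, hy, rfl⟩ := hx
  exact CC_neg h y (hJ.1 hy)

theorem tw_pJ {ρ : Representation ℂ (Perm (Fin n)) V} {θ : V →ₗ[ℂ] V} (h : IsTw ρ θ) {e : ℕ} (he : e ≤ n) (J : Finset ℝ)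
    (v : V) : θ (pJ ρ he J v) = pJ ρ he (ngs J) (θ v) := by
  classical
  have h1 : θ ∘ₗ pJ ρ he J = pJ ρ he (ngs J) ∘ₗ θ := by
    refine ext_EE ρ he _ _ fun α u hu => ?_
    rw [LinearMap.comp_apply, LinearMap.comp_apply, pJ_spec ρ he J α u hu,
      pJ_spec ρ he (ngs J) _ _ (tw_EE_h89 h he α u hu)]
    have h2 : Finset.univ.image (fun i => -α i) = ngs (Finset.univ.image α) := by
      unfold ngs
      rw [Finset.image_image]
      rfl
    have h3 : Finset.univ.image (fun i => -α i) = ngs J ↔ Finset.univ.image α = J := by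
      rw [h2]
      constructor
      · intro h4
        rw [← ngs_ngs_h89 (Finset.univ.image α), h4, ngs_ngs_h89]
      · intro h4
        rw [h4]
    by_cases h4 : Finset.univ.image α = J
    · rw [if_pos h4, if_pos (h3.2 h4)]
    · rw [if_neg h4, if_neg (fun h5 => h4 (h3.1 h5)), map_zero]
  exact LinearMap.congr_fun h1 v

private theorem PiE_eq_h89 (ρ : Representation ℂ (Perm (Fin n)) V) {e : ℕ} (h : e ≤ n) (b : Bil V)
    (v w : V) :
    PiE ρ h b v w = ∑ J ∈ (CC ρ).powersetCard e, b (pJ ρ h J v) (pJ ρ h J w) := by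
  unfold PiE
  rw [LinearMap.sum_apply, LinearMap.sum_apply, LinearMap.sum_apply]
  rfl

theorem PiE_pt {ρ : Representation ℂ (Perm (Fin n)) V} {θ : V →ₗ[ℂ] V} (h : IsTw ρ θ) {e : ℕ} (he : e ≤ n) (ε : ℂ)
    (b : Bil V) : PiE ρ he (pt θ ε b) = pt θ ε (PiE ρ he b) := by
  refine LinearMap.ext₂ fun v w => ?_
  have h1 : ∑ J ∈ (CC ρ).powersetCard e, b (pJ ρ he (ngs J) (θ w)) (pJ ρ he (ngs J) (θ v)) =
      ∑ J ∈ (CC ρ).powersetCard e, b (pJ ρ he J (θ w)) (pJ ρ he J (θ v)) := by
    refine Finset.sum_bij' (fun J _ => ngs J) (fun J _ => ngs J) (fun J hJ => ngs_mem_h89 h hJ)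
      (fun J hJ => ngs_mem_h89 h hJ) (fun J _ => ngs_ngs_h89 J) (fun J _ => ngs_ngs_h89 J) ?_
    intro J _
    rfl
  rw [PiE_eq_h89, pt_apply, PiE_eq_h89, PiE_eq_h89, ← h1, Finset.mul_sum, ← Finset.sum_add_distrib,
    Finset.sum_div]
  refine Finset.sum_congr rfl fun J _ => ?_
  rw [pt_apply, tw_pJ h he, tw_pJ h he]

theorem trace_pJ_irr (ρ : Representation ℂ (Perm (Fin n)) V) [ρ.IsIrreducible] {e : ℕ} (h : e ≤ n) (J : Finset ℝ)
    (hJ : ∀ a ∈ J, a ∈ corners ρ) (hcard : J.card = e) :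
    ∃ (K : Type) (_ : AddCommGroup K) (_ : Module ℂ K) (_ : FiniteDimensional ℂ K)
      (υ : Representation ℂ (Perm (Fin (n - e))) K), υ.IsIrreducible ∧
      ∀ (x : Perm (Fin (n - e))) (y : Perm (Fin e)),
        LinearMap.trace ℂ V (ρ (jH h (x, y)) ∘ₗ pJ ρ h J) =
          if y = 1 then (e.factorial : ℂ) * υ.character x else 0 := by
  classical
  obtain ⟨α, hinj, hrange⟩ : ∃ α : Fin e → ℝ, Function.Injective α ∧ Set.range α = J :=
    ⟨J.orderEmbOfFin hcard, (J.orderEmbOfFin hcard).injective, Finset.range_orderEmbOfFin J hcard⟩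
  have hα : ∀ i, α i ∈ corners ρ := by
    intro i
    refine hJ _ ?_
    have h1 : α i ∈ Set.range α := ⟨i, rfl⟩
    rw [hrange] at h1
    exact h1
  have himage : ∀ β : Fin e → ℝ, Finset.univ.image β = J → ∃ u : Perm (Fin e), β = α ∘ u := by
    intro β hβ
    have h1 : Function.Injective β := by
      have h2 : (Finset.univ.image β).card = (Finset.univ : Finset (Fin e)).card := by
        rw [hβ, hcard, Finset.card_univ, Fintype.card_fin]
      have h3 := Finset.card_image_iff.1 h2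
      intro a b hab
      exact h3 (Finset.mem_coe.2 (Finset.mem_univ a)) (Finset.mem_coe.2 (Finset.mem_univ b)) hab
    refine exists_perm_h89 hinj h1 ?_
    rw [hrange, ← hβ, Finset.coe_image, Finset.coe_univ, Set.image_univ]
  have himα : Finset.univ.image α = J := by
    refine Finset.coe_injective ?_
    rw [Finset.coe_image, Finset.coe_univ, Set.image_univ, hrange]
  have hne : EE ρ h α ≠ ⊥ := EE_ne_bot ρ h α hinj hα
  have hirr : (repEE ρ h α).IsIrreducible := repEE_irr ρ h α hne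
  refine ⟨EE ρ h α, inferInstance, inferInstance, inferInstance, repEE ρ h α, hirr, fun x y => ?_⟩
  set Φ := Phi_h89 ρ h α with hΦ
  have hall := all_h89 ρ h α hinj hα
  have hΦi : Function.Injective Φ := Phi_inj_h89 ρ h α hinj hα
  have hfix : ∀ f, pJ ρ h J (Φ f) = Φ f := by
    intro f
    rw [hΦ, Phi_apply_h89, map_sum]
    refine Finset.sum_congr rfl fun u _ => ?_
    have h1 := pJ_comm ρ h J (1, u) (f u : V)
    rw [jH_apply, map_one, one_mul] at h1
    rw [h1, pJ_spec ρ h J α _ (f u).2, if_pos himα]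
  have hran : ∀ v, pJ ρ h J v ∈ LinearMap.range Φ := by
    intro v
    have hv : v ∈ ⨆ β : Fin e → ℝ, EE ρ h β := by
      rw [EE_span]
      exact Submodule.mem_top
    induction hv using Submodule.iSup_induction' with
    | mem β w hw =>
      rw [pJ_spec ρ h J β w hw]
      split_ifs with hβ
      · obtain ⟨u, rfl⟩ := himage β hβ
        exact (hall u).1 hw
      · exact Submodule.zero_mem _
    | zero =>
      rw [map_zero]
      exact Submodule.zero_mem _
    | add a b _ _ ha hb =>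
      rw [map_add]
      exact Submodule.add_mem _ ha hb
  set Pr : V →ₗ[ℂ] (Perm (Fin e) → EE ρ h α) :=
    (LinearEquiv.ofInjective Φ hΦi).symm.toLinearMap ∘ₗ (pJ ρ h J).codRestrict _ hran with hPr
  have hΦPr : ∀ v, Φ (Pr v) = pJ ρ h J v := by
    intro v
    have h1 := LinearEquiv.apply_symm_apply (LinearEquiv.ofInjective Φ hΦi)
      ((pJ ρ h J).codRestrict _ hran v)
    exact congrArg Subtype.val h1
  have hPrΦ : ∀ f, Pr (Φ f) = f := by
    intro f
    apply hΦi
    rw [hΦPr, hfix]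
  have h1 : ρ (jH h (x, y)) ∘ₗ pJ ρ h J = (Φ ∘ₗ Psi_h89 ρ h α x y) ∘ₗ Pr := by
    refine LinearMap.ext fun v => ?_
    rw [LinearMap.comp_apply, LinearMap.comp_apply, LinearMap.comp_apply, ← hΦPr v, hΦ,
      Phi_Psi_h89]
  have h2 : Pr ∘ₗ (Φ ∘ₗ Psi_h89 ρ h α x y) = Psi_h89 ρ h α x y := by
    refine LinearMap.ext fun f => ?_
    exact hPrΦ _
  rw [h1, LinearMap.trace_comp_comm', h2, trace_Psi_h89]
  rfl

end Pool.Agent.Helper51.TF
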