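import Pool.Agent.Helper51.TN.L1
import Pool.Agent.Helper51.TN.L2
import Pool.Agent.Helper1.TS.A0

/-!
BLOCK TF-X5 (about 120 lines). The twisted Frobenius-Schur indicator.

Proof in words. Let `s` be the one dimensional representation of `S_m` on `ℂ` by the sign. `dim_hom` (`TN/L1`) for `ρ = s`, `σ = bil υ`, `P = pe ε`, `ε = 1, -1` and `trace_bil_pe` (`TN/L2`): `m! finrank (HomP s (bil υ) (pe ε)) = ∑_g (χ(g⁻¹)² + ε χ(g⁻²))/2 sgn(g)`. The difference for `ε = 1` and `ε = -1`:
`∑_g sgn(g) χ(g⁻²) = m! (a - b)`, `a`, `b` natural numbers, with `a + b ≤ 1`: a map in `HomP s (bil υ) (pe ε)` is a form `b` with `b (υ g v) (υ g w) = sgn(g) b v w` and `pe ε b = b`; if `b₁`, `b₂` are two nonzero forms with `b (υ g v) (υ g w) = sgn(g) b v w` then, seen as maps `V → V^*`, they are isomorphisms (`V` is irreducible, the kernel is stable)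
and `b₂⁻¹ ∘ b₁` commutes with `υ`, so it is a scalar (Schur): the space of all such forms has dimension at most `1`, and the subspaces for `ε = 1`, `ε = -1` intersect in `0`. Replace `g` by `g⁻¹`.
-/

set_option autoImplicit false

open Module Equiv Pool.Agent.Helper1.TS Pool.Agent.Helper70.TU Pool.Agent.Helper51.TN

namespace Pool.Agent.Helper51.TF

private lemma irr94 {G V : Type*} [Group G] [AddCommGroup V] [Module ℂ V]
    (ρ : Representation ℂ G V) [hρ : ρ.IsIrreducible] (W : Submodule ℂ V)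
    (hW : ∀ g, ∀ v ∈ W, ρ g v ∈ W) : W = ⊥ ∨ W = ⊤ := by
  have h := hρ.eq_bot_or_eq_top (⟨W, fun g v hv => hW g v hv⟩ : Subrepresentation ρ)
  rcases h with h | h
  · left
    exact congrArg Subrepresentation.toSubmodule h
  · right
    exact congrArg Subrepresentation.toSubmodule h

private lemma nontrivial94 {G V : Type*} [Group G] [AddCommGroup V] [Module ℂ V]
    (ρ : Representation ℂ G V) [hρ : ρ.IsIrreducible] : Nontrivial V := by
  rcases subsingleton_or_nontrivial V with hs | hn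
  · exfalso
    obtain ⟨W, W', hne⟩ := hρ.exists_pair_ne
    refine hne (Subrepresentation.toSubmodule_injective ?_)
    exact Subsingleton.elim _ _
  · exact hn

/-- Schur's lemma for semi-invariant forms. -/
private lemma schur94 {G V : Type*} [Group G] [AddCommGroup V] [Module ℂ V] [FiniteDimensional ℂ V]
    (ρ : Representation ℂ G V) [ρ.IsIrreducible] (χ : G → ℂ) (b b' : Bil V)
    (hb : ∀ (g : G) (v w : V), b (ρ g v) (ρ g w) = χ g * b v w) (hne : b ≠ 0)
    (hb' : ∀ (g : G) (v w : V), b' (ρ g v) (ρ g w) = χ g * b' v w) :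
    ∃ c : ℂ, ∀ v w, b' v w = c * b v w := by
  have hgg : ∀ (g : G) (w : V), w = ρ g (ρ g⁻¹ w) := by
    intro g w
    rw [← Module.End.mul_apply, ← map_mul, mul_inv_cancel, map_one, Module.End.one_apply]
  have hker : LinearMap.ker b = ⊥ := by
    rcases irr94 ρ (LinearMap.ker b) (by
      intro g v hv
      rw [LinearMap.mem_ker] at hv ⊢
      refine LinearMap.ext fun w => ?_
      rw [hgg g w, hb, hv, LinearMap.zero_apply, LinearMap.zero_apply, mul_zero]) with h | h
    · exact h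
    · exact absurd (LinearMap.ker_eq_top.1 h) hne
  have hinj : Function.Injective b := LinearMap.ker_eq_bot.1 hker
  have hdim : finrank ℂ V = finrank ℂ (V →ₗ[ℂ] ℂ) := by
    exact (Subspace.dual_finrank_eq).symm
  let e : V ≃ₗ[ℂ] (V →ₗ[ℂ] ℂ) := LinearEquiv.ofInjectiveOfFinrankEq b hinj hdim
  have he : ∀ v, e v = b v := fun v => rfl
  let A : V →ₗ[ℂ] V := e.symm.toLinearMap ∘ₗ b'
  have hA : ∀ v, b (A v) = b' v := by
    intro v
    rw [← he]
    exact e.apply_symm_apply (b' v)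
  have hcomm : ∀ (g : G) (v : V), A (ρ g v) = ρ g (A v) := by
    intro g v
    refine hinj (LinearMap.ext fun w => ?_)
    rw [hA, hgg g w, hb', hb, hA]
  have := nontrivial94 ρ
  obtain ⟨c, hc⟩ := Module.End.exists_eigenvalue A
  refine ⟨c, fun v w => ?_⟩
  have htop : Module.End.eigenspace A c = ⊤ := by
    rcases irr94 ρ (Module.End.eigenspace A c) (by
      intro g v hv
      rw [Module.End.mem_eigenspace_iff] at hv ⊢
      rw [hcomm, hv, map_smul]) with h | h
    · exact absurd h hc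
    · exact h
  have hv : v ∈ Module.End.eigenspace A c := by
    rw [htop]
    exact Submodule.mem_top
  rw [Module.End.mem_eigenspace_iff] at hv
  rw [← hA, hv, map_smul, LinearMap.smul_apply, smul_eq_mul]

/-- The sign as a one dimensional representation. -/
private noncomputable def sgn94 (m : ℕ) : Representation ℂ (Perm (Fin m)) ℂ where
  toFun g := ((Perm.sign g : ℤ) : ℂ) • LinearMap.id
  map_one' := by
    rw [map_one, Units.val_one, Int.cast_one, one_smul]
    rfl
  map_mul' g g' := by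
    refine LinearMap.ext fun z => ?_
    rw [map_mul, Units.val_mul, Int.cast_mul, Module.End.mul_apply, LinearMap.smul_apply, LinearMap.smul_apply,
      LinearMap.smul_apply, LinearMap.id_apply, LinearMap.id_apply, smul_smul]

private lemma sgn94_apply {m : ℕ} (g : Perm (Fin m)) (z : ℂ) :
    sgn94 m g z = ((Perm.sign g : ℤ) : ℂ) * z := rfl

private lemma sgn94_char {m : ℕ} (g : Perm (Fin m)) : (sgn94 m).character g = ((Perm.sign g : ℤ) : ℂ) := by
  unfold Representation.character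
  have h1 : (sgn94 m) g = ((Perm.sign g : ℤ) : ℂ) • (LinearMap.id : ℂ →ₗ[ℂ] ℂ) := rfl
  rw [h1, map_smul, LinearMap.trace_id, finrank_self, Nat.cast_one, smul_eq_mul, mul_one]

private lemma dim94 {m : ℕ} {V : Type*} [AddCommGroup V] [Module ℂ V] [FiniteDimensional ℂ V]
    (υ : Representation ℂ (Perm (Fin m)) V) [υ.IsIrreducible] (ε : ℂ) :
    finrank ℂ (HomP (sgn94 m) (bil υ) (pe ε)) ≤ 1 := by
  classical
  by_cases h0 : ∃ f ∈ HomP (sgn94 m) (bil υ) (pe ε), f ≠ 0
  · obtain ⟨f₀, hf₀, hne⟩ := h0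
    have hinv : ∀ f ∈ HomP (sgn94 m) (bil υ) (pe ε), ∀ (g : Perm (Fin m)) (v w : V),
        f 1 (υ g v) (υ g w) = ((Perm.sign g : ℤ) : ℂ) * f 1 v w := by
      intro f hf g v w
      have h1 := (mem_HomP.1 hf).1 g⁻¹ 1
      rw [sgn94_apply, ← smul_eq_mul, map_smul, Perm.sign_inv] at h1
      have h2 := congrArg (fun b : Bil V => b v w) h1
      simp only [bil_apply, inv_inv, LinearMap.smul_apply, smul_eq_mul] at h2
      exact h2.symm
    have hne1 : f₀ 1 ≠ 0 := by
      intro h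
      refine hne (LinearMap.ext fun z => ?_)
      have h1 : z = z • (1 : ℂ) := by rw [smul_eq_mul, mul_one]
      rw [h1, map_smul, h, smul_zero, LinearMap.zero_apply]
    refine finrank_le_one (⟨f₀, hf₀⟩ : HomP (sgn94 m) (bil υ) (pe ε)) fun f => ?_
    obtain ⟨c, hc⟩ := schur94 υ _ (f₀ 1) ((f : ℂ →ₗ[ℂ] Bil V) 1) (hinv f₀ hf₀) hne1 (hinv f f.2)
    refine ⟨c, Subtype.ext (LinearMap.ext fun z => LinearMap.ext₂ fun v w => ?_)⟩
    have h1 : z = z • (1 : ℂ) := by rw [smul_eq_mul, mul_one]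
    rw [h1, map_smul, map_smul, LinearMap.smul_apply, LinearMap.smul_apply, LinearMap.smul_apply,
      LinearMap.smul_apply, hc v w]
    rfl
  · have hbot : HomP (sgn94 m) (bil υ) (pe ε) = ⊥ := by
      rw [Submodule.eq_bot_iff]
      intro f hf
      by_contra h1
      exact h0 ⟨f, hf, h1⟩
    rw [hbot, finrank_bot]
    exact Nat.zero_le 1

theorem tw_fs {m : ℕ} {V : Type*} [AddCommGroup V] [Module ℂ V] [FiniteDimensional ℂ V]
    (υ : Representation ℂ (Perm (Fin m)) V) [υ.IsIrreducible] :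
    ‖∑ x : Perm (Fin m), ((Perm.sign x : ℤ) : ℂ) * υ.character (x ^ 2)‖ ≤ m.factorial := by
  classical
  have key : ∀ ε : ℂ, ε ^ 2 = 1 → (m.factorial : ℂ) * finrank ℂ (HomP (sgn94 m) (bil υ) (pe ε)) =
      ∑ g : Perm (Fin m), (υ.character g ^ 2 + ε * υ.character (g ^ 2)) / 2 * ((Perm.sign g : ℤ) : ℂ) := by
    intro ε hε
    have hdim := dim_hom (sgn94 m) (bil υ) (pe ε) (pe_idem ε hε) (fun h b => pe_pb ε (υ h⁻¹) b)
    rw [Fintype.card_perm, Fintype.card_fin] at hdim
    rw [hdim]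
    have h1 : ∀ h : Perm (Fin m), LinearMap.trace ℂ (Bil V) (bil υ h ∘ₗ pe ε) * (sgn94 m).character h⁻¹ =
        (υ.character h⁻¹ ^ 2 + ε * υ.character (h⁻¹ ^ 2)) / 2 * ((Perm.sign h⁻¹ : ℤ) : ℂ) := by
      intro h
      rw [trace_bil_pe, sgn94_char]
    rw [Finset.sum_congr rfl fun h _ => h1 h]
    exact Equiv.sum_comp (Equiv.inv (Perm (Fin m)))
      (fun h : Perm (Fin m) => (υ.character h ^ 2 + ε * υ.character (h ^ 2)) / 2 * ((Perm.sign h : ℤ) : ℂ))
  have h1 := key 1 (by norm_num)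
  have h2 := key (-1) (by norm_num)
  have hd1 := dim94 υ 1
  have hd2 := dim94 υ (-1)
  set a := finrank ℂ (HomP (sgn94 m) (bil υ) (pe 1)) with ha
  set b := finrank ℂ (HomP (sgn94 m) (bil υ) (pe (-1))) with hb
  have h3 : ∑ x : Perm (Fin m), ((Perm.sign x : ℤ) : ℂ) * υ.character (x ^ 2) =
      (m.factorial : ℂ) * ((a : ℂ) - (b : ℂ)) := by
    rw [mul_sub, h1, h2, ← Finset.sum_sub_distrib]
    refine Finset.sum_congr rfl fun g _ => ?_
    ring
  rw [h3, norm_mul, Complex.norm_natCast]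
  have h4 : ‖(a : ℂ) - (b : ℂ)‖ ≤ 1 := by
    interval_cases a <;> interval_cases b <;> simp
  have h5 : (0 : ℝ) ≤ (m.factorial : ℝ) := Nat.cast_nonneg _
  nlinarith [h4, h5]

end Pool.Agent.Helper51.TF
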