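import Pool.Agent.Helper51.TF.X3
import Pool.Agent.Helper51.TF.X5
import Pool.Agent.Helper51.TN.B5

/-!
BLOCK TF-X6 (about 250 lines). The dimension of the space of block diagonal equivariant maps for the twisted flip.

Proof in words (compare `finrank_block`, `b5_trace` in `TN/B5.lean`). `dim_hom` for `H = Perm (Fin (n-e)) × Perm (Fin e)`, `ρ_H = τ ∘ snd`, `σ_H = bil ρ ∘ jH h`, `P = PiE ρ h ∘ pt θ ε` (projection commuting with `σ_H`: `PiE_idem`, `PiE_pt`, `pt_idem`, `PiE_comm`, `pt_bil`).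
For `p = (x, y)`: `bil ρ (jH h p) ∘ PiE ∘ pt θ ε = (1/2) ∑_J (pb (A_J) + ε pb (A_J) ∘ tf θ)`, `A_J = ρ (jH h p⁻¹) ∘ pJ ρ h J`... `pb (A_J) (tf θ b) (v, w) = b (θ A_J w) (θ A_J v) = (pb (θ ∘ A_J) ∘ fl) b (v, w)` up to the order of the factors: trace `tr ((θ A_J)²)` (`trace_pb_fl`), and
`θ A_J θ A_J = θ ρ(u) pJ(J) θ ρ(u) pJ(J)`, `u = jH h p⁻¹`; `pJ` commutes with `ρ(u)` (`pJ_comm`), `pJ(J) θ = θ pJ(-J)` (`tw_pJ`), `θ ρ(u) = sgn(u) ρ(u) θ`: it is `sgn(u) ρ(u²) pJ(-J) pJ(J)`, which is `0` if `-J ≠ J` (`pJ_orth`) and `sgn(u) ρ(u²) pJ(J)` if `-J = J` (`pJ_idem`). With `trace_pJ_irr` (`K_J`, `υ_J`):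
the first part is that of `finrank_block`: it gives `binom(c, e) e! dim E`; the second part is `ε ∑_{J = -J} (1/((n-e)! e!)) ∑_{x, y} sgn(x) sgn(y) [y² = 1] e! χ_J(x⁻²) τ.character y⁻¹`, for each `J` of absolute value `≤ (1/(n-e)!) |∑_x sgn(x) χ_J(x⁻²)| ∑_{y² = 1} |τ.character y| ≤ inv(e) dim E` (`tw_fs`, `norm_char_le` in `TU`/`TS`: `‖τ.character y‖ ≤ finrank E`).
(`sign (jH h (x, y)) = sign x * sign y`.) `|2 dim HomE - binom(c,e) e! dim E| ≤ #{J : -J = J} inv(e) dim E`.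
-/

set_option autoImplicit false

open Module Equiv Pool.Agent.Helper1.TS Pool.Agent.Helper70.TU Pool.Agent.Helper51.TN

namespace Pool.Agent.Helper51.TF

private theorem op52 {n : ℕ} {V : Type} [AddCommGroup V] [Module ℂ V] [FiniteDimensional ℂ V]
    (ρ : Representation ℂ (Perm (Fin n)) V) (θ : V →ₗ[ℂ] V) {e : ℕ} (h : e ≤ n) (ε : ℂ)
    (p : Perm (Fin (n - e)) × Perm (Fin e)) :
    ((bil ρ).comp (jH h)) p ∘ₗ (PiE ρ h ∘ₗ pt θ ε) =
      ∑ J ∈ (CC ρ).powersetCard e, (1 / 2 : ℂ) • (pb (ρ (jH h p⁻¹) ∘ₗ pJ ρ h J) +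
        ε • (pb (θ ∘ₗ (ρ (jH h p⁻¹) ∘ₗ pJ ρ h J)) ∘ₗ fl)) := by
  refine LinearMap.ext fun b => LinearMap.ext₂ fun v w => ?_
  rw [LinearMap.sum_apply, LinearMap.sum_apply, LinearMap.sum_apply]
  have h1 : (((bil ρ).comp (jH h)) p ∘ₗ (PiE ρ h ∘ₗ pt θ ε)) b v w =
      PiE ρ h (pt θ ε b) (ρ (jH h p⁻¹) v) (ρ (jH h p⁻¹) w) := by
    rw [map_inv]
    rfl
  rw [h1, b5_PiE]
  refine Finset.sum_congr rfl fun J _ => ?_
  rw [pJ_comm, pJ_comm, pt_apply]
  change _ = (1 / 2 : ℂ) • (b (ρ (jH h p⁻¹) (pJ ρ h J v)) (ρ (jH h p⁻¹) (pJ ρ h J w)) +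
    ε • b (θ (ρ (jH h p⁻¹) (pJ ρ h J w))) (θ (ρ (jH h p⁻¹) (pJ ρ h J v))))
  rw [smul_eq_mul, smul_eq_mul]
  ring

private theorem sgn_sq52 {n : ℕ} (g : Perm (Fin n)) :
    ((Perm.sign g : ℤ) : ℂ) * ((Perm.sign g : ℤ) : ℂ) = 1 := by
  rcases Int.units_eq_one_or (Perm.sign g) with h | h <;> rw [h] <;> norm_num

open Classical in
private theorem comp52 {n : ℕ} {V : Type} [AddCommGroup V] [Module ℂ V] [FiniteDimensional ℂ V]
    {ρ : Representation ℂ (Perm (Fin n)) V} {θ : V →ₗ[ℂ] V} (hθ : IsTw ρ θ) {e : ℕ} (h : e ≤ n)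
    (q : Perm (Fin (n - e)) × Perm (Fin e)) (J : Finset ℝ) :
    (θ ∘ₗ (ρ (jH h q) ∘ₗ pJ ρ h J)) ∘ₗ (θ ∘ₗ (ρ (jH h q) ∘ₗ pJ ρ h J)) =
      if ngs J = J then ((Perm.sign (jH h q) : ℤ) : ℂ) • (ρ (jH h (q ^ 2)) ∘ₗ pJ ρ h J) else 0 := by
  refine LinearMap.ext fun v => ?_
  have h0 : ((θ ∘ₗ (ρ (jH h q) ∘ₗ pJ ρ h J)) ∘ₗ (θ ∘ₗ (ρ (jH h q) ∘ₗ pJ ρ h J))) v =
      θ (ρ (jH h q) (pJ ρ h J (θ (ρ (jH h q) (pJ ρ h J v))))) := rfl
  have h1 : θ (ρ (jH h q) (pJ ρ h J v)) =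
      ((Perm.sign (jH h q) : ℤ) : ℂ) • ρ (jH h q) (pJ ρ h (ngs J) (θ v)) := by
    rw [hθ.tw, tw_pJ hθ]
  rw [h0, h1, map_smul, pJ_comm]
  split_ifs with hJ
  · rw [hJ, pJ_idem, map_smul, map_smul, hθ.tw, hθ.tw, map_smul, tw_pJ hθ, hJ, hθ.sq,
      LinearMap.smul_apply, LinearMap.comp_apply, sq, map_mul, map_mul, Module.End.mul_apply,
      smul_smul, sgn_sq52, one_smul]
  · rw [pJ_orth ρ h J (ngs J) (fun h2 => hJ h2.symm), map_zero, smul_zero, map_zero, map_zero,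
      LinearMap.zero_apply]

open Classical in
private theorem trace52 {n : ℕ} {V : Type} [AddCommGroup V] [Module ℂ V] [FiniteDimensional ℂ V]
    {ρ : Representation ℂ (Perm (Fin n)) V} {θ : V →ₗ[ℂ] V} (hθ : IsTw ρ θ) {e : ℕ} (h : e ≤ n)
    (ε : ℂ) (p : Perm (Fin (n - e)) × Perm (Fin e)) :
    LinearMap.trace ℂ (Bil V) (((bil ρ).comp (jH h)) p ∘ₗ (PiE ρ h ∘ₗ pt θ ε)) =
      ∑ J ∈ (CC ρ).powersetCard e, ((LinearMap.trace ℂ V (ρ (jH h p⁻¹) ∘ₗ pJ ρ h J)) ^ 2 +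
        ε * (if ngs J = J then ((Perm.sign (jH h p⁻¹) : ℤ) : ℂ) *
          LinearMap.trace ℂ V (ρ (jH h (p⁻¹ ^ 2)) ∘ₗ pJ ρ h J) else 0)) / 2 := by
  rw [op52, map_sum]
  refine Finset.sum_congr rfl fun J _ => ?_
  rw [map_smul, map_add, map_smul, trace_pb, trace_pb_fl, comp52 hθ, smul_eq_mul, smul_eq_mul]
  split_ifs
  · rw [map_smul, smul_eq_mul]
    ring
  · rw [map_zero]
    ring

private theorem sign_jH52 {n e : ℕ} (h : e ≤ n) (q : Perm (Fin (n - e)) × Perm (Fin e)) :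
    ((Perm.sign (jH h q) : ℤ) : ℂ) = ((Perm.sign q.1 : ℤ) : ℂ) * ((Perm.sign q.2 : ℤ) : ℂ) := by
  have h1 : Perm.sign (jT h q.1) = Perm.sign q.1 := Perm.sign_extendDomain _ _
  have h2 : Perm.sign (jD h q.2) = Perm.sign q.2 := Perm.sign_extendDomain _ _
  rw [jH_apply, Perm.sign_mul, h1, h2, Units.val_mul, Int.cast_mul]

private theorem norm_sgn52 {n : ℕ} (g : Perm (Fin n)) : ‖((Perm.sign g : ℤ) : ℂ)‖ = 1 := by
  rcases Int.units_eq_one_or (Perm.sign g) with h | h <;> rw [h] <;> simp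

open Classical in
theorem finrank_block_tw {n : ℕ} {V : Type} [AddCommGroup V] [Module ℂ V] [FiniteDimensional ℂ V]
    (ρ : Representation ℂ (Perm (Fin n)) V) [ρ.IsIrreducible] {θ : V →ₗ[ℂ] V} (hθ : IsTw ρ θ) {e : ℕ} (h : e ≤ n)
    {E : Type*} [AddCommGroup E] [Module ℂ E] [FiniteDimensional ℂ E]
    (τ : Representation ℂ (Perm (Fin e)) E) (ε : ℝ) (hε : ε ^ 2 = 1) :
    |2 * (finrank ℂ (HomE h τ (bil ρ) (PiE ρ h ∘ₗ pt θ (ε : ℂ))) : ℝ) - ((CC ρ).card.choose e : ℝ) * (e.factorial * finrank ℂ E)| ≤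
      (((CC ρ).powersetCard e).filter (fun J => J.image (fun x => -x) = J)).card * (e.factorial * finrank ℂ E) := by
  have hεc : (ε : ℂ) ^ 2 = 1 := by exact_mod_cast hε
  have hmain := dim_hom (τ.comp (MonoidHom.snd (Perm (Fin (n - e))) (Perm (Fin e))))
    ((bil ρ).comp (jH h)) (PiE ρ h ∘ₗ pt θ (ε : ℂ))
    (fun b => by
      rw [LinearMap.comp_apply, LinearMap.comp_apply, ← PiE_pt hθ, pt_idem hθ (ε : ℂ) hεc, PiE_idem])
    (fun p b => by
      rw [LinearMap.comp_apply, LinearMap.comp_apply]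
      change PiE ρ h (pt θ (ε : ℂ) (bil ρ (jH h p) b)) = bil ρ (jH h p) (PiE ρ h (pt θ (ε : ℂ) b))
      rw [pt_bil hθ, PiE_comm])
  have hχ : ∀ J ∈ (CC ρ).powersetCard e, ∃ χ : Perm (Fin (n - e)) → ℂ,
      (∀ (x : Perm (Fin (n - e))) (y : Perm (Fin e)),
        LinearMap.trace ℂ V (ρ (jH h (x, y)) ∘ₗ pJ ρ h J) =
          if y = 1 then (e.factorial : ℂ) * χ x else 0) ∧
      ∑ x, χ x ^ 2 = ((n - e).factorial : ℂ) ∧
      ‖∑ x : Perm (Fin (n - e)), ((Perm.sign x : ℤ) : ℂ) * χ (x ^ 2)‖ ≤ (n - e).factorial := by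
    intro J hJ
    rw [Finset.mem_powersetCard] at hJ
    have hJc : ∀ a ∈ J, a ∈ corners ρ := fun a ha => (mem_CC ρ a).1 (hJ.1 ha)
    obtain ⟨χ, h1, h2, -⟩ := trace_pJ ρ h J hJc hJ.2
    obtain ⟨K, _, _, _, υ, hυ, h3⟩ := trace_pJ_irr ρ h J hJc hJ.2
    have he : (e.factorial : ℂ) ≠ 0 := Nat.cast_ne_zero.2 (Nat.factorial_ne_zero _)
    have h4 : ∀ x, χ x = υ.character x := by
      intro x
      have h5 := (h1 x 1).symm.trans (h3 x 1)
      rw [if_pos rfl, if_pos rfl] at h5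
      exact mul_left_cancel₀ he h5
    refine ⟨χ, h1, h2, ?_⟩
    simp only [h4]
    exact tw_fs υ
  choose! χ hχ1 hχ2 hχ3 using hχ
  set I : ℂ := ∑ y ∈ Finset.univ.filter (fun y : Perm (Fin e) => y ^ 2 = 1),
    ((Perm.sign y : ℤ) : ℂ) * τ.character y with hI
  set SJ : Finset ℝ → ℂ := fun J => ∑ x : Perm (Fin (n - e)), ((Perm.sign x : ℤ) : ℂ) * χ J (x ^ 2)
    with hSJ
  have hsum : ∑ p : Perm (Fin (n - e)) × Perm (Fin e),
      LinearMap.trace ℂ (Bil V) (((bil ρ).comp (jH h)) p ∘ₗ (PiE ρ h ∘ₗ pt θ (ε : ℂ))) *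
        τ.character p⁻¹.2 =
      ∑ J ∈ (CC ρ).powersetCard e,
        (((e.factorial : ℂ) ^ 2 * (n - e).factorial * finrank ℂ E +
          (ε : ℂ) * (if ngs J = J then (e.factorial * SJ J * I) else 0)) / 2) := by
    have h1 : ∀ p : Perm (Fin (n - e)) × Perm (Fin e),
        LinearMap.trace ℂ (Bil V) (((bil ρ).comp (jH h)) p ∘ₗ (PiE ρ h ∘ₗ pt θ (ε : ℂ))) *
          τ.character p⁻¹.2 =
        (fun q : Perm (Fin (n - e)) × Perm (Fin e) => ∑ J ∈ (CC ρ).powersetCard e,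
          (((if q.2 = 1 then (e.factorial : ℂ) * χ J q.1 else 0) ^ 2 +
            (ε : ℂ) * (if ngs J = J then ((Perm.sign q.1 : ℤ) : ℂ) * ((Perm.sign q.2 : ℤ) : ℂ) *
              (if q.2 ^ 2 = 1 then (e.factorial : ℂ) * χ J (q.1 ^ 2) else 0) else 0)) / 2 *
              τ.character q.2)) p⁻¹ := by
      intro p
      rw [trace52 hθ, Finset.sum_mul]
      refine Finset.sum_congr rfl fun J hJ => ?_
      have h2 := hχ1 J hJ p⁻¹.1 p⁻¹.2
      have h3 := hχ1 J hJ (p⁻¹ ^ 2).1 (p⁻¹ ^ 2).2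
      have h4 : (p⁻¹.1, p⁻¹.2) = p⁻¹ := rfl
      have h5 : ((p⁻¹ ^ 2).1, (p⁻¹ ^ 2).2) = p⁻¹ ^ 2 := rfl
      rw [h4] at h2
      rw [h5] at h3
      rw [h2, h3, sign_jH52]
      rfl
    rw [Finset.sum_congr rfl fun p _ => h1 p]
    refine (Equiv.sum_comp (Equiv.inv (Perm (Fin (n - e)) × Perm (Fin e)))
      (fun q : Perm (Fin (n - e)) × Perm (Fin e) => ∑ J ∈ (CC ρ).powersetCard e,
          (((if q.2 = 1 then (e.factorial : ℂ) * χ J q.1 else 0) ^ 2 +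
            (ε : ℂ) * (if ngs J = J then ((Perm.sign q.1 : ℤ) : ℂ) * ((Perm.sign q.2 : ℤ) : ℂ) *
              (if q.2 ^ 2 = 1 then (e.factorial : ℂ) * χ J (q.1 ^ 2) else 0) else 0)) / 2 *
              τ.character q.2))).trans ?_
    rw [Finset.sum_comm]
    refine Finset.sum_congr rfl fun J hJ => ?_
    rw [Fintype.sum_prod_type]
    have h6 : ∀ x : Perm (Fin (n - e)), ∑ y : Perm (Fin e),
        (((if y = 1 then (e.factorial : ℂ) * χ J x else 0) ^ 2 +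
            (ε : ℂ) * (if ngs J = J then ((Perm.sign x : ℤ) : ℂ) * ((Perm.sign y : ℤ) : ℂ) *
              (if y ^ 2 = 1 then (e.factorial : ℂ) * χ J (x ^ 2) else 0) else 0)) / 2 *
              τ.character y) =
        ((e.factorial : ℂ) ^ 2 * (χ J x ^ 2) * finrank ℂ E +
          (ε : ℂ) * (if ngs J = J then (e.factorial : ℂ) * (((Perm.sign x : ℤ) : ℂ) * χ J (x ^ 2)) * I
            else 0)) / 2 := by
      intro x
      have h7 : ∀ y : Perm (Fin e), (((if y = 1 then (e.factorial : ℂ) * χ J x else 0) ^ 2 +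
            (ε : ℂ) * (if ngs J = J then ((Perm.sign x : ℤ) : ℂ) * ((Perm.sign y : ℤ) : ℂ) *
              (if y ^ 2 = 1 then (e.factorial : ℂ) * χ J (x ^ 2) else 0) else 0)) / 2 *
              τ.character y) =
          (if y = 1 then ((e.factorial : ℂ) * χ J x) ^ 2 / 2 * τ.character 1 else 0) +
          (ε : ℂ) * (if ngs J = J then (e.factorial : ℂ) * (((Perm.sign x : ℤ) : ℂ) * χ J (x ^ 2))
            else 0) / 2 *
            (if y ^ 2 = 1 then ((Perm.sign y : ℤ) : ℂ) * τ.character y else 0) := by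
        intro y
        by_cases hy : y = 1
        · subst hy
          simp only [if_true, one_pow]
          split_ifs <;> ring
        · rw [if_neg hy, if_neg hy]
          split_ifs <;> ring
      rw [Finset.sum_congr rfl fun y _ => h7 y, Finset.sum_add_distrib, Finset.sum_ite_eq',
        if_pos (Finset.mem_univ _), ← Finset.mul_sum, ← Finset.sum_filter, ← hI,
        Representation.char_one]
      split_ifs <;> ring
    rw [Finset.sum_congr rfl fun x _ => h6 x, ← Finset.sum_div, Finset.sum_add_distrib,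
      ← Finset.sum_mul, ← Finset.mul_sum, hχ2 J hJ, ← Finset.mul_sum]
    split_ifs
    · rw [← Finset.sum_mul, ← Finset.mul_sum]
    · rw [Finset.sum_const_zero]
  have hmain' := hmain.trans hsum
  clear hmain
  rename' hmain' => hmain
  have hcard : (Fintype.card (Perm (Fin (n - e)) × Perm (Fin e)) : ℂ) =
      (n - e).factorial * e.factorial := by
    rw [Fintype.card_prod, Fintype.card_perm, Fintype.card_perm, Fintype.card_fin,
      Fintype.card_fin]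
    push_cast
    ring
  rw [hcard] at hmain
  have hn : ((n - e).factorial : ℂ) ≠ 0 := Nat.cast_ne_zero.2 (Nat.factorial_ne_zero _)
  have he : (e.factorial : ℂ) ≠ 0 := Nat.cast_ne_zero.2 (Nat.factorial_ne_zero _)
  -- the deviation
  have hdev : 2 * (finrank ℂ (HomE h τ (bil ρ) (PiE ρ h ∘ₗ pt θ (ε : ℂ))) : ℂ) -
      ((CC ρ).card.choose e : ℂ) * (e.factorial * finrank ℂ E) =
      (ε : ℂ) * ∑ J ∈ ((CC ρ).powersetCard e).filter (fun J => ngs J = J),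
        (SJ J / (n - e).factorial) * I := by
    have h1 : (((n - e).factorial : ℂ) * e.factorial) *
        (2 * (finrank ℂ (HomE h τ (bil ρ) (PiE ρ h ∘ₗ pt θ (ε : ℂ))) : ℂ)) =
        ∑ J ∈ (CC ρ).powersetCard e,
        ((e.factorial : ℂ) ^ 2 * (n - e).factorial * finrank ℂ E +
          (ε : ℂ) * (if ngs J = J then (e.factorial * SJ J * I) else 0)) := by
      have h2 := congrArg (fun z => 2 * z) hmain
      simp only [Finset.mul_sum] at h2
      refine Eq.trans ?_ (h2.trans (Finset.sum_congr rfl fun J _ => by ring))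
      change _ = 2 * ((((n - e).factorial : ℂ) * e.factorial) *
        (finrank ℂ (HomE h τ (bil ρ) (PiE ρ h ∘ₗ pt θ (ε : ℂ))) : ℂ))
      ring
    rw [Finset.sum_add_distrib, Finset.sum_const, Finset.card_powersetCard, nsmul_eq_mul,
      ← Finset.mul_sum, ← Finset.sum_filter] at h1
    apply mul_left_cancel₀ (mul_ne_zero hn he)
    rw [mul_sub, h1]
    have h3 : ∀ J, (e.factorial : ℂ) * SJ J * I = (((n - e).factorial : ℂ) * e.factorial) *
        ((SJ J / (n - e).factorial) * I) := by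
      intro J
      field_simp
    rw [Finset.sum_congr rfl fun J _ => h3 J, ← Finset.mul_sum]
    ring
  have hεn : ‖(ε : ℂ)‖ = 1 := by
    rw [Complex.norm_real, Real.norm_eq_abs]
    have h1 : |ε| ^ 2 = 1 := by rw [sq_abs]; exact hε
    nlinarith [abs_nonneg ε]
  have hIn : ‖I‖ ≤ e.factorial * finrank ℂ E := by
    rw [hI]
    refine (norm_sum_le _ _).trans ?_
    refine (Finset.sum_le_card_nsmul _ _ (finrank ℂ E : ℝ) fun y _ => ?_).trans ?_
    · rw [norm_mul, norm_sgn52, one_mul]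
      exact norm_char_le τ y
    · rw [nsmul_eq_mul]
      refine mul_le_mul_of_nonneg_right ?_ (Nat.cast_nonneg _)
      have h1 : (Finset.univ.filter (fun y : Perm (Fin e) => y ^ 2 = 1)).card ≤ e.factorial := by
        refine (Finset.card_filter_le _ _).trans ?_
        rw [Finset.card_univ, Fintype.card_perm, Fintype.card_fin]
      exact_mod_cast h1
  have hfin : ‖(2 * (finrank ℂ (HomE h τ (bil ρ) (PiE ρ h ∘ₗ pt θ (ε : ℂ))) : ℂ) -
      ((CC ρ).card.choose e : ℂ) * (e.factorial * finrank ℂ E))‖ ≤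
      (((CC ρ).powersetCard e).filter (fun J => ngs J = J)).card * (e.factorial * finrank ℂ E) := by
    rw [hdev, norm_mul, hεn, one_mul]
    refine (norm_sum_le _ _).trans ?_
    refine (Finset.sum_le_card_nsmul _ _ ((e.factorial : ℝ) * finrank ℂ E) fun J hJ => ?_).trans ?_
    · rw [Finset.mem_filter] at hJ
      rw [norm_mul, norm_div, Complex.norm_natCast]
      have h1 := hχ3 J hJ.1
      have h2 : (0 : ℝ) < (n - e).factorial := by exact_mod_cast Nat.factorial_pos _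
      have h3 : ‖SJ J‖ / (n - e).factorial ≤ 1 := by
        rw [div_le_one h2]
        exact h1
      calc ‖SJ J‖ / (n - e).factorial * ‖I‖ ≤ 1 * ‖I‖ :=
            mul_le_mul_of_nonneg_right h3 (norm_nonneg _)
        _ ≤ (e.factorial : ℝ) * finrank ℂ E := by rw [one_mul]; exact hIn
    · rw [nsmul_eq_mul]
  have hcast : (2 * (finrank ℂ (HomE h τ (bil ρ) (PiE ρ h ∘ₗ pt θ (ε : ℂ))) : ℂ) -
      ((CC ρ).card.choose e : ℂ) * (e.factorial * finrank ℂ E)) =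
      ((2 * (finrank ℂ (HomE h τ (bil ρ) (PiE ρ h ∘ₗ pt θ (ε : ℂ))) : ℝ) -
        ((CC ρ).card.choose e : ℝ) * (e.factorial * finrank ℂ E) : ℝ) : ℂ) := by
    push_cast
    ring
  rw [hcast, Complex.norm_real, Real.norm_eq_abs] at hfin
  exact hfin

end Pool.Agent.Helper51.TF
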